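import Mathlib

/-!
Discrete cubes in `ℤ^n`, option weights, protrusion patterns, clusters and the potentials used in
the container argument for the upper bound on `c(Q_n)`.
-/

namespace Pool.Agent.MP_9210c2_an.H87

open Finset
open scoped Classical

noncomputable section

/-- Lattice points. -/
abbrev Pt (n : ℕ) := Fin n → ℤ

/-- Protrusion patterns. -/
abbrev Pat (n : ℕ) := Fin n → ℕ

variable {n : ℕ}

/-- The discrete cube of side `m` with lower corner `c`. -/
def Q (m : ℕ) (c : Pt n) : Finset (Pt n) := Fintype.piFinset fun l => Ico (c l) (c l + m)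

lemma mem_Q {m : ℕ} {c y : Pt n} : y ∈ Q m c ↔ ∀ l, c l ≤ y l ∧ y l < c l + m := by
  simp [Q, Fintype.mem_piFinset]

lemma card_Q (m : ℕ) (c : Pt n) : #(Q m c) = m ^ n := by
  simp [Q, Fintype.card_piFinset]

/-- The options of `C` (side `m`) whose cube meets the cube of side `m'` with corner `K`. -/
def ov (m : ℕ) (C : Finset (Pt n)) (m' : ℕ) (K : Pt n) : Finset (Pt n) :=
  C.filter fun c => ¬ Disjoint (Q m c) (Q m' K)

lemma mem_ov {m m' : ℕ} {C : Finset (Pt n)} {K c : Pt n} :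
    c ∈ ov m C m' K ↔ c ∈ C ∧ ∃ y, y ∈ Q m c ∧ y ∈ Q m' K := by
  simp [ov, not_disjoint_iff]

/-- The options of `C` whose cube contains `y`. -/
def thr (m : ℕ) (C : Finset (Pt n)) (y : Pt n) : Finset (Pt n) := C.filter fun c => y ∈ Q m c

lemma mem_thr {m : ℕ} {C : Finset (Pt n)} {y c : Pt n} : c ∈ thr m C y ↔ c ∈ C ∧ y ∈ Q m c := by
  simp [thr]

/-- The union of the cubes of the options of `C`. -/
def U (m : ℕ) (C : Finset (Pt n)) : Finset (Pt n) := C.biUnion (Q m)

lemma mem_U {m : ℕ} {C : Finset (Pt n)} {y : Pt n} : y ∈ U m C ↔ ∃ c ∈ C, y ∈ Q m c := by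
  simp [U]

/-- Every point of `G` spreads the mass `m^{-n}` uniformly over the options through it. -/
def sigG (m : ℕ) (C G : Finset (Pt n)) (c : Pt n) : ℝ :=
  (∑ y ∈ G ∩ Q m c, 1 / (#(thr m C y) : ℝ)) / (m : ℝ) ^ n

/-- Every point spreads the mass `m^{-n}` uniformly over the options through it. -/
def sig (m : ℕ) (C : Finset (Pt n)) (c : Pt n) : ℝ :=
  (∑ y ∈ Q m c, 1 / (#(thr m C y) : ℝ)) / (m : ℝ) ^ n

/-- The total weight of the options through `y`. -/
def Vf (m : ℕ) (C : Finset (Pt n)) (y : Pt n) : ℝ := ∑ c ∈ thr m C y, sig m C c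

/-- The first potential. -/
def Psi1 (m : ℕ) (Ω C : Finset (Pt n)) : ℝ :=
  (∑ y ∈ Ω, Real.log (1 + (#(thr m C y) : ℝ))) / (m : ℝ) ^ n

/-- The options of `C` close to `k` (cubes of side `8 h`). -/
def Nb (h lam : ℕ) (C : Finset (Pt n)) (k : Pt n) : Finset (Pt n) :=
  C.filter fun c => (∀ l, |c l - k l| ≤ (h : ℤ)) ∧ ∑ l, |c l - k l| ≤ (lam : ℤ) * (8 * h)

lemma mem_Nb {h lam : ℕ} {C : Finset (Pt n)} {k c : Pt n} : c ∈ Nb h lam C k ↔
    c ∈ C ∧ (∀ l, |c l - k l| ≤ (h : ℤ)) ∧ ∑ l, |c l - k l| ≤ (lam : ℤ) * (8 * h) := by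
  simp [Nb]

/-- The size of the support of a pattern. -/
def sz (t : Pat n) : ℕ := #{l | t l ≠ 0}

/-- How far the option `c` sticks out of the cube at `k` in coordinate `l`, on the side `e`. -/
def prot (e : Bool) (k c : Pt n) (l : Fin n) : ℤ := if e then c l - k l else k l - c l

/-- The option `c` reaches the pattern `t`. -/
def Reach (e : Bool) (k : Pt n) (t : Pat n) (c : Pt n) : Prop :=
  ∀ l, t l ≠ 0 → (t l : ℤ) ≤ prot e k c l

/-- The options near `k` that reach the pattern `t`. -/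
def Wk (e : Bool) (h lam : ℕ) (C : Finset (Pt n)) (k : Pt n) (t : Pat n) : Finset (Pt n) :=
  (Nb h lam C k).filter (Reach e k t)

lemma mem_Wk {e : Bool} {h lam : ℕ} {C : Finset (Pt n)} {k c : Pt n} {t : Pat n} :
    c ∈ Wk e h lam C k t ↔ c ∈ Nb h lam C k ∧ Reach e k t c := by
  simp [Wk]

/-- All patterns with entries at most `h`. -/
def allPat (n h : ℕ) : Finset (Pat n) := Fintype.piFinset fun _ => range (h + 1)

lemma mem_allPat {h : ℕ} {t : Pat n} : t ∈ allPat n h ↔ ∀ l, t l ≤ h := by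
  simp [allPat, Fintype.mem_piFinset]

/-- The patterns reached by some option of `D`. -/
def reachPat (e : Bool) (h : ℕ) (k : Pt n) (D : Finset (Pt n)) : Finset (Pat n) :=
  (allPat n h).filter fun t => ∃ c ∈ D, Reach e k t c

lemma mem_reachPat {e : Bool} {h : ℕ} {k : Pt n} {D : Finset (Pt n)} {t : Pat n} :
    t ∈ reachPat e h k D ↔ (∀ l, t l ≤ h) ∧ ∃ c ∈ D, Reach e k t c := by
  simp [reachPat, mem_allPat]

/-- The looseness of the cluster at `k`. -/
def Zt (e : Bool) (h lam B : ℕ) (C : Finset (Pt n)) (k : Pt n) : ℝ :=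
  ∑ t ∈ (allPat n h).filter (fun t => sz t ≤ B),
    (1 / ((8 * h : ℕ) : ℝ)) ^ sz t * Real.log (1 + (#(Wk e h lam C k t) : ℝ))

/-- The excess looseness of the centres of `O` whose cube contains `y`. -/
def Yy (e : Bool) (h lam B : ℕ) (Z0 : ℝ) (O C : Finset (Pt n)) (y : Pt n) : ℝ :=
  ∑ k ∈ thr (8 * h) O y, max (Zt e h lam B C k - Z0) 0

/-- The second potential. -/
def Psi2 (e : Bool) (h lam B : ℕ) (Z0 : ℝ) (O Ω C : Finset (Pt n)) : ℝ :=
  (∑ y ∈ Ω, Real.log (1 + Yy e h lam B Z0 O C y)) / ((8 * h : ℕ) : ℝ) ^ n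

/-- The total potential. -/
def Psi (h lam B : ℕ) (Z0 : ℝ) (O Ω C : Finset (Pt n)) : ℝ :=
  Psi1 (8 * h) Ω C + Psi2 true h lam B Z0 O Ω C + Psi2 false h lam B Z0 O Ω C

/-- The weight of the centre `k` produced by the second potential. -/
def om (e : Bool) (h lam B : ℕ) (Z0 : ℝ) (O C : Finset (Pt n)) (k : Pt n) : ℝ :=
  max (Zt e h lam B C k - Z0) 0 *
    (∑ y ∈ Q (8 * h) k, 1 / (1 + Yy e h lam B Z0 O C y)) / ((8 * h : ℕ) : ℝ) ^ n

/-- A cluster: a centre, a family of patterns and for each pattern a set of options. -/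
structure Cl (n : ℕ) where
  /-- the centre -/
  k : Pt n
  /-- the patterns -/
  S : Finset (Pat n)
  /-- the options attached to a pattern -/
  W : Pat n → Finset (Pt n)

/-- The properties of clusters used in the proof. -/
structure Cl.Valid (cl : Cl n) (e : Bool) (h lam B : ℕ) : Prop where
  down : ∀ t ∈ cl.S, ∀ l, Function.update t l 0 ∈ cl.S
  le_h : ∀ t ∈ cl.S, ∀ l, t l ≤ h
  sz_le : ∀ t ∈ cl.S, sz t ≤ B
  ne : cl.S.Nonempty
  wne : ∀ t ∈ cl.S, (cl.W t).Nonempty
  near : ∀ t ∈ cl.S, ∀ c ∈ cl.W t, ∀ l, |c l - cl.k l| ≤ (h : ℤ)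
  l1 : ∀ t ∈ cl.S, ∀ c ∈ cl.W t, ∑ l, |c l - cl.k l| ≤ (lam : ℤ) * (8 * h)
  reach : ∀ t ∈ cl.S, ∀ c ∈ cl.W t, Reach e cl.k t c

/-- The normalising constant of the pattern measure. -/
def Cl.Z (cl : Cl n) (m : ℕ) : ℝ := ∑ t ∈ cl.S, (1 / (m : ℝ)) ^ sz t

/-- The pattern measure. -/
def Cl.mu (cl : Cl n) (m : ℕ) (t : Pat n) : ℝ := (1 / (m : ℝ)) ^ sz t / cl.Z m

/-- Expectation over a random pattern and a uniform option attached to it. -/
def Cl.E (cl : Cl n) (m : ℕ) (f : Pat n → Pt n → ℝ) : ℝ :=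
  ∑ t ∈ cl.S, cl.mu m t * ((∑ c ∈ cl.W t, f t c) / (#(cl.W t) : ℝ))

/-- The probability that the random option lies in `D`. -/
def Cl.nu (cl : Cl n) (m : ℕ) (D : Finset (Pt n)) : ℝ :=
  cl.E m fun _ c => if c ∈ D then 1 else 0

/-- The probability that the random options of two clusters overlap. -/
def Cl.Pov (cl cl' : Cl n) (m : ℕ) : ℝ :=
  cl.E m fun _ c => cl'.E m fun _ c' => if Disjoint (Q m c') (Q m c) then 0 else 1

/-- The cluster of `C` at `k`. -/
def clu (e : Bool) (h lam B : ℕ) (C : Finset (Pt n)) (k : Pt n) : Cl n where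
  k := k
  S := (reachPat e h k (Nb h lam C k)).filter fun t => sz t ≤ B
  W := Wk e h lam C k

/-- `v` lies in the interval of length `m` starting at `a`. -/
def inI (m : ℕ) (a v : ℤ) : Prop := a ≤ v ∧ v < a + m

/-- The point at distance `s` outside the interval starting at `a`, on the side `e`. -/
def tip (e : Bool) (m : ℕ) (a : ℤ) (s : ℕ) : ℤ := if e then a + m - 1 + s else a - s

/-- The one-dimensional kernel of the test function. -/
def gk (e : Bool) (m : ℕ) (x : ℝ) (a : ℤ) (s : ℕ) (v : ℤ) : ℝ :=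
  if inI m a v then (if s = 0 then 1 else 1 - x)
  else if s ≠ 0 ∧ v = tip e m a s then x * m else 0

/-- The majorant of the test function. -/
def Cl.Phi (cl : Cl n) (e : Bool) (m : ℕ) (x : ℝ) (b : ℕ) (u : Pt n) : ℝ :=
  ∑ t ∈ cl.S.filter (fun t => b ≤ sz t), cl.mu m t * ∏ l, gk e m x (cl.k l) (t l) (u l)

/-- On the coordinates of `Cr` where `u` is outside the cube at `k`, it is the tip of `t`. -/
def evB (e : Bool) (m : ℕ) (k : Pt n) (Cr : Finset (Fin n)) (u : Pt n) (t : Pat n) : Prop :=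
  ∀ l ∈ Cr, ¬ inI m (k l) (u l) → t l ≠ 0 ∧ u l = tip e m (k l) (t l)

/-- Moreover the option `c` contains `u` on the other coordinates of `Cr`. -/
def evA (e : Bool) (m : ℕ) (k : Pt n) (Cr : Finset (Fin n)) (u : Pt n) (t : Pat n) (c : Pt n) :
    Prop :=
  evB e m k Cr u t ∧ ∀ l ∈ Cr, inI m (k l) (u l) → inI m (c l) (u l)

/-- The number of coordinates of `Cr` where `u` is outside the cube at `k`. -/
def nout (m : ℕ) (k : Pt n) (Cr : Finset (Fin n)) (u : Pt n) : ℕ :=
  #(Cr.filter fun l => ¬ inI m (k l) (u l))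

/-- The probability of `evB`. -/
def Cl.muB (cl : Cl n) (e : Bool) (m : ℕ) (Cr : Finset (Fin n)) (u : Pt n) : ℝ :=
  ∑ t ∈ cl.S.filter (evB e m cl.k Cr u), cl.mu m t

/-- The probability of `evA`. -/
def Cl.piA (cl : Cl n) (e : Bool) (m : ℕ) (Cr : Finset (Fin n)) (u : Pt n) : ℝ :=
  cl.E m fun t c => if evA e m cl.k Cr u t c then 1 else 0

/-- The properties of a truncated test function. -/
structure Cl.Test (cl : Cl n) (e : Bool) (m : ℕ) (x : ℝ) (b : ℕ) (X0 : ℝ) (φ : Pt n → ℝ) :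
    Prop where
  nonneg : ∀ u, 0 ≤ φ u
  le_Phi : ∀ u, φ u ≤ cl.Phi e m x b u
  good : ∀ Cr u, φ u * ((8 * x) ^ nout m cl.k Cr u * cl.muB e m Cr u) ≤
    X0 * cl.piA e m Cr u * cl.Phi e m x b u

/-- Move the coordinates in `J` to the tips of `t`. -/
def mg (e : Bool) (m : ℕ) (k : Pt n) (J : Finset (Fin n)) (t : Pat n) (w : Pt n) : Pt n :=
  fun l => if l ∈ J then tip e m (k l) (t l) else w l

/-- Expectation over samples: a pattern of size at least `b`, an option, a point of the common part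
of the cubes (counting measure), and a random subset of the support moved to the tips. -/
def Cl.Smp (cl : Cl n) (e : Bool) (m : ℕ) (x : ℝ) (b : ℕ) (f : Pt n → ℝ) : ℝ :=
  cl.E m fun t c => if b ≤ sz t then
    ∑ J ∈ ({l | t l ≠ 0} : Finset (Fin n)).powerset, ∑ w ∈ Q m cl.k ∩ Q m c,
      x ^ #J * (1 - x) ^ (sz t - #J) * f (mg e m cl.k J t w) else 0

/-- The untruncated test function. -/
def Cl.phi0 (cl : Cl n) (e : Bool) (m : ℕ) (x : ℝ) (b : ℕ) (u : Pt n) : ℝ :=
  cl.Smp e m x b fun u' => if u' = u then 1 else 0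

/-- The points removed by the truncation. -/
def Cl.bad (cl : Cl n) (e : Bool) (m : ℕ) (x X0 : ℝ) (u : Pt n) : Prop :=
  ∃ Cr, X0 * cl.piA e m Cr u < (8 * x) ^ nout m cl.k Cr u * cl.muB e m Cr u

lemma sig_nonneg (m : ℕ) (C : Finset (Pt n)) (c : Pt n) : 0 ≤ sig m C c := by
  unfold sig; positivity

lemma sigG_nonneg (m : ℕ) (C G : Finset (Pt n)) (c : Pt n) : 0 ≤ sigG m C G c := by
  unfold sigG; positivity

lemma Cl.Z_nonneg (cl : Cl n) (m : ℕ) : 0 ≤ cl.Z m := by
  unfold Cl.Z; positivity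

lemma Cl.Z_pos (cl : Cl n) {m : ℕ} (hm : 0 < m) (hS : cl.S.Nonempty) : 0 < cl.Z m := by
  have : (0 : ℝ) < m := by exact_mod_cast hm
  exact sum_pos (fun t _ => by positivity) hS

lemma Cl.mu_nonneg (cl : Cl n) (m : ℕ) (t : Pat n) : 0 ≤ cl.mu m t :=
  div_nonneg (by positivity) (cl.Z_nonneg m)

lemma Cl.sum_mu (cl : Cl n) {m : ℕ} (hm : 0 < m) (hS : cl.S.Nonempty) :
    ∑ t ∈ cl.S, cl.mu m t = 1 := by
  unfold Cl.mu
  rw [← sum_div]
  exact div_self (cl.Z_pos hm hS).ne'

lemma Cl.E_mono (cl : Cl n) (m : ℕ) {f g : Pat n → Pt n → ℝ}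
    (h : ∀ t ∈ cl.S, ∀ c ∈ cl.W t, f t c ≤ g t c) : cl.E m f ≤ cl.E m g :=
  sum_le_sum fun t ht => mul_le_mul_of_nonneg_left
    (div_le_div_of_nonneg_right (sum_le_sum (h t ht)) (Nat.cast_nonneg _)) (cl.mu_nonneg m t)

lemma Cl.E_nonneg (cl : Cl n) (m : ℕ) {f : Pat n → Pt n → ℝ}
    (h : ∀ t ∈ cl.S, ∀ c ∈ cl.W t, 0 ≤ f t c) : 0 ≤ cl.E m f :=
  sum_nonneg fun t ht => mul_nonneg (cl.mu_nonneg m t)
    (div_nonneg (sum_nonneg (h t ht)) (Nat.cast_nonneg _))

lemma Cl.E_congr (cl : Cl n) (m : ℕ) {f g : Pat n → Pt n → ℝ}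
    (h : ∀ t ∈ cl.S, ∀ c ∈ cl.W t, f t c = g t c) : cl.E m f = cl.E m g :=
  le_antisymm (cl.E_mono m fun t ht c hc => (h t ht c hc).le)
    (cl.E_mono m fun t ht c hc => (h t ht c hc).ge)

lemma Cl.E_mul (cl : Cl n) (m : ℕ) (a : ℝ) (f : Pat n → Pt n → ℝ) :
    cl.E m (fun t c => a * f t c) = a * cl.E m f := by
  unfold Cl.E
  rw [mul_sum]
  refine sum_congr rfl fun t _ => ?_
  rw [← mul_sum]; ring

lemma Cl.E_sum (cl : Cl n) (m : ℕ) {ι : Type*} (s : Finset ι) (f : ι → Pat n → Pt n → ℝ) :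
    cl.E m (fun t c => ∑ i ∈ s, f i t c) = ∑ i ∈ s, cl.E m (f i) := by
  unfold Cl.E
  rw [sum_comm]
  refine sum_congr rfl fun t _ => ?_
  rw [sum_comm, sum_div, mul_sum]

lemma Cl.E_pat (cl : Cl n) (m : ℕ) (hW : ∀ t ∈ cl.S, (cl.W t).Nonempty) (f : Pat n → ℝ) :
    cl.E m (fun t _ => f t) = ∑ t ∈ cl.S, cl.mu m t * f t := by
  refine sum_congr rfl fun t ht => ?_
  have : (0 : ℝ) < #(cl.W t) := by exact_mod_cast (hW t ht).card_pos
  rw [sum_const, nsmul_eq_mul]
  field_simp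

lemma gk_nonneg (e : Bool) (m : ℕ) {x : ℝ} (h0 : 0 ≤ x) (h1 : x ≤ 1) (a : ℤ) (s : ℕ) (v : ℤ) :
    0 ≤ gk e m x a s v := by
  unfold gk
  split_ifs
  · norm_num
  · linarith
  · positivity
  · exact le_rfl

lemma Cl.Phi_nonneg (cl : Cl n) (e : Bool) (m : ℕ) {x : ℝ} (h0 : 0 ≤ x) (h1 : x ≤ 1) (b : ℕ)
    (u : Pt n) : 0 ≤ cl.Phi e m x b u :=
  sum_nonneg fun t _ => mul_nonneg (cl.mu_nonneg m t)
    (prod_nonneg fun _ _ => gk_nonneg e m h0 h1 _ _ _)

lemma Cl.muB_nonneg (cl : Cl n) (e : Bool) (m : ℕ) (Cr : Finset (Fin n)) (u : Pt n) :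
    0 ≤ cl.muB e m Cr u := sum_nonneg fun t _ => cl.mu_nonneg m t

lemma Cl.piA_nonneg (cl : Cl n) (e : Bool) (m : ℕ) (Cr : Finset (Fin n)) (u : Pt n) :
    0 ≤ cl.piA e m Cr u := cl.E_nonneg m fun _ _ _ _ => by split_ifs <;> norm_num

lemma tip_not_inI (e : Bool) (m : ℕ) (a : ℤ) {s : ℕ} (hs : s ≠ 0) : ¬ inI m a (tip e m a s) := by
  unfold inI tip
  cases e <;> simp <;> omega

lemma tip_inj {e : Bool} {m : ℕ} {a : ℤ} {s s' : ℕ} (h : tip e m a s = tip e m a s') : s = s' := by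
  unfold tip at h
  cases e <;> simp at h <;> omega

lemma tip_inI {e : Bool} {h : ℕ} {k c : Pt n} {l : Fin n} {s : ℕ} (hs : s ≠ 0)
    (h1 : |c l - k l| ≤ (h : ℤ)) (h2 : (s : ℤ) ≤ prot e k c l) :
    inI (8 * h) (c l) (tip e (8 * h) (k l) s) := by
  unfold inI tip
  unfold prot at h2
  rw [abs_le] at h1
  cases e <;> simp at h2 ⊢ <;> omega

lemma mem_Q_iff_inI {m : ℕ} {c y : Pt n} : y ∈ Q m c ↔ ∀ l, inI m (c l) (y l) := mem_Q

end

end Pool.Agent.MP_9210c2_an.H87

/-!
Counting lemmas.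
-/

namespace Pool.Agent.MP_9210c2_an.H87

open Finset
open scoped Classical

variable {n : ℕ}

/-- An `N`-element set has at most `(N+1)^s` subsets with at most `s` elements.
(Induction on `s`, or on `E`; or `∑_{j ≤ s} choose N j ≤ (N+1)^s`.) -/
theorem cnt_subsets {α : Type*} (E : Finset α) (s : ℕ) :
    #(E.powerset.filter fun D => #D ≤ s) ≤ (#E + 1) ^ s := by
  induction s with
  | zero =>
    rw [pow_zero, card_le_one]
    intro a ha b hb
    rw [mem_filter, Nat.le_zero, card_eq_zero] at ha hb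
    rw [ha.2, hb.2]
  | succ s ih =>
    have h : (E.powerset.filter fun D => #D ≤ s + 1) ⊆ (E.powerset.filter fun D => #D ≤ s) ∪
        (E ×ˢ (E.powerset.filter fun D => #D ≤ s)).image fun p => insert p.1 p.2 := by
      intro D hD
      rw [mem_filter, mem_powerset] at hD
      rcases D.eq_empty_or_nonempty with rfl | ⟨a, ha⟩
      · simp
      · refine mem_union_right _ (mem_image.2 ⟨(a, D.erase a), ?_, insert_erase ha⟩)
        rw [mem_product, mem_filter, mem_powerset, card_erase_of_mem ha]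
        exact ⟨hD.1 ha, (erase_subset _ _).trans hD.1, by omega⟩
    refine (card_le_card h).trans ((card_union_le _ _).trans ?_)
    refine (Nat.add_le_add_left card_image_le _).trans ?_
    rw [card_product, pow_succ]
    nlinarith [Nat.mul_le_mul_left #E ih]

/-- Functions which differ from the default `d` in at most `s` coordinates, with at most `q`
non-default values per coordinate.  Map `f` to the set of pairs `(l, f l)` with `f l ≠ d l`, a
subset with at most `s` elements of `univ.sigma T` (or a `biUnion` in `ι × α`); use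
`cnt_subsets`. -/
theorem cnt_sparse {ι α : Type*} [Fintype ι] [DecidableEq α] (T : ι → Finset α) (d : ι → α)
    (q s : ℕ) (hq : ∀ l, #(T l) ≤ q) (S : Finset (ι → α))
    (h1 : ∀ f ∈ S, ∀ l, f l = d l ∨ f l ∈ T l)
    (h2 : ∀ f ∈ S, #{l | f l ≠ d l} ≤ s) : #S ≤ (1 + Fintype.card ι * q) ^ s := by
  let E : Finset (ι × α) := univ.biUnion fun l => (T l).image (Prod.mk l)
  have hE : #E ≤ Fintype.card ι * q := by
    refine card_biUnion_le.trans ((sum_le_sum fun l _ => card_image_le.trans (hq l)).trans ?_)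
    simp
  let φ : (ι → α) → Finset (ι × α) := fun f =>
    ({l | f l ≠ d l} : Finset ι).image fun l => (l, f l)
  have key : ∀ f g, φ f = φ g → ∀ l, f l ≠ d l → g l = f l := by
    intro f g h l hl
    have : (l, f l) ∈ φ g := h ▸ mem_image.2 ⟨l, by simpa using hl, rfl⟩
    obtain ⟨l', -, e⟩ := mem_image.1 this
    obtain ⟨rfl, e⟩ := Prod.mk.inj e
    exact e
  refine (card_le_card_of_injOn (t := E.powerset.filter fun D => #D ≤ s) φ ?_ ?_).trans
    ((cnt_subsets E s).trans (Nat.pow_le_pow_left (by omega) _))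
  · intro f hf
    rw [mem_coe, mem_filter, mem_powerset]
    refine ⟨fun p hp => ?_, card_image_le.trans (h2 f hf)⟩
    obtain ⟨l, hl, rfl⟩ := mem_image.1 hp
    exact mem_biUnion.2 ⟨l, mem_univ _,
      mem_image_of_mem _ ((h1 f hf l).resolve_left (mem_filter.1 hl).2)⟩
  · intro f _ g _ h
    funext l
    by_cases h3 : f l = d l
    · by_contra h4
      exact h4 (key g f h.symm l fun h5 => h4 (h3.trans h5.symm))
    · exact (key f g h l h3).symm

/-- Monotone functions `Fin n → {0,…,r-1}`: `f` is determined by the `r` numbers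
`#{l | f l ≤ a} ∈ {0,…,n}`, `a < r` (for monotone `f`: `f l ≤ a ↔ l < #{l' | f l' ≤ a}`, see
`Fin.lt_card_filter_univ_iff_apply_of_imp`). -/
theorem cnt_mono (r : ℕ) (S : Finset (Fin n → ℕ)) (h1 : ∀ f ∈ S, Monotone f)
    (h2 : ∀ f ∈ S, ∀ l, f l < r) : #S ≤ (n + 1) ^ r := by
  have key : ∀ f ∈ S, ∀ (a : ℕ) (l : Fin n), (l : ℕ) < #{i | f i ≤ a} ↔ f l ≤ a := fun f hf a l =>
    Fin.lt_card_filter_univ_iff_apply_of_imp (fun i => f i ≤ a) fun _ _ h h' => (h1 f hf h).trans h'
  refine (card_le_card_of_injOn (t := Fintype.piFinset fun _ : Fin r => range (n + 1))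
    (fun f a => #{i | f i ≤ (a : ℕ)}) ?_ ?_).trans (by simp)
  · intro f _
    rw [mem_coe, Fintype.mem_piFinset]
    intro a
    exact mem_range.2 (Nat.lt_succ_of_le ((card_le_univ _).trans (by simp)))
  · intro f hf g hg h
    funext l
    have e : ∀ a < r, f l ≤ a ↔ g l ≤ a := fun a ha => by
      rw [← key f hf, ← key g hg, show #{i | f i ≤ a} = #{i | g i ≤ a} from congrFun h ⟨a, ha⟩]
    exact le_antisymm ((e _ (h2 g hg l)).2 le_rfl) ((e _ (h2 f hf l)).1 le_rfl)

/-- `z ^ sz t` is the product over `l` of `if t l = 0 then 1 else z`; `Finset.prod_univ_sum`. -/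
theorem all_level (h : ℕ) (z : ℝ) : ∑ t ∈ allPat n h, z ^ sz t = (1 + h * z) ^ n := by
  have e : ∀ t : Pat n, z ^ sz t = ∏ l, if t l = 0 then 1 else z := fun t => by
    rw [prod_ite, prod_const_one, one_mul, prod_const, sz]
  simp only [e]
  rw [allPat, ← prod_univ_sum (fun _ : Fin n => range (h + 1)) fun _ j => if j = 0 then 1 else z]
  simp [sum_range_succ', add_comm]

/-- Patterns of size at most `b`.  Group by the support `D` (at most `h ^ #D` patterns have support
`D`, each of weight `z ^ #D`), then `cnt_subsets`. -/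
theorem low_level (h b : ℕ) (z : ℝ) (hz : 0 ≤ z) (hz1 : h * z ≤ 1) (S : Finset (Pat n))
    (hS : S ⊆ allPat n h) : ∑ t ∈ S.filter (fun t => sz t ≤ b), z ^ sz t ≤ ((n : ℝ) + 1) ^ b := by
  have hc := cnt_subsets (univ : Finset (Fin n)) b
  rw [← sum_fiberwise_of_maps_to (s := S.filter fun t => sz t ≤ b)
    (t := (univ : Finset (Fin n)).powerset.filter fun D => #D ≤ b)
    (g := fun t : Pat n => ({l | t l ≠ 0} : Finset (Fin n)))
    fun t ht => mem_filter.2 ⟨mem_powerset.2 (subset_univ _), (mem_filter.1 ht).2⟩]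
  refine (sum_le_card_nsmul _ _ 1 fun D _ => ?_).trans ?_
  · have h1 : #((S.filter fun t => sz t ≤ b).filter
        fun t : Pat n => ({l | t l ≠ 0} : Finset (Fin n)) = D) ≤ h ^ #D := by
      refine (card_le_card (t := Fintype.piFinset fun l => if l ∈ D then Icc 1 h else {0})
        fun t ht => ?_).trans ?_
      · obtain ⟨ht', rfl⟩ := mem_filter.1 ht
        have := mem_allPat.1 (hS (mem_filter.1 ht').1)
        refine Fintype.mem_piFinset.2 fun l => ?_
        by_cases h0 : t l = 0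
        · simp [h0]
        · simp [h0, this l, Nat.one_le_iff_ne_zero]
      · simp [Fintype.card_piFinset, apply_ite card]
    rw [sum_congr rfl (g := fun _ => z ^ #D) fun t ht => by rw [← (mem_filter.1 ht).2, sz],
      sum_const, nsmul_eq_mul]
    calc _ ≤ (h : ℝ) ^ #D * z ^ #D := by gcongr; exact_mod_cast h1
      _ ≤ 1 := by rw [← mul_pow]; exact pow_le_one₀ (by positivity) hz1
  · rw [nsmul_eq_mul, mul_one]
    rw [card_univ, Fintype.card_fin] at hc
    exact_mod_cast hc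

/-- The weight of the subsets `J` of `T` containing `D` (binomial theorem on `T \ D`,
`Finset.sum_pow_mul_eq_add_pow`). -/
theorem sum_superset {α : Type*} [DecidableEq α] (T D : Finset α) (hD : D ⊆ T) (x : ℝ) :
    ∑ J ∈ T.powerset.filter (fun J => D ⊆ J), x ^ #J * (1 - x) ^ (#T - #J) = x ^ #D := by
  have h := sum_pow_mul_eq_add_pow x (1 - x) (T \ D)
  rw [add_sub_cancel, one_pow] at h
  refine Eq.trans ?_ ((congrArg (x ^ #D * ·) h).trans (mul_one _))
  rw [mul_sum]
  refine sum_nbij' (fun J => J \ D) (fun K => D ∪ K) ?_ ?_ ?_ ?_ ?_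
  · intro J hJ
    exact mem_powerset.2 (sdiff_subset_sdiff (mem_powerset.1 (mem_filter.1 hJ).1) Subset.rfl)
  · intro K hK
    exact mem_filter.2 ⟨mem_powerset.2 (union_subset hD ((mem_powerset.1 hK).trans sdiff_subset)),
      subset_union_left⟩
  · intro J hJ
    exact union_sdiff_of_subset (mem_filter.1 hJ).2
  · intro K hK
    exact union_sdiff_cancel_left
      (disjoint_of_subset_right (mem_powerset.1 hK) disjoint_sdiff)
  · intro J hJ
    have h1 := card_le_card (mem_filter.1 hJ).2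
    have h2 := card_le_card hD
    rw [card_sdiff_of_subset hD, card_sdiff_of_subset (mem_filter.1 hJ).2, ← mul_assoc, ← pow_add]
    rw [show #D + (#J - #D) = #J by omega, show #T - #D - (#J - #D) = #T - #J by omega]

/-- Inclusion-exclusion, first step. -/
theorem union_le {α : Type*} [DecidableEq α] (Ω : Finset α) (A : ℕ → Finset α) (N : ℕ)
    (hA : ∀ j < N, A j ⊆ Ω) :
    ∑ j ∈ range N, #(A j) ≤ #Ω + ∑ j ∈ range N, ∑ i ∈ range j, #(A i ∩ A j) := by
  have key : ∀ N, ∑ j ∈ range N, #(A j) ≤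
      #((range N).biUnion A) + ∑ j ∈ range N, ∑ i ∈ range j, #(A i ∩ A j) := by
    intro N
    induction N with
    | zero => simp
    | succ N ih =>
      have h1 := card_union_add_card_inter (A N) ((range N).biUnion A)
      have h2 : #(A N ∩ (range N).biUnion A) ≤ ∑ i ∈ range N, #(A i ∩ A N) := by
        rw [inter_comm, biUnion_inter]
        exact card_biUnion_le
      rw [sum_range_succ, sum_range_succ, range_add_one, biUnion_insert]
      omega
  exact (key N).trans (Nat.add_le_add_right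
    (card_le_card (biUnion_subset.2 fun j hj => hA j (mem_range.1 hj))) _)

end Pool.Agent.MP_9210c2_an.H87

/-!
Intersections of discrete cubes and double counting.
-/

namespace Pool.Agent.MP_9210c2_an.H87

open Finset
open scoped Classical

variable {n : ℕ}

/-- The intersection of two discrete cubes is a box. -/
theorem inter_Q (m m' : ℕ) (c c' : Pt n) :
    Q m c ∩ Q m' c' = Fintype.piFinset fun l => Ico (c l) (c l + m) ∩ Ico (c' l) (c' l + m') := by
  ext y
  simp only [mem_inter, mem_Q, Fintype.mem_piFinset, mem_Ico]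
  exact ⟨fun h l => ⟨h.1 l, h.2 l⟩, fun h => ⟨fun l => (h l).1, fun l => (h l).2⟩⟩

theorem card_inter_Q (m m' : ℕ) (c c' : Pt n) :
    #(Q m c ∩ Q m' c') = ∏ l, #(Ico (c l) (c l + m) ∩ Ico (c' l) (c' l + m')) := by
  rw [inter_Q, Fintype.card_piFinset]

/-- Two intervals of the same length. -/
theorem card_Ico_inter (m : ℕ) (a a' : ℤ) (h : |a - a'| ≤ m) :
    (#(Ico a (a + m) ∩ Ico a' (a' + m)) : ℤ) = m - |a - a'| := by
  rw [Ico_inter_Ico, Int.card_Ico]
  rcases abs_cases (a - a') with ⟨e, _⟩ | ⟨e, _⟩ <;> rw [e] at h ⊢ <;> omega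

theorem card_Ico_sdiff (m : ℕ) (a a' : ℤ) (h : |a - a'| ≤ m) :
    (#(Ico a (a + m) \ Ico a' (a' + m)) : ℤ) = |a - a'| := by
  have h1 := card_Ico_inter m a a' h
  have h2 := card_sdiff_add_card_inter (Ico a (a + m)) (Ico a' (a' + m))
  have h3 : #(Ico a (a + m)) = m := by simp
  omega

/-- Two cubes overlap as soon as they overlap in every coordinate. -/
theorem not_disjoint_Q {m m' : ℕ} {c c' : Pt n} :
    ¬ Disjoint (Q m c) (Q m' c') ↔ ∀ l, ∃ w, inI m (c l) w ∧ inI m' (c' l) w := by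
  rw [not_disjoint_iff]
  constructor
  · rintro ⟨y, h1, h2⟩ l
    exact ⟨y l, mem_Q_iff_inI.1 h1 l, mem_Q_iff_inI.1 h2 l⟩
  · intro h
    choose y hy using h
    exact ⟨y, mem_Q_iff_inI.2 fun l => (hy l).1, mem_Q_iff_inI.2 fun l => (hy l).2⟩

theorem Geo_card {m : ℕ} (hm : 0 < m) (k c : Pt n) (h : ∀ l, |c l - k l| ≤ (m : ℤ)) :
    (#(Q m k ∩ Q m c) : ℝ) = (m : ℝ) ^ n * ∏ l, (1 - ((|c l - k l| : ℤ) : ℝ) / m) := by
  have hm' : (0 : ℝ) < m := by exact_mod_cast hm
  have e : (m : ℝ) ^ n = ∏ _l : Fin n, (m : ℝ) := by simp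
  rw [card_inter_Q, e, ← prod_mul_distrib, Nat.cast_prod]
  refine prod_congr rfl fun l _ => ?_
  have h1 := card_Ico_inter m (k l) (c l) (by rw [abs_sub_comm]; exact h l)
  rw [abs_sub_comm] at h1
  have h2 : (#(Ico (k l) (k l + m) ∩ Ico (c l) (c l + m)) : ℝ) = m - ((|c l - k l| : ℤ) : ℝ) := by
    exact_mod_cast h1
  rw [h2]
  field_simp

theorem Geo_exp {a : ℝ} (h0 : 0 ≤ a) (h1 : a ≤ 1 / 2) : Real.exp (-(2 * a)) ≤ 1 - a := by
  have h2 := Real.add_one_le_exp (2 * a)
  rw [Real.exp_neg, inv_le_iff_one_le_mul₀ (Real.exp_pos _)]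
  nlinarith

/-- `1 - a ≥ exp (-2a)` for `0 ≤ a ≤ 1/2`, with `a = |c l - k l| / m`. -/
theorem inter_lower {m lam : ℕ} (hm : 0 < m) (k c : Pt n) (h1 : ∀ l, 2 * |c l - k l| ≤ (m : ℤ))
    (h2 : ∑ l, |c l - k l| ≤ (lam : ℤ) * m) :
    Real.exp (-(2 * lam)) * (m : ℝ) ^ n ≤ #(Q m k ∩ Q m c) := by
  have hm' : (0 : ℝ) < m := by exact_mod_cast hm
  have hle : ∀ l, |c l - k l| ≤ (m : ℤ) := fun l => by
    have := h1 l
    have := abs_nonneg (c l - k l)
    omega
  rw [Geo_card hm k c hle, mul_comm]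
  refine mul_le_mul_of_nonneg_left ?_ (by positivity)
  have h3 : (∑ l, ((|c l - k l| : ℤ) : ℝ)) ≤ (lam : ℝ) * m := by exact_mod_cast h2
  calc Real.exp (-(2 * lam)) ≤ Real.exp (∑ l, -(2 * (((|c l - k l| : ℤ) : ℝ) / m))) := by
        rw [Real.exp_le_exp, sum_neg_distrib, ← mul_sum, ← sum_div]
        have : (∑ l, ((|c l - k l| : ℤ) : ℝ)) / m ≤ lam := by rwa [div_le_iff₀ hm']
        linarith
    _ = ∏ l, Real.exp (-(2 * (((|c l - k l| : ℤ) : ℝ) / m))) := Real.exp_sum _ _
    _ ≤ _ := by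
        refine prod_le_prod (fun l _ => (Real.exp_pos _).le) fun l _ => Geo_exp ?_ ?_
        · have : (0 : ℝ) ≤ ((|c l - k l| : ℤ) : ℝ) := by exact_mod_cast abs_nonneg _
          positivity
        · have : (2 : ℝ) * ((|c l - k l| : ℤ) : ℝ) ≤ m := by exact_mod_cast h1 l
          rw [div_le_iff₀ hm']
          linarith

/-- `1 - a ≤ exp (-a)`: a large intersection forces a small `ℓ¹` distance. -/
theorem inter_upper {m lam : ℕ} (hm : 0 < m) (k c : Pt n)
    (h : Real.exp (-lam) * (m : ℝ) ^ n < #(Q m k ∩ Q m c)) :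
    (∀ l, |c l - k l| < (m : ℤ)) ∧ ∑ l, |c l - k l| < (lam : ℤ) * m := by
  have hm' : (0 : ℝ) < m := by exact_mod_cast hm
  have hpos : 0 < #(Q m k ∩ Q m c) := by
    have : (0 : ℝ) < #(Q m k ∩ Q m c) := lt_trans (by positivity) h
    exact_mod_cast this
  obtain ⟨y, hy⟩ := card_pos.1 hpos
  rw [mem_inter, mem_Q, mem_Q] at hy
  have hlt : ∀ l, |c l - k l| < (m : ℤ) := fun l => by
    have a := hy.1 l
    have b := hy.2 l
    rw [abs_lt]
    omega
  refine ⟨hlt, ?_⟩
  rw [Geo_card hm k c fun l => (hlt l).le, mul_comm] at h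
  have h2 := lt_of_mul_lt_mul_left h (by positivity)
  have h3 : ∏ l, (1 - ((|c l - k l| : ℤ) : ℝ) / m) ≤
      Real.exp (∑ l, -(((|c l - k l| : ℤ) : ℝ) / m)) := by
    rw [Real.exp_sum]
    refine prod_le_prod (fun l _ => ?_) fun l _ => Real.one_sub_le_exp_neg _
    have : ((|c l - k l| : ℤ) : ℝ) ≤ m := by exact_mod_cast (hlt l).le
    rw [sub_nonneg, div_le_one hm']
    exact this
  have h4 := Real.exp_lt_exp.1 (h2.trans_le h3)
  rw [sum_neg_distrib, ← sum_div, neg_lt_neg_iff, div_lt_iff₀ hm'] at h4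
  exact_mod_cast h4

/-- At most `m ^ n` cubes of side `m` contain a given point. -/
theorem card_thr_le (m : ℕ) (C : Finset (Pt n)) (y : Pt n) : #(thr m C y) ≤ m ^ n := by
  rw [← card_Q m fun l => y l - m + 1]
  refine card_le_card fun c hc => ?_
  rw [mem_thr, mem_Q] at hc
  rw [mem_Q]
  intro l
  have := hc.2 l
  omega

/-- Double counting of pairs (option, point). -/
theorem sum_sum_Q (m : ℕ) (C Ω : Finset (Pt n)) (hΩ : ∀ c ∈ C, Q m c ⊆ Ω) (f : Pt n → Pt n → ℝ) :
    ∑ c ∈ C, ∑ y ∈ Q m c, f c y = ∑ y ∈ Ω, ∑ c ∈ thr m C y, f c y := by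
  refine sum_comm' fun c y => ?_
  rw [mem_thr]
  exact ⟨fun h => ⟨h, hΩ c h.1 h.2⟩, fun h => h.1⟩

/-- Double counting restricted to the points of `G`. -/
theorem sum_sum_Q_inter (m : ℕ) (C G : Finset (Pt n)) (f : Pt n → Pt n → ℝ) :
    ∑ c ∈ C, ∑ y ∈ G ∩ Q m c, f c y = ∑ y ∈ G, ∑ c ∈ thr m C y, f c y := by
  refine sum_comm' fun c y => ?_
  rw [mem_thr, mem_inter]
  tauto

/-- The inner product of two weighted sums of cube indicators. -/
theorem sum_thr_mul (m m' : ℕ) (C C' Ω : Finset (Pt n)) (hΩ : ∀ c ∈ C, Q m c ⊆ Ω)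
    (w w' : Pt n → ℝ) :
    ∑ y ∈ Ω, (∑ c ∈ thr m C y, w c) * (∑ c' ∈ thr m' C' y, w' c') =
      ∑ c ∈ C, ∑ c' ∈ C', w c * w' c' * #(Q m c ∩ Q m' c') := by
  have e : ∀ y ∈ Ω, (∑ c ∈ thr m C y, w c) * (∑ c' ∈ thr m' C' y, w' c') =
      ∑ c ∈ thr m C y, w c * ∑ c' ∈ thr m' C' y, w' c' := fun y _ => sum_mul _ _ _
  rw [sum_congr rfl e, ← sum_sum_Q m C Ω hΩ fun c y => w c * ∑ c' ∈ thr m' C' y, w' c']
  refine sum_congr rfl fun c _ => ?_
  rw [← mul_sum, ← sum_sum_Q_inter m' C' (Q m c) fun c' _ => w' c', mul_sum]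
  refine sum_congr rfl fun c' _ => ?_
  rw [sum_const, nsmul_eq_mul]
  ring

/-- Cauchy-Schwarz for a weighted sum of cube indicators (`sq_sum_le_card_mul_sum_sq`,
`sum_sum_Q`, `sum_thr_mul`). -/
theorem cs_cubes (m : ℕ) (C Ω : Finset (Pt n)) (hΩ : ∀ c ∈ C, Q m c ⊆ Ω) (w : Pt n → ℝ) :
    ((∑ c ∈ C, w c) * (m : ℝ) ^ n) ^ 2 ≤
      #Ω * ∑ c ∈ C, ∑ c' ∈ C, w c * w c' * #(Q m c ∩ Q m c') := by
  have e : (∑ c ∈ C, w c) * (m : ℝ) ^ n = ∑ y ∈ Ω, ∑ c ∈ thr m C y, w c := by
    rw [← sum_sum_Q m C Ω hΩ fun c _ => w c, sum_mul]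
    refine sum_congr rfl fun c _ => ?_
    rw [sum_const, nsmul_eq_mul, card_Q]
    push_cast
    ring
  rw [e, ← sum_thr_mul m m C C Ω hΩ w w]
  simpa only [sq] using sq_sum_le_card_mul_sum_sq (s := Ω) (f := fun y => ∑ c ∈ thr m C y, w c)

end Pool.Agent.MP_9210c2_an.H87

/-!
Dense cores, path counting, grouping of coordinates.
-/

namespace Pool.Agent.MP_9210c2_an.H87

open Finset
open scoped Classical

variable {n : ℕ}

/-- Take `Qc ⊆ G` maximising `#Qc - ∑ a < r, d a * #(Qc.image (key a))` (positive at `G`, zero at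
`∅`); removing a class with fewer than `d a` elements would increase it.  (Or strong induction on
`#G`.) -/
theorem core {α β : Type*} [DecidableEq β] (G : Finset α) (r : ℕ) (key : ℕ → α → β) (d : ℕ → ℝ)
    (hd : ∀ a, 0 ≤ d a) (h : ∑ a ∈ range r, d a * #(G.image (key a)) < #G) :
    ∃ Qc ⊆ G, Qc.Nonempty ∧
      ∀ y ∈ Qc, ∀ a < r, d a ≤ #(Qc.filter fun y' => key a y' = key a y) := by
  obtain ⟨Qc, hQ, hmax⟩ := exists_max_image G.powerset
    (fun T : Finset α => (#T : ℝ) - ∑ a ∈ range r, d a * #(T.image (key a)))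
    ⟨G, mem_powerset_self G⟩
  have hQG : Qc ⊆ G := mem_powerset.1 hQ
  refine ⟨Qc, hQG, ?_, ?_⟩
  · rcases Qc.eq_empty_or_nonempty with h0 | h0
    · have h1 := hmax G (mem_powerset_self G)
      rw [h0] at h1
      simp at h1
      linarith
    · exact h0
  · intro y hy a ha
    have h1 := hmax (Qc.filter fun y' => ¬ key a y' = key a y)
      (mem_powerset.2 ((filter_subset _ _).trans hQG))
    have h2 : (#(Qc.filter fun y' => key a y' = key a y) : ℝ) +
        #(Qc.filter fun y' => ¬ key a y' = key a y) = #Qc := by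
      exact_mod_cast card_filter_add_card_filter_not (s := Qc) (fun y' => key a y' = key a y)
    have h3 : ∑ a' ∈ range r, d a' * #((Qc.filter fun y' => ¬ key a y' = key a y).image (key a'))
        ≤ ∑ a' ∈ range r, (d a' * #(Qc.image (key a')) - if a' = a then d a else 0) := by
      refine sum_le_sum fun a' _ => ?_
      split_ifs with haa
      · subst haa
        have h4 : (Qc.filter fun y' => ¬ key a' y' = key a' y).image (key a') ⊆
            (Qc.image (key a')).erase (key a' y) := by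
          intro b hb
          obtain ⟨z, hz, rfl⟩ := mem_image.1 hb
          rw [mem_filter] at hz
          exact mem_erase.2 ⟨hz.2, mem_image_of_mem _ hz.1⟩
        have h5 := card_le_card h4
        have h6 := card_erase_add_one (mem_image_of_mem (key a') hy)
        have h7 : (#((Qc.filter fun y' => ¬ key a' y' = key a' y).image (key a')) : ℝ) + 1 ≤
            #(Qc.image (key a')) := by exact_mod_cast (by omega)
        nlinarith [hd a']
      · rw [sub_zero]
        refine mul_le_mul_of_nonneg_left ?_ (hd a')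
        exact_mod_cast card_le_card (image_subset_image (filter_subset _ _))
    rw [sum_sub_distrib, sum_ite_eq' (range r) a, if_pos (mem_range.2 ha)] at h3
    linarith

/-- Induction on `a ≤ r`: for every `y ∈ Qc`, `∏ a' < a, d a' ≤ #{y' ∈ Qc | y' l = y l whenever
a ≤ grp l}`.  Step: the set for `a + 1` contains the disjoint union of the sets for `a` at the
points `z ∈ Qc` which agree with `y` outside group `a`. -/
theorem path (grp : Fin n → ℕ) (r : ℕ) (hg : ∀ l, grp l < r) (Qc : Finset (Pt n))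
    (hne : Qc.Nonempty) (d : ℕ → ℝ) (hd : ∀ a, 0 ≤ d a)
    (h : ∀ y ∈ Qc, ∀ a < r, d a ≤ #(Qc.filter fun y' => ∀ l, grp l ≠ a → y' l = y l)) :
    ∏ a ∈ range r, d a ≤ #Qc := by
  have key : ∀ a ≤ r, ∀ y ∈ Qc,
      ∏ a' ∈ range a, d a' ≤ #(Qc.filter fun y' => ∀ l, a ≤ grp l → y' l = y l) := by
    intro a
    induction a with
    | zero =>
      intro _ y hy
      rw [prod_range_zero]
      have h1 : 0 < #(Qc.filter fun y' => ∀ l, 0 ≤ grp l → y' l = y l) :=
        card_pos.2 ⟨y, mem_filter.2 ⟨hy, fun _ _ => rfl⟩⟩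
      exact_mod_cast h1
    | succ a ih =>
      intro ha y hy
      have hP : 0 ≤ ∏ a' ∈ range a, d a' := prod_nonneg fun a' _ => hd a'
      have h1 := h y hy a (by omega)
      have h2 : ((Qc.filter fun y' => ∀ l, grp l ≠ a → y' l = y l).biUnion
          fun z => Qc.filter fun y' => ∀ l, a ≤ grp l → y' l = z l) ⊆
          Qc.filter fun y' => ∀ l, a + 1 ≤ grp l → y' l = y l := by
        intro w hw
        obtain ⟨z, hz, hw⟩ := mem_biUnion.1 hw
        rw [mem_filter] at hz hw ⊢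
        exact ⟨hw.1, fun l hl => (hw.2 l (by omega)).trans (hz.2 l (by omega))⟩
      have h3 := card_le_card h2
      rw [card_biUnion] at h3
      · have h4 : ∑ z ∈ Qc.filter (fun y' => ∀ l, grp l ≠ a → y' l = y l),
            (#(Qc.filter fun y' => ∀ l, a ≤ grp l → y' l = z l) : ℝ) ≤
            #(Qc.filter fun y' => ∀ l, a + 1 ≤ grp l → y' l = y l) := by exact_mod_cast h3
        have h5 : ∑ _z ∈ Qc.filter (fun y' => ∀ l, grp l ≠ a → y' l = y l),
            ∏ a' ∈ range a, d a' ≤ ∑ z ∈ Qc.filter (fun y' => ∀ l, grp l ≠ a → y' l = y l),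
            (#(Qc.filter fun y' => ∀ l, a ≤ grp l → y' l = z l) : ℝ) :=
          sum_le_sum fun z hz => ih (by omega) z (mem_filter.1 hz).1
        rw [sum_const, nsmul_eq_mul] at h5
        rw [prod_range_succ]
        nlinarith [mul_le_mul_of_nonneg_right h1 hP]
      · intro z hz z' hz' hne'
        rw [Function.onFun, disjoint_left]
        intro w hw hw'
        apply hne'
        have hz1 := (mem_filter.1 (mem_coe.1 hz)).2
        have hz2 := (mem_filter.1 (mem_coe.1 hz')).2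
        have hw1 := (mem_filter.1 hw).2
        have hw2 := (mem_filter.1 hw').2
        funext l
        by_cases hl : grp l = a
        · exact (hw1 l hl.ge).symm.trans (hw2 l hl.ge)
        · exact (hz1 l hl).trans (hz2 l hl).symm
  obtain ⟨y, hy⟩ := hne
  refine (key r le_rfl y hy).trans ?_
  have _hg := hg
  exact_mod_cast card_le_card (filter_subset _ _)

/-- `grp l = ⌊4 * ∑ l' < l, s l'⌋₊`. -/
theorem grouping (s : Fin n → ℝ) (h0 : ∀ l, 0 ≤ s l) (h1 : ∀ l, s l ≤ 1 / 4) (lam : ℕ)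
    (hs : ∑ l, s l ≤ lam) :
    ∃ grp : Fin n → ℕ, Monotone grp ∧ (∀ l, grp l < 4 * lam + 1) ∧
      ∀ a, ∑ l ∈ univ.filter (fun l => grp l = a), s l ≤ 1 / 2 := by
  have hmono : ∀ l l' : Fin n, l ≤ l' →
      ∑ j ∈ univ.filter (fun j => j < l), s j ≤ ∑ j ∈ univ.filter (fun j => j < l'), s j := by
    intro l l' hl
    refine sum_le_sum_of_subset_of_nonneg ?_ fun j _ _ => h0 j
    intro j hj
    rw [mem_filter] at hj ⊢
    exact ⟨hj.1, lt_of_lt_of_le hj.2 hl⟩
  have hnn : ∀ l : Fin n, 0 ≤ 4 * ∑ j ∈ univ.filter (fun j => j < l), s j := fun l =>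
    mul_nonneg (by norm_num) (sum_nonneg fun j _ => h0 j)
  refine ⟨fun l => ⌊4 * ∑ j ∈ univ.filter (fun j => j < l), s j⌋₊, ?_, ?_, ?_⟩
  · intro l l' hl
    exact Nat.floor_le_floor (by linarith [hmono l l' hl])
  · intro l
    have h2 : ∑ j ∈ univ.filter (fun j => j < l), s j ≤ ∑ j, s j :=
      sum_le_sum_of_subset_of_nonneg (filter_subset _ _) fun j _ _ => h0 j
    rw [Nat.floor_lt (hnn l)]
    push_cast
    linarith
  · intro a
    set F := univ.filter
      (fun l : Fin n => ⌊4 * ∑ j ∈ univ.filter (fun j => j < l), s j⌋₊ = a) with hF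
    rcases F.eq_empty_or_nonempty with h2 | h2
    · rw [h2, sum_empty]; norm_num
    · have hl0 := (mem_filter.1 (F.min'_mem h2)).2
      have hl1 := (mem_filter.1 (F.max'_mem h2)).2
      have h3 := Nat.floor_le (hnn (F.min' h2))
      have h4 := Nat.lt_floor_add_one (4 * ∑ j ∈ univ.filter (fun j => j < F.max' h2), s j)
      rw [hl0] at h3
      rw [hl1] at h4
      have h5 : Disjoint F (univ.filter fun j => j < F.min' h2) := by
        rw [disjoint_left]
        intro j hj hj'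
        exact absurd (mem_filter.1 hj').2 (not_lt.2 (F.min'_le j hj))
      have h6 : F ∪ (univ.filter fun j => j < F.min' h2) ⊆
          insert (F.max' h2) (univ.filter fun j => j < F.max' h2) := by
        intro j hj
        rw [mem_insert, mem_filter]
        rcases mem_union.1 hj with hj | hj
        · rcases (F.le_max' j hj).eq_or_lt with h7 | h7
          · exact Or.inl h7
          · exact Or.inr ⟨mem_univ _, h7⟩
        · exact Or.inr ⟨mem_univ _, lt_of_lt_of_le (mem_filter.1 hj).2 (F.min'_le_max' h2)⟩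
      have h7 := sum_le_sum_of_subset_of_nonneg (f := s) h6 fun j _ _ => h0 j
      rw [sum_union h5, sum_insert (by simp)] at h7
      linarith [h1 (F.max' h2)]

/-- Grouping a sum according to a key: the classes on which `a * p < q` carry little `p`-mass
(`Finset.sum_fiberwise_of_maps_to`, `Finset.sum_image'`...). -/
theorem fiber_small {α β : Type*} [DecidableEq β] (S : Finset α) (key : α → β) (p q : α → ℝ)
    (hq : ∀ t ∈ S, 0 ≤ q t) (a : ℝ) :
    a * ∑ t ∈ S.filter (fun t => a * ∑ t' ∈ S.filter (fun t' => key t' = key t), p t' <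
        ∑ t' ∈ S.filter (fun t' => key t' = key t), q t'), p t ≤ ∑ t ∈ S, q t := by
  have h1 : ∑ t ∈ S.filter (fun t => a * ∑ t' ∈ S.filter (fun t' => key t' = key t), p t' <
        ∑ t' ∈ S.filter (fun t' => key t' = key t), q t'), p t =
      ∑ b ∈ (S.image key).filter (fun b => a * ∑ t' ∈ S.filter (fun t' => key t' = b), p t' <
        ∑ t' ∈ S.filter (fun t' => key t' = b), q t'),
        ∑ t ∈ S.filter (fun t' => key t' = b), p t := by
    rw [← sum_fiberwise_of_maps_to (g := key) (t := (S.image key).filter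
      (fun b => a * ∑ t' ∈ S.filter (fun t' => key t' = b), p t' <
        ∑ t' ∈ S.filter (fun t' => key t' = b), q t'))]
    · refine sum_congr rfl fun b hb => sum_congr ?_ fun _ _ => rfl
      ext t
      simp only [mem_filter]
      constructor
      · exact fun ht => ⟨ht.1.1, ht.2⟩
      · intro ht
        refine ⟨⟨ht.1, ?_⟩, ht.2⟩
        rw [ht.2]
        exact (mem_filter.1 hb).2
    · intro t ht
      rw [mem_filter] at ht ⊢
      exact ⟨mem_image_of_mem _ ht.1, ht.2⟩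
  have h2 : ∑ t ∈ S, q t = ∑ b ∈ S.image key, ∑ t ∈ S.filter (fun t' => key t' = b), q t :=
    (sum_fiberwise_of_maps_to (fun t ht => mem_image_of_mem key ht) q).symm
  rw [h1, h2, mul_sum]
  refine (sum_le_sum fun b hb => (mem_filter.1 hb).2.le).trans ?_
  exact sum_le_sum_of_subset_of_nonneg (filter_subset _ _)
    fun b _ _ => sum_nonneg fun t ht => hq t (mem_filter.1 ht).1

end Pool.Agent.MP_9210c2_an.H87
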