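import Pool.Agent.MP_9210c2_an.H87.Base
import Pool.Agent.MP_9210c2_an.Basic

/-!
A Kleitman-Winston container lemma with a potential.
-/

namespace Pool.Agent.MP_9210c2_an.H87

open Finset
open scoped Classical

variable {n : ℕ}

theorem KW_aux {α κ : Type*} [DecidableEq α] (N : ℕ) (𝒦 : Finset κ) (ov : κ → Finset α)
    (e : α → κ) (Ψ : Finset α → ℝ) (L : ℝ) (h0 : ∀ C, 0 ≤ Ψ C)
    (hmono : ∀ C C', C ⊆ C' → Ψ C ≤ Ψ C') (k : ℕ) :
    ∀ C0 : Finset α, #C0 ≤ N → Ψ C0 < k * L →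
    ∃ Γ : Finset (Finset α), #Γ ≤ ((N + 1) * (#𝒦 + 1)) ^ k ∧
      ∀ (Pi : Finset κ) (P : Finset α), Pi ⊆ 𝒦 → P ⊆ C0 → (∀ c ∈ P, e c ∈ Pi) →
        (∀ K ∈ Pi, #(P ∩ ov K) ≤ 1) →
        ∃ C ∈ Γ, C ⊆ C0 ∧ #(P \ C) + 1 ≤ k ∧ (∀ c ∈ C, Ψ C - Ψ (C \ ov (e c)) ≤ L) ∧
          ∀ K ∈ Pi, Ψ C - Ψ (C \ ov K) ≤ L := by
  induction k with
  | zero => intro C0 _ h; exact absurd (h0 C0) (by simpa using h)
  | succ k ih =>
    choose! G hG using ih
    set A := ((N + 1) * (#𝒦 + 1)) ^ k with hA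
    have hA1 : 1 ≤ A := Nat.one_le_pow _ _ (by positivity)
    have key : ∀ C0 : Finset α, #C0 ≤ N → Ψ C0 < (k + 1) * L →
        ∃ Γ : Finset (Finset α), #Γ ≤ (#C0 + 1) * ((#𝒦 + 1) * A) ∧
        ∀ (Pi : Finset κ) (P : Finset α), Pi ⊆ 𝒦 → P ⊆ C0 → (∀ c ∈ P, e c ∈ Pi) →
          (∀ K ∈ Pi, #(P ∩ ov K) ≤ 1) →
          ∃ C ∈ Γ, C ⊆ C0 ∧ #(P \ C) + 1 ≤ k + 1 ∧ (∀ c ∈ C, Ψ C - Ψ (C \ ov (e c)) ≤ L) ∧
            ∀ K ∈ Pi, Ψ C - Ψ (C \ ov K) ≤ L := by
      intro C0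
      induction C0 using Finset.strongInduction with
      | H C0 ih2 =>
        intro hN hΨ
        set B := (𝒦.filter fun K => Ψ (C0 \ ov K) < k * L).biUnion fun K => G (C0 \ ov K) with hB
        have hc : ∀ K, #(C0 \ ov K) ≤ N := fun K => (card_le_card sdiff_subset).trans hN
        have hBc : #B ≤ #𝒦 * A :=
          (card_biUnion_le_card_mul _ _ A fun K hK =>
            (hG _ (hc K) (mem_filter.1 hK).2).1).trans
            (Nat.mul_le_mul_right _ (card_filter_le _ _))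
        have hbig : ∀ (Pi : Finset κ) (P : Finset α), Pi ⊆ 𝒦 → P ⊆ C0 → (∀ c ∈ P, e c ∈ Pi) →
            (∀ K ∈ Pi, #(P ∩ ov K) ≤ 1) → (¬ ∀ K ∈ Pi, Ψ C0 - Ψ (C0 \ ov K) ≤ L) →
            ∃ C ∈ B, C ⊆ C0 ∧ #(P \ C) + 1 ≤ k + 1 ∧ (∀ c ∈ C, Ψ C - Ψ (C \ ov (e c)) ≤ L) ∧
              ∀ K ∈ Pi, Ψ C - Ψ (C \ ov K) ≤ L := by
          intro Pi P h1 h2 h3 h4 h5
          push Not at h5
          obtain ⟨K, hK, hd⟩ := h5
          have hlt : Ψ (C0 \ ov K) < k * L := by linarith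
          obtain ⟨C, a1, a2, a3, a4, a5⟩ := (hG _ (hc K) hlt).2 Pi (P \ ov K) h1
            (sdiff_subset_sdiff h2 subset_rfl) (fun c hc => h3 c (mem_sdiff.1 hc).1)
            fun K' hK' => (card_le_card (inter_subset_inter_right sdiff_subset)).trans (h4 K' hK')
          refine ⟨C, mem_biUnion.2 ⟨K, mem_filter.2 ⟨h1 hK, hlt⟩, a1⟩, a2.trans sdiff_subset, ?_,
            a4, a5⟩
          have h6 : P \ C ⊆ (P \ ov K) \ C ∪ P ∩ ov K := by
            intro x hx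
            simp only [mem_sdiff, mem_union, mem_inter] at hx ⊢
            tauto
          have h7 := (card_le_card h6).trans (card_union_le _ _)
          have h8 := h4 K hK
          omega
        by_cases hρ : ∀ c ∈ C0, Ψ C0 - Ψ (C0 \ ov (e c)) ≤ L
        · refine ⟨insert C0 B, ?_, fun Pi P h1 h2 h3 h4 => ?_⟩
          · have := card_insert_le C0 B
            nlinarith [Nat.zero_le (#C0 * ((#𝒦 + 1) * A))]
          · by_cases h5 : ∀ K ∈ Pi, Ψ C0 - Ψ (C0 \ ov K) ≤ L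
            · exact ⟨C0, mem_insert_self _ _, subset_rfl,
                by rw [sdiff_eq_empty_iff_subset.2 h2]; simp, hρ, h5⟩
            · obtain ⟨C, a1, a2⟩ := hbig Pi P h1 h2 h3 h4 h5
              exact ⟨C, mem_insert_of_mem a1, a2⟩
        · set R := C0.filter fun c => Ψ C0 - Ψ (C0 \ ov (e c)) ≤ L with hR
          have hss : R ⊂ C0 := filter_ssubset.2 (by push Not at hρ ⊢; exact hρ)
          have hlt := card_lt_card hss
          obtain ⟨Γ, b1, b2⟩ := ih2 R hss (by omega) ((hmono _ _ hss.subset).trans_lt hΨ)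
          refine ⟨Γ ∪ B, ?_, fun Pi P h1 h2 h3 h4 => ?_⟩
          · have h6 := card_union_le Γ B
            have h7 : (#R + 1) * ((#𝒦 + 1) * A) ≤ #C0 * ((#𝒦 + 1) * A) :=
              Nat.mul_le_mul_right _ hlt
            nlinarith
          · by_cases h5 : ∀ K ∈ Pi, Ψ C0 - Ψ (C0 \ ov K) ≤ L
            · obtain ⟨C, a1, a2, a3⟩ := b2 Pi P h1
                (fun c hc => mem_filter.2 ⟨h2 hc, h5 _ (h3 c hc)⟩) h3 h4
              exact ⟨C, mem_union_left _ a1, a2.trans hss.subset, a3⟩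
            · obtain ⟨C, a1, a2⟩ := hbig Pi P h1 h2 h3 h4 h5
              exact ⟨C, mem_union_right _ a1, a2⟩
    intro C0 hN hΨ
    obtain ⟨Γ, b1, b2⟩ := key C0 hN (by exact_mod_cast hΨ)
    refine ⟨Γ, b1.trans ?_, b2⟩
    rw [pow_succ', ← hA, mul_assoc]
    exact Nat.mul_le_mul_right _ (by omega)

/-- Container lemma. -/
theorem kw {α κ : Type*} [DecidableEq α] (C0 : Finset α) (𝒦 : Finset κ) (ov : κ → Finset α)
    (e : α → κ) (Ψ : Finset α → ℝ) (L : ℝ) (hL : 0 < L) (h0 : ∀ C, 0 ≤ Ψ C)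
    (hmono : ∀ C C', C ⊆ C' → Ψ C ≤ Ψ C') (k : ℕ) (hk : Ψ C0 < (k + 1) * L) :
    ∃ Γ : Finset (Finset α), #Γ ≤ ((#C0 + 1) * (#𝒦 + 1)) ^ (k + 1) ∧
      ∀ (Pi : Finset κ) (P : Finset α), Pi ⊆ 𝒦 → P ⊆ C0 → (∀ c ∈ P, e c ∈ Pi) →
        (∀ K ∈ Pi, #(P ∩ ov K) ≤ 1) →
        ∃ C ∈ Γ, C ⊆ C0 ∧ #(P \ C) ≤ k ∧ (∀ c ∈ C, Ψ C - Ψ (C \ ov (e c)) ≤ L) ∧
          ∀ K ∈ Pi, Ψ C - Ψ (C \ ov K) ≤ L := by
  obtain ⟨Γ, h1, h2⟩ := KW_aux #C0 𝒦 ov e Ψ L h0 hmono (k + 1) C0 le_rfl (by exact_mod_cast hk)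
  refine ⟨Γ, h1, fun Pi P a1 a2 a3 a4 => ?_⟩
  obtain ⟨C, b1, b2, b3, b4⟩ := h2 Pi P a1 a2 a3 a4
  exact ⟨C, b1, b2, by omega, b4⟩

end Pool.Agent.MP_9210c2_an.H87

/-!
Containers for all classes, from the largest cubes to the smallest.
-/

namespace Pool.Agent.MP_9210c2_an.H87

open Finset
open scoped Classical

variable {n : ℕ}

/-- Iterated choice from small families.  Induction on `N' ≤ N`: there is a finite set `𝒯` of
tuples, `#𝒯 ≤ ∏ i < N', g i`, with `#(𝒯.image (· j)) ≤ ∏ i ≤ j, g i` for `j < N'`, such that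
every `p` has a `T ∈ 𝒯` with `A j T p` for all `j < N'`.  Step: `𝒯.biUnion` of the images of the
families given by `step` under `Function.update T N'`. -/
theorem topdown {β π : Type*} [Nonempty β] (N : ℕ) (g : ℕ → ℕ) (A : ℕ → (ℕ → β) → π → Prop)
    (hdep : ∀ j T T' p, (∀ i ≤ j, T i = T' i) → A j T p → A j T' p)
    (step : ∀ j < N, ∀ T, ∃ Γ : Finset β, #Γ ≤ g j ∧
      ∀ p, (∀ i < j, A i T p) → ∃ C ∈ Γ, A j (Function.update T j C) p) :
    ∃ Γ : ℕ → Finset β, (∀ j < N, #(Γ j) ≤ ∏ i ∈ range (j + 1), g i) ∧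
      ∀ p, ∃ T, ∀ j < N, T j ∈ Γ j ∧ A j T p := by
  have key : ∀ N' ≤ N, ∃ 𝒯 : Finset (ℕ → β), #𝒯 ≤ ∏ i ∈ range N', g i ∧
      (∀ j < N', #(𝒯.image (· j)) ≤ ∏ i ∈ range (j + 1), g i) ∧
      ∀ p, ∃ T ∈ 𝒯, ∀ j < N', A j T p := by
    intro N' hN'
    induction N' with
    | zero =>
      exact ⟨{fun _ => Classical.arbitrary β}, by simp, fun j hj => absurd hj (Nat.not_lt_zero j),
        fun p => ⟨_, mem_singleton_self _, fun j hj => absurd hj (Nat.not_lt_zero j)⟩⟩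
    | succ M ih =>
      obtain ⟨𝒯, h1, h2, h3⟩ := ih (Nat.le_of_succ_le hN')
      choose Γ g1 g2 using step M hN'
      have hc : #(𝒯.biUnion fun T => (Γ T).image (Function.update T M)) ≤
          ∏ i ∈ range (M + 1), g i := by
        rw [prod_range_succ]
        refine (card_biUnion_le_card_mul _ _ _ fun T _ => card_image_le.trans (g1 T)).trans ?_
        exact Nat.mul_le_mul_right _ h1
      refine ⟨_, hc, fun j hj => ?_, fun p => ?_⟩
      · rcases Nat.lt_succ_iff_lt_or_eq.1 hj with hj | rfl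
        · refine le_trans (card_le_card fun b hb => ?_) (h2 j hj)
          obtain ⟨T', hT', rfl⟩ := mem_image.1 hb
          obtain ⟨T, hT, hT'⟩ := mem_biUnion.1 hT'
          obtain ⟨C, -, rfl⟩ := mem_image.1 hT'
          exact mem_image.2 ⟨T, hT, (Function.update_of_ne hj.ne _ _).symm⟩
        · exact card_image_le.trans hc
      · obtain ⟨T, hT, hA⟩ := h3 p
        obtain ⟨C, hC, hA'⟩ := g2 T p hA
        refine ⟨Function.update T M C, mem_biUnion.2 ⟨T, hT, mem_image_of_mem _ hC⟩, fun j hj => ?_⟩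
        rcases Nat.lt_succ_iff_lt_or_eq.1 hj with hj | rfl
        · exact hdep j T _ p (fun i hi => (Function.update_of_ne (hi.trans_lt hj).ne _ _).symm)
            (hA j hj)
        · exact hA'
  obtain ⟨𝒯, -, h2, h3⟩ := key N le_rfl
  refine ⟨fun j => 𝒯.image (· j), h2, fun p => ?_⟩
  obtain ⟨T, hT, hA⟩ := h3 p
  exact ⟨T, fun j hj => ⟨mem_image_of_mem _ hT, hA j hj⟩⟩

lemma TopDown_sdiff {m m' : ℕ} {C O : Finset (Pt n)} (h : C ⊆ O) (K : Pt n) :
    C \ ov m O m' K = C \ ov m C m' K := by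
  ext c
  simp only [mem_sdiff, mem_ov]
  exact ⟨fun ⟨a, b⟩ => ⟨a, fun ⟨_, d⟩ => b ⟨h a, d⟩⟩, fun ⟨a, b⟩ => ⟨a, fun ⟨_, d⟩ => b ⟨a, d⟩⟩⟩

/-- Containers for packings by cubes of several classes.  Use `topdown` with
`π` = the subtype of the packings `Pi`, and `A j T Pi` = (`T j ⊆ O`, the exceptional count,
`∀ i ≤ j, ∀ c ∈ T j, drop i (T i) (j,c) ≤ L`, and `∀ K ∈ Pi, drop j (T j) K ≤ L`), where
`drop i C K = Ψ i C - Ψ i (C \ ov (m i) O (m K.1) K.2)`.  In the step use `kw` with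
`C0 = O.filter (fun c => ∀ i < j, drop i (T i) (j,c) ≤ L)`, `𝒦 = range N ×ˢ O`, `e c = (j,c)` and
`P` = the corners of the members of `Pi` of class `j`.  Finally
`C \ ov m O m' K = C \ ov m C m' K` for `C ⊆ O`. -/
theorem contain (N : ℕ) (m : ℕ → ℕ) (O : Finset (Pt n)) (Ψ : ℕ → Finset (Pt n) → ℝ)
    (h0 : ∀ j C, 0 ≤ Ψ j C) (hmono : ∀ j C C', C ⊆ C' → Ψ j C ≤ Ψ j C') (L : ℝ) (hL : 0 < L)
    (k : ℕ → ℕ) (hk : ∀ j < N, Ψ j O < (k j + 1) * L) :
    ∃ Γ : ℕ → Finset (Finset (Pt n)),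
      (∀ j < N, #(Γ j) ≤ ∏ i ∈ range (j + 1), ((#O + 1) * (N * #O + 1)) ^ (k i + 1)) ∧
      ∀ Pi : Finset (ℕ × Pt n), (∀ K ∈ Pi, K.1 < N ∧ K.2 ∈ O) →
        (∀ K ∈ Pi, ∀ K' ∈ Pi, K ≠ K' → Disjoint (Q (m K.1) K.2) (Q (m K'.1) K'.2)) →
        ∃ T : ℕ → Finset (Pt n), ∀ j < N, T j ∈ Γ j ∧ T j ⊆ O ∧
          #(Pi.filter fun K => K.1 = j ∧ K.2 ∉ T j) ≤ k j ∧
          ∀ i ≤ j, ∀ c ∈ T j, Ψ i (T i) - Ψ i (T i \ ov (m i) (T i) (m j) c) ≤ L := by
  obtain ⟨o, ho⟩ : ∃ o : ℕ → ℕ × Pt n → Finset (Pt n), ∀ i K, o i K = ov (m i) O (m K.1) K.2 :=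
    ⟨_, fun _ _ => rfl⟩
  obtain ⟨Γ, h1, h2⟩ := topdown (β := Finset (Pt n))
    (π := {Pi : Finset (ℕ × Pt n) // (∀ K ∈ Pi, K.1 < N ∧ K.2 ∈ O) ∧
      ∀ K ∈ Pi, ∀ K' ∈ Pi, K ≠ K' → Disjoint (Q (m K.1) K.2) (Q (m K'.1) K'.2)}) N
    (fun i => ((#O + 1) * (N * #O + 1)) ^ (k i + 1))
    (fun j T Pi => T j ⊆ O ∧ #(Pi.1.filter fun K => K.1 = j ∧ K.2 ∉ T j) ≤ k j ∧
      (∀ i ≤ j, ∀ c ∈ T j, Ψ i (T i) - Ψ i (T i \ o i (j, c)) ≤ L) ∧
      ∀ K ∈ Pi.1, Ψ j (T j) - Ψ j (T j \ o j K) ≤ L)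
    (by
      rintro j T T' p e ⟨a, b, c, d⟩
      rw [← e j le_rfl]
      exact ⟨a, b, fun i hi => e i hi ▸ c i hi, d⟩)
    (by
      intro j hj T
      obtain ⟨C0, hC⟩ : ∃ C0 : Finset (Pt n), ∀ c, c ∈ C0 ↔
          c ∈ O ∧ ∀ i < j, Ψ i (T i) - Ψ i (T i \ o i (j, c)) ≤ L :=
        ⟨O.filter fun c => ∀ i < j, Ψ i (T i) - Ψ i (T i \ o i (j, c)) ≤ L, fun _ => mem_filter⟩
      have hO : C0 ⊆ O := fun c hc => ((hC c).1 hc).1
      obtain ⟨Γ, g1, g2⟩ := kw C0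
        (range N ×ˢ O) (o j) (fun c => (j, c)) (Ψ j) L hL (h0 j)
        (hmono j) (k j) ((hmono j _ _ hO).trans_lt (hk j hj))
      refine ⟨Γ, g1.trans ?_, ?_⟩
      · rw [card_product, card_range]
        exact Nat.pow_le_pow_left (Nat.mul_le_mul_right _
          (Nat.succ_le_succ (card_le_card hO))) _
      · rintro ⟨Pi, p1, p2⟩ hA
        have hA' : ∀ i < j, ∀ K ∈ Pi, Ψ i (T i) - Ψ i (T i \ o i K) ≤ L :=
          fun i hi => (hA i hi).2.2.2
        obtain ⟨P, hm⟩ : ∃ P : Finset (Pt n), ∀ c, c ∈ P ↔ (j, c) ∈ Pi := by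
          refine ⟨(Pi.filter fun K => K.1 = j).image Prod.snd, fun c => ?_⟩
          simp only [mem_image, mem_filter]
          exact ⟨fun ⟨K, ⟨a, b⟩, d⟩ => by rw [← b, ← d]; exact a, fun a => ⟨_, ⟨a, rfl⟩, rfl⟩⟩
        obtain ⟨C, c1, c2, c3, c4, c5⟩ := g2 Pi P
          (fun K hK => mem_product.2 ⟨mem_range.2 (p1 K hK).1, (p1 K hK).2⟩)
          (fun c hc => (hC c).2 ⟨(p1 _ ((hm c).1 hc)).2,
            fun i hi => hA' i hi (j, c) ((hm c).1 hc)⟩)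
          (fun c hc => (hm c).1 hc)
          (fun K hK => by
            refine (card_le_card (t := {K.2}) fun c hc => ?_).trans (card_singleton _).le
            obtain ⟨a, b⟩ := mem_inter.1 hc
            by_contra hne
            rw [ho] at b
            refine (mem_filter.1 b).2 (p2 (j, c) ((hm c).1 a) K hK fun e => hne ?_)
            rw [← e]; exact mem_singleton_self _)
        refine ⟨C, c1, ?_⟩
        simp only [Function.update_self]
        refine ⟨c2.trans hO, le_trans ?_ c3, fun i hi c hc => ?_, c5⟩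
        · refine card_le_card_of_injOn Prod.snd (fun K hK => ?_) fun K hK K' hK' e => ?_
          · obtain ⟨a, b, d⟩ := mem_filter.1 (mem_coe.1 hK)
            exact mem_coe.2 (mem_sdiff.2 ⟨(hm _).2 (by rw [← b]; exact a), d⟩)
          · exact Prod.ext ((mem_filter.1 (mem_coe.1 hK)).2.1.trans
              (mem_filter.1 (mem_coe.1 hK')).2.1.symm) e
        · rcases hi.lt_or_eq with hi | rfl
          · rw [Function.update_of_ne hi.ne]
            exact ((hC c).1 (c2 hc)).2 i hi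
          · rw [Function.update_self]
            exact c4 c hc)
  refine ⟨Γ, h1, fun Pi p1 p2 => ?_⟩
  obtain ⟨T, hT⟩ := h2 ⟨Pi, p1, p2⟩
  refine ⟨T, fun j hj => ?_⟩
  obtain ⟨a, b, c, d, -⟩ := hT j hj
  refine ⟨a, b, c, fun i hi x hx => ?_⟩
  rw [← TopDown_sdiff (hT i (hi.trans_lt hj)).2.1]
  have e := d i hi x hx
  rwa [ho] at e

end Pool.Agent.MP_9210c2_an.H87

/-!
The random marks.
-/

namespace Pool.Agent.MP_9210c2_an.H87

open Finset
open scoped Classical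

variable {n : ℕ}

lemma Prob_exp {β : Type*} [DecidableEq β] (S : Finset β) (q g : β → ℝ) (h0 : ∀ a ∈ S, 0 ≤ q a)
    (h1 : ∀ a ∈ S, q a ≤ 1) (hg : ∀ a, 0 ≤ g a) :
    ∑ t ∈ S.powerset, ((∏ a ∈ t, q a) * ∏ a ∈ S \ t, (1 - q a)) * ∏ a ∈ t, g a ≤
      Real.exp (∑ a ∈ S, q a * (g a - 1)) := by
  have e := prod_add (fun a => q a * g a) (fun a => 1 - q a) S
  simp only [prod_mul_distrib] at e
  rw [sum_congr rfl fun t _ => mul_right_comm _ _ _, ← e, Real.exp_sum]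
  refine prod_le_prod (fun a ha => add_nonneg (mul_nonneg (h0 a ha) (hg a))
    (sub_nonneg.2 (h1 a ha))) fun a _ => le_trans (le_of_eq (by ring)) (Real.add_one_le_exp _)

lemma Prob_pick {β : Type*} [DecidableEq β] (S : Finset β) (q : β → ℝ) (h0 : ∀ a ∈ S, 0 ≤ q a)
    (h1 : ∀ a ∈ S, q a ≤ 1) (X : Finset β → ℝ)
    (h : ∑ t ∈ S.powerset, ((∏ a ∈ t, q a) * ∏ a ∈ S \ t, (1 - q a)) * X t < 1) :
    ∃ t ⊆ S, X t < 1 := by
  by_contra hc
  have e := prod_add q (fun a => 1 - q a) S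
  simp only [add_sub_cancel, prod_const_one] at e
  refine absurd h (not_lt.2 (e.le.trans (sum_le_sum fun t ht => ?_)))
  exact le_mul_of_one_le_right (mul_nonneg (prod_nonneg fun a ha => h0 a (mem_powerset.1 ht ha))
    (prod_nonneg fun a ha => sub_nonneg.2 (h1 a (mem_sdiff.1 ha).1)))
    (not_lt.1 fun h => hc ⟨t, mem_powerset.1 ht, h⟩)

/-- Random marks: every pair is chosen independently; a first moment argument. -/
theorem prob {α ζ : Type*} [DecidableEq α] (Ω : Finset α) (N : ℕ) (hN : 0 < N) (p : ℕ → ℝ)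
    (hp0 : ∀ j < N, 0 ≤ p j) (hp1 : ∀ j < N, p j ≤ 1) (Z : Finset ζ) (Qz : ℕ → ζ → Finset α)
    (hQ : ∀ j < N, ∀ z ∈ Z, Qz j z ⊆ Ω)
    (hs : ∀ z ∈ Z, 1 ≤ ∑ j ∈ range N, p j * #(Qz j z)) (Γ : ℕ → Finset (Finset α))
    (hΓ : ∀ j < N, ∀ U ∈ Γ j, U ⊆ Ω) :
    ∃ P : ℕ → Finset α,
      #Z ≤ 4 * #(Z.filter fun z => ∃ j < N, (P j ∩ Qz j z).Nonempty) ∧
      ∀ j < N, ∀ U ∈ Γ j, (#(P j ∩ U) : ℝ) ≤ 2 * p j * #U + Real.log (4 * N * #(Γ j)) := by
  have q0 : ∀ a ∈ range N ×ˢ Ω, 0 ≤ p a.1 := fun a ha =>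
    hp0 _ (mem_range.1 (mem_product.1 ha).1)
  have q1 : ∀ a ∈ range N ×ˢ Ω, p a.1 ≤ 1 := fun a ha =>
    hp1 _ (mem_range.1 (mem_product.1 ha).1)
  let g : ζ → ℕ × α → ℝ := fun z a => if a.2 ∈ Qz a.1 z then 0 else 1
  let f : ℕ → Finset α → ℕ × α → ℝ := fun j U a => if a.1 = j ∧ a.2 ∈ U then Real.exp 1 else 1
  have g0 : ∀ z a, 0 ≤ g z a := fun z a => by simp only [g]; split_ifs <;> norm_num
  have f0 : ∀ j U a, 0 ≤ f j U a := fun j U a => by simp only [f]; split_ifs <;> positivity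
  have hN' : (0 : ℝ) < N := by exact_mod_cast hN
  obtain ⟨t, hts, ht⟩ := Prob_pick (range N ×ˢ Ω) (fun a => p a.1) q0 q1
    (fun t => 4 / 3 / #Z * ∑ z ∈ Z, ∏ a ∈ t, g z a + ∑ j ∈ range N, ∑ U ∈ Γ j,
      Real.exp (-(2 * p j * #U)) / (4 * N * #(Γ j)) * ∏ a ∈ t, f j U a) (by
    simp only [mul_add, sum_add_distrib, mul_sum]
    rw [sum_comm, sum_comm (s := powerset _)]
    have a1 : ∀ z ∈ Z, ∑ t ∈ (range N ×ˢ Ω).powerset, ((∏ a ∈ t, p a.1) *
        ∏ a ∈ (range N ×ˢ Ω) \ t, (1 - p a.1)) * (4 / 3 / #Z * ∏ a ∈ t, g z a) ≤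
        4 / 3 / #Z * (1 / 2) := fun z hz => by
      simp only [mul_left_comm _ (4 / 3 / (#Z : ℝ)), ← mul_sum]
      refine mul_le_mul_of_nonneg_left ((Prob_exp _ _ _ q0 q1 (g0 z)).trans ?_) (by positivity)
      have : ∑ a ∈ range N ×ˢ Ω, p a.1 * (g z a - 1) = -∑ j ∈ range N, p j * #(Qz j z) := by
        rw [sum_product, ← sum_neg_distrib]
        refine sum_congr rfl fun j hj => ?_
        rw [← inter_eq_right.2 (hQ j (mem_range.1 hj) z hz), ← filter_mem_eq_inter, card_filter,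
          Nat.cast_sum, mul_sum, ← sum_neg_distrib]
        refine sum_congr rfl fun y _ => ?_
        simp only [g]
        split_ifs <;> simp
      rw [this]
      refine (Real.exp_le_exp.2 (neg_le_neg (hs z hz))).trans ?_
      rw [Real.exp_neg, one_div]
      exact inv_anti₀ (by norm_num) (by linarith [Real.add_one_le_exp 1])
    have a2 : ∀ j ∈ range N, ∑ t ∈ (range N ×ˢ Ω).powerset, ∑ U ∈ Γ j, ((∏ a ∈ t, p a.1) *
        ∏ a ∈ (range N ×ˢ Ω) \ t, (1 - p a.1)) * (Real.exp (-(2 * p j * #U)) / (4 * N * #(Γ j)) *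
          ∏ a ∈ t, f j U a) ≤ 1 / (4 * N) := fun j hj => by
      rw [sum_comm]
      refine (sum_le_card_nsmul _ _ (1 / (4 * N * #(Γ j)) : ℝ) fun U hU => ?_).trans ?_
      · simp only [mul_left_comm _ (Real.exp _ / _), ← mul_sum]
        refine (mul_le_mul_of_nonneg_left (Prob_exp _ _ _ q0 q1 (f0 j U)) (by positivity)).trans ?_
        have : ∑ a ∈ range N ×ˢ Ω, p a.1 * (f j U a - 1) = p j * (#U * (Real.exp 1 - 1)) := by
          rw [sum_product, sum_eq_single_of_mem j hj fun i _ hi => by simp [f, hi]]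
          conv_rhs => rw [← inter_eq_right.2 (hΓ j (mem_range.1 hj) U hU), ← filter_mem_eq_inter,
            card_filter, Nat.cast_sum, sum_mul, mul_sum]
          refine sum_congr rfl fun y hy => ?_
          by_cases h : y ∈ U <;> simp [f, h]
        rw [this, div_mul_eq_mul_div, ← Real.exp_add]
        refine div_le_div_of_nonneg_right (Real.exp_le_one_iff.2 ?_) (by positivity)
        have h1 := mul_nonneg (hp0 j (mem_range.1 hj)) (Nat.cast_nonneg (α := ℝ) #U)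
        nlinarith [Real.exp_one_lt_three]
      · rw [nsmul_eq_mul, mul_one_div, mul_comm, ← div_div]
        exact div_le_div_of_nonneg_right (div_self_le_one _) (by positivity)
    refine (add_le_add (sum_le_card_nsmul _ _ _ a1) (sum_le_card_nsmul _ _ _ a2)).trans_lt ?_
    rw [nsmul_eq_mul, nsmul_eq_mul, card_range]
    have := div_self_le_one (#Z : ℝ)
    have e1 : (#Z : ℝ) * (4 / 3 / #Z * (1 / 2)) = 2 / 3 * (#Z / #Z) := by ring
    have e2 : (N : ℝ) * (1 / (4 * N)) = 1 / 4 := by field_simp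
    linarith)
  have b1 : 0 ≤ 4 / 3 / #Z * ∑ z ∈ Z, ∏ a ∈ t, g z a :=
    mul_nonneg (by positivity) (sum_nonneg fun z _ => prod_nonneg fun a _ => g0 z a)
  have b0 : ∀ j U, 0 ≤ Real.exp (-(2 * p j * #U)) / (4 * N * #(Γ j)) * ∏ a ∈ t, f j U a :=
    fun j U => mul_nonneg (by positivity) (prod_nonneg fun a _ => f0 j U a)
  have b2 : ∀ j ∈ range N, 0 ≤ ∑ U ∈ Γ j,
      Real.exp (-(2 * p j * #U)) / (4 * N * #(Γ j)) * ∏ a ∈ t, f j U a :=
    fun j _ => sum_nonneg fun U _ => b0 j U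
  refine ⟨fun j => (t.filter fun a => a.1 = j).image Prod.snd, ?_, fun j hj U hU => ?_⟩
  · rcases Z.eq_empty_or_nonempty with rfl | hZ
    · simp
    have h0 : (0 : ℝ) < #Z := by exact_mod_cast hZ.card_pos
    have h1 : 4 / 3 / #Z * ∑ z ∈ Z, ∏ a ∈ t, g z a < 1 := by linarith [sum_nonneg b2]
    rw [div_mul_eq_mul_div, div_lt_one h0] at h1
    have h2 : (#Z : ℝ) ≤ #(Z.filter fun z => ∃ j < N,
        ((t.filter fun a => a.1 = j).image Prod.snd ∩ Qz j z).Nonempty) +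
        ∑ z ∈ Z, ∏ a ∈ t, g z a := by
      rw [card_filter, Nat.cast_sum, ← sum_add_distrib, card_eq_sum_ones, Nat.cast_sum]
      refine sum_le_sum fun z _ => ?_
      by_cases h : ∀ a ∈ t, g z a = 1
      · rw [prod_congr rfl h, prod_const_one, Nat.cast_one]
        exact le_add_of_nonneg_left (Nat.cast_nonneg _)
      · obtain ⟨a, ha, h⟩ : ∃ a ∈ t, a.2 ∈ Qz a.1 z := by
          by_contra! hc
          exact h fun a ha => if_neg (hc a ha)
        rw [if_pos ⟨a.1, mem_range.1 (mem_product.1 (hts ha)).1, a.2,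
          mem_inter.2 ⟨mem_image_of_mem _ (mem_filter.2 ⟨ha, rfl⟩), h⟩⟩]
        exact le_add_of_nonneg_right (prod_nonneg fun a _ => g0 z a)
    have : (#Z : ℝ) ≤ 4 * #(Z.filter fun z => ∃ j < N,
      ((t.filter fun a => a.1 = j).image Prod.snd ∩ Qz j z).Nonempty) := by linarith
    exact_mod_cast this
  · have h0 : (0 : ℝ) < 4 * N * #(Γ j) := by
      have : (0 : ℝ) < #(Γ j) := by exact_mod_cast card_pos.2 ⟨U, hU⟩
      positivity
    have h1 := ((single_le_sum (fun U _ => b0 j U) hU).trans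
      (single_le_sum b2 (mem_range.2 hj))).trans_lt (lt_of_le_of_lt (le_add_of_nonneg_left b1) ht)
    have h2 : ∏ a ∈ t, f j U a =
        Real.exp #((t.filter fun a => a.1 = j).image Prod.snd ∩ U) := by
      rw [prod_ite, prod_const, prod_const_one, mul_one, ← Real.exp_nat_mul, mul_one]
      congr 2
      refine card_bij (fun a _ => a.2) (fun a ha => ?_) (fun a ha b hb e => ?_) fun y hy => ?_
      · simp only [mem_filter] at ha
        exact mem_inter.2 ⟨mem_image_of_mem _ (mem_filter.2 ⟨ha.1, ha.2.1⟩), ha.2.2⟩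
      · exact Prod.ext ((mem_filter.1 ha).2.1.trans (mem_filter.1 hb).2.1.symm) e
      · obtain ⟨h3, h4⟩ := mem_inter.1 hy
        obtain ⟨a, ha, rfl⟩ := mem_image.1 h3
        exact ⟨a, mem_filter.2 ⟨(mem_filter.1 ha).1, (mem_filter.1 ha).2, h4⟩, rfl⟩
    rw [h2, div_mul_eq_mul_div, div_lt_one h0, ← Real.exp_add, ← Real.lt_log_iff_exp_lt h0] at h1
    linarith

end Pool.Agent.MP_9210c2_an.H87

/-!
From the discrete statement to the covering constant.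
-/

namespace Pool.Agent.MP_9210c2_an.H87

open Finset
open scoped Classical

variable {n : ℕ}

open MeasureTheory in
lemma Real_vol : volume (cube n) = ENNReal.ofReal (2 ^ n) := by
  have e : cube n = WithLp.ofLp ⁻¹' (Set.pi Set.univ fun _ : Fin n => Set.Ioo (-1 : ℝ) 1) := by
    ext x
    simp [cube, abs_lt]
  rw [e, (PiLp.volume_preserving_ofLp (Fin n)).measure_preimage
    (MeasurableSet.univ_pi fun _ => measurableSet_Ioo).nullMeasurableSet, Real.volume_pi_Ioo,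
    prod_const, card_univ, Fintype.card_fin, ENNReal.ofReal_pow (by norm_num)]
  norm_num

lemma Real_pow (hn : 1 ≤ n) {h : ℕ} (hh : n ≤ h) :
    ((4 * h + 2 : ℝ)) ^ n * 2 ^ n ≤ 2 * ((8 * h : ℕ) : ℝ) ^ n := by
  have h0 : (0 : ℝ) < h := by exact_mod_cast (by omega : 0 < h)
  have h1 : (n : ℝ) ≤ h := by exact_mod_cast hh
  have e : (4 * h + 2 : ℝ) * 2 = (1 / (2 * h) + 1) * ((8 * h : ℕ) : ℝ) := by
    push_cast
    field_simp
    ring
  rw [← mul_pow, e, mul_pow]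
  gcongr
  calc _ ≤ Real.exp (1 / (2 * h)) ^ n := by gcongr; exact Real.add_one_le_exp _
    _ = Real.exp (n * (1 / (2 * h))) := (Real.exp_nat_mul _ _).symm
    _ ≤ Real.exp (1 / 2) := by
      apply Real.exp_le_exp.2
      rw [mul_one_div, div_le_div_iff₀ (by positivity) (by norm_num)]
      linarith
    _ ≤ 1 / (1 - 1 / 2) := Real.exp_bound_div_one_sub_of_interval (by norm_num) (by norm_num)
    _ = 2 := by norm_num

lemma Real_mem {z y : Pt n} {h : ℕ} {x : V n} (hx : ∀ l, (z l : ℝ) ≤ x l ∧ x l ≤ z l + 1)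
    (hy : y ∈ Q (8 * h) fun l => z l - 4 * h) :
    WithLp.toLp 2 (fun l => (y l : ℝ)) ∈ body (cube n) x (4 * h + 2) := by
  have h0 : (0 : ℝ) < 4 * h + 2 := by positivity
  refine ⟨(4 * h + 2 : ℝ)⁻¹ • (WithLp.toLp 2 (fun l => (y l : ℝ)) - x), fun l => ?_, ?_⟩
  · obtain ⟨h1, h2⟩ := mem_Q.1 hy l
    have h3 : (z l : ℝ) - 4 * h ≤ y l := by exact_mod_cast h1
    have h4 : (y l : ℝ) < z l - 4 * h + 8 * h := by exact_mod_cast h2
    have := hx l
    simp only [PiLp.smul_apply, PiLp.sub_apply, smul_eq_mul, abs_mul, abs_inv, abs_of_pos h0]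
    rw [inv_mul_lt_iff₀ h0, mul_one, abs_lt]
    constructor <;> linarith
  · simp [smul_smul, mul_inv_cancel₀ h0.ne']

open MeasureTheory in
lemma Real_cells (Z : Finset (Pt n)) : ∃ E : Set (V n), IsCompact E ∧ (#Z : ENNReal) ≤ volume E ∧
    ∀ x ∈ E, ∃ z ∈ Z, ∀ l, (z l : ℝ) ≤ x l ∧ x l ≤ z l + 1 := by
  refine ⟨⋃ z ∈ Z, WithLp.toLp 2 '' Set.Icc (fun l => (z l : ℝ)) (fun l => z l + 1),
    Z.isCompact_biUnion fun z _ => isCompact_Icc.image (PiLp.continuous_toLp 2 _), ?_, ?_⟩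
  · let c : Pt n → Set (V n) := fun z =>
      WithLp.ofLp ⁻¹' (Set.pi Set.univ fun l => Set.Ico (z l : ℝ) (z l + 1))
    have m : ∀ z : Pt n, MeasurableSet (Set.pi Set.univ fun l => Set.Ico (z l : ℝ) (z l + 1)) :=
      fun z => MeasurableSet.univ_pi fun _ => measurableSet_Ico
    have h1 : ∀ z, volume (c z) = 1 := fun z => by
      rw [(PiLp.volume_preserving_ofLp (Fin n)).measure_preimage (m z).nullMeasurableSet,
        Real.volume_pi_Ico]
      simp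
    calc (#Z : ENNReal) = ∑ z ∈ Z, volume (c z) := by simp [h1]
      _ = volume (⋃ z ∈ Z, c z) := by
        refine (measure_biUnion_finset (fun z _ z' _ hz => ?_) fun z _ =>
          (PiLp.volume_preserving_ofLp (Fin n)).measurable (m z)).symm
        refine Set.disjoint_left.2 fun x a b => hz (funext fun l => ?_)
        exact (Int.floor_eq_iff.2 (a l trivial)).symm.trans (Int.floor_eq_iff.2 (b l trivial))
      _ ≤ _ := by
        refine measure_mono (Set.iUnion₂_mono fun z _ x hx => ?_)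
        exact ⟨x.ofLp, ⟨fun l => (hx l trivial).1, fun l => (hx l trivial).2.le⟩, rfl⟩
  · intro x hx
    simp only [Set.mem_iUnion] at hx
    obtain ⟨z, hz, y, hy, rfl⟩ := hx
    exact ⟨z, hz, fun l => ⟨hy.1 l, hy.2 l⟩⟩

/-- From the discrete statement to the covering constant. -/
theorem real_red (hn : 1 ≤ n) (Z : Finset (Pt n)) (hZ : Z.Nonempty) (hf : Pt n → ℕ)
    (hhf : ∀ z ∈ Z, n ≤ hf z) (A : ℝ)
    (H : ∀ S ⊆ Z, (∀ z ∈ S, ∀ z' ∈ S, z ≠ z' →
        Disjoint (Q (8 * hf z) fun l => z l - 4 * hf z) (Q (8 * hf z') fun l => z' l - 4 * hf z')) →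
      ∑ z ∈ S, ((8 * hf z : ℕ) : ℝ) ^ n ≤ A) :
    covConst (cube n) ≤ ENNReal.ofReal (2 * A / #Z) := by
  refine sSup_le fun c hc => ?_
  obtain ⟨E, e1, e2, e3⟩ := Real_cells Z
  choose! zz z1 z2 using e3
  obtain ⟨S, -, s2, s3, s4⟩ := hc E e1 (fun x => 4 * hf (zz x) + 2) fun x _ => by positivity
  have hd : ∀ x ∈ S, ∀ x' ∈ S, x ≠ x' → Disjoint (Q (8 * hf (zz x)) fun l => zz x l - 4 * hf (zz x))
      (Q (8 * hf (zz x')) fun l => zz x' l - 4 * hf (zz x')) := fun x hx x' hx' hne =>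
    disjoint_left.2 fun y a b => Set.disjoint_left.1 (s3 hx hx' hne)
      (Real_mem (z2 x (s2 hx)) a) (Real_mem (z2 x' (s2 hx')) b)
  have hi : ∀ x : S, ∀ x' : S, zz x = zz x' → x = x' := fun x x' e => by
    by_contra hne
    have := hd x x.2 x' x'.2 fun h => hne (Subtype.ext h)
    rw [← e, disjoint_self_iff_empty, ← card_eq_zero, card_Q] at this
    have h1 := hhf _ (z1 x (s2 x.2))
    exact absurd this (pow_ne_zero _ (by omega))
  have h1 : c * #Z ≤ ENNReal.ofReal (2 * A) := by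
    refine (mul_le_mul_right e2 c).trans (s4.trans ?_)
    rw [ENNReal.tsum_eq_iSup_sum]
    refine iSup_le fun T => ?_
    have h2 := H (T.image fun x : S => zz x)
      (fun z hz => by obtain ⟨x, -, rfl⟩ := mem_image.1 hz; exact z1 x (s2 x.2))
      (fun z hz z' hz' hne => by
        obtain ⟨x, -, rfl⟩ := mem_image.1 hz
        obtain ⟨x', -, rfl⟩ := mem_image.1 hz'
        exact hd x x.2 x' x'.2 fun h => hne (by rw [h]))
    rw [sum_image fun x _ x' _ => hi x x'] at h2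
    calc _ ≤ ∑ x ∈ T, ENNReal.ofReal (2 * ((8 * hf (zz x) : ℕ) : ℝ) ^ n) := by
          refine sum_le_sum fun x _ => ?_
          rw [volume_body _ _ (by positivity), Real_vol, ← ENNReal.ofReal_mul (by positivity)]
          exact ENNReal.ofReal_le_ofReal (Real_pow hn (hhf _ (z1 x (s2 x.2))))
      _ ≤ _ := by
        rw [← ENNReal.ofReal_sum_of_nonneg fun _ _ => by positivity, ← mul_sum]
        exact ENNReal.ofReal_le_ofReal (by linarith)
  have h0 : (0 : ℝ) < #Z := by exact_mod_cast hZ.card_pos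
  rw [ENNReal.ofReal_div_of_pos h0, ENNReal.ofReal_natCast,
    ENNReal.le_div_iff_mul_le (Or.inl (by exact_mod_cast hZ.card_pos.ne')) (Or.inl (by simp))]
  exact h1

end Pool.Agent.MP_9210c2_an.H87
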