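import Pool.Agent.MP_9210c2_an.H87.Base

/-!
A down-closed family of patterns with a small level has a thin tail.
-/

namespace Pool.Agent.MP_9210c2_an.H87

open Finset
open scoped Classical

variable {n : ℕ}

/-- Erasing a set of coordinates keeps a pattern inside a down-closed family. -/
theorem TailM_erase (S : Finset (Pat n)) (hdown : ∀ t ∈ S, ∀ l, Function.update t l 0 ∈ S)
    {t : Pat n} (ht : t ∈ S) (T : Finset (Fin n)) : (fun l => if l ∈ T then 0 else t l) ∈ S := by
  induction T using Finset.induction_on with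
  | empty => simpa using ht
  | insert a T _ ih =>
    have h1 := hdown _ ih a
    have h2 : (fun l => if l ∈ insert a T then 0 else t l) =
        Function.update (fun l => if l ∈ T then 0 else t l) a 0 := by
      funext l
      by_cases hl : l = a
      · subst hl; simp
      · simp [hl]
    rw [h2]; exact h1

theorem TailM_supp_erase (t : Pat n) (T : Finset (Fin n)) :
    ({l | (fun l => if l ∈ T then 0 else t l) l ≠ 0} : Finset (Fin n)) =
      ({l | t l ≠ 0} : Finset (Fin n)) \ T := by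
  ext l
  by_cases hl : l ∈ T <;> simp [hl]

theorem TailM_supp_keep (t : Pat n) {T : Finset (Fin n)}
    (hT : T ⊆ ({l | t l ≠ 0} : Finset (Fin n))) :
    ({l | (fun l => if l ∈ Tᶜ then 0 else t l) l ≠ 0} : Finset (Fin n)) = T := by
  rw [TailM_supp_erase]
  ext l
  have := @hT l
  by_cases hl : l ∈ T
  · have h2 := this hl
    simp only [mem_filter, mem_univ, true_and] at h2
    simp [hl, h2]
  · simp [hl]

/-- Submultiplicativity.  Map `(t, T)` with `T ⊆ supp t`, `#T = B`, to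
`(t restricted to T, t restricted to the complement)`; both restrictions lie in `S` (iterate
`hdown`), have sizes `B` and `j`, and determine `(t, T)`. -/
theorem level_submul (S : Finset (Pat n)) (hdown : ∀ t ∈ S, ∀ l, Function.update t l 0 ∈ S)
    (B j : ℕ) : (B + j).choose B * #(S.filter fun t => sz t = B + j) ≤
      #(S.filter fun t => sz t = B) * #(S.filter fun t => sz t = j) := by
  have hcard : #((S.filter fun t => sz t = B + j).sigma
      fun t => powersetCard B ({l | t l ≠ 0} : Finset (Fin n))) =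
      (B + j).choose B * #(S.filter fun t => sz t = B + j) := by
    rw [card_sigma, mul_comm, ← smul_eq_mul, ← sum_const]
    refine sum_congr rfl fun t ht => ?_
    rw [card_powersetCard]
    have := (mem_filter.1 ht).2
    unfold sz at this
    rw [this]
  rw [← hcard, ← card_product]
  refine card_le_card_of_injOn
    (fun p => ((fun l => if l ∈ p.2ᶜ then 0 else p.1 l), (fun l => if l ∈ p.2 then 0 else p.1 l)))
    ?_ ?_
  · rintro ⟨t, T⟩ hp
    have hp' := mem_sigma.1 (mem_coe.1 hp)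
    obtain ⟨hp1, hp2⟩ := hp'
    obtain ⟨htS, hsz⟩ := mem_filter.1 hp1
    obtain ⟨hT, hTc⟩ : T ⊆ ({l | t l ≠ 0} : Finset (Fin n)) ∧ #T = B := mem_powersetCard.1 hp2
    have hsz' : #({l | t l ≠ 0} : Finset (Fin n)) = B + j := hsz
    refine mem_coe.2 (mem_product.2 ⟨mem_filter.2 ⟨TailM_erase S hdown htS _, ?_⟩,
      mem_filter.2 ⟨TailM_erase S hdown htS _, ?_⟩⟩)
    · unfold sz
      exact (congrArg card (TailM_supp_keep t hT)).trans hTc
    · unfold sz
      refine (congrArg card (TailM_supp_erase t T)).trans ?_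
      rw [card_sdiff_of_subset hT, hsz', hTc]
      omega
  · rintro ⟨t, T⟩ hp ⟨t', T'⟩ hp' heq
    have hT : T ⊆ ({l | t l ≠ 0} : Finset (Fin n)) :=
      (mem_powersetCard.1 (mem_sigma.1 (mem_coe.1 hp)).2).1
    have hT' : T' ⊆ ({l | t' l ≠ 0} : Finset (Fin n)) :=
      (mem_powersetCard.1 (mem_sigma.1 (mem_coe.1 hp')).2).1
    simp only [Prod.mk.injEq] at heq
    obtain ⟨h1, h2⟩ := heq
    have hTT : T = T' := by
      have e1 := TailM_supp_keep t hT
      have e2 := TailM_supp_keep t' hT'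
      exact e1.symm.trans ((congrArg (fun f : Pat n => ({l | f l ≠ 0} : Finset (Fin n))) h1).trans e2)
    subst hTT
    have htt : t = t' := by
      funext l
      have a1 := congrFun h1 l
      have a2 := congrFun h2 l
      by_cases hl : l ∈ T
      · simpa [hl] using a1
      · simpa [hl] using a2
    subst htt
    rfl

/-- `Nat.pow_le_choose` and `B ! ≤ B ^ B`, or a direct induction. -/
theorem choose_ge (B j : ℕ) (hj : 8 * B ≤ j) : 8 ^ B ≤ (B + j).choose B := by
  induction B with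
  | zero => simp
  | succ B ih =>
    have h1 := ih (by omega)
    have h2 := Nat.add_one_mul_choose_eq (B + j) B
    have h3 : B + 1 + j = B + j + 1 := by omega
    rw [h3]
    refine Nat.le_of_mul_le_mul_right ?_ (Nat.succ_pos B)
    rw [← h2, pow_succ]
    calc 8 ^ B * 8 * B.succ = (8 * (B + 1)) * 8 ^ B := by rw [Nat.succ_eq_add_one]; ring
      _ ≤ (B + j + 1) * (B + j).choose B := Nat.mul_le_mul (by omega) h1

theorem TailM_sz_le (t : Pat n) : sz t ≤ n := by
  unfold sz
  exact (card_le_univ _).trans (by simp)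

theorem TailM_level (S : Finset (Pat n)) (z : ℝ) (j : ℕ) :
    ∑ t ∈ S.filter (fun t => sz t = j), z ^ sz t = #(S.filter fun t => sz t = j) * z ^ j := by
  rw [← nsmul_eq_mul, ← sum_const]
  exact sum_congr rfl fun t ht => by rw [(mem_filter.1 ht).2]

/-- With `z = 2/(8h)` and `s_j = ∑_{sz t = j} z^j`: for `j ≥ 8B`,
`s_{B+j} ≤ 2^B 2^B 8^{-B} s_j ≤ s_j / 2`.  So the total `M` satisfies
`M ≤ M0 + M/2`, where `M0` = the sum over `sz t ≤ 9B` is at most `(n+1)^(9B)` (`low_level`). -/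
theorem tailM {h B : ℕ} (hh : 0 < h) (hB : 1 ≤ B) (S : Finset (Pat n)) (hS : S ⊆ allPat n h)
    (hdown : ∀ t ∈ S, ∀ l, Function.update t l 0 ∈ S)
    (hZ : ∑ t ∈ S.filter (fun t => sz t = B), (1 / ((8 * h : ℕ) : ℝ)) ^ sz t ≤ 2 ^ B) :
    ∑ t ∈ S, (2 / ((8 * h : ℕ) : ℝ)) ^ sz t ≤ 2 * ((n : ℝ) + 1) ^ (9 * B) := by
  have hh' : (0 : ℝ) < h := by exact_mod_cast hh
  set w : ℝ := 1 / ((8 * h : ℕ) : ℝ) with hw
  have hzw : (2 / ((8 * h : ℕ) : ℝ)) = 2 * w := by rw [hw]; ring
  have hw0 : 0 ≤ w := by rw [hw]; positivity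
  rw [hzw]
  have hz0 : 0 ≤ 2 * w := by positivity
  have hz1 : (h : ℝ) * (2 * w) ≤ 1 := by
    rw [hw]; push_cast
    have : (h : ℝ) * (2 * (1 / (8 * (h : ℝ)))) = 1 / 4 := by field_simp; norm_num
    rw [this]; norm_num
  have hlow := low_level h (9 * B) (2 * w) hz0 hz1 S hS
  rw [TailM_level] at hZ
  -- the halving step
  have hhalf : ∀ j, 8 * B ≤ j → ∑ t ∈ S.filter (fun t => sz t = B + j), (2 * w) ^ sz t ≤
      (∑ t ∈ S.filter (fun t => sz t = j), (2 * w) ^ sz t) / 2 := by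
    intro j hj
    rw [TailM_level, TailM_level]
    have h1 : 8 ^ B * #(S.filter fun t => sz t = B + j) ≤
        #(S.filter fun t => sz t = B) * #(S.filter fun t => sz t = j) :=
      (Nat.mul_le_mul_right _ (choose_ge B j hj)).trans (level_submul S hdown B j)
    have h2 : (8 : ℝ) ^ B * #(S.filter fun t => sz t = B + j) ≤
        #(S.filter fun t => sz t = B) * #(S.filter fun t => sz t = j) := by exact_mod_cast h1
    set a : ℝ := (#(S.filter fun t => sz t = B + j) : ℝ)
    set b : ℝ := (#(S.filter fun t => sz t = B) : ℝ)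
    set c : ℝ := (#(S.filter fun t => sz t = j) : ℝ)
    have hc : 0 ≤ c := Nat.cast_nonneg _
    have ha : 0 ≤ a := Nat.cast_nonneg _
    have h8 : (8 : ℝ) ^ B = 2 ^ B * 2 ^ B * 2 ^ B := by
      rw [← mul_pow, ← mul_pow]; norm_num
    have h2B : (2 : ℝ) ≤ 2 ^ B := by
      calc (2 : ℝ) = 2 ^ 1 := by norm_num
        _ ≤ 2 ^ B := pow_le_pow_right₀ (by norm_num) hB
    have hp : (0 : ℝ) < 2 ^ B * 2 ^ B := by positivity
    have hzj : 0 ≤ (2 * w) ^ j := by positivity
    have hwB : 0 ≤ w ^ B := by positivity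
    have h3 : 2 ^ B * 2 ^ B * (2 ^ B * (a * (2 * w) ^ (B + j))) ≤
        2 ^ B * 2 ^ B * (c * (2 * w) ^ j) := by
      calc 2 ^ B * 2 ^ B * (2 ^ B * (a * (2 * w) ^ (B + j)))
          = (8 ^ B * a) * (2 ^ B * w ^ B * (2 * w) ^ j) := by
            rw [h8, pow_add, mul_pow 2 w B]; ring
        _ ≤ (b * c) * (2 ^ B * w ^ B * (2 * w) ^ j) :=
            mul_le_mul_of_nonneg_right h2 (by positivity)
        _ = (b * w ^ B) * (2 ^ B * (c * (2 * w) ^ j)) := by ring
        _ ≤ 2 ^ B * (2 ^ B * (c * (2 * w) ^ j)) :=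
            mul_le_mul_of_nonneg_right hZ (by positivity)
        _ = _ := by ring
    have h4 := le_of_mul_le_mul_left h3 hp
    have h5 : 0 ≤ a * (2 * w) ^ (B + j) := by positivity
    nlinarith
  have hM : ∑ j ∈ range (n + 1), ∑ t ∈ S.filter (fun t => sz t = j), (2 * w) ^ sz t =
      ∑ t ∈ S, (2 * w) ^ sz t :=
    sum_fiberwise_of_maps_to (fun t _ => mem_range.2 (Nat.lt_succ_of_le (TailM_sz_le t))) _
  have htail : ∑ t ∈ S.filter (fun t => ¬ sz t ≤ 9 * B), (2 * w) ^ sz t ≤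
      (∑ t ∈ S, (2 * w) ^ sz t) / 2 := by
    rw [← hM, sum_div, ← sum_fiberwise_of_maps_to (s := S.filter (fun t => ¬ sz t ≤ 9 * B))
      (t := range (n + 1)) (g := fun t => sz t - B)
      (fun t _ => mem_range.2 (by have := TailM_sz_le t; omega))]
    refine sum_le_sum fun j _ => ?_
    by_cases hj : 8 * B ≤ j
    · refine le_trans (sum_le_sum_of_subset_of_nonneg ?_ fun t _ _ => by positivity) (hhalf j hj)
      intro t ht
      simp only [mem_filter] at ht ⊢
      exact ⟨ht.1.1, by omega⟩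
    · have : (S.filter (fun t => ¬ sz t ≤ 9 * B)).filter (fun t => sz t - B = j) = ∅ := by
        refine filter_eq_empty_iff.2 fun t ht => ?_
        have := (mem_filter.1 ht).2
        omega
      rw [this, sum_empty]
      positivity
  have hsplit := sum_filter_add_sum_filter_not S (fun t => sz t ≤ 9 * B)
    (fun t => (2 * w) ^ sz t)
  linarith

end Pool.Agent.MP_9210c2_an.H87

/-!
Points of a cluster that leave the central cube in many coordinates.
-/

namespace Pool.Agent.MP_9210c2_an.H87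

open Finset
open scoped Classical

variable {n : ℕ}

lemma TailP_pow (m : ℕ) (t : Pat n) : m ^ sz t = ∏ l, (if t l ≠ 0 then m else 1) := by
  unfold sz
  rw [prod_ite]
  simp

lemma TailP_fib {m : ℕ} (hm : 0 < m) (k : Pt n) (a b : Pat n) (S : Finset (Pt n))
    (hS : ∀ y ∈ S, ∀ l, a l = (y l - (k l + m - 1)).toNat ∧ b l = (k l - y l).toNat) :
    #S * (m ^ sz a * m ^ sz b) ≤ m ^ n := by
  rcases S.eq_empty_or_nonempty with rfl | ⟨y0, hy0⟩
  · simp
  have hdis : ∀ l, a l = 0 ∨ b l = 0 := fun l => by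
    have := hS y0 hy0 l
    omega
  let T : Fin n → Finset ℤ := fun l =>
    if a l ≠ 0 then {k l + m - 1 + a l} else if b l ≠ 0 then {k l - b l} else Ico (k l) (k l + m)
  have hsub : S ⊆ Fintype.piFinset T := by
    intro y hy
    rw [Fintype.mem_piFinset]
    intro l
    have := hS y hy l
    simp only [T]
    split_ifs with h1 h2
    · rw [mem_singleton]; omega
    · rw [mem_singleton]; omega
    · rw [mem_Ico]; omega
  have hc := card_le_card hsub
  rw [Fintype.card_piFinset] at hc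
  calc #S * (m ^ sz a * m ^ sz b) ≤ (∏ l, #(T l)) * (m ^ sz a * m ^ sz b) :=
        Nat.mul_le_mul_right _ hc
    _ = ∏ _l : Fin n, m := by
        rw [TailP_pow, TailP_pow, ← prod_mul_distrib, ← prod_mul_distrib]
        refine prod_congr rfl fun l _ => ?_
        simp only [T]
        rcases hdis l with h | h
        · by_cases h2 : b l = 0
          · simp [h, h2]
          · simp [h, h2]
        · by_cases h2 : a l = 0
          · simp [h, h2]
          · simp [h, h2]
    _ = m ^ n := by simp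

lemma TailP_nout {m : ℕ} (hm : 0 < m) (k y : Pt n) :
    nout m k univ y = sz (fun l => (y l - (k l + m - 1)).toNat) +
      sz (fun l => (k l - y l).toNat) := by
  unfold nout sz
  rw [← card_union_of_disjoint]
  · congr 1
    ext l
    simp only [mem_filter, mem_univ, true_and, mem_union, inI]
    omega
  · rw [disjoint_filter]
    intro l _ h1 h2
    beta_reduce at h1 h2
    omega

/-- For `y` in the union put `tp l = (y l - (k l + m - 1)).toNat`, `tm l = (k l - y l).toNat`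
(`m = 8h`).  Then `tp ∈ reachPat true ..`, `tm ∈ reachPat false ..`, `nout = sz tp + sz tm`, and
the points with given `(tp, tm)` lie in a box with `m ^ (n - nout)` points.  Finally
`1 ≤ 2 ^ nout / 2 ^ b1` on the counted points. -/
theorem tail_pts {h : ℕ} (hh : 0 < h) (k : Pt n) (D : Finset (Pt n))
    (hD : ∀ c ∈ D, ∀ l, |c l - k l| ≤ (h : ℤ)) (b1 : ℕ) {M : ℝ}
    (hM : ∀ e, ∑ t ∈ reachPat e h k D, (2 / ((8 * h : ℕ) : ℝ)) ^ sz t ≤ M) :
    (#((U (8 * h) D).filter fun y => b1 < nout (8 * h) k univ y) : ℝ) * 2 ^ b1 ≤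
      ((8 * h : ℕ) : ℝ) ^ n * M ^ 2 := by
  have hm : 0 < 8 * h := by omega
  have hmR : (0 : ℝ) < ((8 * h : ℕ) : ℝ) := by exact_mod_cast hm
  set m : ℕ := 8 * h with hmdef
  set S := (U m D).filter fun y => b1 < nout m k univ y with hSdef
  let F : Pt n → Pat n × Pat n := fun y =>
    (fun l => (y l - (k l + m - 1)).toNat, fun l => (k l - y l).toNat)
  have hmaps : ∀ y ∈ S, F y ∈ reachPat true h k D ×ˢ reachPat false h k D := by
    intro y hy
    obtain ⟨c, hc, hyc⟩ := mem_U.1 (mem_filter.1 hy).1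
    rw [mem_Q] at hyc
    have hD' : ∀ l, -(h : ℤ) ≤ c l - k l ∧ c l - k l ≤ h := fun l => abs_le.1 (hD c hc l)
    rw [mem_product, mem_reachPat, mem_reachPat]
    refine ⟨⟨fun l => ?_, c, hc, fun l hl => ?_⟩, ⟨fun l => ?_, c, hc, fun l hl => ?_⟩⟩
    · have := hyc l; have := hD' l
      simp only [F]; omega
    · have := hyc l; have := hD' l
      simp only [F, prot, if_true] at hl ⊢; omega
    · have := hyc l; have := hD' l
      simp only [F]; omega
    · have := hyc l; have := hD' l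
      simp only [F, prot, Bool.false_eq_true, if_false] at hl ⊢; omega
  have hM0 : ∀ e, 0 ≤ ∑ t ∈ reachPat e h k D, (2 / (m : ℝ)) ^ sz t := fun e =>
    sum_nonneg fun t _ => by positivity
  calc (#S : ℝ) * 2 ^ b1 = ∑ _y ∈ S, (2 : ℝ) ^ b1 := by rw [sum_const, nsmul_eq_mul]
    _ ≤ ∑ y ∈ S, (2 : ℝ) ^ sz (F y).1 * 2 ^ sz (F y).2 := by
        refine sum_le_sum fun y hy => ?_
        rw [← pow_add]
        have h1 := (mem_filter.1 hy).2
        rw [TailP_nout hm] at h1
        exact pow_le_pow_right₀ (by norm_num) h1.le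
    _ = ∑ p ∈ reachPat true h k D ×ˢ reachPat false h k D, ∑ y ∈ S with F y = p,
          (2 : ℝ) ^ sz (F y).1 * 2 ^ sz (F y).2 :=
        (sum_fiberwise_of_maps_to hmaps _).symm
    _ ≤ ∑ p ∈ reachPat true h k D ×ˢ reachPat false h k D,
          (m : ℝ) ^ n * ((2 / (m : ℝ)) ^ sz p.1 * (2 / (m : ℝ)) ^ sz p.2) := by
        refine sum_le_sum fun p _ => ?_
        have h1 : ∑ y ∈ S with F y = p, (2 : ℝ) ^ sz (F y).1 * 2 ^ sz (F y).2 =
            (#(S.filter fun y => F y = p) : ℝ) * (2 ^ sz p.1 * 2 ^ sz p.2) := by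
          rw [← nsmul_eq_mul, ← sum_const]
          refine sum_congr rfl fun y hy => ?_
          rw [(mem_filter.1 hy).2]
        have h2 := TailP_fib hm k p.1 p.2 (S.filter fun y => F y = p) (fun y hy l => by
          rw [← (mem_filter.1 hy).2]
          exact ⟨rfl, rfl⟩)
        have h3 : (#(S.filter fun y => F y = p) : ℝ) * ((m : ℝ) ^ sz p.1 * (m : ℝ) ^ sz p.2) ≤
            (m : ℝ) ^ n := by exact_mod_cast h2
        rw [h1, div_pow, div_pow, div_mul_div_comm, ← mul_div_assoc, le_div_iff₀ (by positivity)]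
        calc (#(S.filter fun y => F y = p) : ℝ) * (2 ^ sz p.1 * 2 ^ sz p.2) *
              ((m : ℝ) ^ sz p.1 * (m : ℝ) ^ sz p.2)
            = (#(S.filter fun y => F y = p) : ℝ) * ((m : ℝ) ^ sz p.1 * (m : ℝ) ^ sz p.2) *
              (2 ^ sz p.1 * 2 ^ sz p.2) := by ring
          _ ≤ (m : ℝ) ^ n * (2 ^ sz p.1 * 2 ^ sz p.2) :=
              mul_le_mul_of_nonneg_right h3 (by positivity)
    _ = (m : ℝ) ^ n * ((∑ t ∈ reachPat true h k D, (2 / (m : ℝ)) ^ sz t) *
          ∑ t ∈ reachPat false h k D, (2 / (m : ℝ)) ^ sz t) := by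
        rw [← mul_sum, sum_product, sum_mul_sum]
    _ ≤ (m : ℝ) ^ n * M ^ 2 := by
        refine mul_le_mul_of_nonneg_left ?_ (by positivity)
        rw [sq]
        exact mul_le_mul (hM true) (hM false) (hM0 false) ((hM0 true).trans (hM true))

end Pool.Agent.MP_9210c2_an.H87

/-!
Decision trees for unions of boxes.
-/

namespace Pool.Agent.MP_9210c2_an.H87

open Finset
open scoped Classical

variable {n : ℕ}

/-- The witnesses whose box is consistent with `y` on the coordinates of `T`. -/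
noncomputable def cons {κ : Type*} (𝒲 : Finset κ) (A : κ → Fin n → Finset ℤ) (T : Finset (Fin n))
    (y : Pt n) : Finset κ := 𝒲.filter fun w => ∀ l ∈ T, y l ∈ A w l

/-- The first witness containing `y` is already determined by the coordinates in `Jᶜ ∪ S`. -/
def Term {κ : Type*} [LinearOrder κ] (𝒲 : Finset κ) (A : κ → Fin n → Finset ℤ)
    (J S : Finset (Fin n)) (y : Pt n) : Prop :=
  (cons 𝒲 A (Jᶜ ∪ S) y).min = (cons 𝒲 A univ y).min

/-- Covered points without a short terminal set. -/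
noncomputable def Bad {κ : Type*} [LinearOrder κ] (𝒲 : Finset κ) (A : κ → Fin n → Finset ℤ)
    (X : Fin n → Finset ℤ) (J : Finset (Fin n)) (M : ℕ) : Finset (Pt n) :=
  (Fintype.piFinset X).filter fun y =>
    (cons 𝒲 A univ y).Nonempty ∧ ¬ ∃ S ⊆ J, #S ≤ M ∧ Term 𝒲 A J S y

/-- The bad predicate with a strict bound on the size. -/
def Tree_P {κ : Type*} [LinearOrder κ] (𝒲 : Finset κ) (A : κ → Fin n → Finset ℤ)
    (J : Finset (Fin n)) (M : ℕ) (y : Pt n) : Prop :=
  (cons 𝒲 A univ y).Nonempty ∧ ¬ ∃ S ⊆ J, #S < M ∧ Term 𝒲 A J S y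

lemma Tree_mem_cons {κ : Type*} {𝒲 : Finset κ} {A : κ → Fin n → Finset ℤ} {T : Finset (Fin n)}
    {y : Pt n} {w : κ} : w ∈ cons 𝒲 A T y ↔ w ∈ 𝒲 ∧ ∀ l ∈ T, y l ∈ A w l := by
  simp [cons]

lemma Tree_cons_anti {κ : Type*} (𝒲 : Finset κ) (A : κ → Fin n → Finset ℤ) {T T' : Finset (Fin n)}
    (h : T ⊆ T') (y : Pt n) : cons 𝒲 A T' y ⊆ cons 𝒲 A T y := by
  intro w hw
  rw [Tree_mem_cons] at hw ⊢
  exact ⟨hw.1, fun l hl => hw.2 l (h hl)⟩

lemma Tree_card_update (X : Fin n → Finset ℤ) (l : Fin n) (v : ℤ) :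
    #(Fintype.piFinset (Function.update X l {v})) * #(X l) = #(Fintype.piFinset X) := by
  rw [Fintype.card_piFinset, Fintype.card_piFinset,
    ← Finset.mul_prod_erase univ (fun i => #(Function.update X l {v} i)) (mem_univ l),
    ← Finset.mul_prod_erase univ (fun i => #(X i)) (mem_univ l)]
  have h : ∏ i ∈ univ.erase l, #(Function.update X l {v} i) = ∏ i ∈ univ.erase l, #(X i) :=
    prod_congr rfl fun i hi => by rw [Function.update_of_ne (ne_of_mem_erase hi)]
  rw [h]
  simp [mul_comm]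

lemma Tree_step {κ : Type*} [LinearOrder κ] {𝒲 : Finset κ} {A : κ → Fin n → Finset ℤ}
    {J : Finset (Fin n)} {M : ℕ} {y : Pt n} (h : Tree_P 𝒲 A J (M + 1) y) {l : Fin n}
    (hl : l ∈ J) : Tree_P 𝒲 A (J.erase l) M y := by
  refine ⟨h.1, fun ⟨S, hS, hM, hT⟩ => h.2 ⟨insert l S, ?_, ?_, ?_⟩⟩
  · exact insert_subset hl (hS.trans (erase_subset _ _))
  · exact lt_of_le_of_lt (card_insert_le _ _) (by omega)
  · unfold Term at hT ⊢
    have e : Jᶜ ∪ insert l S = (J.erase l)ᶜ ∪ S := by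
      ext i
      simp only [mem_union, mem_compl, mem_insert, mem_erase]
      tauto
    rw [e]
    exact hT

lemma Tree_out {κ : Type*} [LinearOrder κ] {𝒲 : Finset κ} {A : κ → Fin n → Finset ℤ}
    {J : Finset (Fin n)} {M : ℕ} {y : Pt n} (h : Tree_P 𝒲 A J (M + 1) y) {w : κ}
    (hw : (cons 𝒲 A Jᶜ y).min = (w : WithTop κ)) : ∃ l ∈ J, y l ∉ A w l := by
  by_contra hc
  push Not at hc
  refine h.2 ⟨∅, empty_subset _, by simp, ?_⟩
  unfold Term
  rw [union_empty, hw]
  have hw1 := Finset.mem_of_min hw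
  have hw2 : w ∈ cons 𝒲 A univ y := by
    rw [Tree_mem_cons] at hw1 ⊢
    refine ⟨hw1.1, fun l _ => ?_⟩
    by_cases hl : l ∈ J
    · exact hc l hl
    · exact hw1.2 l (mem_compl.2 hl)
  refine le_antisymm ?_ (Finset.min_le hw2)
  rw [← hw]
  exact Finset.min_mono (Tree_cons_anti 𝒲 A (subset_univ _) y)

lemma Tree_fib {κ : Type*} [LinearOrder κ] (𝒲 : Finset κ) (A : κ → Fin n → Finset ℤ) (M : ℕ) :
    ∀ (J : Finset (Fin n)) (X : Fin n → Finset ℤ), (∀ l, (X l).Nonempty) →
      (∀ l ∉ J, ∀ a ∈ X l, ∀ b ∈ X l, a = b) →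
      (∀ w ∈ 𝒲, ∑ l ∈ J, (#(X l \ A w l) : ℝ) / #(X l) ≤ 1 / 2) →
      2 ^ M * #((Fintype.piFinset X).filter (Tree_P 𝒲 A J M)) ≤ #(Fintype.piFinset X) := by
  induction M with
  | zero =>
    intro J X _ _ _
    rw [pow_zero, one_mul]
    exact card_filter_le _ _
  | succ M ih =>
    intro J X hX hs hm
    rcases ((Fintype.piFinset X).filter (Tree_P 𝒲 A J (M + 1))).eq_empty_or_nonempty with h0 | h0
    · rw [h0]; simp
    obtain ⟨y0, hy0⟩ := h0
    rw [mem_filter] at hy0
    have hne : (cons 𝒲 A Jᶜ y0).Nonempty := hy0.2.1.mono (Tree_cons_anti 𝒲 A (subset_univ _) y0)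
    obtain ⟨w, hw⟩ := Finset.min_of_nonempty hne
    have hwW : w ∈ 𝒲 := (Tree_mem_cons.1 (Finset.mem_of_min hw)).1
    have hsame : ∀ y ∈ Fintype.piFinset X, cons 𝒲 A Jᶜ y = cons 𝒲 A Jᶜ y0 := by
      intro y hy
      have e : ∀ l ∈ Jᶜ, y l = y0 l := fun l hl =>
        hs l (mem_compl.1 hl) _ (Fintype.mem_piFinset.1 hy l) _ (Fintype.mem_piFinset.1 hy0.1 l)
      ext u
      rw [Tree_mem_cons, Tree_mem_cons]
      refine and_congr_right fun _ => forall₂_congr fun l hl => ?_
      rw [e l hl]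
    have hsub : (Fintype.piFinset X).filter (Tree_P 𝒲 A J (M + 1)) ⊆
        J.biUnion fun l => (X l \ A w l).biUnion fun v =>
          (Fintype.piFinset (Function.update X l {v})).filter (Tree_P 𝒲 A (J.erase l) M) := by
      intro y hy
      rw [mem_filter] at hy
      obtain ⟨l, hl, hyl⟩ := Tree_out hy.2 ((congrArg Finset.min (hsame y hy.1)).trans hw)
      rw [mem_biUnion]
      refine ⟨l, hl, mem_biUnion.2 ⟨y l, mem_sdiff.2 ⟨Fintype.mem_piFinset.1 hy.1 l, hyl⟩, ?_⟩⟩
      rw [mem_filter]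
      refine ⟨Fintype.mem_piFinset.2 fun i => ?_, Tree_step hy.2 hl⟩
      by_cases hi : i = l
      · subst hi; simp
      · rw [Function.update_of_ne hi]; exact Fintype.mem_piFinset.1 hy.1 i
    have hone : ∀ l ∈ J, ∀ v : ℤ,
        (2 : ℝ) ^ M * #((Fintype.piFinset (Function.update X l {v})).filter
          (Tree_P 𝒲 A (J.erase l) M)) ≤ (#(Fintype.piFinset X) : ℝ) / #(X l) := by
      intro l hl v
      have hpos : (0 : ℝ) < #(X l) := by exact_mod_cast (hX l).card_pos
      have h1 := ih (J.erase l) (Function.update X l {v}) (fun i => by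
          by_cases hi : i = l
          · subst hi; simp
          · rw [Function.update_of_ne hi]; exact hX i)
        (fun i hi a ha b hb => by
          by_cases hil : i = l
          · subst hil
            simp only [Function.update_self, mem_singleton] at ha hb
            rw [ha, hb]
          · rw [Function.update_of_ne hil] at ha hb
            exact hs i (fun hJ => hi (mem_erase.2 ⟨hil, hJ⟩)) a ha b hb)
        (fun u hu => by
          refine le_trans ?_ (hm u hu)
          refine le_trans (le_of_eq (sum_congr rfl fun i hi => ?_))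
            (sum_le_sum_of_subset_of_nonneg (erase_subset l J) fun i _ _ => by positivity)
          rw [Function.update_of_ne (ne_of_mem_erase hi)])
      rw [le_div_iff₀ hpos, ← Tree_card_update X l v]
      push_cast
      refine mul_le_mul_of_nonneg_right ?_ hpos.le
      exact_mod_cast h1
    have hc : (#((Fintype.piFinset X).filter (Tree_P 𝒲 A J (M + 1))) : ℝ) ≤
        ∑ l ∈ J, ∑ v ∈ X l \ A w l, (#((Fintype.piFinset (Function.update X l {v})).filter
          (Tree_P 𝒲 A (J.erase l) M)) : ℝ) := by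
      have h1 := (card_le_card hsub).trans (card_biUnion_le.trans
        (sum_le_sum fun l _ => card_biUnion_le))
      exact_mod_cast h1
    have h2 : (2 : ℝ) ^ M * #((Fintype.piFinset X).filter (Tree_P 𝒲 A J (M + 1))) ≤
        (∑ l ∈ J, (#(X l \ A w l) : ℝ) / #(X l)) * #(Fintype.piFinset X) := by
      refine (mul_le_mul_of_nonneg_left hc (by positivity)).trans ?_
      rw [mul_sum, sum_mul]
      refine sum_le_sum fun l hl => ?_
      rw [mul_sum]
      refine (sum_le_sum fun v _ => hone l hl v).trans (le_of_eq ?_)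
      rw [sum_const, nsmul_eq_mul]
      ring
    have h3 := h2.trans (mul_le_mul_of_nonneg_right (hm w hwW) (Nat.cast_nonneg _))
    have h4 : (2 : ℝ) ^ (M + 1) * #((Fintype.piFinset X).filter (Tree_P 𝒲 A J (M + 1))) ≤
        #(Fintype.piFinset X) := by
      rw [pow_succ]; linarith
    exact_mod_cast h4

/-- Induction on `M`, for all `J` with mass at most `1/2` (subsets of `J` qualify) and fibrewise:
for `z : Pt n` let `fib J z = Fintype.piFinset fun l => if l ∈ J then X l else {z l}`; claim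
`2^(M+1) * #(Bad .. J M ∩ fib J z) ≤ #(fib J z) = ∏ l ∈ J, #(X l)`.
On the fibre, `cons 𝒲 A Jᶜ y` does not depend on `y`; let `w1` be its minimum (it is nonempty if
there is a bad point).  A bad `y` is not in the box of `w1` (else `S = ∅` is terminal), so
`y l ∈ X l \ A w1 l` for some `l ∈ J`.  For `M = 0` count directly; for `M + 1` note that `y` is
bad for `(J.erase l, M)` (if `S` is terminal for `J.erase l` then `insert l S` is terminal for `J`,
as `(J.erase l)ᶜ ∪ S = Jᶜ ∪ insert l S`) and lies in `fib (J.erase l) (Function.update z l v)`,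
`v = y l`.  Sum over `(l, v)`.  Then sum over the fibres (`Finset.card_eq_sum_card_fiberwise`
for the map `y ↦ fun l => if l ∈ J then 0 else y l`). -/
theorem tree {κ : Type*} [LinearOrder κ] (𝒲 : Finset κ) (A : κ → Fin n → Finset ℤ)
    (X : Fin n → Finset ℤ) (hX : ∀ l, (X l).Nonempty) (J : Finset (Fin n))
    (hmass : ∀ w ∈ 𝒲, ∑ l ∈ J, (#(X l \ A w l) : ℝ) / #(X l) ≤ 1 / 2) (M : ℕ) :
    2 ^ (M + 1) * #(Bad 𝒲 A X J M) ≤ #(Fintype.piFinset X) := by
  have hB : Bad 𝒲 A X J M = (Fintype.piFinset X).filter (Tree_P 𝒲 A J (M + 1)) := by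
    ext y
    simp only [Bad, mem_filter, Tree_P, Nat.lt_succ_iff]
  rw [hB]
  set f : Pt n → Fin n → Finset ℤ := fun y l => if l ∈ J then X l else {y l} with hf
  have hfib : ∀ y0 ∈ Fintype.piFinset X,
      (Fintype.piFinset X).filter (fun y => f y = f y0) = Fintype.piFinset (f y0) := by
    intro y0 hy0
    ext y
    rw [mem_filter, Fintype.mem_piFinset, Fintype.mem_piFinset]
    constructor
    · rintro ⟨h1, h2⟩ l
      rw [← h2]
      by_cases hl : l ∈ J <;> simp [hf, hl, h1 l]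
    · intro h
      have h' : ∀ l ∉ J, y l = y0 l := fun l hl => by simpa [hf, hl] using h l
      refine ⟨fun l => ?_, funext fun l => ?_⟩
      · by_cases hl : l ∈ J
        · simpa [hf, hl] using h l
        · rw [h' l hl]; exact Fintype.mem_piFinset.1 hy0 l
      · by_cases hl : l ∈ J
        · simp [hf, hl]
        · simp [hf, hl, h' l hl]
  rw [card_eq_sum_card_fiberwise (f := f) (t := (Fintype.piFinset X).image f)
      (s := (Fintype.piFinset X).filter (Tree_P 𝒲 A J (M + 1)))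
      (fun y hy => mem_coe.2 (mem_image_of_mem f (mem_filter.1 (mem_coe.1 hy)).1)),
    card_eq_sum_card_fiberwise (f := f) (t := (Fintype.piFinset X).image f)
      (s := Fintype.piFinset X) (fun y hy => mem_coe.2 (mem_image_of_mem f (mem_coe.1 hy))),
    mul_sum]
  refine sum_le_sum fun Y hY => ?_
  obtain ⟨y0, hy0, rfl⟩ := mem_image.1 hY
  rw [filter_comm, hfib y0 hy0]
  refine Tree_fib 𝒲 A (M + 1) J (f y0) (fun l => ?_) (fun l hl a ha b hb => ?_) (fun w hw => ?_)
  · by_cases hl : l ∈ J <;> simp [hf, hl, hX l]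
  · simp only [hf, hl, if_false, mem_singleton] at ha hb
    rw [ha, hb]
  · refine le_trans (le_of_eq (sum_congr rfl fun l hl => ?_)) (hmass w hw)
    simp [hf, hl]

end Pool.Agent.MP_9210c2_an.H87

/-!
A set covered by large boxes has a large part in one box.
-/

namespace Pool.Agent.MP_9210c2_an.H87

open Finset
open scoped Classical

variable {n : ℕ}

lemma Dnf_cons_congr {κ : Type*} (𝒲 : Finset κ) (A : κ → Fin n → Finset ℤ) (T : Finset (Fin n))
    (y y' : Pt n) (h : ∀ l ∈ T, y' l = y l) : cons 𝒲 A T y' = cons 𝒲 A T y := by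
  unfold cons
  refine Finset.filter_congr fun w _ => ?_
  constructor
  · intro hw l hl
    rw [← h l hl]
    exact hw l hl
  · intro hw l hl
    rw [h l hl]
    exact hw l hl

lemma Dnf_card_box (X : Fin n → Finset ℤ) :
    (#(Fintype.piFinset X) : ℝ) = ∏ l, (#(X l) : ℝ) := by
  rw [Fintype.card_piFinset]
  push_cast
  rfl

lemma Dnf_box_pos (X : Fin n → Finset ℤ) (hX : ∀ l, (X l).Nonempty) :
    (0 : ℝ) < #(Fintype.piFinset X) := by
  rw [Dnf_card_box]
  exact Finset.prod_pos fun l _ => by exact_mod_cast (hX l).card_pos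

/-- The number of keys. -/
lemma Dnf_keys (X : Fin n → Finset ℤ) (q : ℕ) (hq : ∀ l, #(X l) ≤ q) (M : ℕ)
    (P : Fin n → Prop) [DecidablePred P] (G : Finset (Pt n)) (hGX : G ⊆ Fintype.piFinset X)
    (S : Pt n → Finset (Fin n)) (hS : ∀ y ∈ G, #(S y) ≤ M) :
    (∏ l ∈ univ.filter P, (#(X l) : ℝ)) *
      #(G.image fun y => ((fun l => if P l then (0 : ℤ) else y l),
        (fun l => if l ∈ S y then some (y l) else none))) ≤
      #(Fintype.piFinset X) * (1 + (n : ℝ) * q) ^ M := by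
  set k1 : Pt n → Pt n := fun y l => if P l then (0 : ℤ) else y l with hk1
  set k2 : Pt n → Fin n → Option ℤ := fun y l => if l ∈ S y then some (y l) else none with hk2
  have hsub : (G.image fun y => (k1 y, k2 y)) ⊆
      (Fintype.piFinset fun l => if P l then {0} else X l) ×ˢ (G.image k2) := by
    intro z hz
    obtain ⟨y, hy, rfl⟩ := Finset.mem_image.mp hz
    refine Finset.mem_product.mpr ⟨?_, Finset.mem_image_of_mem _ hy⟩
    refine Fintype.mem_piFinset.mpr fun l => ?_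
    by_cases h : P l
    · simp [hk1, h]
    · simp only [hk1, h, if_false]
      exact Fintype.mem_piFinset.mp (hGX hy) l
  have h2 : #(G.image k2) ≤ (1 + Fintype.card (Fin n) * q) ^ M := by
    refine cnt_sparse (fun l => (X l).image some) (fun _ => none) q M
      (fun l => Finset.card_image_le.trans (hq l)) _ ?_ ?_
    · intro f hf l
      obtain ⟨y, hy, rfl⟩ := Finset.mem_image.mp hf
      by_cases h : l ∈ S y
      · right
        simp only [hk2, h, if_true]
        exact Finset.mem_image_of_mem _ (Fintype.mem_piFinset.mp (hGX hy) l)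
      · left
        simp [hk2, h]
    · intro f hf
      obtain ⟨y, hy, rfl⟩ := Finset.mem_image.mp hf
      refine le_trans (Finset.card_le_card ?_) (hS y hy)
      intro l hl
      by_contra h
      simp [hk2, h] at hl
  have h2' : (#(G.image k2) : ℝ) ≤ (1 + (n : ℝ) * q) ^ M := by
    rw [Fintype.card_fin] at h2
    exact_mod_cast h2
  have h1 : (#(Fintype.piFinset fun l => if P l then ({0} : Finset ℤ) else X l) : ℝ) =
      ∏ l ∈ univ.filter (fun l => ¬ P l), (#(X l) : ℝ) := by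
    rw [Dnf_card_box, Finset.prod_filter]
    refine Finset.prod_congr rfl fun l _ => ?_
    by_cases h : P l <;> simp [h]
  have h3 : (#(G.image fun y => (k1 y, k2 y)) : ℝ) ≤
      (∏ l ∈ univ.filter (fun l => ¬ P l), (#(X l) : ℝ)) * (1 + (n : ℝ) * q) ^ M := by
    have h4 := Finset.card_le_card hsub
    rw [Finset.card_product] at h4
    have h5 : (#(G.image fun y => (k1 y, k2 y)) : ℝ) ≤
        (#(Fintype.piFinset fun l => if P l then ({0} : Finset ℤ) else X l) : ℝ) *
          #(G.image k2) := by exact_mod_cast h4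
    rw [h1] at h5
    exact h5.trans (mul_le_mul_of_nonneg_left h2'
      (Finset.prod_nonneg fun l _ => Nat.cast_nonneg _))
  have h6 : (∏ l ∈ univ.filter P, (#(X l) : ℝ)) *
      ∏ l ∈ univ.filter (fun l => ¬ P l), (#(X l) : ℝ) = #(Fintype.piFinset X) := by
    rw [Finset.prod_filter_mul_prod_filter_not, Dnf_card_box]
  calc (∏ l ∈ univ.filter P, (#(X l) : ℝ)) * #(G.image fun y => (k1 y, k2 y))
      ≤ (∏ l ∈ univ.filter P, (#(X l) : ℝ)) *
        ((∏ l ∈ univ.filter (fun l => ¬ P l), (#(X l) : ℝ)) * (1 + (n : ℝ) * q) ^ M) :=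
        mul_le_mul_of_nonneg_left h3 (Finset.prod_nonneg fun l _ => Nat.cast_nonneg _)
    _ = #(Fintype.piFinset X) * (1 + (n : ℝ) * q) ^ M := by rw [← mul_assoc, h6]

/-- Removing the bad points keeps half of the points. -/
lemma Dnf_good {κ : Type*} [LinearOrder κ] (𝒲 : Finset κ) (A : κ → Fin n → Finset ℤ)
    (X : Fin n → Finset ℤ) (hX : ∀ l, (X l).Nonempty) (r M : ℕ) (J : ℕ → Finset (Fin n))
    (hmass : ∀ w ∈ 𝒲, ∀ a, ∑ l ∈ J a, (#(X l \ A w l) : ℝ) / #(X l) ≤ 1 / 2)
    (G : Finset (Pt n)) {β : ℝ} (hGβ : β * #(Fintype.piFinset X) ≤ #G)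
    (hM : (r : ℝ) ≤ β * 2 ^ M) :
    β / 2 * #(Fintype.piFinset X) ≤
      #(G \ (range r).biUnion fun a => Bad 𝒲 A X (J a) M) := by
  set N : ℝ := ((#(Fintype.piFinset X) : ℕ) : ℝ) with hN
  have hN0 : 0 ≤ N := Nat.cast_nonneg _
  have h2 : (0 : ℝ) < 2 ^ M := by positivity
  have hb : ∀ a, (#(Bad 𝒲 A X (J a) M) : ℝ) ≤ N / (2 * 2 ^ M) := by
    intro a
    have h := tree 𝒲 A X hX (J a) (fun w hw => hmass w hw a) M
    have h' : (2 : ℝ) ^ (M + 1) * #(Bad 𝒲 A X (J a) M) ≤ N := by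
      rw [hN]
      exact_mod_cast h
    rw [le_div_iff₀ (by positivity)]
    rw [pow_succ] at h'
    linarith
  have hU : (#((range r).biUnion fun a => Bad 𝒲 A X (J a) M) : ℝ) ≤ β / 2 * N := by
    have h : (#((range r).biUnion fun a => Bad 𝒲 A X (J a) M) : ℝ) ≤
        ∑ a ∈ range r, (#(Bad 𝒲 A X (J a) M) : ℝ) := by
      exact_mod_cast Finset.card_biUnion_le
    refine h.trans ((Finset.sum_le_sum fun a _ => hb a).trans ?_)
    rw [Finset.sum_const, Finset.card_range, nsmul_eq_mul]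
    calc (r : ℝ) * (N / (2 * 2 ^ M)) ≤ (β * 2 ^ M) * (N / (2 * 2 ^ M)) :=
          mul_le_mul_of_nonneg_right hM (by positivity)
      _ = β / 2 * N := by field_simp
  have hs : (#G : ℝ) ≤ #(G \ (range r).biUnion fun a => Bad 𝒲 A X (J a) M) +
      #((range r).biUnion fun a => Bad 𝒲 A X (J a) M) := by
    exact_mod_cast Finset.card_le_card_sdiff_add_card
  linarith

/-- The version with a common grouping of the coordinates.  `r` groups `J a = {l | grp l = a}`.
Remove `Bad 𝒲 A X (J a) M` for all `a < r` (`tree`): at least `β #box / 2` points remain.  For a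
remaining `y` choose terminal sets `S a y ⊆ J a`, `#(S a y) ≤ M`, and put
`key a y = (fun l => if grp l = a then 0 else y l, fun l => if l ∈ S a y then some (y l) else none)`.
There are at most `(∏ l ∉ J a, #(X l)) * (1 + n q)^M` keys (`cnt_sparse`).  Apply `core` with
`d a = δ * ∏ l ∈ J a, #(X l)`.  Equal keys give the same first witness
`I y = (cons 𝒲 A univ y).min` and agreement outside group `a`; apply `path` to the points of the
core with a given first witness.  `∏ a < r, d a = δ^r #box` (`Finset.prod_fiberwise_of_maps_to`). -/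
theorem dnf_grp {κ : Type*} [LinearOrder κ] (𝒲 : Finset κ) (A : κ → Fin n → Finset ℤ)
    (X : Fin n → Finset ℤ) (hX : ∀ l, (X l).Nonempty) (q : ℕ) (hq : ∀ l, #(X l) ≤ q) (r M : ℕ)
    (grp : Fin n → ℕ) (hg : ∀ l, grp l < r)
    (hmass : ∀ w ∈ 𝒲, ∀ a, ∑ l ∈ univ.filter (fun l => grp l = a),
      (#(X l \ A w l) : ℝ) / #(X l) ≤ 1 / 2)
    (G : Finset (Pt n)) (hGX : G ⊆ Fintype.piFinset X)
    (hG : ∀ y ∈ G, ∃ w ∈ 𝒲, ∀ l, y l ∈ A w l) {β δ : ℝ} (hβ : 0 < β)
    (hGβ : β * #(Fintype.piFinset X) ≤ #G) (hM : (r : ℝ) ≤ β * 2 ^ M) (hδ0 : 0 ≤ δ)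
    (hδ : δ * (4 * r * (1 + (n : ℝ) * q) ^ M) ≤ β) :
    ∃ w ∈ 𝒲, δ ^ r * #(Fintype.piFinset X) ≤ #(G.filter fun y => ∀ l, y l ∈ A w l) := by
  set J : ℕ → Finset (Fin n) := fun a => univ.filter (fun l => grp l = a) with hJ
  set G' : Finset (Pt n) := G \ (range r).biUnion fun a => Bad 𝒲 A X (J a) M with hG'
  have hNpos := Dnf_box_pos X hX
  have hgood : β / 2 * #(Fintype.piFinset X) ≤ #G' := Dnf_good 𝒲 A X hX r M J hmass G hGβ hM
  have hG'G : G' ⊆ G := Finset.sdiff_subset
  have hcov : ∀ y ∈ G, (cons 𝒲 A univ y).Nonempty := by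
    intro y hy
    obtain ⟨w, hw, hyw⟩ := hG y hy
    exact ⟨w, Finset.mem_filter.mpr ⟨hw, fun l _ => hyw l⟩⟩
  have hex : ∀ a, ∀ y : Pt n, ∃ S : Finset (Fin n),
      a < r → y ∈ G' → #S ≤ M ∧ Term 𝒲 A (J a) S y := by
    intro a y
    by_cases h : a < r ∧ y ∈ G'
    · obtain ⟨ha, hy⟩ := h
      have hy' := Finset.mem_sdiff.mp hy
      have hnb : y ∉ Bad 𝒲 A X (J a) M := fun hb =>
        hy'.2 (Finset.mem_biUnion.mpr ⟨a, Finset.mem_range.mpr ha, hb⟩)
      have : ∃ S ⊆ J a, #S ≤ M ∧ Term 𝒲 A (J a) S y := by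
        by_contra hc
        exact hnb (Finset.mem_filter.mpr ⟨hGX hy'.1, hcov y hy'.1, hc⟩)
      obtain ⟨S, _, hS⟩ := this
      exact ⟨S, fun _ _ => hS⟩
    · exact ⟨∅, fun ha hy => absurd ⟨ha, hy⟩ h⟩
  choose S hS using hex
  set key : ℕ → Pt n → Pt n × (Fin n → Option ℤ) := fun a y =>
    ((fun l => if grp l = a then (0 : ℤ) else y l),
      (fun l => if l ∈ S a y then some (y l) else none)) with hkey
  set d : ℕ → ℝ := fun a => δ * ∏ l ∈ J a, (#(X l) : ℝ) with hd
  have hd0 : ∀ a, 0 ≤ d a := fun a =>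
    mul_nonneg hδ0 (Finset.prod_nonneg fun l _ => Nat.cast_nonneg _)
  have hsum : ∑ a ∈ range r, d a * #(G'.image (key a)) < #G' := by
    have h1 : ∀ a ∈ range r, d a * #(G'.image (key a)) ≤
        δ * (#(Fintype.piFinset X) * (1 + (n : ℝ) * q) ^ M) := by
      intro a ha
      have h := Dnf_keys X q hq M (fun l => grp l = a) G' (hG'G.trans hGX) (S a)
        (fun y hy => (hS a y (Finset.mem_range.mp ha) hy).1)
      rw [hd]
      simp only
      rw [mul_assoc]
      refine mul_le_mul_of_nonneg_left ?_ hδ0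
      convert h
    refine lt_of_le_of_lt (Finset.sum_le_sum h1) ?_
    rw [Finset.sum_const, Finset.card_range, nsmul_eq_mul]
    have h2 : (r : ℝ) * (δ * (#(Fintype.piFinset X) * (1 + (n : ℝ) * q) ^ M)) =
        δ * (4 * r * (1 + (n : ℝ) * q) ^ M) * (#(Fintype.piFinset X) / 4) := by ring
    have h3 : δ * (4 * r * (1 + (n : ℝ) * q) ^ M) * ((#(Fintype.piFinset X) : ℝ) / 4) ≤
        β * (#(Fintype.piFinset X) / 4) := mul_le_mul_of_nonneg_right hδ (by positivity)
    have h4 : 0 < β * (#(Fintype.piFinset X) : ℝ) := mul_pos hβ hNpos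
    rw [h2]
    linarith
  obtain ⟨Qc, hQG, ⟨y0, hy0⟩, hQ⟩ := core G' r key d hd0 hsum
  obtain ⟨w, hw⟩ := Finset.min_of_nonempty (hcov y0 (hG'G (hQG hy0)))
  have hwmem : w ∈ 𝒲 := (Finset.mem_filter.mp (Finset.mem_of_min hw)).1
  refine ⟨w, hwmem, ?_⟩
  set Q' : Finset (Pt n) := Qc.filter (fun y => (cons 𝒲 A univ y).min = (w : WithTop κ)) with hQ'
  have hpath : ∏ a ∈ range r, d a ≤ #Q' := by
    refine path grp r hg Q' ⟨y0, Finset.mem_filter.mpr ⟨hy0, hw⟩⟩ d hd0 ?_
    intro y hy a ha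
    obtain ⟨hyQ, hyw⟩ := Finset.mem_filter.mp hy
    refine (hQ y hyQ a ha).trans ?_
    refine Nat.cast_le.mpr (Finset.card_le_card ?_)
    intro y' hy'
    obtain ⟨hy'Q, hk⟩ := Finset.mem_filter.mp hy'
    have hk1 : ∀ l, grp l ≠ a → y' l = y l := by
      intro l hl
      have := congrFun (congrArg Prod.fst hk) l
      simpa [hkey, hl] using this
    have hk2 : ∀ l, (if l ∈ S a y' then some (y' l) else none) =
        (if l ∈ S a y then some (y l) else none) := fun l => congrFun (congrArg Prod.snd hk) l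
    have hSS : S a y' = S a y := by
      ext l
      have := hk2 l
      by_cases h1 : l ∈ S a y' <;> by_cases h2 : l ∈ S a y <;> simp_all
    have hag : ∀ l ∈ (J a)ᶜ ∪ S a y, y' l = y l := by
      intro l hl
      rcases Finset.mem_union.mp hl with h | h
      · refine hk1 l ?_
        simpa [hJ] using h
      · have := hk2 l
        rw [hSS] at this
        simpa [h] using this
    refine Finset.mem_filter.mpr ⟨Finset.mem_filter.mpr ⟨hy'Q, ?_⟩, hk1⟩
    have t1 := (hS a y' ha (hQG hy'Q)).2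
    have t2 := (hS a y ha (hQG hyQ)).2
    unfold Term at t1 t2
    rw [← t1, hSS, Dnf_cons_congr 𝒲 A _ y y' hag, t2, hyw]
  have hprod : ∏ a ∈ range r, d a = δ ^ r * #(Fintype.piFinset X) := by
    rw [hd]
    simp only
    rw [Finset.prod_mul_distrib, Finset.prod_const, Finset.card_range, Dnf_card_box]
    congr 1
    exact Finset.prod_fiberwise_of_maps_to (fun l _ => Finset.mem_range.mpr (hg l)) _
  rw [← hprod]
  refine hpath.trans (Nat.cast_le.mpr (Finset.card_le_card ?_))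
  intro y hy
  obtain ⟨hyQ, hyw⟩ := Finset.mem_filter.mp hy
  refine Finset.mem_filter.mpr ⟨hG'G (hQG hyQ), fun l => ?_⟩
  exact (Finset.mem_filter.mp (Finset.mem_of_min hyw)).2 l (Finset.mem_univ l)

/-- Choose for every witness a grouping (`grouping`), pigeonhole on the grouping of a witness of
`y` (at most `(n+1)^r` groupings by `cnt_mono`, `r = 4 lam + 1`), put a linear order on the
witnesses (for instance `linearOrderOfSTO WellOrderingRel`, or transport along
`𝒲.equivFin`) and use `dnf_grp` with `β / (n+1)^r`. -/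
theorem dnf {κ : Type*} (𝒲 : Finset κ) (A : κ → Fin n → Finset ℤ)
    (X : Fin n → Finset ℤ) (hX : ∀ l, (X l).Nonempty) (q : ℕ) (hq : ∀ l, #(X l) ≤ q) (lam M : ℕ)
    (h1 : ∀ w ∈ 𝒲, ∀ l, 4 * #(X l \ A w l) ≤ #(X l))
    (h2 : ∀ w ∈ 𝒲, ∑ l, (#(X l \ A w l) : ℝ) / #(X l) ≤ lam)
    (G : Finset (Pt n)) (hGX : G ⊆ Fintype.piFinset X)
    (hG : ∀ y ∈ G, ∃ w ∈ 𝒲, ∀ l, y l ∈ A w l) {β δ : ℝ} (hβ : 0 < β)
    (hGβ : β * #(Fintype.piFinset X) ≤ #G)
    (hM : (4 * (lam : ℝ) + 1) * ((n : ℝ) + 1) ^ (4 * lam + 1) ≤ β * 2 ^ M) (hδ0 : 0 ≤ δ)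
    (hδ : δ * (4 * (4 * (lam : ℝ) + 1) * ((n : ℝ) + 1) ^ (4 * lam + 1) *
      (1 + (n : ℝ) * q) ^ M) ≤ β) :
    ∃ w ∈ 𝒲, δ ^ (4 * lam + 1) * #(Fintype.piFinset X) ≤
      #(G.filter fun y => ∀ l, y l ∈ A w l) := by
  let _ : LinearOrder κ := linearOrderOfSTO WellOrderingRel
  have hNpos := Dnf_box_pos X hX
  have hex : ∀ w : κ, ∃ grp : Fin n → ℕ, w ∈ 𝒲 → Monotone grp ∧ (∀ l, grp l < 4 * lam + 1) ∧
      ∀ a, ∑ l ∈ univ.filter (fun l => grp l = a), (#(X l \ A w l) : ℝ) / #(X l) ≤ 1 / 2 := by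
    intro w
    by_cases hw : w ∈ 𝒲
    · obtain ⟨grp, hgrp⟩ := grouping (fun l => (#(X l \ A w l) : ℝ) / #(X l))
        (fun l => by positivity) (fun l => by
          have hp : (0 : ℝ) < #(X l) := by exact_mod_cast (hX l).card_pos
          have h4 : (4 : ℝ) * #(X l \ A w l) ≤ #(X l) := by exact_mod_cast h1 w hw l
          rw [div_le_iff₀ hp]
          linarith) lam (h2 w hw)
      exact ⟨grp, fun _ => hgrp⟩
    · exact ⟨fun _ => 0, fun h => absurd h hw⟩
  choose grp hgrp using hex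
  set T : Finset (Fin n → ℕ) := 𝒲.image grp with hT
  have hTc : #T ≤ (n + 1) ^ (4 * lam + 1) := by
    refine cnt_mono _ T ?_ ?_
    · intro f hf
      obtain ⟨w, hw, rfl⟩ := Finset.mem_image.mp hf
      exact (hgrp w hw).1
    · intro f hf
      obtain ⟨w, hw, rfl⟩ := Finset.mem_image.mp hf
      exact (hgrp w hw).2.1
  set R : ℝ := ((n : ℝ) + 1) ^ (4 * lam + 1) with hR
  have hRpos : 0 < R := by positivity
  have hTR : (#T : ℝ) ≤ R := by
    rw [hR]
    exact_mod_cast hTc
  set Gg : (Fin n → ℕ) → Finset (Pt n) := fun g =>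
    G.filter fun y => ∃ w ∈ 𝒲, grp w = g ∧ ∀ l, y l ∈ A w l with hGg
  have hcover : G ⊆ T.biUnion Gg := by
    intro y hy
    obtain ⟨w, hw, hyw⟩ := hG y hy
    exact Finset.mem_biUnion.mpr ⟨grp w, Finset.mem_image_of_mem _ hw,
      Finset.mem_filter.mpr ⟨hy, w, hw, rfl, hyw⟩⟩
  have hbig : ∃ g ∈ T, β / R * #(Fintype.piFinset X) ≤ #(Gg g) := by
    by_contra hc
    push Not at hc
    have hpos : 0 < β * (#(Fintype.piFinset X) : ℝ) := mul_pos hβ hNpos
    have hsum : (#G : ℝ) ≤ ∑ g ∈ T, (#(Gg g) : ℝ) := by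
      exact_mod_cast (Finset.card_le_card hcover).trans Finset.card_biUnion_le
    have hTne : T.Nonempty := by
      by_contra he
      rw [Finset.not_nonempty_iff_eq_empty] at he
      rw [he, Finset.sum_empty] at hsum
      linarith
    have hlt : ∑ g ∈ T, (#(Gg g) : ℝ) < ∑ _g ∈ T, β / R * (#(Fintype.piFinset X) : ℝ) :=
      Finset.sum_lt_sum_of_nonempty hTne hc
    rw [Finset.sum_const, nsmul_eq_mul] at hlt
    have hle : (#T : ℝ) * (β / R * (#(Fintype.piFinset X) : ℝ)) ≤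
        R * (β / R * (#(Fintype.piFinset X) : ℝ)) :=
      mul_le_mul_of_nonneg_right hTR (by positivity)
    have he : R * (β / R * (#(Fintype.piFinset X) : ℝ)) = β * #(Fintype.piFinset X) := by
      field_simp
    linarith
  obtain ⟨g, hgT, hgbig⟩ := hbig
  obtain ⟨w0, hw0, hw0g⟩ := Finset.mem_image.mp hgT
  obtain ⟨w, hw, hfin⟩ := dnf_grp (𝒲.filter fun w => grp w = g) A X hX q hq (4 * lam + 1) M g
    (by rw [← hw0g]; exact (hgrp w0 hw0).2.1)
    (by
      intro w hw a
      obtain ⟨hw1, hw2⟩ := Finset.mem_filter.mp hw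
      rw [← hw2]
      exact (hgrp w hw1).2.2 a)
    (Gg g) (Finset.filter_subset _ _ |>.trans hGX)
    (by
      intro y hy
      obtain ⟨_, w, hw, hwg, hyw⟩ := Finset.mem_filter.mp hy
      exact ⟨w, Finset.mem_filter.mpr ⟨hw, hwg⟩, hyw⟩)
    (β := β / R) (δ := δ) (div_pos hβ hRpos) hgbig
    (by
      push_cast
      rw [div_mul_eq_mul_div, le_div_iff₀ hRpos]
      exact hM)
    hδ0
    (by
      push_cast
      rw [le_div_iff₀ hRpos]
      refine le_of_eq_of_le ?_ hδ
      ring)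
  refine ⟨w, (Finset.mem_filter.mp hw).1, hfin.trans (Nat.cast_le.mpr (Finset.card_le_card ?_))⟩
  exact Finset.filter_subset_filter _ (Finset.filter_subset _ _)

end Pool.Agent.MP_9210c2_an.H87

/-!
In a cluster that is not loose one option covers a lot.
-/

namespace Pool.Agent.MP_9210c2_an.H87

open Finset
open scoped Classical

variable {n : ℕ}

lemma Cover_tail {h B : ℕ} (hh : 0 < h) (hB : 1 ≤ B) (lam b1 : ℕ) (k : Pt n) (C : Finset (Pt n))
    (hZ : ∀ e, (clu e h lam B C k).Z (8 * h) ≤ 2 ^ B) :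
    (#((U (8 * h) (Nb h lam C k)).filter fun y => b1 < nout (8 * h) k univ y) : ℝ) * 2 ^ b1 ≤
      ((8 * h : ℕ) : ℝ) ^ n * (2 * ((n : ℝ) + 1) ^ (9 * B)) ^ 2 := by
  refine tail_pts hh k _ (fun c hc => (mem_Nb.1 hc).2.1) b1 fun e => tailM hh hB _
    (filter_subset _ _) (fun t ht l => ?_) (le_trans (sum_le_sum_of_subset_of_nonneg
      (fun t ht => ?_) fun _ _ _ => by positivity) (hZ e))
  · obtain ⟨h1, c, hc, h2⟩ := mem_reachPat.1 ht
    refine mem_reachPat.2 ⟨fun j => ?_, c, hc, fun j hj => ?_⟩ <;> rcases eq_or_ne j l with rfl | e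
    · simp
    · rw [Function.update_of_ne e]; exact h1 j
    · simp at hj
    · rw [Function.update_of_ne e] at hj ⊢; exact h2 j hj
  · exact mem_filter.2 ⟨(mem_filter.1 ht).1, (mem_filter.1 ht).2.le⟩

/-- the label of a point -/
noncomputable def Cover_lab (m : ℕ) (k y : Pt n) : Fin n → Option ℤ :=
  fun l => if inI m (k l) (y l) then none else some (y l)

lemma Cover_card {h : ℕ} (lam b1 : ℕ) (k : Pt n) (C G : Finset (Pt n))
    (hG : G ⊆ U (8 * h) (Nb h lam C k)) (hb : ∀ y ∈ G, nout (8 * h) k univ y ≤ b1) :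
    #(G.image (Cover_lab (8 * h) k)) ≤ (1 + n * (8 * h)) ^ b1 := by
  have := cnt_sparse (fun l => (Ico (k l - h) (k l) ∪
    Ico (k l + (8 * h : ℕ)) (k l + (8 * h : ℕ) + h)).image some) (fun _ => none) (8 * h) b1
    (fun l => ?_) (G.image (Cover_lab (8 * h) k)) (fun f hf l => ?_) (fun f hf => ?_)
  · rwa [Fintype.card_fin] at this
  · refine card_image_le.trans ((card_union_le _ _).trans ?_)
    rw [Int.card_Ico, Int.card_Ico]
    omega
  · obtain ⟨y, hy, rfl⟩ := mem_image.1 hf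
    obtain ⟨c, hc, h1⟩ := mem_U.1 (hG hy)
    have h2 := abs_le.1 ((mem_Nb.1 hc).2.1 l)
    have h3 := mem_Q.1 h1 l
    unfold Cover_lab
    split_ifs with h4
    · exact Or.inl rfl
    · refine Or.inr (mem_image_of_mem _ ?_)
      unfold inI at h4
      rw [mem_union, mem_Ico, mem_Ico]
      omega
  · obtain ⟨y, hy, rfl⟩ := mem_image.1 hf
    refine le_trans (card_le_card fun l hl => ?_) (hb y hy)
    refine mem_filter.2 ⟨mem_univ _, fun h4 => (mem_filter.1 hl).2 ?_⟩
    exact if_pos h4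

lemma Cover_eq {m : ℕ} {k y y' : Pt n} (h : Cover_lab m k y = Cover_lab m k y') (l : Fin n) :
    (inI m (k l) (y' l) → inI m (k l) (y l)) ∧ (¬ inI m (k l) (y' l) → y l = y' l) := by
  have := congrFun h l
  unfold Cover_lab at this
  split_ifs at this with h1 h2 h2
  · exact ⟨fun _ => h1, fun h3 => absurd h2 h3⟩
  · exact ⟨fun h3 => absurd h3 h2, fun _ => Option.some.inj this⟩

/-- Let `m = 8h`, `D = Nb h lam C k`.  For both `e`, `reachPat e h k D` is down-closed and its
level `B` is contained in `(clu ..).S`, so `tailM` gives `M = 2 (n+1)^(9B)`, and by `tail_pts` and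
`hb1` at least `a m^n / 2` points `y ∈ G` have `nout m k univ y ≤ b1`.  Pigeonhole on the label
`fun l => if inI m (k l) (y l) then none else some (y l)` (values in two strips of width `h`, at
most `(1 + n m)^b1` labels by `cnt_sparse`): a class `G'` with at least `β m^n` points, label
`lab`.  Let `S = {l | lab l ≠ none}`, `#S ≤ b1`, `X l = {v l}` on `S` (`lab l = some (v l)`),
`X l = Ico (k l) (k l + m)` off `S`, `A c l = X l` on `S`, `Ico (c l) (c l + m)` off `S`, and the
witnesses `W' = {c ∈ W | ∀ l ∈ S, inI m (c l) (v l)}`.  Apply `dnf` with `q = m`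
(`card_Ico_sdiff`); `#box ≤ m^n ≤ m^b1 #box`. -/
theorem cover {h B : ℕ} (hh : 0 < h) (hB : 1 ≤ B) (lam b1 M : ℕ) (k : Pt n)
    (C W : Finset (Pt n)) (hW : W ⊆ Nb h lam C k)
    (hZ : ∀ e, (clu e h lam B C k).Z (8 * h) ≤ 2 ^ B) (G : Finset (Pt n))
    (hGW : G ⊆ U (8 * h) W) {a β δ : ℝ} (hG : a * ((8 * h : ℕ) : ℝ) ^ n ≤ #G)
    (hb1 : 8 * ((n : ℝ) + 1) ^ (18 * B) ≤ a * 2 ^ b1) (hβ0 : 0 < β)
    (hβ : β * (2 * (1 + (n : ℝ) * (8 * h : ℕ)) ^ b1) ≤ a)
    (hM : (4 * (lam : ℝ) + 1) * ((n : ℝ) + 1) ^ (4 * lam + 1) ≤ β * 2 ^ M) (hδ0 : 0 ≤ δ)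
    (hδ : δ * (4 * (4 * (lam : ℝ) + 1) * ((n : ℝ) + 1) ^ (4 * lam + 1) *
      (1 + (n : ℝ) * (8 * h : ℕ)) ^ M) ≤ β) :
    ∃ c ∈ W, δ ^ (4 * lam + 1) * ((8 * h : ℕ) : ℝ) ^ n ≤
      ((8 * h : ℕ) : ℝ) ^ b1 * #(G ∩ Q (8 * h) c) := by
  have m0 : (0 : ℝ) < ((8 * h : ℕ) : ℝ) := by positivity
  have hGD : G ⊆ U (8 * h) (Nb h lam C k) := fun y hy => by
    obtain ⟨c, hc, h1⟩ := mem_U.1 (hGW hy)
    exact mem_U.2 ⟨c, hW hc, h1⟩
  have a0 : 0 < a := lt_of_lt_of_le (by positivity) hβ
  set G1 := G.filter fun y => nout (8 * h) k univ y ≤ b1 with hG1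
  have s1 : a * ((8 * h : ℕ) : ℝ) ^ n / 2 ≤ #G1 := by
    have t1 := Cover_tail hh hB lam b1 k C hZ
    have t2 : #G ≤ #G1 +
        #((U (8 * h) (Nb h lam C k)).filter fun y => b1 < nout (8 * h) k univ y) := by
      refine le_trans (card_le_card fun y hy => ?_) (card_union_le _ _)
      rcases le_or_gt (nout (8 * h) k univ y) b1 with h1 | h1
      · exact mem_union_left _ (mem_filter.2 ⟨hy, h1⟩)
      · exact mem_union_right _ (mem_filter.2 ⟨hGD hy, h1⟩)
    have t3 : (2 * ((n : ℝ) + 1) ^ (9 * B)) ^ 2 ≤ a / 2 * 2 ^ b1 := by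
      rw [mul_pow, ← pow_mul, show 9 * B * 2 = 18 * B by ring]
      linarith
    have t4 := t1.trans (mul_le_mul_of_nonneg_left t3 (by positivity))
    rw [← mul_assoc] at t4
    have t5 := le_of_mul_le_mul_right t4 (by positivity)
    have t6 : (#G : ℝ) ≤ _ := Nat.cast_le.2 t2
    rw [Nat.cast_add] at t6
    linarith
  have s2 : G1.Nonempty := card_pos.1 (Nat.cast_pos.1 (lt_of_lt_of_le (by positivity) s1))
  obtain ⟨_, hf, s3⟩ := exists_le_card_fiber_of_nsmul_le_card_of_maps_to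
    (f := Cover_lab (8 * h) k) (b := β * ((8 * h : ℕ) : ℝ) ^ n)
    (fun y hy => mem_image_of_mem _ hy) (s2.image _) (by
      have t1 : (#(G1.image (Cover_lab (8 * h) k)) : ℝ) ≤ (1 + (n : ℝ) * (8 * h : ℕ)) ^ b1 := by
        exact_mod_cast Cover_card lam b1 k C G1 ((filter_subset _ _).trans hGD)
          fun y hy => (mem_filter.1 hy).2
      have t2 := mul_le_mul_of_nonneg_left t1 hβ0.le
      have t3 := mul_le_mul_of_nonneg_right (show β * #(G1.image (Cover_lab (8 * h) k)) ≤ a / 2 by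
        linarith) (pow_pos m0 n).le
      rw [nsmul_eq_mul]
      linarith)
  obtain ⟨v, hv, rfl⟩ := mem_image.1 hf
  let X : Fin n → Finset ℤ := fun l =>
    if inI (8 * h) (k l) (v l) then Ico (k l) (k l + (8 * h : ℕ)) else {v l}
  let A : Pt n → Fin n → Finset ℤ := fun c l =>
    if inI (8 * h) (k l) (v l) then Ico (c l) (c l + (8 * h : ℕ)) else {v l}
  have x1 : ∀ l, #(X l) = if inI (8 * h) (k l) (v l) then 8 * h else 1 := fun l => by
    simp only [X]
    split_ifs
    · rw [Int.card_Ico]; omega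
    · exact card_singleton _
  have x2 : ∀ c ∈ W, ∀ l, (#(X l \ A c l) : ℤ) =
      if inI (8 * h) (k l) (v l) then |c l - k l| else 0 := fun c hc l => by
    have := (mem_Nb.1 (hW hc)).2.1 l
    simp only [X, A]
    split_ifs
    · rw [card_Ico_sdiff _ _ _ (by rw [abs_sub_comm]; omega), abs_sub_comm]
    · simp
  have x3 : #(Fintype.piFinset X) ≤ (8 * h) ^ n := by
    rw [Fintype.card_piFinset]
    refine (prod_le_pow_card _ _ (8 * h) fun l _ => ?_).trans_eq (by simp)
    rw [x1]; split_ifs <;> omega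
  have x4 : (8 * h) ^ n ≤ (8 * h) ^ b1 * #(Fintype.piFinset X) := by
    have t1 : (8 * h) ^ n = (∏ l, if ¬ inI (8 * h) (k l) (v l) then 8 * h else 1) * ∏ l, #(X l) := by
      rw [← prod_mul_distrib, ← Fin.prod_const]
      refine prod_congr rfl fun l _ => ?_
      rw [x1]; split_ifs <;> simp
    rw [t1, ← prod_filter, prod_const, Fintype.card_piFinset]
    exact Nat.mul_le_mul_right _ (Nat.pow_le_pow_right (by omega) (mem_filter.1 hv).2)
  refine (dnf
    (W.filter fun c => ∀ l, ¬ inI (8 * h) (k l) (v l) → inI (8 * h) (c l) (v l)) A X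
    (fun l => card_pos.1 (by rw [x1]; split_ifs <;> omega)) (8 * h)
    (fun l => by rw [x1]; split_ifs <;> omega) lam M (fun c hc l => ?_) (fun c hc => ?_)
    (G1.filter fun y => Cover_lab (8 * h) k y = Cover_lab (8 * h) k v) (fun y hy => ?_)
    (fun y hy => ?_) hβ0 (le_trans (mul_le_mul_of_nonneg_left (by exact_mod_cast x3) hβ0.le) s3)
    hM hδ0 hδ).elim fun c ⟨hc, s4⟩ => ?_
  rotate_right
  · refine ⟨c, (mem_filter.1 hc).1, ?_⟩
    have t1 : ((8 * h : ℕ) : ℝ) ^ n ≤ ((8 * h : ℕ) : ℝ) ^ b1 * #(Fintype.piFinset X) := by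
      exact_mod_cast x4
    refine (mul_le_mul_of_nonneg_left t1 (by positivity)).trans ?_
    rw [mul_left_comm]
    refine mul_le_mul_of_nonneg_left (s4.trans (Nat.cast_le.2 (card_le_card fun y hy => ?_)))
      (by positivity)
    obtain ⟨h1, h2⟩ := mem_filter.1 hy
    refine mem_inter.2 ⟨(mem_filter.1 (mem_filter.1 h1).1).1, mem_Q_iff_inI.2 fun l => ?_⟩
    have h3 := h2 l
    simp only [A] at h3
    split_ifs at h3 with h4
    · exact mem_Ico.1 h3
    · rw [mem_singleton.1 h3]; exact (mem_filter.1 hc).2 l h4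
  · have t1 := x2 c (mem_filter.1 hc).1 l
    have t2 := (mem_Nb.1 (hW (mem_filter.1 hc).1)).2.1 l
    rw [x1]
    split_ifs at t1 ⊢ <;> omega
  · have t2 := (mem_Nb.1 (hW (mem_filter.1 hc).1)).2.2
    have t3 : ∑ l, ((|c l - k l| : ℤ) : ℝ) ≤ lam * ((8 * h : ℕ) : ℝ) := by exact_mod_cast t2
    refine le_trans (sum_le_sum fun l _ => ?_) (((sum_div _ _ _).symm.trans_le
      ((div_le_iff₀ m0).2 t3)))
    have t1 : (#(X l \ A c l) : ℝ) = ((#(X l \ A c l) : ℤ) : ℝ) := by norm_cast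
    rw [t1, x2 c (mem_filter.1 hc).1 l, x1]
    split_ifs
    · exact le_rfl
    · rw [Int.cast_zero, zero_div]; positivity
  · refine Fintype.mem_piFinset.2 fun l => ?_
    have t1 := Cover_eq (mem_filter.1 hy).2 l
    simp only [X]
    split_ifs with h4
    · exact mem_Ico.2 (t1.1 h4)
    · exact mem_singleton.2 (t1.2 h4)
  · obtain ⟨h1, h2⟩ := mem_filter.1 hy
    obtain ⟨c, hc, h3⟩ := mem_U.1 (hGW (mem_filter.1 h1).1)
    refine ⟨c, mem_filter.2 ⟨hc, fun l h4 => ?_⟩, fun l => ?_⟩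
    · rw [← (Cover_eq h2 l).2 h4]; exact mem_Q.1 h3 l
    · simp only [A]
      split_ifs with h4
      · exact mem_Ico.2 (mem_Q.1 h3 l)
      · exact mem_singleton.2 ((Cover_eq h2 l).2 h4)

end Pool.Agent.MP_9210c2_an.H87
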