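import Pool.Agent.MP_9210c2_an.H87.Pop
import Pool.Agent.MP_9210c2_an.H87.Cont

/-!
The choice of the parameters (`n + 1 ≤ 2 ^ t`).
-/

namespace Pool.Agent.MP_9210c2_an.H87

open Finset
open scoped Classical

variable {n : ℕ}

/-- The corners of the admissible cubes. -/
noncomputable def pO (n : ℕ) : Finset (Pt n) := Q (10 * n ^ 2) 0

/-- The ground set. -/
noncomputable def pOm (n : ℕ) : Finset (Pt n) := Q (10 * n ^ 2 + 10 * n) 0

/-- The looseness threshold. -/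
noncomputable def pZ0 (t : ℕ) : ℝ := 2 ^ (2 * t + 1 + t * (2 ^ 17 * t ^ 2))

/-- The potential for cubes of side `8 h`. -/
noncomputable def pPsi (t h : ℕ) (C : Finset (Pt n)) : ℝ :=
  Psi h (2 * (10 * t)) (2 ^ 18 * t ^ 3) (pZ0 t) (pO n) (pOm n) C

/-- The popularity threshold is `2 ^ (-pT t)`. -/
def pT (t : ℕ) : ℕ := 2 ^ 36 * t ^ 7

/-- The gap between consecutive classes. -/
def pg (t : ℕ) : ℕ := 2 ^ 39 * t ^ 8

/-- The cubes of class `j` have side `8 * ph t n N j`. -/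
def ph (t n N j : ℕ) : ℕ := n + (N - j) * pg t

lemma Par_card_pO (n : ℕ) : (#(pO n) : ℝ) = ((10 * n ^ 2 : ℕ) : ℝ) ^ n := by
  unfold pO
  rw [card_Q]
  push_cast
  rfl

lemma Par_card_pOm (n : ℕ) : (#(pOm n) : ℝ) = ((10 * n ^ 2 + 10 * n : ℕ) : ℝ) ^ n := by
  unfold pOm
  rw [card_Q]
  push_cast
  rfl

lemma Par_two_mul_le {t : ℕ} (ht : 40 ≤ t) : 2 * t + 8 ≤ 2 ^ (t - 2) := by
  obtain ⟨u, rfl⟩ : ∃ u, t = u + 40 := ⟨t - 40, by omega⟩
  have h1 : u < 2 ^ u := Nat.lt_two_pow_self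
  have h2 : u + 40 - 2 = u + 38 := by omega
  rw [h2, pow_add]
  have : 0 < 2 ^ u := by positivity
  norm_num
  omega

lemma Par_log_pow (k : ℕ) {x : ℝ} (hx0 : 0 < x) (hx : x ≤ 2 ^ k) : Real.log x ≤ k := by
  have h1 : Real.log x ≤ Real.log (2 ^ k) := Real.log_le_log hx0 hx
  rw [Real.log_pow] at h1
  have h2 : Real.log 2 ≤ 1 := by linarith [Real.log_two_lt_d9]
  have h3 : (0 : ℝ) ≤ k := Nat.cast_nonneg _
  nlinarith

lemma Par_nat1 {t : ℕ} (hn : n + 1 ≤ 2 ^ t) :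
    1 + (10 * n ^ 2) ^ n ≤ 2 ^ ((2 * t + 4) * n + 1) := by
  have h1 : 10 * n ^ 2 ≤ 2 ^ (2 * t + 4) := by
    have : n ≤ 2 ^ t := by omega
    calc 10 * n ^ 2 ≤ 16 * (2 ^ t) ^ 2 := Nat.mul_le_mul (by norm_num) (Nat.pow_le_pow_left this 2)
      _ = 2 ^ (2 * t + 4) := by ring
  have h2 : (10 * n ^ 2) ^ n ≤ 2 ^ ((2 * t + 4) * n) := by
    rw [pow_mul]; exact Nat.pow_le_pow_left h1 n
  have h3 : 1 ≤ 2 ^ ((2 * t + 4) * n) := Nat.one_le_two_pow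
  rw [pow_succ 2]
  omega

lemma Par_nat2 {t : ℕ} (ht : 40 ≤ t) (hn : n + 1 ≤ 2 ^ t) :
    (2 * t + 5) * n + 2 * t + 5 ≤ 2 ^ (2 * t - 2) := by
  have h1 := Par_two_mul_le ht
  have h2 : (2 * t + 5) * (n + 1) ≤ 2 ^ (t - 2) * 2 ^ t := Nat.mul_le_mul (by omega) hn
  rw [← pow_add] at h2
  have h3 : t - 2 + t = 2 * t - 2 := by omega
  rw [h3] at h2
  nlinarith

lemma Par_nat3 {t : ℕ} (ht : 40 ≤ t) : 2 ^ (2 * t - 2) ≤ 2 ^ (2 * t) :=
  Nat.pow_le_pow_right (by norm_num) (by omega)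

theorem pO_sub {h : ℕ} (hh : 8 * h ≤ 10 * n) : ∀ k ∈ pO n, Q (8 * h) k ⊆ pOm n := by
  intro k hk y hy
  unfold pO at hk
  unfold pOm
  rw [mem_Q] at hk hy ⊢
  intro l
  have a1 := hk l
  have a2 := hy l
  simp only [Pi.zero_apply] at a1 ⊢
  have a3 : ((8 * h : ℕ) : ℤ) ≤ ((10 * n : ℕ) : ℤ) := by exact_mod_cast hh
  have a4 : ((10 * n ^ 2 + 10 * n : ℕ) : ℤ) = ((10 * n ^ 2 : ℕ) : ℤ) + ((10 * n : ℕ) : ℤ) := by
    push_cast; ring
  rw [a4]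
  omega

theorem le_ph (t n N j : ℕ) : n ≤ ph t n N j := by
  unfold ph
  omega

theorem ph_le {t N : ℕ} (hN : 5 * pg t * N ≤ n) (j : ℕ) : 5 * ph t n N j ≤ 6 * n := by
  unfold ph
  have h1 : (N - j) * pg t ≤ N * pg t := Nat.mul_le_mul_right _ (Nat.sub_le _ _)
  have h2 : 5 * pg t * N = 5 * (N * pg t) := by ring
  omega

theorem ph_anti (t n N : ℕ) {i j : ℕ} (hij : i ≤ j) : ph t n N j ≤ ph t n N i := by
  unfold ph
  have h1 : (N - j) * pg t ≤ (N - i) * pg t := Nat.mul_le_mul_right _ (by omega)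
  omega

/-- `(1 - g/h_i)^n ≤ exp (-g n / h_i) ≤ exp (-5g/6) ≤ 2^(-g)` as `log 2 ≤ 5/6`. -/
theorem ph_ratio {t N : ℕ} (hn : 0 < n) (hN : 5 * pg t * N ≤ n) {i j : ℕ} (hij : i < j)
    (hj : j < N) :
    ((8 * ph t n N j : ℕ) : ℝ) ^ n ≤ (1 / 2) ^ pg t * ((8 * ph t n N i : ℕ) : ℝ) ^ n := by
  have h1 : ph t n N j + pg t ≤ ph t n N i := by
    unfold ph
    have : (N - j + 1) * pg t ≤ (N - i) * pg t := Nat.mul_le_mul_right _ (by omega)
    rw [add_mul, one_mul] at this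
    omega
  have h2 := ph_le hN i
  have h3 := le_ph t n N i
  set a := ph t n N j
  set b := ph t n N i
  set g := pg t
  have hb : (0 : ℝ) < b := by
    have : 0 < b := by omega
    exact_mod_cast this
  have h1' : (a : ℝ) + g ≤ b := by exact_mod_cast h1
  have h2' : (5 * b : ℝ) ≤ 6 * n := by exact_mod_cast h2
  have hg : (0 : ℝ) ≤ g := Nat.cast_nonneg _
  have ha : (0 : ℝ) ≤ a := Nat.cast_nonneg _
  have e1 : (a : ℝ) ≤ Real.exp (-(g / b)) * b := by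
    have := Real.add_one_le_exp (-(g / b : ℝ))
    have e : (-(g / b : ℝ) + 1) * b = b - g := by field_simp; ring
    nlinarith
  have e2 : ((8 * a : ℕ) : ℝ) ^ n ≤ (Real.exp (-(g / b)) * ((8 * b : ℕ) : ℝ)) ^ n := by
    refine pow_le_pow_left₀ (by positivity) ?_ n
    push_cast
    linarith
  rw [mul_pow, ← Real.exp_nat_mul] at e2
  refine e2.trans (mul_le_mul_of_nonneg_right ?_ (by positivity))
  have e3 : (1 / 2 : ℝ) ^ g = Real.exp (g * (-Real.log 2)) := by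
    rw [Real.exp_nat_mul, Real.exp_neg, Real.exp_log (by norm_num)]
    norm_num
  rw [e3]
  refine Real.exp_le_exp.2 ?_
  have e4 : Real.log 2 ≤ 5 / 6 := by linarith [Real.log_two_lt_d9]
  have e5 : (5 / 6 : ℝ) * g ≤ n * (g / b) := by
    rw [← mul_div_assoc, le_div_iff₀ hb]
    nlinarith
  nlinarith

/-- `1 + R^n ≤ (1 + R)^n` for `n ≥ 1` (`≤ 2` for `n = 0`), `1 + R ≤ 2^(2t+4)`, `log 2 ≤ 1`,
`n (2t+4) ≤ 2^t 2^t`. -/
theorem log_pO {t : ℕ} (ht : 40 ≤ t) (hn : n + 1 ≤ 2 ^ t) :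
    Real.log (1 + (#(pO n) : ℝ)) ≤ 2 ^ (2 * t) := by
  have h1 := Par_nat1 hn
  have h2 := Par_nat2 ht hn
  have h3 := Par_nat3 ht
  have h4 : (2 * t + 4) * n + 1 ≤ 2 ^ (2 * t) := by nlinarith
  rw [Par_card_pO]
  have h5 := Par_log_pow ((2 * t + 4) * n + 1) (x := 1 + ((10 * n ^ 2 : ℕ) : ℝ) ^ n)
    (by positivity) (by exact_mod_cast h1)
  exact h5.trans (by exact_mod_cast h4)

/-- `Psi1_le`, `Psi2_le` with `ρ = ρ' = 2^(2t)`: `1 + (16h)^n 2^(2t) ≤ 2^((t+5) n + 2t + 1)`. -/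
theorem pPsi_le {t h : ℕ} (ht : 40 ≤ t) (hn : n + 1 ≤ 2 ^ t) (hh : 8 * h ≤ 10 * n) :
    pPsi t h (pO n) ≤ 3 * 2 ^ (2 * t) * #(pOm n) / ((8 * h : ℕ) : ℝ) ^ n := by
  have h1 := log_pO ht hn
  have h2 : Real.log (1 + ((16 * h : ℕ) : ℝ) ^ n * 2 ^ (2 * t)) ≤ 2 ^ (2 * t) := by
    have a1 : 16 * h ≤ 2 ^ (t + 5) := by
      rw [pow_add]; omega
    have a2 : (16 * h) ^ n ≤ 2 ^ ((t + 5) * n) := by
      rw [pow_mul]; exact Nat.pow_le_pow_left a1 n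
    have a3 : (16 * h) ^ n * 2 ^ (2 * t) ≤ 2 ^ ((t + 5) * n + 2 * t) := by
      rw [pow_add]; exact Nat.mul_le_mul_right _ a2
    have a4 : 1 ≤ 2 ^ ((t + 5) * n + 2 * t) := Nat.one_le_two_pow
    have a5 : 1 + (16 * h) ^ n * 2 ^ (2 * t) ≤ 2 ^ ((t + 5) * n + 2 * t + 1) := by
      rw [pow_succ]; omega
    have a6 := Par_log_pow ((t + 5) * n + 2 * t + 1)
      (x := 1 + ((16 * h : ℕ) : ℝ) ^ n * 2 ^ (2 * t)) (by positivity) (by exact_mod_cast a5)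
    have a7 := Par_nat2 ht hn
    have a8 := Par_nat3 ht
    have a9 : (t + 5) * n + 2 * t + 1 ≤ 2 ^ (2 * t) := by nlinarith
    exact a6.trans (by exact_mod_cast a9)
  have hZ : 0 ≤ pZ0 t := by unfold pZ0; positivity
  have b1 := Psi1_le (8 * h) (pOm n) (pO n) h1
  have b2 := Psi2_le true h (2 * (10 * t)) (2 ^ 18 * t ^ 3) hZ (pO n) (pOm n) (pO n) h1 h2
  have b3 := Psi2_le false h (2 * (10 * t)) (2 ^ 18 * t ^ 3) hZ (pO n) (pOm n) (pO n) h1 h2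
  unfold pPsi Psi
  have e : (3 * 2 ^ (2 * t) * #(pOm n) / ((8 * h : ℕ) : ℝ) ^ n : ℝ) =
      3 * (2 ^ (2 * t) * #(pOm n) / ((8 * h : ℕ) : ℝ) ^ n) := by ring
  rw [e]
  linarith

/-- `((2n+2)/(2n-1))^n ≤ exp (3n/(2n-1)) ≤ exp 2 ≤ 8`. -/
theorem card_pOm_le (hn : 2 ≤ n) : (#(pOm n) : ℝ) ≤ 8 * ((10 * n ^ 2 - 5 * n : ℕ) : ℝ) ^ n := by
  rw [Par_card_pOm]
  have hn' : (2 : ℝ) ≤ n := by exact_mod_cast hn
  have h0 : 5 * n ≤ 10 * n ^ 2 := by nlinarith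
  have h1 : ((10 * n ^ 2 - 5 * n : ℕ) : ℝ) = 10 * (n : ℝ) ^ 2 - 5 * n := by
    rw [Nat.cast_sub h0]; push_cast; ring
  rw [h1]
  have hp : (0 : ℝ) < 10 * (n : ℝ) ^ 2 - 5 * n := by nlinarith
  have e1 : ((10 * n ^ 2 + 10 * n : ℕ) : ℝ) ≤ Real.exp (2 / n) * (10 * (n : ℝ) ^ 2 - 5 * n) := by
    have := Real.add_one_le_exp (2 / n : ℝ)
    have e : (2 / n + 1 : ℝ) * (10 * (n : ℝ) ^ 2 - 5 * n) = 10 * (n : ℝ) ^ 2 + 15 * n - 10 := by
      field_simp; ring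
    push_cast
    nlinarith
  have e2 := pow_le_pow_left₀ (by positivity) e1 n
  rw [mul_pow, ← Real.exp_nat_mul] at e2
  refine e2.trans (mul_le_mul_of_nonneg_right ?_ (by positivity))
  have e3 : (n : ℝ) * (2 / n) = 1 + 1 := by field_simp; ring
  rw [e3, Real.exp_add]
  have := Real.exp_one_lt_d9
  have := Real.exp_pos 1
  nlinarith

/-- `#(pOm n) = (10 n (n+1))^n ≥ (8h)^n n^n` and `n^n ≥ (2^(t-1))^12 ≥ 2^(6t)`. -/
theorem pow_le_pOm {t h : ℕ} (ht : 40 ≤ t) (hn' : 2 ^ t ≤ 2 * n) (hh : 8 * h ≤ 10 * n) :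
    ((8 * h : ℕ) : ℝ) ^ n * 2 ^ (6 * t) ≤ #(pOm n) := by
  have h1 : (8 * h) ^ n * 2 ^ (6 * t) ≤ (10 * n ^ 2 + 10 * n) ^ n := by
    have a1 : (8 * h) ^ n ≤ (10 * n) ^ n := Nat.pow_le_pow_left hh n
    have a2 : 2 ^ (t - 1) ≤ n := by
      have : 2 ^ t = 2 * 2 ^ (t - 1) := by
        rw [← pow_succ']; congr 1; omega
      omega
    have a3 : 12 ≤ n := by
      have : 2 ^ 4 ≤ 2 ^ (t - 1) := Nat.pow_le_pow_right (by norm_num) (by omega)
      omega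
    have a4 : 2 ^ (6 * t) ≤ (n + 1) ^ n := by
      calc 2 ^ (6 * t) ≤ 2 ^ ((t - 1) * 12) := Nat.pow_le_pow_right (by norm_num) (by omega)
        _ = (2 ^ (t - 1)) ^ 12 := by rw [pow_mul]
        _ ≤ (n + 1) ^ 12 := Nat.pow_le_pow_left (by omega) 12
        _ ≤ (n + 1) ^ n := Nat.pow_le_pow_right (by omega) a3
    calc (8 * h) ^ n * 2 ^ (6 * t) ≤ (10 * n) ^ n * (n + 1) ^ n := Nat.mul_le_mul a1 a4
      _ = (10 * n ^ 2 + 10 * n) ^ n := by rw [← mul_pow]; congr 1; ring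
  rw [Par_card_pOm]
  exact_mod_cast h1

/-- The entropy of the containers is negligible.  With `V = #(pOm n)`, `m j = 8 ph j` (decreasing
in `j`), `N ≤ n ≤ 2^t`: `log ((#O+1)(N #O+1)) ≤ 3 * 2^(2t)`, `log (4N) ≤ t + 2`,
`(m j)^n (k i + 1) ≤ 4 V / 2^(6t)` for `i ≤ j` (`hk`, `pow_le_pOm`), so the sum is at most
`(3 / 2^(5t) + (t+2) / 2^(5t) + 12 / 2^(2t)) V ≤ V / 2^t`. -/
theorem entropy {t N : ℕ} (ht : 40 ≤ t) (hn : n + 1 ≤ 2 ^ t) (hn' : 2 ^ t ≤ 2 * n)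
    (hN : 5 * pg t * N ≤ n) (k G : ℕ → ℕ)
    (hk : ∀ j < N, (k j : ℝ) * ((8 * ph t n N j : ℕ) : ℝ) ^ n * 2 ^ (6 * t) ≤ 3 * #(pOm n))
    (hG0 : ∀ j < N, 1 ≤ G j)
    (hG : ∀ j < N, G j ≤ ∏ i ∈ range (j + 1), ((#(pO n) + 1) * (N * #(pO n) + 1)) ^ (k i + 1)) :
    ∑ j ∈ range N, ((8 * ph t n N j : ℕ) : ℝ) ^ n * (k j + Real.log (4 * N * G j)) ≤
      #(pOm n) / 2 ^ t := by
  have hpg : 1 ≤ pg t := by
    unfold pg
    exact Nat.one_le_iff_ne_zero.2 (by positivity)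
  have hNn : N ≤ n := by nlinarith
  have hN2 : N + 1 ≤ 2 ^ t := by omega
  have htt : t + 5 ≤ 2 ^ t := by
    have h1 := Par_two_mul_le ht
    have h2 : 2 ^ (t - 2) ≤ 2 ^ t := Nat.pow_le_pow_right (by norm_num) (by omega)
    omega
  have hlog := log_pO ht hn
  have hpw : ∀ j, ((8 * ph t n N j : ℕ) : ℝ) ^ n * 2 ^ (6 * t) ≤ #(pOm n) := fun j =>
    pow_le_pOm (h := ph t n N j) ht hn' (by have := ph_le hN j; omega)
  have hV0 : (0 : ℝ) ≤ #(pOm n) := Nat.cast_nonneg _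
  generalize (#(pOm n) : ℝ) = V at hk hpw hV0 ⊢
  generalize #(pO n) = O at hG hlog
  obtain ⟨P, hP⟩ : ∃ P : ℝ, P = 2 ^ t := ⟨_, rfl⟩
  have hP13 : (13 : ℝ) ≤ P := by
    have : 13 ≤ 2 ^ t := by omega
    rw [hP]; exact_mod_cast this
  have hPt : (t : ℝ) + 5 ≤ P := by rw [hP]; exact_mod_cast htt
  have hNP : (N : ℝ) + 1 ≤ P := by rw [hP]; exact_mod_cast hN2
  have hP2 : (2 : ℝ) ^ (2 * t) = P ^ 2 := by rw [hP, ← pow_mul, mul_comm]
  have hP6 : (2 : ℝ) ^ (6 * t) = P ^ 6 := by rw [hP, ← pow_mul, mul_comm]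
  have hP0 : 0 < P := by linarith
  rw [← hP]
  obtain ⟨W, hW⟩ : ∃ W : ℝ, W = V / P ^ 6 := ⟨_, rfl⟩
  have hW0 : 0 ≤ W := by rw [hW]; positivity
  have hO0 : (0 : ℝ) ≤ O := Nat.cast_nonneg _
  have hN0 : (0 : ℝ) ≤ N := Nat.cast_nonneg _
  have hΛ : Real.log (((O + 1) * (N * O + 1) : ℕ) : ℝ) ≤ 3 * P ^ 2 := by
    have a1 := hlog
    rw [hP2, add_comm] at a1
    have a2 : Real.log ((N : ℝ) + 1) ≤ t := Par_log_pow t (by positivity) (hP ▸ hNP)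
    have a3 : Real.log ((N : ℝ) * O + 1) ≤ Real.log ((N : ℝ) + 1) + Real.log ((O : ℝ) + 1) := by
      rw [← Real.log_mul (by positivity) (by positivity)]
      exact Real.log_le_log (by positivity) (by nlinarith)
    push_cast
    rw [Real.log_mul (by positivity) (by positivity)]
    have a4 : P ≤ P ^ 2 := by nlinarith
    linarith
  have hm : ∀ j, ((8 * ph t n N j : ℕ) : ℝ) ^ n ≤ W := by
    intro j
    have := hpw j
    rw [hP6] at this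
    rw [hW, le_div_iff₀ (by positivity)]
    exact this
  have hk' : ∀ j < N, ((8 * ph t n N j : ℕ) : ℝ) ^ n * k j ≤ 3 * W := by
    intro j hj
    have := hk j hj
    rw [hP6] at this
    rw [hW, ← mul_div_assoc, le_div_iff₀ (by positivity)]
    linarith
  have hterm : ∀ j ∈ range N,
      ((8 * ph t n N j : ℕ) : ℝ) ^ n * (k j + Real.log (4 * N * G j)) ≤ 13 * P ^ 3 * W := by
    intro j hj
    rw [mem_range] at hj
    have hN1 : (1 : ℝ) ≤ N := by exact_mod_cast (by omega : 1 ≤ N)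
    have hG1 : (1 : ℝ) ≤ G j := by exact_mod_cast hG0 j hj
    have a1 : Real.log (4 * N : ℝ) ≤ (t + 2 : ℕ) := by
      refine Par_log_pow (t + 2) (by positivity) ?_
      rw [pow_add, ← hP]
      linarith
    have a2 : Real.log (G j : ℝ) ≤ ∑ i ∈ range (j + 1), ((k i : ℝ) + 1) * (3 * P ^ 2) := by
      have b1 : (G j : ℝ) ≤
          ∏ i ∈ range (j + 1), (((O + 1) * (N * O + 1) : ℕ) : ℝ) ^ (k i + 1) := by
        exact_mod_cast hG j hj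
      refine (Real.log_le_log (by linarith) b1).trans ?_
      rw [Real.log_prod (fun i _ => by positivity)]
      refine sum_le_sum fun i _ => ?_
      rw [Real.log_pow]
      push_cast
      refine mul_le_mul_of_nonneg_left ?_ (by positivity)
      exact_mod_cast hΛ
    obtain ⟨M, hM⟩ : ∃ M : ℝ, M = ((8 * ph t n N j : ℕ) : ℝ) ^ n := ⟨_, rfl⟩
    rw [← hM]
    have hM0 : 0 ≤ M := by rw [hM]; positivity
    have a3 : M * ∑ i ∈ range (j + 1), ((k i : ℝ) + 1) * (3 * P ^ 2) ≤ P * (12 * P ^ 2 * W) := by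
      rw [mul_sum]
      refine (sum_le_card_nsmul _ _ (12 * P ^ 2 * W) fun i hi => ?_).trans ?_
      · rw [mem_range] at hi
        have b1 : M ≤ ((8 * ph t n N i : ℕ) : ℝ) ^ n := by
          rw [hM]
          refine pow_le_pow_left₀ (by positivity) ?_ n
          have := ph_anti t n N (show i ≤ j by omega)
          exact_mod_cast (by omega : 8 * ph t n N j ≤ 8 * ph t n N i)
        have b2 := hk' i (by omega)
        have b3 := hm i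
        have b4 : M * ((k i : ℝ) + 1) ≤ 4 * W := by
          have : M * ((k i : ℝ) + 1) ≤ ((8 * ph t n N i : ℕ) : ℝ) ^ n * ((k i : ℝ) + 1) :=
            mul_le_mul_of_nonneg_right b1 (by positivity)
          linarith
        calc M * (((k i : ℝ) + 1) * (3 * P ^ 2)) = M * ((k i : ℝ) + 1) * (3 * P ^ 2) := by ring
          _ ≤ 4 * W * (3 * P ^ 2) := mul_le_mul_of_nonneg_right b4 (by positivity)
          _ = 12 * P ^ 2 * W := by ring
      · rw [card_range, nsmul_eq_mul]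
        refine mul_le_mul_of_nonneg_right ?_ (by positivity)
        have : ((j + 1 : ℕ) : ℝ) ≤ N := by exact_mod_cast (by omega : j + 1 ≤ N)
        linarith
    have a4 := hk' j hj
    have a5 := hm j
    rw [← hM] at a4 a5
    rw [Real.log_mul (by positivity) (by positivity)]
    have a6 : M * Real.log (4 * N : ℝ) ≤ W * (t + 2) := by
      push_cast at a1
      exact (mul_le_mul_of_nonneg_left a1 hM0).trans
        (mul_le_mul_of_nonneg_right a5 (by positivity))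
    have a7 : M * Real.log (G j : ℝ) ≤ P * (12 * P ^ 2 * W) :=
      (mul_le_mul_of_nonneg_left a2 hM0).trans a3
    have a8 : (t : ℝ) + 5 ≤ P ^ 3 := hPt.trans (le_self_pow₀ (by linarith) (by norm_num))
    have a9 : W * ((t : ℝ) + 5) ≤ W * P ^ 3 := mul_le_mul_of_nonneg_left a8 hW0
    rw [mul_add, mul_add]
    linarith
  refine (sum_le_card_nsmul _ _ _ hterm).trans ?_
  rw [card_range, nsmul_eq_mul]
  have e : V / P = P * (P * P ^ 3 * W) := by rw [hW]; field_simp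
  rw [e]
  refine mul_le_mul (by linarith) ?_ (by positivity) hP0.le
  exact mul_le_mul_of_nonneg_right (mul_le_mul_of_nonneg_right hP13 (by positivity)) hW0

end Pool.Agent.MP_9210c2_an.H87

/-!
Numerical inequalities for the popularity lemma.
-/

namespace Pool.Agent.MP_9210c2_an.H87

open Finset
open scoped Classical

variable {n : ℕ}

/-- A convenient tool: all quantities are compared with powers of two. -/
theorem pw_le {A : ℝ} {i j k : ℕ} (hA : A ≤ 2 ^ i) (h : i + k ≤ j) :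
    (1 / 2 : ℝ) ^ j * A ≤ (1 / 2) ^ k := by
  obtain ⟨c, rfl⟩ := Nat.exists_eq_add_of_le h
  have h1 : (1 / 2 : ℝ) ^ (i + k + c) * 2 ^ i = (1 / 2) ^ k * (1 / 2) ^ c := by
    rw [pow_add, pow_add, one_div, inv_pow 2 i]
    field_simp
  have h2 : (1 / 2 : ℝ) ^ c ≤ 1 := pow_le_one₀ (by norm_num) (by norm_num)
  calc _ ≤ (1 / 2 : ℝ) ^ (i + k + c) * 2 ^ i := by gcongr
    _ = _ := h1
    _ ≤ _ := mul_le_of_le_one_right (by positivity) h2

theorem ParB_le {A : ℝ} {i j k : ℕ} (hA : A ≤ 2 ^ i) (h : i + k ≤ j) :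
    A ≤ (1 / 2) ^ k * 2 ^ j := by
  obtain ⟨c, rfl⟩ := Nat.exists_eq_add_of_le h
  have h1 : (1 / 2 : ℝ) ^ k * 2 ^ (i + k + c) = 2 ^ i * 2 ^ c := by
    rw [pow_add, pow_add, one_div, inv_pow]
    field_simp
  rw [h1]
  have h2 : (1 : ℝ) ≤ 2 ^ c := one_le_pow₀ (by norm_num)
  exact hA.trans (le_mul_of_one_le_right (by positivity) h2)

theorem ParB_pows {t : ℕ} (ht : 40 ≤ t) : 40 * t ≤ t ^ 2 ∧ 40 * t ^ 2 ≤ t ^ 3 ∧
    40 * t ^ 3 ≤ t ^ 4 ∧ 40 * t ^ 4 ≤ t ^ 5 ∧ 40 * t ^ 5 ≤ t ^ 6 ∧ 40 * t ^ 6 ≤ t ^ 7 ∧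
    40 * t ^ 7 ≤ t ^ 8 := by
  have h : ∀ a : ℕ, 40 * t ^ a ≤ t ^ (a + 1) := fun a => by
    rw [pow_succ']; exact Nat.mul_le_mul_right _ ht
  exact ⟨by simpa using h 1, h 2, h 3, h 4, h 5, h 6, h 7⟩

theorem ParB_pow {A : ℝ} {i : ℕ} (h0 : 0 ≤ A) (hA : A ≤ 2 ^ i) (k : ℕ) :
    A ^ k ≤ 2 ^ (i * k) := by
  rw [pow_mul]; exact pow_le_pow_left₀ h0 hA k

theorem ParB_mul {A B : ℝ} {i j : ℕ} (h0 : 0 ≤ B) (hA : A ≤ 2 ^ i) (hB : B ≤ 2 ^ j) :
    A * B ≤ 2 ^ (i + j) := by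
  rw [pow_add]; exact mul_le_mul hA hB h0 (by positivity)

theorem ParB_n1 {t : ℕ} (hn : n + 1 ≤ 2 ^ t) : (n : ℝ) + 1 ≤ 2 ^ t := by exact_mod_cast hn

theorem ParB_nm {t m : ℕ} (hn : n + 1 ≤ 2 ^ t) (hm : m ≤ 10 * n) :
    1 + (n : ℝ) * m ≤ 2 ^ (2 * t + 4) := by
  have h1 := ParB_n1 hn
  have h2 : (m : ℝ) ≤ 10 * n := by exact_mod_cast hm
  have h3 : (0 : ℝ) ≤ n := Nat.cast_nonneg n
  have h4 : ((n : ℝ) + 1) ^ 2 ≤ (2 ^ t) ^ 2 := pow_le_pow_left₀ (by positivity) h1 2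
  have h5 : (2 : ℝ) ^ (2 * t + 4) = 16 * (2 ^ t) ^ 2 := by ring
  have h6 : (n : ℝ) * m ≤ n * (10 * n) := mul_le_mul_of_nonneg_left h2 h3
  rw [h5]
  nlinarith

theorem ParB_t (t : ℕ) : 8 * ((10 * t : ℕ) : ℝ) + 1 ≤ 2 ^ (t + 7) := by
  have h1 : t + 1 ≤ 2 ^ t := Nat.lt_two_pow_self
  have h2 : (t : ℝ) + 1 ≤ 2 ^ t := by exact_mod_cast h1
  have h3 : (0 : ℝ) ≤ t := Nat.cast_nonneg t
  have h5 : (2 : ℝ) ^ (t + 7) = 128 * 2 ^ t := by ring
  rw [h5]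
  push_cast
  linarith

theorem ParB_exp (k : ℕ) : Real.exp (-(k : ℝ)) ≤ (1 / 2) ^ k := by
  have h1 : Real.exp (-(k : ℝ)) = (Real.exp (-1)) ^ k := by
    rw [← Real.exp_nat_mul]; congr 1; ring
  rw [h1]
  refine pow_le_pow_left₀ (Real.exp_pos _).le ?_ k
  rw [Real.exp_neg, one_div]
  refine inv_anti₀ (by norm_num) ?_
  have := Real.add_one_le_exp (1 : ℝ)
  linarith

theorem ParB_two (i : ℕ) : (2 : ℝ) ^ i ≤ 2 ^ i := le_rfl

theorem ParB_2 : (2 : ℝ) ≤ 2 ^ 1 := by norm_num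

theorem par_s1 {t : ℕ} (ht : 40 ≤ t) (hn : n + 1 ≤ 2 ^ t) :
    2 * (2 : ℝ) ^ (8 * t) * Real.exp (-((10 * t : ℕ) : ℝ)) +
      (1 + 16 * (n : ℝ)) ^ (16 * (10 * t)) * (1 / 2) ^ (200 * t ^ 2) ≤ (1 / 2) ^ t / 4 := by
  obtain ⟨p1, p2, p3, p4, p5, p6, p7⟩ := ParB_pows ht
  have h1 := ParB_n1 hn
  have h2 : 1 + 16 * (n : ℝ) ≤ 2 ^ (t + 4) := by
    have h5 : (2 : ℝ) ^ (t + 4) = 16 * 2 ^ t := by ring
    rw [h5]; linarith
  have h3 : 2 * (2 : ℝ) ^ (8 * t) * Real.exp (-((10 * t : ℕ) : ℝ)) ≤ (1 / 2) ^ (t + 3) := by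
    calc _ ≤ 2 * (2 : ℝ) ^ (8 * t) * (1 / 2) ^ (10 * t) := by gcongr; exact ParB_exp _
      _ = (1 / 2) ^ (10 * t) * (2 * (2 : ℝ) ^ (8 * t)) := by ring
      _ ≤ _ := pw_le (ParB_mul (by positivity) ParB_2 (ParB_two _)) (by omega)
  have h4 : (1 + 16 * (n : ℝ)) ^ (16 * (10 * t)) * (1 / 2) ^ (200 * t ^ 2) ≤ (1 / 2) ^ (t + 3) := by
    rw [mul_comm]
    exact pw_le (ParB_pow (by positivity) h2 _) (by nlinarith)
  calc _ ≤ (1 / 2 : ℝ) ^ (t + 3) + (1 / 2) ^ (t + 3) := add_le_add h3 h4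
    _ = _ := by ring

theorem par_Z0 {t : ℕ} (hn : n + 1 ≤ 2 ^ t) :
    2 * (2 : ℝ) ^ (2 * t) * ((n : ℝ) + 1) ^ (2 ^ 17 * t ^ 2) ≤
      2 ^ (2 * t + 1 + t * (2 ^ 17 * t ^ 2)) := by
  have h := ParB_mul (by positivity) (ParB_mul (by positivity) ParB_2 (ParB_two (2 * t)))
    (ParB_pow (by positivity) (ParB_n1 hn) (2 ^ 17 * t ^ 2))
  refine h.trans (le_of_eq ?_)
  congr 1
  ring

theorem par_Z1 {t : ℕ} (ht : 40 ≤ t) :
    2 * ((2 : ℝ) ^ (2 * t + 1 + t * (2 ^ 17 * t ^ 2)) + 1) ≤ 2 ^ (2 ^ 18 * t ^ 3) := by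
  obtain ⟨p1, p2, p3, p4, p5, p6, p7⟩ := ParB_pows ht
  have h1 : (1 : ℝ) ≤ 2 ^ (2 * t + 1 + t * (2 ^ 17 * t ^ 2)) := one_le_pow₀ (by norm_num)
  calc _ ≤ 4 * (2 : ℝ) ^ (2 * t + 1 + t * (2 ^ 17 * t ^ 2)) := by linarith
    _ = 2 ^ (2 * t + 1 + t * (2 ^ 17 * t ^ 2) + 2) := by rw [pow_add _ _ 2]; ring
    _ ≤ _ := pow_le_pow_right₀ (by norm_num) (by nlinarith)

/-- With `x = 1/(128 t)`: `(1 + 8x^2)^(2B) ≤ exp (256 t)`, `(1 - x/2)^b ≤ exp (-512 t)`, and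
`2^(19t+14) ≤ exp (96 t)`. -/
theorem par_T {t : ℕ} (ht : 40 ≤ t) :
    256 * Real.exp (16 * ((10 * t : ℕ) : ℝ)) *
        (1 + 8 * (1 / (128 * (t : ℝ))) ^ 2) ^ (2 * (2 ^ 18 * t ^ 3)) *
        (1 - 1 / (128 * (t : ℝ)) / 2) ^ (2 ^ 17 * t ^ 2) *
      (2 * 2 ^ (2 * t) * 2 ^ (8 * t)) * (32 * 2 ^ (8 * t)) ≤ (1 / 2) ^ t := by
  have ht0 : (40 : ℝ) ≤ t := by exact_mod_cast ht
  have ht1 : (t : ℝ) ≠ 0 := by linarith
  have h1 : (1 + 8 * (1 / (128 * (t : ℝ))) ^ 2) ^ (2 * (2 ^ 18 * t ^ 3)) ≤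
      Real.exp (256 * t) := by
    calc _ ≤ (Real.exp (8 * (1 / (128 * (t : ℝ))) ^ 2)) ^ (2 * (2 ^ 18 * t ^ 3)) := by
          refine pow_le_pow_left₀ (by positivity) ?_ _
          have := Real.add_one_le_exp (8 * (1 / (128 * (t : ℝ))) ^ 2)
          linarith
      _ = _ := by
          rw [← Real.exp_nat_mul]
          congr 1
          push_cast
          field_simp
          norm_num
  have hx : 1 / (128 * (t : ℝ)) / 2 ≤ 1 := by
    rw [div_div, div_le_one (by positivity)]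
    linarith
  have h2 : (1 - 1 / (128 * (t : ℝ)) / 2) ^ (2 ^ 17 * t ^ 2) ≤ Real.exp (-(512 * t)) := by
    calc _ ≤ (Real.exp (-(1 / (128 * (t : ℝ)) / 2))) ^ (2 ^ 17 * t ^ 2) := by
          refine pow_le_pow_left₀ (by linarith) ?_ _
          have := Real.add_one_le_exp (-(1 / (128 * (t : ℝ)) / 2))
          linarith
      _ = _ := by
          rw [← Real.exp_nat_mul]
          congr 1
          push_cast
          field_simp
          norm_num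
  have h0 : 0 ≤ (1 - 1 / (128 * (t : ℝ)) / 2) ^ (2 ^ 17 * t ^ 2) := pow_nonneg (by linarith) _
  have h3 : Real.exp (16 * ((10 * t : ℕ) : ℝ)) * Real.exp (256 * t) * Real.exp (-(512 * t)) =
      Real.exp (-((96 * t : ℕ) : ℝ)) := by
    rw [← Real.exp_add, ← Real.exp_add]
    congr 1
    push_cast
    ring
  calc _ ≤ 256 * Real.exp (16 * ((10 * t : ℕ) : ℝ)) * Real.exp (256 * t) *
        Real.exp (-(512 * t)) * (2 * 2 ^ (2 * t) * 2 ^ (8 * t)) * (32 * 2 ^ (8 * t)) := by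
        gcongr
    _ = (Real.exp (16 * ((10 * t : ℕ) : ℝ)) * Real.exp (256 * t) * Real.exp (-(512 * t))) *
        2 ^ (18 * t + 14) := by ring
    _ ≤ (1 / 2) ^ (96 * t) * 2 ^ (18 * t + 14) := by
        rw [h3]; gcongr; exact ParB_exp _
    _ ≤ _ := pw_le (ParB_two _) (by omega)

theorem par_b1 {t : ℕ} (ht : 40 ≤ t) (hn : n + 1 ≤ 2 ^ t) :
    8 * ((n : ℝ) + 1) ^ (18 * (2 ^ 18 * t ^ 3)) ≤
      (1 / 2) ^ (200 * t ^ 2) * 2 ^ (2 ^ 23 * t ^ 4) := by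
  obtain ⟨p1, p2, p3, p4, p5, p6, p7⟩ := ParB_pows ht
  have h8 : (8 : ℝ) ≤ 2 ^ 3 := by norm_num
  exact ParB_le (ParB_mul (by positivity) h8 (ParB_pow (by positivity) (ParB_n1 hn) _))
    (by nlinarith)

/-- `1 + n m ≤ 16 (n+1)^2 ≤ 2^(2t+4)`. -/
theorem par_beta {t m : ℕ} (ht : 40 ≤ t) (hn : n + 1 ≤ 2 ^ t) (hm : m ≤ 10 * n) :
    (1 / 2 : ℝ) ^ (3 * 2 ^ 23 * t ^ 5) * (2 * (1 + (n : ℝ) * m) ^ (2 ^ 23 * t ^ 4)) ≤
      (1 / 2) ^ (200 * t ^ 2) := by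
  obtain ⟨p1, p2, p3, p4, p5, p6, p7⟩ := ParB_pows ht
  exact pw_le (ParB_mul (by positivity) ParB_2 (ParB_pow (by positivity) (ParB_nm hn hm) _))
    (by nlinarith)

theorem par_M {t : ℕ} (ht : 40 ≤ t) (hn : n + 1 ≤ 2 ^ t) :
    (8 * ((10 * t : ℕ) : ℝ) + 1) * ((n : ℝ) + 1) ^ (8 * (10 * t) + 1) ≤
      (1 / 2) ^ (3 * 2 ^ 23 * t ^ 5) * 2 ^ (2 ^ 26 * t ^ 5) := by
  obtain ⟨p1, p2, p3, p4, p5, p6, p7⟩ := ParB_pows ht
  exact ParB_le (ParB_mul (by positivity) (ParB_t t) (ParB_pow (by positivity) (ParB_n1 hn) _))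
    (by nlinarith)

theorem par_delta {t m : ℕ} (ht : 40 ≤ t) (hn : n + 1 ≤ 2 ^ t) (hm : m ≤ 10 * n) :
    (1 / 2 : ℝ) ^ (2 ^ 28 * t ^ 6) * (4 * (8 * ((10 * t : ℕ) : ℝ) + 1) *
      ((n : ℝ) + 1) ^ (8 * (10 * t) + 1) * (1 + (n : ℝ) * m) ^ (2 ^ 26 * t ^ 5)) ≤
      (1 / 2) ^ (3 * 2 ^ 23 * t ^ 5) := by
  obtain ⟨p1, p2, p3, p4, p5, p6, p7⟩ := ParB_pows ht
  have h4 : (4 : ℝ) ≤ 2 ^ 2 := by norm_num
  exact pw_le (ParB_mul (by positivity) (ParB_mul (by positivity)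
    (ParB_mul (by positivity) h4 (ParB_t t)) (ParB_pow (by positivity) (ParB_n1 hn) _))
    (ParB_pow (by positivity) (ParB_nm hn hm) _)) (by nlinarith)

theorem par_tau {t m : ℕ} (ht : 40 ≤ t) (hn : n + 1 ≤ 2 ^ t) (hm : m ≤ 10 * n) :
    2 * (1 / 2 : ℝ) ^ (2 ^ 36 * t ^ 7) * (m : ℝ) ^ (2 ^ 23 * t ^ 4) ≤
      ((1 / 2) ^ (2 ^ 28 * t ^ 6)) ^ (8 * (10 * t) + 1) := by
  obtain ⟨p1, p2, p3, p4, p5, p6, p7⟩ := ParB_pows ht
  have h1 := ParB_n1 hn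
  have h2 : (m : ℝ) ≤ 2 ^ (t + 4) := by
    have h5 : (2 : ℝ) ^ (t + 4) = 16 * 2 ^ t := by ring
    have h6 : (m : ℝ) ≤ 10 * n := by exact_mod_cast hm
    have h3 : (0 : ℝ) ≤ n := Nat.cast_nonneg n
    rw [h5]; linarith
  rw [← pow_mul, mul_comm (2 : ℝ), mul_assoc]
  exact pw_le (ParB_mul (by positivity) ParB_2 (ParB_pow (by positivity) h2 _)) (by nlinarith)

/-- `(7/10)^2 ≤ 1/2`. -/
theorem par_s (j : ℕ) : (7 / 10 : ℝ) ^ (2 * j) ≤ (1 / 2) ^ j := by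
  rw [pow_mul]
  exact pow_le_pow_left₀ (by positivity) (by norm_num) j

/-- With `T = 2^36 t^7`, `j = 2T + 10t + 2`, `g = 2^39 t^8`: `(t+1) 2j + j ≤ g`. -/
theorem par_cross {t : ℕ} (ht : 40 ≤ t) (hn : n + 1 ≤ 2 ^ t) :
    2 * (2 : ℝ) ^ (8 * t) * ((1 / 2) ^ (2 * (2 ^ 36 * t ^ 7) + 10 * t + 2) +
        (1 + 2 * (n : ℝ)) ^ (2 * (2 * (2 ^ 36 * t ^ 7) + 10 * t + 2)) *
          (1 / 2) ^ (2 ^ 39 * t ^ 8)) ≤
      ((1 / 2) ^ (2 ^ 36 * t ^ 7)) ^ 2 * (1 / 2) ^ (2 * t) := by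
  obtain ⟨p1, p2, p3, p4, p5, p6, p7⟩ := ParB_pows ht
  have h1 := ParB_n1 hn
  have h2 : 1 + 2 * (n : ℝ) ≤ 2 ^ (t + 1) := by
    rw [pow_succ]; linarith
  have h3 : (1 + 2 * (n : ℝ)) ^ (2 * (2 * (2 ^ 36 * t ^ 7) + 10 * t + 2)) *
      (1 / 2) ^ (2 ^ 39 * t ^ 8) ≤ (1 / 2) ^ (2 * (2 ^ 36 * t ^ 7) + 10 * t + 2) := by
    rw [mul_comm]
    exact pw_le (ParB_pow (by positivity) h2 _) (by nlinarith)
  generalize 2 ^ 36 * t ^ 7 = T at h3 ⊢
  have h4 : (2 : ℝ) ^ (8 * t) * (1 / 2) ^ (8 * t) = 1 := by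
    rw [← mul_pow]; norm_num
  calc _ ≤ 2 * (2 : ℝ) ^ (8 * t) *
        ((1 / 2) ^ (2 * T + 10 * t + 2) + (1 / 2) ^ (2 * T + 10 * t + 2)) := by gcongr
    _ = ((2 : ℝ) ^ (8 * t) * (1 / 2) ^ (8 * t)) * (((1 / 2) ^ T) ^ 2 * (1 / 2) ^ (2 * t)) := by
        rw [show 2 * T + 10 * t + 2 = 8 * t + (T * 2 + (2 * t + 2)) by ring, pow_add, pow_add,
          pow_add, pow_mul]
        ring
    _ ≤ _ := by rw [h4, one_mul]

end Pool.Agent.MP_9210c2_an.H87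

/-!
The containers of all classes have total volume at most `3 V`.
-/

namespace Pool.Agent.MP_9210c2_an.H87

open Finset
open scoped Classical

variable {n : ℕ}

/-- `pop_gen` with `lam0 = 10t`, `B = 2^18 t^3`, `b = 2^17 t^2`, `b1 = 2^23 t^4`,
`M = 2^26 t^5`, `x = 1/(128 t)`, `ρ = 2^(2t)`, `a = (1/2)^(200 t^2)`, `β = (1/2)^(3 * 2^23 t^5)`,
`δ = (1/2)^(2^28 t^6)` and the lemmas `par_*`. -/
theorem pop {t h : ℕ} (ht : 40 ≤ t) (hn : n + 1 ≤ 2 ^ t) (hh0 : 0 < h) (hh : 8 * h ≤ 10 * n)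
    (C : Finset (Pt n)) (hC : C ⊆ pO n)
    (hd : ∀ K ∈ C, pPsi t h C - pPsi t h (C \ ov (8 * h) C (8 * h) K) ≤ 2 ^ (8 * t)) :
    (#((U (8 * h) C).filter fun y => Vf (8 * h) C y < (1 / 2) ^ pT t) : ℝ) ≤
      (1 / 2) ^ t * #(pOm n) := by
  have ht0 : (40 : ℝ) ≤ t := by exact_mod_cast ht
  have hB : 1 ≤ 2 ^ 18 * t ^ 3 := Nat.one_le_iff_ne_zero.2 (by positivity)
  exact pop_gen hh0 hB (10 * t) (2 ^ 17 * t ^ 2) (2 ^ 23 * t ^ 4) (2 ^ 26 * t ^ 5)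
    (10 * n ^ 2 + 10 * n) (x := 1 / (128 * (t : ℝ))) (ρ := 2 ^ (2 * t)) (pO n) C hC (pO_sub hh)
    (log_pO ht hn) (one_le_pow₀ (by norm_num)) (by positivity) hd (by positivity) (by positivity)
    (by positivity) (par_s1 ht hn) (par_Z0 hn) (par_Z1 ht) (by positivity)
    (by rw [div_le_div_iff₀ (by positivity) (by norm_num)]; linarith) (par_T ht) (par_b1 ht hn)
    (by positivity) (par_beta ht hn hh) (par_M ht hn) (by positivity) (par_delta ht hn hh)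
    (par_tau ht hn hh)

/-- Split each union into the unpopular part (`pop`) and the popular part `A j`; `union_le`,
`cross_card` (with `L = 2 * 2^(8t)` from `Psi_drop1`, `ph_ratio`, `par_s`, `par_cross`) give
`#(A i ∩ A j) ≤ V / 2^(2t)`; and `N ≤ n ≤ 2^t`. -/
theorem sumU {t N : ℕ} (ht : 40 ≤ t) (hn : n + 1 ≤ 2 ^ t) (hN : 5 * pg t * N ≤ n)
    (T : ℕ → Finset (Pt n)) (hT : ∀ j < N, T j ⊆ pO n)
    (hd : ∀ j < N, ∀ i ≤ j, ∀ c ∈ T j, pPsi t (ph t n N i) (T i) -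
      pPsi t (ph t n N i) (T i \ ov (8 * ph t n N i) (T i) (8 * ph t n N j) c) ≤ 2 ^ (8 * t)) :
    ∑ j ∈ range N, (#(U (8 * ph t n N j) (T j)) : ℝ) ≤ 3 * #(pOm n) := by
  rcases Nat.eq_zero_or_pos N with rfl | hN0
  · simp
  have hg : 1 ≤ pg t := Nat.one_le_iff_ne_zero.2 (by unfold pg; positivity)
  have hNn : N ≤ n := by nlinarith
  have hn0 : 0 < n := by omega
  have hNt : (N : ℝ) ≤ 2 ^ t := by exact_mod_cast (by omega : N ≤ 2 ^ t)
  have hp0 : ∀ j, 0 < ph t n N j := fun j => hn0.trans_le (le_ph t n N j)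
  have hp1 : ∀ j, 8 * ph t n N j ≤ 10 * n := fun j => by have := ph_le hN j; omega
  have hΩ : ∀ j < N, ∀ c ∈ T j, Q (8 * ph t n N j) c ⊆ pOm n := fun j hj c hc =>
    pO_sub (hp1 j) c (hT j hj hc)
  have hV : (0 : ℝ) ≤ #(pOm n) := Nat.cast_nonneg _
  set A : ℕ → Finset (Pt n) := fun j => (U (8 * ph t n N j) (T j)).filter fun y =>
    ¬ Vf (8 * ph t n N j) (T j) y < (1 / 2) ^ pT t with hA
  have hAΩ : ∀ j < N, A j ⊆ pOm n := fun j hj y hy => by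
    obtain ⟨c, hc, hy⟩ := mem_U.1 (mem_filter.1 hy).1
    exact hΩ j hj c hc hy
  have h1 : ∀ j ∈ range N, (#(U (8 * ph t n N j) (T j)) : ℝ) ≤
      (1 / 2) ^ t * #(pOm n) + #(A j) := by
    intro j hj
    have hj := mem_range.1 hj
    have e := card_filter_add_card_filter_not (s := U (8 * ph t n N j) (T j))
      (fun y => Vf (8 * ph t n N j) (T j) y < (1 / 2) ^ pT t)
    have h1 := pop ht hn (hp0 j) (hp1 j) (T j) (hT j hj) (hd j hj j le_rfl)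
    rw [← e]
    push_cast
    exact add_le_add h1 le_rfl
  have h2 : ∀ j < N, ∀ i < j, (#(A i ∩ A j) : ℝ) ≤ (1 / 2) ^ (2 * t) * #(pOm n) := by
    intro j hj i hi
    have hi' : i < N := hi.trans hj
    have hτ : (0 : ℝ) < (1 / 2) ^ pT t := by positivity
    have h3 := cross_card (hp0 i) (hp0 j) (by have := ph_le hN i; have := le_ph t n N j; omega)
      (T i) (T j) (pOm n) (hΩ i hi') (hΩ j hj) (L := 2 * 2 ^ (8 * t)) (by positivity) hτ.le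
      (2 * (2 * (2 ^ 36 * t ^ 7) + 10 * t + 2)) (par_s _) (ph_ratio hn0 hN hi hj)
      (fun c hc => Psi_drop1 _ _ _ _ _ _ _ (hΩ i hi') _ c (hd j hj i hi.le c hc))
      (fun c hc => Psi_drop1 _ _ _ _ _ _ _ (hΩ j hj) _ c (hd j hj j le_rfl c hc))
      (A i ∩ A j) (inter_subset_right.trans (hAΩ j hj))
      (fun y hy => not_lt.1 (mem_filter.1 (mem_inter.1 hy).1).2)
      (fun y hy => not_lt.1 (mem_filter.1 (mem_inter.1 hy).2).2)
    have h4 := h3.trans (mul_le_mul_of_nonneg_right (par_cross ht hn) hV)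
    rw [mul_assoc] at h4
    exact le_of_mul_le_mul_left h4 (pow_pos hτ 2)
  have h3 : (∑ j ∈ range N, (#(A j) : ℝ)) ≤ #(pOm n) +
      ∑ j ∈ range N, ∑ i ∈ range j, (#(A i ∩ A j) : ℝ) := by
    exact_mod_cast union_le (pOm n) A N hAΩ
  have h4 : ∑ j ∈ range N, ∑ i ∈ range j, (#(A i ∩ A j) : ℝ) ≤
      N * (N * ((1 / 2) ^ (2 * t) * #(pOm n))) := by
    refine (sum_le_card_nsmul _ _ _ fun j hj => ?_).trans (by rw [card_range, nsmul_eq_mul])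
    have hj := mem_range.1 hj
    refine (sum_le_card_nsmul _ _ _ fun i hi => h2 j hj i (mem_range.1 hi)).trans ?_
    rw [card_range, nsmul_eq_mul]
    exact mul_le_mul_of_nonneg_right (by exact_mod_cast hj.le) (by positivity)
  have h5 : (N : ℝ) * (1 / 2) ^ t ≤ 1 := by
    rw [one_div, inv_pow, ← div_eq_mul_inv, div_le_one (by positivity)]; exact hNt
  have h6 : (N : ℝ) * (N * (1 / 2) ^ (2 * t)) ≤ 1 := by
    have : (N : ℝ) * (N * (1 / 2) ^ (2 * t)) = (N * (1 / 2) ^ t) ^ 2 := by ring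
    rw [this]
    exact pow_le_one₀ (by positivity) h5
  have h7 := sum_le_sum h1
  rw [sum_add_distrib, sum_const, card_range, nsmul_eq_mul] at h7
  have h8 := mul_le_mul_of_nonneg_right h5 hV
  have h9 := mul_le_mul_of_nonneg_right h6 hV
  nlinarith

end Pool.Agent.MP_9210c2_an.H87

/-!
The discrete statement.
-/

namespace Pool.Agent.MP_9210c2_an.H87

open Finset
open scoped Classical

variable {n : ℕ}

/-- Disjoint cubes have different marks. -/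
theorem marks (m : ℕ) (D T P : Finset (Pt n)) (hD : D ⊆ T)
    (hdis : ∀ c ∈ D, ∀ c' ∈ D, c ≠ c' → Disjoint (Q m c) (Q m c'))
    (hP : ∀ c ∈ D, (P ∩ Q m c).Nonempty) : #D ≤ #(P ∩ U m T) := by
  choose! f hf using hP
  refine card_le_card_of_injOn f (fun c hc => ?_) (fun c hc c' hc' h => ?_)
  · have := mem_inter.1 (hf c hc)
    exact mem_coe.2 (mem_inter.2 ⟨this.1, mem_U.2 ⟨c, hD hc, this.2⟩⟩)
  · by_contra hne
    exact disjoint_left.1 (hdis c hc c' hc' hne) (mem_inter.1 (hf c hc)).2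
      (h ▸ (mem_inter.1 (hf c' hc')).2)

/-- `contain` with `m j = 8 ph j`, `Ψ j = pPsi t (ph j)`, `L = 2^(8t)`,
`k j = ⌊3 V / ((m j)^n 2^(6t))⌋₊`; `Γ' j = ((Γ j).filter (· ⊆ pO n)).image (U (m j))`; `sumU`,
`entropy`, `marks`. -/
theorem struct {t N : ℕ} (ht : 40 ≤ t) (hn : n + 1 ≤ 2 ^ t) (hn' : 2 ^ t ≤ 2 * n)
    (hN : 5 * pg t * N ≤ n) (hN0 : 0 < N) :
    ∃ Γ : ℕ → Finset (Finset (Pt n)), (∀ j < N, ∀ W ∈ Γ j, W ⊆ pOm n) ∧
      ∀ P : ℕ → Finset (Pt n),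
        (∀ j < N, ∀ W ∈ Γ j, (#(P j ∩ W) : ℝ) ≤
          2 * (1 / (N * ((8 * ph t n N j : ℕ) : ℝ) ^ n)) * #W + Real.log (4 * N * #(Γ j))) →
        ∀ Pi : Finset (ℕ × Pt n), (∀ K ∈ Pi, K.1 < N ∧ K.2 ∈ pO n) →
          (∀ K ∈ Pi, ∀ K' ∈ Pi, K ≠ K' →
            Disjoint (Q (8 * ph t n N K.1) K.2) (Q (8 * ph t n N K'.1) K'.2)) →
          (∀ K ∈ Pi, (P K.1 ∩ Q (8 * ph t n N K.1) K.2).Nonempty) →
          ∑ K ∈ Pi, ((8 * ph t n N K.1 : ℕ) : ℝ) ^ n ≤ 7 / N * #(pOm n) := by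
  have hg : 1 ≤ pg t := Nat.one_le_iff_ne_zero.2 (by unfold pg; positivity)
  have hNn : N ≤ n := by nlinarith
  have hn0 : 0 < n := by omega
  have hNt : (N : ℝ) ≤ 2 ^ t := by exact_mod_cast (by omega : N ≤ 2 ^ t)
  have hN0' : (0 : ℝ) < N := by exact_mod_cast hN0
  have hp0 : ∀ j, 0 < ph t n N j := fun j => hn0.trans_le (le_ph t n N j)
  have hp1 : ∀ j, 8 * ph t n N j ≤ 10 * n := fun j => by have := ph_le hN j; omega
  have hm : ∀ j, (0 : ℝ) < ((8 * ph t n N j : ℕ) : ℝ) ^ n := fun j =>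
    pow_pos (by have := hp0 j; positivity) n
  have hV : (0 : ℝ) ≤ #(pOm n) := Nat.cast_nonneg _
  set k : ℕ → ℕ := fun j =>
    ⌊3 * (#(pOm n) : ℝ) / (((8 * ph t n N j : ℕ) : ℝ) ^ n * 2 ^ (6 * t))⌋₊ with hk
  obtain ⟨Γ, hΓ, H⟩ := contain N (fun j => 8 * ph t n N j) (pO n) (fun j => pPsi t (ph t n N j))
    (fun j C => Psi_nonneg _ _ _ _ _ _ _) (fun j C C' h => Psi_mono _ _ _ _ _ _ h)
    (2 ^ (8 * t)) (by positivity) k (fun j _ => by
      refine (pPsi_le ht hn (hp1 j)).trans_lt ?_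
      have h1 := Nat.lt_floor_add_one
        (3 * (#(pOm n) : ℝ) / (((8 * ph t n N j : ℕ) : ℝ) ^ n * 2 ^ (6 * t)))
      refine lt_of_eq_of_lt ?_ (mul_lt_mul_of_pos_right h1 (by positivity))
      have := hm j
      rw [show 8 * t = 6 * t + 2 * t by ring, pow_add]
      field_simp)
  set Γ' : ℕ → Finset (Finset (Pt n)) := fun j =>
    ((Γ j).filter (· ⊆ pO n)).image (U (8 * ph t n N j)) with hΓ'
  have hmem : ∀ (T : ℕ → Finset (Pt n)) j, T j ∈ Γ j → T j ⊆ pO n →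
      U (8 * ph t n N j) (T j) ∈ Γ' j := fun T j h1 h2 =>
    mem_image_of_mem _ (mem_filter.2 ⟨h1, h2⟩)
  refine ⟨Γ', fun j _ W hW y hy => ?_, fun P hP Pi h1 h2 h3 => ?_⟩
  · obtain ⟨C, hC, rfl⟩ := mem_image.1 hW
    obtain ⟨c, hc, hy⟩ := mem_U.1 hy
    exact pO_sub (hp1 j) c ((mem_filter.1 hC).2 hc) hy
  obtain ⟨T, hT⟩ := H Pi h1 h2
  have hU := sumU ht hn hN T (fun j hj => (hT j hj).2.1) (fun j hj => (hT j hj).2.2.2)
  have hE := entropy ht hn hn' hN k (fun j => #(Γ' j))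
    (fun j _ => by
      have h1 := Nat.floor_le (show 0 ≤ 3 * (#(pOm n) : ℝ) /
        (((8 * ph t n N j : ℕ) : ℝ) ^ n * 2 ^ (6 * t)) by positivity)
      rw [le_div_iff₀ (by have := hm j; positivity)] at h1
      rw [mul_assoc]; exact h1)
    (fun j hj => card_pos.2 ⟨_, hmem T j (hT j hj).1 (hT j hj).2.1⟩)
    (fun j hj => (card_image_le.trans (card_filter_le _ _)).trans (hΓ j hj))
  have hcl : ∀ j ∈ range N, ∑ K ∈ Pi.filter (fun K => K.1 = j),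
      ((8 * ph t n N K.1 : ℕ) : ℝ) ^ n ≤ 2 / N * #(U (8 * ph t n N j) (T j)) +
        ((8 * ph t n N j : ℕ) : ℝ) ^ n * (k j + Real.log (4 * N * #(Γ' j))) := by
    intro j hj
    have hj := mem_range.1 hj
    rw [sum_congr rfl (g := fun _ => ((8 * ph t n N j : ℕ) : ℝ) ^ n)
      (fun K hK => by rw [(mem_filter.1 hK).2]), sum_const, nsmul_eq_mul]
    have a1 : #(Pi.filter fun K => K.1 = j) ≤ #(Pi.filter fun K => K.1 = j ∧ K.2 ∉ T j) +
        #(Pi.filter fun K => K.1 = j ∧ K.2 ∈ T j) := by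
      refine le_trans (card_le_card fun K hK => ?_) (card_union_le _ _)
      simp only [mem_union, mem_filter] at hK ⊢
      tauto
    have a2 : #(Pi.filter fun K => K.1 = j ∧ K.2 ∈ T j) ≤ #(P j ∩ U (8 * ph t n N j) (T j)) := by
      rw [← card_image_of_injOn (f := Prod.snd) (fun K hK K' hK' h => Prod.ext
        ((mem_filter.1 hK).2.1.trans (mem_filter.1 hK').2.1.symm) h)]
      refine marks _ _ _ _ (fun c hc => ?_) (fun c hc c' hc' hne => ?_) (fun c hc => ?_)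
      · obtain ⟨K, hK, rfl⟩ := mem_image.1 hc
        exact (mem_filter.1 hK).2.2
      · obtain ⟨K, hK, rfl⟩ := mem_image.1 hc
        obtain ⟨K', hK', rfl⟩ := mem_image.1 hc'
        have := h2 K (mem_filter.1 hK).1 K' (mem_filter.1 hK').1 (fun h => hne (by rw [h]))
        rwa [(mem_filter.1 hK).2.1, (mem_filter.1 hK').2.1] at this
      · obtain ⟨K, hK, rfl⟩ := mem_image.1 hc
        have := h3 K (mem_filter.1 hK).1
        rwa [(mem_filter.1 hK).2.1] at this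
    have a3 : (#(Pi.filter fun K => K.1 = j) : ℝ) ≤ k j + #(P j ∩ U (8 * ph t n N j) (T j)) := by
      exact_mod_cast a1.trans (add_le_add (hT j hj).2.2.1 a2)
    have a4 := hP j hj _ (hmem T j (hT j hj).1 (hT j hj).2.1)
    have a5 := mul_le_mul_of_nonneg_right (a3.trans (add_le_add le_rfl a4)) (hm j).le
    refine a5.trans (le_of_eq ?_)
    have := hm j
    field_simp
    ring
  rw [← sum_fiberwise_of_maps_to (g := Prod.fst) (t := range N)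
    (fun K hK => mem_range.2 (h1 K hK).1)]
  refine (sum_le_sum hcl).trans ?_
  rw [sum_add_distrib, ← mul_sum]
  have b1 := mul_le_mul_of_nonneg_left hU (show (0 : ℝ) ≤ 2 / N by positivity)
  have b2 : (#(pOm n) : ℝ) / 2 ^ t ≤ #(pOm n) / N := div_le_div_of_nonneg_left hV hN0' hNt
  have b3 : 7 / (N : ℝ) * #(pOm n) = 2 / N * (3 * #(pOm n)) + #(pOm n) / N := by ring
  linarith

/-- `prob` with `p j = 1 / (N (8 ph j)^n)`, cells `Q (10 n^2 - 5 n) (fun _ => 5 n)` and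
`Qz j z = Q (8 ph j) (z - 4 ph j)`; `Z` = the marked cells, `hf z = ph (cls z)` for a class
`cls z` in which `z` is marked. -/
theorem disc {t N : ℕ} (ht : 40 ≤ t) (hn : n + 1 ≤ 2 ^ t) (hn' : 2 ^ t ≤ 2 * n)
    (hN : 5 * pg t * N ≤ n) (hN0 : 0 < N) :
    ∃ (Z : Finset (Pt n)) (hf : Pt n → ℕ), (∀ z ∈ Z, n ≤ hf z) ∧ (#(pOm n) : ℝ) ≤ 32 * #Z ∧
      ∀ S ⊆ Z, (∀ z ∈ S, ∀ z' ∈ S, z ≠ z' →
        Disjoint (Q (8 * hf z) fun l => z l - 4 * hf z) (Q (8 * hf z') fun l => z' l - 4 * hf z')) →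
      ∑ z ∈ S, ((8 * hf z : ℕ) : ℝ) ^ n ≤ 7 / N * #(pOm n) := by
  have hg : 1 ≤ pg t := Nat.one_le_iff_ne_zero.2 (by unfold pg; positivity)
  have hNn : 5 * N ≤ n := by nlinarith
  have hn0 : 0 < n := by omega
  have hN0' : (1 : ℝ) ≤ N := by exact_mod_cast hN0
  have hp0 : ∀ j, 0 < ph t n N j := fun j => hn0.trans_le (le_ph t n N j)
  have hp1 : ∀ j, 8 * ph t n N j ≤ 10 * n := fun j => by have := ph_le hN j; omega
  have hm : ∀ j, (1 : ℝ) ≤ ((8 * ph t n N j : ℕ) : ℝ) ^ n := fun j =>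
    one_le_pow₀ (by have := hp0 j; exact_mod_cast (by omega : 1 ≤ 8 * ph t n N j))
  obtain ⟨Γ, hΓ, H⟩ := struct ht hn hn' hN hN0
  set Z0 : Finset (Pt n) := Q (10 * n ^ 2 - 5 * n) (fun _ => 5 * n) with hZ0
  have hcor : ∀ j, ∀ z ∈ Z0, (fun l => z l - 4 * (ph t n N j : ℤ)) ∈ pO n := by
    intro j z hz
    refine mem_Q.2 fun l => ?_
    have h1 := mem_Q.1 hz l
    have h2 : (5 : ℤ) * ph t n N j ≤ 6 * n := by exact_mod_cast ph_le hN j
    have h3 : 5 * n ≤ 10 * n ^ 2 := by nlinarith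
    rw [Nat.cast_sub h3] at h1
    simp only [Pi.zero_apply]
    push_cast at h1 ⊢
    omega
  obtain ⟨P, hP1, hP2⟩ := prob (pOm n) N hN0
    (fun j => 1 / (N * ((8 * ph t n N j : ℕ) : ℝ) ^ n)) (fun j _ => by positivity)
    (fun j _ => by
      rw [div_le_one (by have := hm j; positivity)]
      exact one_le_mul_of_one_le_of_one_le hN0' (hm j))
    Z0 (fun j z => Q (8 * ph t n N j) fun l => z l - 4 * (ph t n N j : ℤ))
    (fun j _ z hz => pO_sub (hp1 j) _ (hcor j z hz))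
    (fun z _ => by
      rw [sum_congr rfl (g := fun _ => 1 / (N : ℝ)) (fun j _ => by
        have := hm j
        rw [card_Q, Nat.cast_pow]; field_simp), sum_const, card_range, nsmul_eq_mul]
      field_simp
      exact le_rfl) Γ hΓ
  set Z := Z0.filter fun z => ∃ j < N,
    (P j ∩ Q (8 * ph t n N j) fun l => z l - 4 * (ph t n N j : ℤ)).Nonempty with hZ
  have hex : ∀ z ∈ Z, ∃ j < N,
      (P j ∩ Q (8 * ph t n N j) fun l => z l - 4 * (ph t n N j : ℤ)).Nonempty :=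
    fun z hz => (mem_filter.1 hz).2
  choose! cls hc1 hc2 using hex
  refine ⟨Z, fun z => ph t n N (cls z), fun z _ => le_ph _ _ _ _, ?_, fun S hS hd => ?_⟩
  · have h1 := card_pOm_le (n := n) (by omega)
    have h2 : ((10 * n ^ 2 - 5 * n : ℕ) : ℝ) ^ n ≤ 4 * #Z := by
      rw [← Nat.cast_pow, ← card_Q (10 * n ^ 2 - 5 * n) (fun _ : Fin n => 5 * (n : ℤ))]
      exact_mod_cast hP1
    linarith
  · set f : Pt n → ℕ × Pt n := fun z => (cls z, fun l => z l - 4 * (ph t n N (cls z) : ℤ))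
      with hf
    have hinj : ∀ z z', f z = f z' → z = z' := by
      intro z z' h
      obtain ⟨h1, h2⟩ := Prod.ext_iff.1 h
      simp only [hf] at h1 h2
      funext l
      have := congrFun h2 l
      simp only [h1] at this
      omega
    have := H P hP2 (S.image f) (fun K hK => ?_) (fun K hK K' hK' hne => ?_) (fun K hK => ?_)
    · rwa [sum_image fun z _ z' _ h => hinj z z' h] at this
    · obtain ⟨z, hz, rfl⟩ := mem_image.1 hK
      exact ⟨hc1 z (hS hz), hcor _ z (mem_filter.1 (hS hz)).1⟩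
    · obtain ⟨z, hz, rfl⟩ := mem_image.1 hK
      obtain ⟨z', hz', rfl⟩ := mem_image.1 hK'
      exact hd z hz z' hz' fun h => hne (by rw [h])
    · obtain ⟨z, hz, rfl⟩ := mem_image.1 hK
      exact hc2 z (hS hz)

end Pool.Agent.MP_9210c2_an.H87

/-!
The upper bound `C (log n)^8 / n` for the covering constant of the cube.
-/

namespace Pool.Agent.MP_9210c2_an.H87

open Finset
open scoped Classical

variable {n : ℕ}

/-- The trivial bound: all cubes of side `8 n`, centres in `Q (10 n^2 - 5 n) (fun _ => 5 n)`. -/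
theorem cube_le_const (hn : 2 ≤ n) : covConst (cube n) ≤ ENNReal.ofReal 16 := by
  have hn0 : 0 < 10 * n ^ 2 - 5 * n := by
    have : 5 * n < 10 * n ^ 2 := by nlinarith
    omega
  have hc : (0 : ℝ) < ((10 * n ^ 2 - 5 * n : ℕ) : ℝ) ^ n := pow_pos (by exact_mod_cast hn0) n
  have hZ : (#(Q (10 * n ^ 2 - 5 * n) fun _ : Fin n => 5 * (n : ℤ)) : ℝ) =
      ((10 * n ^ 2 - 5 * n : ℕ) : ℝ) ^ n := by rw [card_Q, Nat.cast_pow]
  refine (real_red (by omega) (Q (10 * n ^ 2 - 5 * n) fun _ => 5 * n)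
    (card_pos.1 (by rw [card_Q]; positivity)) (fun _ => n) (fun _ _ => le_rfl) #(pOm n)
    fun S hS hd => ?_).trans (ENNReal.ofReal_le_ofReal ?_)
  · have h1 : #(S.biUnion fun z => Q (8 * n) fun l => z l - 4 * (n : ℤ)) ≤ #(pOm n) := by
      refine card_le_card (biUnion_subset.2 fun z hz => pO_sub (by omega) _ ?_)
      refine mem_Q.2 fun l => ?_
      have h1 := mem_Q.1 (hS hz) l
      have h3 : 5 * n ≤ 10 * n ^ 2 := by omega
      rw [Nat.cast_sub h3] at h1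
      simp only [Pi.zero_apply]
      push_cast at h1 ⊢
      omega
    rw [card_biUnion fun z hz z' hz' h => hd z hz z' hz' h] at h1
    simp only [card_Q] at h1
    exact_mod_cast h1
  · rw [hZ, div_le_iff₀ hc]
    have := card_pOm_le hn
    linarith

/-- `t = Nat.log 2 n + 1`.  If `n < 5 pg t` use `cube_le_const`; otherwise `t ≥ 40`,
`N = n / (5 pg t) ≥ n / (10 pg t)`, and `disc`, `real_red` give `c ≤ 448 / N`. -/
theorem cube_upper_t (hn : 2 ≤ n) :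
    covConst (cube n) ≤ ENNReal.ofReal (4480 * (pg (Nat.log 2 n + 1) : ℝ) / n) := by
  set t := Nat.log 2 n + 1 with ht
  have hn0 : (0 : ℝ) < n := by exact_mod_cast (by omega : 0 < n)
  have hg : 0 < pg t := by unfold pg; positivity
  have hg' : (0 : ℝ) < pg t := by exact_mod_cast hg
  rcases lt_or_ge n (5 * pg t) with h | h
  · refine (cube_le_const hn).trans (ENNReal.ofReal_le_ofReal ?_)
    have : (n : ℝ) ≤ 5 * pg t := by exact_mod_cast h.le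
    rw [le_div_iff₀ hn0]
    linarith
  have h1 : n + 1 ≤ 2 ^ t := Nat.lt_pow_succ_log_self (by norm_num) n
  have h2 : 2 ^ t ≤ 2 * n := by
    have := Nat.pow_log_le_self 2 (show n ≠ 0 by omega)
    rw [ht, pow_succ]; omega
  have h3 : 40 ≤ t := by
    by_contra hc
    have h4 : 2 ^ t ≤ 2 ^ 39 := Nat.pow_le_pow_right (by norm_num) (by omega)
    have h5 : 2 ^ 39 ≤ pg t := Nat.le_mul_of_pos_right _ (by positivity)
    omega
  have hN0 : 0 < n / (5 * pg t) := Nat.div_pos h (by omega)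
  have hN : 5 * pg t * (n / (5 * pg t)) ≤ n := Nat.mul_div_le _ _
  have hN1 : n ≤ 10 * pg t * (n / (5 * pg t)) := by
    have := Nat.lt_mul_div_succ n (show 0 < 5 * pg t by omega)
    nlinarith
  generalize n / (5 * pg t) = N at hN0 hN hN1
  obtain ⟨Z, hf, a1, a2, a3⟩ := disc h3 h1 h2 hN hN0
  have hV : (0 : ℝ) < #(pOm n) := by
    rw [pOm, card_Q]; positivity
  have hZ : (0 : ℝ) < #Z := by linarith
  have hN' : (0 : ℝ) < N := by exact_mod_cast hN0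
  refine (real_red (by omega) Z (card_pos.1 (by exact_mod_cast hZ)) hf a1 _ a3).trans
    (ENNReal.ofReal_le_ofReal ?_)
  have a4 : (n : ℝ) ≤ 10 * pg t * N := by exact_mod_cast hN1
  calc 2 * (7 / (N : ℝ) * #(pOm n)) / #Z ≤ 2 * (7 / (N : ℝ) * (32 * #Z)) / #Z := by gcongr
    _ = 448 / N := by field_simp; norm_num
    _ ≤ 4480 * (pg t : ℝ) / n := by rw [div_le_div_iff₀ hN' hn0]; linarith

/-- `Nat.log 2 n + 1 ≤ 3 log n` for `n ≥ 2`. -/
theorem cube_upper (hn : 2 ≤ n) :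
    covConst (cube n) ≤ ENNReal.ofReal (2 ^ 64 * Real.log n ^ 8 / n) := by
  refine (cube_upper_t hn).trans (ENNReal.ofReal_le_ofReal ?_)
  have h1 : 1 ≤ Nat.log 2 n := Nat.le_log_of_pow_le (by norm_num) (by simpa using hn)
  have h2 : ((2 : ℝ)) ^ Nat.log 2 n ≤ n := by
    exact_mod_cast Nat.pow_log_le_self 2 (show n ≠ 0 by omega)
  have h3 : Nat.log 2 n * Real.log 2 ≤ Real.log n := by
    rw [← Real.log_pow]; exact Real.log_le_log (by positivity) h2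
  have h4 : (1 : ℝ) ≤ Nat.log 2 n := by exact_mod_cast h1
  have h5 : ((Nat.log 2 n + 1 : ℕ) : ℝ) ≤ 3 * Real.log n := by
    have := Real.log_two_gt_d9
    push_cast
    nlinarith
  have h6 := pow_le_pow_left₀ (Nat.cast_nonneg _) h5 8
  refine div_le_div_of_nonneg_right ?_ (Nat.cast_nonneg _)
  rw [pg, Nat.cast_mul, Nat.cast_pow, Nat.cast_pow, Nat.cast_ofNat]
  have h7 : 0 ≤ Real.log n ^ 8 := by positivity
  rw [mul_pow] at h6
  nlinarith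

end Pool.Agent.MP_9210c2_an.H87
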