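import Pool.Agent.MP_9210c2_an.H87.Base

/-!
The pattern measure has intensity at most `1/m` per value.
-/

namespace Pool.Agent.MP_9210c2_an.H87

open Finset
open scoped Classical

variable {n : ℕ}

theorem Inten_sz {t : Pat n} {l : Fin n} (h : t l ≠ 0) :
    sz t = sz (Function.update t l 0) + 1 := by
  unfold sz
  have h1 : ({l' | Function.update t l 0 l' ≠ 0} : Finset (Fin n)) =
      ({l' | t l' ≠ 0} : Finset (Fin n)).erase l := by
    ext l'
    by_cases h2 : l' = l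
    · subst h2
      simp
    · simp [h2]
  rw [h1, card_erase_add_one (by simpa using h)]

/-- Group the `t` with `t l ≠ 0` by `v = t l`; for fixed `v` the map `t ↦ update t l 0` is
injective into `S` and multiplies the weight by `m` (`sz` drops by one). -/
theorem inten_one {m : ℕ} (hm : 0 < m) (h : ℕ) (S : Finset (Pat n))
    (hdown : ∀ t ∈ S, ∀ l, Function.update t l 0 ∈ S) (hle : ∀ t ∈ S, ∀ l, t l ≤ h) (l : Fin n)
    (G : Pat n → ℝ) (hG0 : ∀ t, 0 ≤ G t) (hG : ∀ t, G (Function.update t l 0) = G t)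
    (ψ : ℕ → ℝ) (hψ : ∀ v, 0 ≤ ψ v) (hψ0 : ψ 0 = 0) :
    ∑ t ∈ S, (1 / (m : ℝ)) ^ sz t * G t * ψ (t l) ≤
      (∑ v ∈ range (h + 1), ψ v) / m * ∑ t ∈ S, (1 / (m : ℝ)) ^ sz t * G t := by
  have hm' : (0 : ℝ) < m := by exact_mod_cast hm
  have hw : ∀ t, 0 ≤ (1 / (m : ℝ)) ^ sz t * G t := fun t => mul_nonneg (by positivity) (hG0 t)
  rw [← sum_fiberwise_of_maps_to (t := range (h + 1)) (g := fun t => t l)
    (fun t ht => mem_range.2 (Nat.lt_succ_of_le (hle t ht l))), sum_div, sum_mul]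
  refine sum_le_sum fun v _ => ?_
  by_cases hv : v = 0
  · subst hv
    rw [hψ0, zero_div, zero_mul]
    refine le_of_eq (sum_eq_zero fun t ht => ?_)
    rw [(mem_filter.1 ht).2, hψ0, mul_zero]
  have h1 : ∑ t ∈ S with t l = v, (1 / (m : ℝ)) ^ sz t * G t * ψ (t l) =
      ψ v / m * ∑ t ∈ S with t l = v,
        (1 / (m : ℝ)) ^ sz (Function.update t l 0) * G (Function.update t l 0) := by
    rw [mul_sum]
    refine sum_congr rfl fun t ht => ?_
    have h2 := (mem_filter.1 ht).2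
    rw [hG, Inten_sz (l := l) (h2 ▸ hv), h2, pow_succ]
    ring
  rw [h1]
  refine mul_le_mul_of_nonneg_left ?_ (div_nonneg (hψ v) hm'.le)
  rw [← sum_image (s := S.filter fun t => t l = v) (g := fun t => Function.update t l 0)
    (f := fun t => (1 / (m : ℝ)) ^ sz t * G t) ?_]
  · refine sum_le_sum_of_subset_of_nonneg (fun t ht => ?_) fun t _ _ => hw t
    obtain ⟨t', ht', rfl⟩ := mem_image.1 ht
    exact hdown t' (mem_filter.1 ht').1 l
  · intro t ht t' ht' e
    funext l'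
    by_cases h2 : l' = l
    · rw [h2, (mem_filter.1 (mem_coe.1 ht)).2, (mem_filter.1 (mem_coe.1 ht')).2]
    · simpa [h2] using congrFun e l'

/-- Induction on `E`, using `inten_one` with `G t * ∏ l' ∈ E', (a l' + ψ l' (t l'))`. -/
theorem inten {m : ℕ} (hm : 0 < m) (h : ℕ) (S : Finset (Pat n))
    (hdown : ∀ t ∈ S, ∀ l, Function.update t l 0 ∈ S) (hle : ∀ t ∈ S, ∀ l, t l ≤ h)
    (E : Finset (Fin n)) (G : Pat n → ℝ) (hG0 : ∀ t, 0 ≤ G t)
    (hG : ∀ l ∈ E, ∀ t, G (Function.update t l 0) = G t) (a : Fin n → ℝ) (ha : ∀ l ∈ E, 0 ≤ a l)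
    (ψ : Fin n → ℕ → ℝ) (hψ : ∀ l ∈ E, ∀ v, 0 ≤ ψ l v) (hψ0 : ∀ l ∈ E, ψ l 0 = 0) :
    ∑ t ∈ S, (1 / (m : ℝ)) ^ sz t * G t * ∏ l ∈ E, (a l + ψ l (t l)) ≤
      (∏ l ∈ E, (a l + (∑ v ∈ range (h + 1), ψ l v) / m)) *
        ∑ t ∈ S, (1 / (m : ℝ)) ^ sz t * G t := by
  have hm' : (0 : ℝ) < m := by exact_mod_cast hm
  induction E using Finset.induction_on with
  | empty => simp
  | insert j E hj ih =>
    have hE : ∀ l ∈ E, l ∈ insert j E := fun l hl => mem_insert_of_mem hl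
    have hj' : j ∈ insert j E := mem_insert_self _ _
    have h1 := ih (fun l hl => hG l (hE l hl)) (fun l hl => ha l (hE l hl))
      (fun l hl => hψ l (hE l hl)) (fun l hl => hψ0 l (hE l hl))
    have h2 := inten_one hm h S hdown hle j (fun t => G t * ∏ l ∈ E, (a l + ψ l (t l)))
      (fun t => mul_nonneg (hG0 t) (prod_nonneg fun l hl =>
        add_nonneg (ha l (hE l hl)) (hψ l (hE l hl) _)))
      (fun t => by
        rw [hG j hj']
        congr 1
        refine prod_congr rfl fun l hl => ?_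
        rw [Function.update_of_ne (ne_of_mem_of_not_mem hl hj)])
      (ψ j) (hψ j hj') (hψ0 j hj')
    have h3 : ∑ t ∈ S, (1 / (m : ℝ)) ^ sz t * G t * ∏ l ∈ insert j E, (a l + ψ l (t l)) =
        a j * ∑ t ∈ S, (1 / (m : ℝ)) ^ sz t * G t * ∏ l ∈ E, (a l + ψ l (t l)) +
        ∑ t ∈ S, (1 / (m : ℝ)) ^ sz t * (G t * ∏ l ∈ E, (a l + ψ l (t l))) * ψ j (t j) := by
      rw [mul_sum, ← sum_add_distrib]
      refine sum_congr rfl fun t _ => ?_
      rw [prod_insert hj]
      ring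
    have h4 : ∑ t ∈ S, (1 / (m : ℝ)) ^ sz t * (G t * ∏ l ∈ E, (a l + ψ l (t l))) =
        ∑ t ∈ S, (1 / (m : ℝ)) ^ sz t * G t * ∏ l ∈ E, (a l + ψ l (t l)) :=
      sum_congr rfl fun t _ => by ring
    have h5 : 0 ≤ a j + (∑ v ∈ range (h + 1), ψ j v) / m :=
      add_nonneg (ha j hj') (div_nonneg (sum_nonneg fun v _ => hψ j hj' v) hm'.le)
    rw [h4] at h2
    rw [h3, prod_insert hj, mul_assoc]
    refine le_trans ?_ (mul_le_mul_of_nonneg_left h1 h5)
    rw [add_mul]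
    exact add_le_add le_rfl h2

/-- The same for the normalised measure and the event `evB` (which only depends on the
coordinates in `Cr`). -/
theorem inten_evB {e : Bool} {h lam B : ℕ} (hh : 0 < h) {cl : Cl n} (hv : cl.Valid e h lam B)
    (Cr : Finset (Fin n)) (v : Pt n) (a : Fin n → ℝ) (ha : ∀ l ∉ Cr, 0 ≤ a l)
    (ψ : Fin n → ℕ → ℝ) (hψ : ∀ l ∉ Cr, ∀ s, 0 ≤ ψ l s) (hψ0 : ∀ l ∉ Cr, ψ l 0 = 0) :
    ∑ t ∈ cl.S.filter (evB e (8 * h) cl.k Cr v), cl.mu (8 * h) t * ∏ l ∈ Crᶜ, (a l + ψ l (t l)) ≤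
      (∏ l ∈ Crᶜ, (a l + (∑ s ∈ range (h + 1), ψ l s) / ((8 * h : ℕ) : ℝ))) *
        cl.muB e (8 * h) Cr v := by
  have hZ := cl.Z_nonneg (8 * h)
  have h2 := inten (m := 8 * h) (by omega) h cl.S hv.down hv.le_h Crᶜ
    (fun t => if evB e (8 * h) cl.k Cr v t then 1 / cl.Z (8 * h) else 0)
    (fun t => by split_ifs <;> positivity)
    (fun l hl t => by
      have h3 : evB e (8 * h) cl.k Cr v (Function.update t l 0) ↔ evB e (8 * h) cl.k Cr v t := by
        unfold evB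
        refine forall_congr' fun l' => forall_congr' fun hl' => ?_
        rw [Function.update_of_ne (ne_of_mem_of_not_mem hl' (mem_compl.1 hl))]
      simp only [h3])
    a (fun l hl => ha l (mem_compl.1 hl)) ψ (fun l hl => hψ l (mem_compl.1 hl))
    (fun l hl => hψ0 l (mem_compl.1 hl))
  unfold Cl.muB Cl.mu
  rw [sum_filter, sum_filter]
  convert h2 using 2 with t _
  · split_ifs
    · ring
    · ring
  · refine sum_congr rfl fun t _ => ?_
    split_ifs
    · ring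
    · ring

end Pool.Agent.MP_9210c2_an.H87

/-!
The test function: majorant and total mass.
-/

namespace Pool.Agent.MP_9210c2_an.H87

open Finset
open scoped Classical

variable {n : ℕ}

theorem Smp_mono (cl : Cl n) (e : Bool) (m : ℕ) {x : ℝ} (hx0 : 0 ≤ x) (hx1 : x ≤ 1) (b : ℕ)
    {f g : Pt n → ℝ} (h : ∀ u, f u ≤ g u) : cl.Smp e m x b f ≤ cl.Smp e m x b g := by
  refine cl.E_mono m fun t _ c _ => ?_
  split_ifs
  · refine sum_le_sum fun J _ => sum_le_sum fun w _ => ?_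
    exact mul_le_mul_of_nonneg_left (h _)
      (mul_nonneg (pow_nonneg hx0 _) (pow_nonneg (sub_nonneg.2 hx1) _))
  · exact le_rfl

theorem phi0_nonneg (cl : Cl n) (e : Bool) (m : ℕ) {x : ℝ} (hx0 : 0 ≤ x) (hx1 : x ≤ 1) (b : ℕ)
    (u : Pt n) : 0 ≤ cl.phi0 e m x b u := by
  refine cl.E_nonneg m fun t _ c _ => ?_
  split_ifs
  · refine sum_nonneg fun J _ => sum_nonneg fun w _ => ?_
    refine mul_nonneg (mul_nonneg (pow_nonneg hx0 _) (pow_nonneg (sub_nonneg.2 hx1) _)) ?_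
    beta_reduce
    split_ifs <;> norm_num
  · exact le_rfl

/-- The samples `mg ..` lie in `Q m c ⊆ Ω` (`tip_inI`); exchange the sums (`Cl.E_sum`,
`Cl.E_mul`, `Cl.E_congr`). -/
theorem sum_phi0 {e : Bool} {h lam B : ℕ} {cl : Cl n} (hv : cl.Valid e h lam B) (x : ℝ) (b : ℕ)
    (Ω : Finset (Pt n)) (hΩ : ∀ t ∈ cl.S, ∀ c ∈ cl.W t, Q (8 * h) c ⊆ Ω) (f : Pt n → ℝ) :
    ∑ u ∈ Ω, f u * cl.phi0 e (8 * h) x b u = cl.Smp e (8 * h) x b f := by
  unfold Cl.phi0 Cl.Smp
  simp only [← Cl.E_mul]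
  rw [← Cl.E_sum]
  refine cl.E_congr _ fun t ht c hc => ?_
  split_ifs with hb
  · simp only [mul_sum]
    rw [sum_comm]
    refine sum_congr rfl fun J hJ => ?_
    rw [sum_comm]
    refine sum_congr rfl fun w hw => ?_
    have hmem : mg e (8 * h) cl.k J t w ∈ Ω := by
      apply hΩ t ht c hc
      rw [mem_Q_iff_inI]
      intro l
      unfold mg
      split_ifs with hl
      · have hs : t l ≠ 0 := by simpa using mem_powerset.1 hJ hl
        exact tip_inI hs (hv.near t ht c hc l) (hv.reach t ht c hc l hs)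
      · exact mem_Q_iff_inI.1 (mem_inter.1 hw).2 l
    simp only [mul_ite, mul_one, mul_zero]
    rw [sum_ite_eq, if_pos hmem]
    ring
  · simp

theorem SmpA_out {e : Bool} {m : ℕ} {k : Pt n} {J : Finset (Fin n)} {t : Pat n} {w u : Pt n}
    (hJ : ∀ l ∈ J, t l ≠ 0) (hw : w ∈ Q m k) (hu : mg e m k J t w = u) (l : Fin n) :
    l ∈ J ↔ ¬ inI m (k l) (u l) := by
  rw [← hu]
  unfold mg
  constructor
  · intro hl
    rw [if_pos hl]
    exact tip_not_inI e m _ (hJ l hl)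
  · intro hl
    by_contra hl'
    rw [if_neg hl'] at hl
    exact hl (mem_Q_iff_inI.1 hw l)

theorem SmpA_card (e : Bool) (m : ℕ) (k : Pt n) (J : Finset (Fin n)) (t : Pat n) (u : Pt n)
    (G : Finset (Pt n)) (hG : G ⊆ Q m k) :
    #(G.filter fun w => mg e m k J t w = u) ≤ m ^ #J := by
  have h1 : G.filter (fun w => mg e m k J t w = u) ⊆
      Fintype.piFinset fun l => if l ∈ J then Ico (k l) (k l + m) else {u l} := by
    intro w hw
    rw [mem_filter] at hw
    rw [Fintype.mem_piFinset]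
    intro l
    split_ifs with hl
    · exact mem_Ico.2 (mem_Q.1 (hG hw.1) l)
    · rw [mem_singleton, ← hw.2]
      unfold mg
      rw [if_neg hl]
  refine (card_le_card h1).trans ?_
  rw [Fintype.card_piFinset]
  have h2 : ∀ l, #(if l ∈ J then Ico (k l) (k l + m) else {u l}) = if l ∈ J then m else 1 := by
    intro l
    split_ifs <;> simp
  simp only [h2]
  rw [Fintype.prod_ite_mem, prod_const]

theorem SmpA_prod {e : Bool} {m : ℕ} (x : ℝ) {k : Pt n} {J : Finset (Fin n)} {t : Pat n}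
    {w u : Pt n} (hJ : ∀ l ∈ J, t l ≠ 0) (hw : w ∈ Q m k) (hu : mg e m k J t w = u) :
    ∏ l, gk e m x (k l) (t l) (u l) = (x * m) ^ #J * (1 - x) ^ (sz t - #J) := by
  have hsub : J ⊆ ({l | t l ≠ 0} : Finset (Fin n)) := fun l hl => by simpa using hJ l hl
  have h1 : ∀ l, gk e m x (k l) (t l) (u l) = (if l ∈ J then x * m else 1) *
      (if l ∈ ({l | t l ≠ 0} : Finset (Fin n)) \ J then 1 - x else 1) := by
    intro l
    have h2 := SmpA_out hJ hw hu l
    unfold gk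
    by_cases hl : l ∈ J
    · have h3 : u l = tip e m (k l) (t l) := by
        rw [← hu]
        unfold mg
        rw [if_pos hl]
      rw [if_neg (h2.1 hl), if_pos ⟨hJ l hl, h3⟩, if_pos hl, if_neg (by simp [hl]), mul_one]
    · have h3 : inI m (k l) (u l) := by
        by_contra h3
        exact hl (h2.2 h3)
      rw [if_pos h3, if_neg hl, one_mul]
      by_cases h4 : t l = 0
      · rw [if_pos h4, if_neg (by simp [h4])]
      · rw [if_neg h4, if_pos (by simp [h4, hl])]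
  simp only [h1]
  rw [prod_mul_distrib, Fintype.prod_ite_mem, Fintype.prod_ite_mem, prod_const, prod_const,
    card_sdiff_of_subset hsub]
  rfl

theorem SmpA_key (e : Bool) (m : ℕ) {x : ℝ} (hx0 : 0 ≤ x) (hx1 : x ≤ 1) (k : Pt n) (t : Pat n)
    (u : Pt n) (G : Finset (Pt n)) (hG : G ⊆ Q m k) :
    ∑ J ∈ ({l | t l ≠ 0} : Finset (Fin n)).powerset, ∑ w ∈ G,
      x ^ #J * (1 - x) ^ (sz t - #J) * (if mg e m k J t w = u then 1 else 0) ≤
      ∏ l, gk e m x (k l) (t l) (u l) := by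
  have hs : ∀ J ∈ ({l | t l ≠ 0} : Finset (Fin n)).powerset, ∀ l ∈ J, t l ≠ 0 :=
    fun J hJ l hl => by simpa using mem_powerset.1 hJ hl
  by_cases hex : ∃ J ∈ ({l | t l ≠ 0} : Finset (Fin n)).powerset, ∃ w ∈ G, mg e m k J t w = u
  · obtain ⟨J, hJ, w, hw, hu⟩ := hex
    rw [sum_eq_single_of_mem J hJ, SmpA_prod x (hs J hJ) (hG hw) hu, ← mul_sum, sum_boole]
    · have h1 : (#(G.filter fun w => mg e m k J t w = u) : ℝ) ≤ (m : ℝ) ^ #J := by
        exact_mod_cast SmpA_card e m k J t u G hG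
      have h2 : 0 ≤ x ^ #J * (1 - x) ^ (sz t - #J) :=
        mul_nonneg (pow_nonneg hx0 _) (pow_nonneg (sub_nonneg.2 hx1) _)
      refine (mul_le_mul_of_nonneg_left h1 h2).trans (le_of_eq ?_)
      rw [mul_pow]
      ring
    · intro J' hJ' hne
      refine sum_eq_zero fun w' hw' => ?_
      rw [if_neg, mul_zero]
      intro hu'
      apply hne
      ext l
      rw [SmpA_out (hs J' hJ') (hG hw') hu' l, SmpA_out (hs J hJ) (hG hw) hu l]
  · push Not at hex
    refine le_trans (le_of_eq ?_) (prod_nonneg fun l _ => gk_nonneg e m hx0 hx1 _ _ _)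
    refine sum_eq_zero fun J hJ => sum_eq_zero fun w hw => ?_
    rw [if_neg (hex J hJ w hw), mul_zero]

/-- Fix `t`, `c`.  If `mg e m k J t w = u` with `J ⊆ supp t`, `w ∈ Q m k`, then
`J = J0 := {l | ¬ inI m (k l) (u l)}` (`tip_not_inI`), `u l = tip ..` on `J0`, and `w = u` off `J0`;
at most `m ^ #J0` points `w ∈ Q m k` do this, and then
`∏ l, gk .. = (x m)^#J0 (1-x)^(sz t - #J0)`. -/
theorem phi0_le_Phi {e : Bool} {h lam B : ℕ} {cl : Cl n} (hv : cl.Valid e h lam B) {x : ℝ}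
    (hx0 : 0 ≤ x) (hx1 : x ≤ 1) (b : ℕ) (u : Pt n) :
    cl.phi0 e (8 * h) x b u ≤ cl.Phi e (8 * h) x b u := by
  have h1 : cl.Phi e (8 * h) x b u = cl.E (8 * h) fun t _ =>
      if b ≤ sz t then ∏ l, gk e (8 * h) x (cl.k l) (t l) (u l) else 0 := by
    rw [cl.E_pat _ hv.wne]
    unfold Cl.Phi
    rw [sum_filter]
    refine sum_congr rfl fun t _ => ?_
    split_ifs <;> simp
  rw [h1]
  refine cl.E_mono _ fun t _ c _ => ?_
  split_ifs
  · exact SmpA_key e (8 * h) hx0 hx1 cl.k t u _ inter_subset_left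
  · exact le_rfl

/-- The weights of the sets `J` add up to one (`sum_superset` with `D = ∅`), `inter_lower`, and
the patterns with `sz t < b` have measure at most `(n+1)^b / Z ≤ 1/2` (`low_level`). -/
theorem Smp_one {e : Bool} {h lam B : ℕ} (hh : 0 < h) {cl : Cl n} (hv : cl.Valid e h lam B)
    (x : ℝ) (b : ℕ) (hZ : 2 * ((n : ℝ) + 1) ^ b ≤ cl.Z (8 * h)) :
    Real.exp (-(2 * lam)) / 2 * ((8 * h : ℕ) : ℝ) ^ n ≤ cl.Smp e (8 * h) x b fun _ => 1 := by
  have hm : 0 < 8 * h := by omega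
  have hZ0 := cl.Z_pos hm hv.ne
  have h1 : cl.E (8 * h) (fun t _ =>
      if b ≤ sz t then Real.exp (-(2 * lam)) * ((8 * h : ℕ) : ℝ) ^ n else 0) ≤
      cl.Smp e (8 * h) x b fun _ => 1 := by
    refine cl.E_mono _ fun t ht c hc => ?_
    split_ifs
    · have h2 := sum_superset ({l | t l ≠ 0} : Finset (Fin n)) ∅ (empty_subset _) x
      simp only [empty_subset, filter_true, card_empty, pow_zero] at h2
      simp only [mul_one, sum_const, nsmul_eq_mul]
      rw [← mul_sum]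
      unfold sz
      rw [h2, mul_one]
      refine inter_lower hm cl.k c (fun l => ?_) ?_
      · have := hv.near t ht c hc l
        push_cast
        omega
      · have := hv.l1 t ht c hc
        push_cast
        exact this
    · exact le_rfl
  refine le_trans ?_ h1
  rw [cl.E_pat _ hv.wne]
  have h3 : ∑ t ∈ cl.S.filter (fun t => sz t ≤ b), cl.mu (8 * h) t ≤ 1 / 2 := by
    unfold Cl.mu
    rw [← sum_div, div_le_iff₀ hZ0]
    have h4 := low_level h b (1 / ((8 * h : ℕ) : ℝ)) (by positivity) (by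
      have : (0 : ℝ) < h := by exact_mod_cast hh
      push_cast
      rw [mul_one_div, div_le_one (by positivity)]
      linarith) cl.S (fun t ht => mem_allPat.2 (hv.le_h t ht))
    linarith
  have h4 : ∑ t ∈ cl.S, cl.mu (8 * h) t ≤ ∑ t ∈ cl.S.filter (fun t => sz t ≤ b), cl.mu (8 * h) t +
      ∑ t ∈ cl.S.filter (fun t => b ≤ sz t), cl.mu (8 * h) t := by
    rw [sum_filter, sum_filter, ← sum_add_distrib]
    refine sum_le_sum fun t _ => ?_
    have := cl.mu_nonneg (8 * h) t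
    split_ifs <;> linarith
  rw [cl.sum_mu hm hv.ne] at h4
  have h5 : ∑ t ∈ cl.S, cl.mu (8 * h) t *
      (if b ≤ sz t then Real.exp (-(2 * lam)) * ((8 * h : ℕ) : ℝ) ^ n else 0) =
      (∑ t ∈ cl.S.filter (fun t => b ≤ sz t), cl.mu (8 * h) t) *
        (Real.exp (-(2 * lam)) * ((8 * h : ℕ) : ℝ) ^ n) := by
    rw [sum_mul, sum_filter]
    refine sum_congr rfl fun t _ => ?_
    split_ifs <;> simp
  rw [h5]
  have h6 : 0 ≤ Real.exp (-(2 * lam)) * ((8 * h : ℕ) : ℝ) ^ n := by positivity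
  nlinarith

end Pool.Agent.MP_9210c2_an.H87

/-!
The test function: the mass removed by the truncation.
-/

namespace Pool.Agent.MP_9210c2_an.H87

open Finset
open scoped Classical

variable {n : ℕ}

/-- The class of `t` with respect to the coordinates in `D` is light at the point `w`. -/
def Cl.Light (cl : Cl n) (m : ℕ) (x X0 : ℝ) (D : Finset (Fin n)) (t : Pat n) (w : Pt n) : Prop :=
  X0 * ∑ t' ∈ cl.S.filter (fun t' => ∀ l ∈ D, t' l = t l),
      cl.mu m t' * ((#((cl.W t').filter fun c => w ∈ Q m c) : ℝ) / #(cl.W t')) <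
    (8 * x) ^ #D * ∑ t' ∈ cl.S.filter (fun t' => ∀ l ∈ D, t' l = t l), cl.mu m t'

/-- If `u = mg e m k J t w` is bad through `Cr`, take `D = Cr ∩ J`.  Then `u l` is outside exactly
for `l ∈ J`, `nout = #D`, `evB e m k Cr u t' ↔ ∀ l ∈ D, t' l = t l` (`tip_inj`), and `evA` holds
for `(t', c')` as soon as moreover `w ∈ Q m c'`. -/
theorem bad_light (cl : Cl n) (e : Bool) (m : ℕ) {x X0 : ℝ} (hX0 : 0 ≤ X0)
    (J : Finset (Fin n)) (t : Pat n) (hJ : ∀ l ∈ J, t l ≠ 0) (w : Pt n) (hw : w ∈ Q m cl.k)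
    (hb : cl.bad e m x X0 (mg e m cl.k J t w)) : ∃ D ⊆ J, cl.Light m x X0 D t w := by
  obtain ⟨Cr, hCr⟩ := hb
  have hout := SmpA_out (e := e) hJ hw rfl
  have htip : ∀ l ∈ J, mg e m cl.k J t w l = tip e m (cl.k l) (t l) := fun l hl => by
    unfold mg
    rw [if_pos hl]
  have hin : ∀ l, l ∉ J → mg e m cl.k J t w l = w l := fun l hl => by
    unfold mg
    rw [if_neg hl]
  generalize mg e m cl.k J t w = u at hCr hout htip hin
  refine ⟨Cr ∩ J, inter_subset_right, ?_⟩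
  have h1 : nout m cl.k Cr u = #(Cr ∩ J) := by
    unfold nout
    congr 1
    ext l
    rw [mem_filter, mem_inter, hout l]
  have h2 : ∀ t', evB e m cl.k Cr u t' ↔ ∀ l ∈ Cr ∩ J, t' l = t l := by
    intro t'
    constructor
    · intro h l hl
      rw [mem_inter] at hl
      have h3 := (h l hl.1 ((hout l).1 hl.2)).2
      rw [htip l hl.2] at h3
      exact (tip_inj h3).symm
    · intro h l hl hl'
      have hlJ := (hout l).2 hl'
      rw [h l (mem_inter.2 ⟨hl, hlJ⟩)]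
      exact ⟨hJ l hlJ, htip l hlJ⟩
  have h3 : cl.muB e m Cr u =
      ∑ t' ∈ cl.S.filter (fun t' => ∀ l ∈ Cr ∩ J, t' l = t l), cl.mu m t' := by
    unfold Cl.muB
    congr 1
    ext t'
    rw [mem_filter, mem_filter, h2]
  unfold Cl.Light
  rw [← h1, ← h3]
  refine lt_of_le_of_lt (mul_le_mul_of_nonneg_left ?_ hX0) hCr
  unfold Cl.piA Cl.E
  rw [sum_filter]
  refine sum_le_sum fun t' _ => ?_
  split_ifs with ht'
  · refine mul_le_mul_of_nonneg_left (div_le_div_of_nonneg_right ?_ (Nat.cast_nonneg _))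
      (cl.mu_nonneg m t')
    rw [sum_boole]
    refine Nat.cast_le.2 (card_le_card fun c hc => ?_)
    rw [mem_filter] at hc ⊢
    refine ⟨hc.1, (h2 t').2 ht', fun l _ hl => ?_⟩
    have hlJ : l ∉ J := fun h => (hout l).1 h hl
    rw [hin l hlJ]
    exact mem_Q_iff_inI.1 hc.2 l
  · refine mul_nonneg (cl.mu_nonneg m t') (div_nonneg (sum_nonneg fun c _ => ?_)
      (Nat.cast_nonneg _))
    beta_reduce
    split_ifs <;> norm_num

theorem SmpB_pt (cl : Cl n) (e : Bool) (m : ℕ) {x X0 : ℝ} (hx0 : 0 ≤ x) (hx1 : x ≤ 1)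
    (hX0 : 0 ≤ X0) (t : Pat n) (w : Pt n) (hw : w ∈ Q m cl.k) :
    ∑ J ∈ ({l | t l ≠ 0} : Finset (Fin n)).powerset, x ^ #J * (1 - x) ^ (sz t - #J) *
      (if cl.bad e m x X0 (mg e m cl.k J t w) then 1 else 0) ≤
    ∑ D : Finset (Fin n), x ^ #D *
      (if D ⊆ ({l | t l ≠ 0} : Finset (Fin n)) ∧ cl.Light m x X0 D t w then 1 else 0) := by
  have h1 : ∀ J ∈ ({l | t l ≠ 0} : Finset (Fin n)).powerset,
      x ^ #J * (1 - x) ^ (sz t - #J) * (if cl.bad e m x X0 (mg e m cl.k J t w) then 1 else 0) ≤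
      ∑ D : Finset (Fin n), if D ⊆ J ∧ cl.Light m x X0 D t w then
        x ^ #J * (1 - x) ^ (sz t - #J) else 0 := by
    intro J hJ
    have h2 : 0 ≤ x ^ #J * (1 - x) ^ (sz t - #J) :=
      mul_nonneg (pow_nonneg hx0 _) (pow_nonneg (sub_nonneg.2 hx1) _)
    have h3 : ∀ D ∈ (univ : Finset (Finset (Fin n))),
        0 ≤ if D ⊆ J ∧ cl.Light m x X0 D t w then x ^ #J * (1 - x) ^ (sz t - #J) else 0 := by
      intro D _
      split_ifs
      · exact h2
      · exact le_rfl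
    split_ifs with hb
    · obtain ⟨D, hD, hL⟩ := bad_light cl e m hX0 J t
        (fun l hl => by simpa using mem_powerset.1 hJ hl) w hw hb
      refine le_trans (le_of_eq ?_) (single_le_sum h3 (mem_univ D))
      rw [if_pos ⟨hD, hL⟩, mul_one]
    · rw [mul_zero]
      exact sum_nonneg h3
  refine (sum_le_sum h1).trans ?_
  rw [sum_comm]
  refine sum_le_sum fun D _ => le_of_eq ?_
  split_ifs with hD
  · rw [mul_one, ← sum_superset _ D hD.1 x, sum_filter]
    refine sum_congr rfl fun J _ => ?_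
    simp only [hD.2, and_true]
    rfl
  · rw [mul_zero]
    refine sum_eq_zero fun J hJ => if_neg fun h => hD ⟨h.1.trans (mem_powerset.1 hJ), h.2⟩

theorem SmpB_fib (cl : Cl n) (m : ℕ) {x : ℝ} (hx0 : 0 ≤ x) (X0 : ℝ) (D : Finset (Fin n))
    (w : Pt n) :
    X0 * cl.E m (fun t c =>
      (if D ⊆ ({l | t l ≠ 0} : Finset (Fin n)) ∧ cl.Light m x X0 D t w then 1 else 0) *
        if w ∈ Q m c then 1 else 0) ≤
      (8 * x) ^ #D *
        ∑ t ∈ cl.S.filter (fun t => D ⊆ ({l | t l ≠ 0} : Finset (Fin n))), cl.mu m t := by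
  have h1 := fiber_small (cl.S.filter (fun t => D ⊆ ({l | t l ≠ 0} : Finset (Fin n))))
    (fun (t : Pat n) (l : Fin n) => if l ∈ D then t l else 0)
    (fun t => cl.mu m t * ((#((cl.W t).filter fun c => w ∈ Q m c) : ℝ) / #(cl.W t)))
    (fun t => (8 * x) ^ #D * cl.mu m t)
    (fun t _ => mul_nonneg (by positivity) (cl.mu_nonneg m t)) X0
  rw [← mul_sum] at h1
  refine le_trans (le_of_eq ?_) h1
  congr 1
  unfold Cl.E
  rw [sum_filter, sum_filter]
  refine sum_congr rfl fun t _ => ?_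
  by_cases hD : D ⊆ ({l | t l ≠ 0} : Finset (Fin n))
  · have h2 : (cl.S.filter (fun t => D ⊆ ({l | t l ≠ 0} : Finset (Fin n)))).filter
        (fun t' : Pat n => (fun l => if l ∈ D then t' l else 0) =
          fun l => if l ∈ D then t l else 0) =
        cl.S.filter (fun t' => ∀ l ∈ D, t' l = t l) := by
      ext t'
      simp only [mem_filter]
      constructor
      · rintro ⟨⟨h3, -⟩, h4⟩
        refine ⟨h3, fun l hl => ?_⟩
        simpa [hl] using congrFun h4 l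
      · rintro ⟨h3, h4⟩
        refine ⟨⟨h3, fun l hl => ?_⟩, ?_⟩
        · have := hD hl
          simpa [h4 l hl] using this
        · funext l
          split_ifs with hl
          · exact h4 l hl
          · rfl
    rw [if_pos hD, h2, ← mul_sum _ _ ((8 * x) ^ #D)]
    by_cases hL : cl.Light m x X0 D t w
    · rw [if_pos (by exact hL)]
      simp only [hD, hL, and_self, if_true, one_mul, sum_boole]
    · rw [if_neg (by exact hL)]
      simp [hL]
  · rw [if_neg hD]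
    simp only [hD, false_and, if_false, zero_mul, sum_const_zero, zero_div, mul_zero]

theorem SmpB_tot (cl : Cl n) {m B : ℕ} (hm : 0 < m) (hS : cl.S.Nonempty)
    (hB : ∀ t ∈ cl.S, sz t ≤ B) (x : ℝ) :
    ∑ D : Finset (Fin n), (8 * x ^ 2) ^ #D *
      ∑ t ∈ cl.S.filter (fun t => D ⊆ ({l | t l ≠ 0} : Finset (Fin n))), cl.mu m t ≤
      (1 + 8 * x ^ 2) ^ B := by
  simp only [sum_filter, mul_sum]
  rw [sum_comm]
  have h1 : ∀ t ∈ cl.S, ∑ D : Finset (Fin n), (8 * x ^ 2) ^ #D *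
      (if D ⊆ ({l | t l ≠ 0} : Finset (Fin n)) then cl.mu m t else 0) ≤
      cl.mu m t * (1 + 8 * x ^ 2) ^ B := by
    intro t ht
    have h2 := sum_pow_mul_eq_add_pow (8 * x ^ 2) 1 ({l | t l ≠ 0} : Finset (Fin n))
    simp only [one_pow, mul_one] at h2
    have h3 : ∑ D : Finset (Fin n), (8 * x ^ 2) ^ #D *
        (if D ⊆ ({l | t l ≠ 0} : Finset (Fin n)) then cl.mu m t else 0) =
        cl.mu m t * (8 * x ^ 2 + 1) ^ sz t := by
      unfold sz
      rw [← h2, mul_sum, ← univ_inter (powerset _), ← sum_ite_mem]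
      refine sum_congr rfl fun D _ => ?_
      simp only [mem_powerset]
      split_ifs
      · ring
      · ring
    rw [h3, add_comm]
    refine mul_le_mul_of_nonneg_left (pow_le_pow_right₀ ?_ (hB t ht)) (cl.mu_nonneg m t)
    nlinarith [sq_nonneg x]
  refine (sum_le_sum h1).trans (le_of_eq ?_)
  rw [← sum_mul, cl.sum_mu hm hS, one_mul]

/-- Bound the indicator of `bad` by `∑ D ⊆ J, 1[Light D t w]` (`bad_light`), sum over `J ⊇ D`
(`sum_superset`, gives `x^#D`), drop the condition `b ≤ sz t`, and exchange the sums: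
`X0 * Smp ≤ ∑ w ∈ Q m k, ∑ D, x^#D * X0 * ∑ (t ∈ S, D ⊆ supp t, Light D t w), p w t` with
`p w t = mu t * #{c ∈ W t | w ∈ Q m c} / #(W t)`.  Apply `fiber_small` on
`S.filter (D ⊆ supp t)` with `key t = fun l => if l ∈ D then t l else 0` and
`q t = (8x)^#D mu t` (the class of `t` in `S` is contained in that filter).  Finally
`∑ D, (8 x^2)^#D mu (D ⊆ supp t) = ∑ t, mu t (1 + 8x^2)^(sz t) ≤ (1 + 8x^2)^B`. -/
theorem Smp_bad {e : Bool} {h lam B : ℕ} (hh : 0 < h) {cl : Cl n} (hv : cl.Valid e h lam B)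
    {x X0 : ℝ} (hx0 : 0 ≤ x) (hx1 : x ≤ 1) (hX0 : 0 ≤ X0) (b : ℕ) :
    X0 * cl.Smp e (8 * h) x b (fun u => if cl.bad e (8 * h) x X0 u then 1 else 0) ≤
      (1 + 8 * x ^ 2) ^ B * ((8 * h : ℕ) : ℝ) ^ n := by
  have hm : 0 < 8 * h := by omega
  generalize 8 * h = m at hm
  have h1 : cl.Smp e m x b (fun u => if cl.bad e m x X0 u then 1 else 0) ≤
      cl.E m fun t c => ∑ w ∈ Q m cl.k, ∑ D : Finset (Fin n), x ^ #D *
        ((if D ⊆ ({l | t l ≠ 0} : Finset (Fin n)) ∧ cl.Light m x X0 D t w then 1 else 0) *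
          if w ∈ Q m c then 1 else 0) := by
    refine cl.E_mono _ fun t _ c _ => ?_
    have h2 : ∑ w ∈ Q m cl.k, ∑ D : Finset (Fin n), x ^ #D *
        ((if D ⊆ ({l | t l ≠ 0} : Finset (Fin n)) ∧ cl.Light m x X0 D t w then 1 else 0) *
          if w ∈ Q m c then 1 else 0) = ∑ w ∈ Q m cl.k ∩ Q m c, ∑ D : Finset (Fin n), x ^ #D *
        (if D ⊆ ({l | t l ≠ 0} : Finset (Fin n)) ∧ cl.Light m x X0 D t w then 1 else 0) := by
      rw [← sum_ite_mem]
      refine sum_congr rfl fun w _ => ?_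
      split_ifs <;> simp
    rw [h2]
    split_ifs
    · rw [sum_comm]
      exact sum_le_sum fun w hw => SmpB_pt cl e m hx0 hx1 hX0 t w (mem_inter.1 hw).1
    · refine sum_nonneg fun w _ => sum_nonneg fun D _ => mul_nonneg (pow_nonneg hx0 _) ?_
      split_ifs <;> norm_num
  refine (mul_le_mul_of_nonneg_left h1 hX0).trans ?_
  rw [Cl.E_sum, mul_sum]
  have h3 : ∀ w ∈ Q m cl.k, X0 * cl.E m (fun t c => ∑ D : Finset (Fin n), x ^ #D *
        ((if D ⊆ ({l | t l ≠ 0} : Finset (Fin n)) ∧ cl.Light m x X0 D t w then 1 else 0) *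
          if w ∈ Q m c then 1 else 0)) ≤ (1 + 8 * x ^ 2) ^ B := by
    intro w _
    rw [Cl.E_sum, mul_sum]
    refine le_trans (sum_le_sum fun D _ => ?_) (SmpB_tot cl hm hv.ne hv.sz_le x)
    rw [Cl.E_mul, mul_left_comm]
    refine (mul_le_mul_of_nonneg_left (SmpB_fib cl m hx0 X0 D w) (pow_nonneg hx0 _)).trans
      (le_of_eq ?_)
    rw [← mul_assoc, ← mul_pow]
    congr 2
    ring
  refine (sum_le_sum h3).trans (le_of_eq ?_)
  rw [sum_const, card_Q, nsmul_eq_mul]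
  push_cast
  ring

/-- `φ u = if bad u then 0 else phi0 u`; `sum_phi0`, `Smp_one`, `Smp_bad`, `phi0_le_Phi`. -/
theorem exists_test {e : Bool} {h lam B : ℕ} (hh : 0 < h) {cl : Cl n} (hv : cl.Valid e h lam B)
    {x : ℝ} (hx0 : 0 ≤ x) (hx1 : x ≤ 1) (b : ℕ) (hZ : 2 * ((n : ℝ) + 1) ^ b ≤ cl.Z (8 * h))
    (Ω : Finset (Pt n)) (hΩ : ∀ t ∈ cl.S, ∀ c ∈ cl.W t, Q (8 * h) c ⊆ Ω) :
    ∃ φ : Pt n → ℝ,
      cl.Test e (8 * h) x b (4 * Real.exp (2 * lam) * (1 + 8 * x ^ 2) ^ B) φ ∧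
      Real.exp (-(2 * lam)) / 4 * ((8 * h : ℕ) : ℝ) ^ n ≤ ∑ u ∈ Ω, φ u := by
  have hP : 0 < (1 + 8 * x ^ 2) ^ B := by positivity
  have hX0 : 0 < 4 * Real.exp (2 * lam) * (1 + 8 * x ^ 2) ^ B := by positivity
  have hbad := Smp_bad hh hv hx0 hx1 hX0.le b
  have hone := Smp_one hh hv x b hZ
  have hexp : Real.exp (-(2 * lam)) * Real.exp (2 * lam) = 1 := by
    rw [← Real.exp_add]
    simp
  have hE : 0 < Real.exp (-(2 * lam)) := Real.exp_pos _
  have hbad' : cl.Smp e (8 * h) x b (fun u => if cl.bad e (8 * h) x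
      (4 * Real.exp (2 * lam) * (1 + 8 * x ^ 2) ^ B) u then 1 else 0) ≤
      Real.exp (-(2 * lam)) / 4 * ((8 * h : ℕ) : ℝ) ^ n := by
    refine le_of_mul_le_mul_left (hbad.trans (le_of_eq ?_)) hX0
    linear_combination (-(1 + 8 * x ^ 2) ^ B * ((8 * h : ℕ) : ℝ) ^ n) * hexp
  generalize 4 * Real.exp (2 * lam) * (1 + 8 * x ^ 2) ^ B = X0 at hX0 hbad'
  refine ⟨fun u => if cl.bad e (8 * h) x X0 u then 0 else cl.phi0 e (8 * h) x b u,
    ⟨fun u => ?_, fun u => ?_, fun Cr u => ?_⟩, ?_⟩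
  · split_ifs
    · exact le_rfl
    · exact phi0_nonneg cl e _ hx0 hx1 b u
  · split_ifs
    · exact cl.Phi_nonneg e _ hx0 hx1 b u
    · exact phi0_le_Phi hv hx0 hx1 b u
  · have h1 := mul_nonneg hX0.le (cl.piA_nonneg e (8 * h) Cr u)
    split_ifs with hb
    · rw [zero_mul]
      exact mul_nonneg h1 (cl.Phi_nonneg e _ hx0 hx1 b u)
    · unfold Cl.bad at hb
      push Not at hb
      refine (mul_le_mul_of_nonneg_left (hb Cr) (phi0_nonneg cl e _ hx0 hx1 b u)).trans ?_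
      rw [mul_comm]
      exact mul_le_mul_of_nonneg_left (phi0_le_Phi hv hx0 hx1 b u) h1
  · rw [← sum_phi0 hv x b Ω hΩ] at hbad' hone
    have h2 : ∑ u ∈ Ω, (if cl.bad e (8 * h) x X0 u then 0 else cl.phi0 e (8 * h) x b u) =
        ∑ u ∈ Ω, 1 * cl.phi0 e (8 * h) x b u -
          ∑ u ∈ Ω, (if cl.bad e (8 * h) x X0 u then 1 else 0) * cl.phi0 e (8 * h) x b u := by
      rw [← sum_sub_distrib]
      refine sum_congr rfl fun u _ => ?_
      split_ifs <;> simp
    rw [h2]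
    linarith

end Pool.Agent.MP_9210c2_an.H87

/-!
One-dimensional estimates for the kernels.
-/

namespace Pool.Agent.MP_9210c2_an.H87

open Finset
open scoped Classical

variable {n : ℕ}

theorem Coord_sumI (m : ℕ) (a : ℤ) (X : Finset ℤ) (g : ℤ → ℝ) (hg : ∀ w, 0 ≤ g w) :
    ∑ w ∈ X, (if inI m a w then g w else 0) ≤ ∑ w ∈ Ico a (a + m), g w := by
  rw [← sum_filter]
  refine sum_le_sum_of_subset_of_nonneg (fun w hw => ?_) fun w _ _ => hg w
  exact mem_Ico.2 (mem_filter.1 hw).2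

theorem Coord_sumP (p : ℤ) (X : Finset ℤ) (g : ℤ → ℝ) (hg : 0 ≤ g p) :
    ∑ w ∈ X, (if w = p then g w else 0) ≤ g p := by
  rw [sum_ite_eq']
  split_ifs
  · exact le_rfl
  · exact hg

theorem Coord_cnt (e : Bool) (m h : ℕ) (a a' : ℤ) {y : ℝ} (hy : 0 ≤ y) :
    (∑ s ∈ range (h + 1), if s ≠ 0 ∧ inI m a (tip e m a' s) then y else 0) ≤
      y * ((|a - a'| : ℤ) : ℝ) := by
  rw [← sum_filter, sum_const, nsmul_eq_mul, mul_comm]
  refine mul_le_mul_of_nonneg_left ?_ hy
  have h1 : ((range (h + 1)).filter fun s => s ≠ 0 ∧ inI m a (tip e m a' s)) ⊆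
      Icc 1 (a - a').natAbs := by
    intro s hs
    obtain ⟨-, h0, h2⟩ := mem_filter.1 hs
    unfold inI tip at h2
    rw [mem_Icc]
    cases e <;> simp at h2 <;> omega
  have h2 := card_le_card h1
  rw [Nat.card_Icc, Nat.add_sub_cancel] at h2
  rw [← Int.natCast_natAbs]
  exact_mod_cast h2

theorem Coord_gk (e : Bool) (m : ℕ) {x : ℝ} (hx0 : 0 ≤ x) (a : ℤ) (s : ℕ) (w : ℤ) :
    gk e m x a s w ≤ (if inI m a w then (if s = 0 then 1 else 1 - x) else 0) +
      (if w = tip e m a s then (if s = 0 then 0 else x * m) else 0) := by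
  have : 0 ≤ x * m := by positivity
  unfold gk
  by_cases h1 : inI m a w <;> by_cases h2 : s = 0 <;> by_cases h3 : w = tip e m a s <;>
    simp [h1, h2, h3] <;> (try split_ifs) <;> linarith

theorem Coord_inter (m : ℕ) (a a' : ℤ) (X : Finset ℤ) (y : ℝ) (hy : 0 ≤ y) :
    ∑ w ∈ X, (if inI m a w ∧ inI m a' w then y else 0) ≤
      y * ((max (m - |a - a'|) 0 : ℤ) : ℝ) := by
  rw [← sum_filter, sum_const, nsmul_eq_mul, mul_comm]
  refine mul_le_mul_of_nonneg_left ?_ hy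
  have h1 : (X.filter fun w => inI m a w ∧ inI m a' w) ⊆ Ico (max a a') (min a a' + m) := by
    intro w hw
    obtain ⟨-, h0, h2⟩ := mem_filter.1 hw
    unfold inI at h0 h2
    rw [mem_Ico]
    omega
  have h2 := card_le_card h1
  rw [Int.card_Ico] at h2
  have h3 : (#(X.filter fun w => inI m a w ∧ inI m a' w) : ℤ) ≤ max (m - |a - a'|) 0 := by
    rcases abs_cases (a - a') with h | h <;> omega
  exact_mod_cast h3

/-- `gk e m x a' s' w ≤ 1[w ∈ Ico a' (a'+m)] + 1[s' ≠ 0, w = tip a' s'] x m`. -/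
theorem coord1 (e : Bool) (m : ℕ) {x : ℝ} (hx0 : 0 ≤ x) (hx1 : x ≤ 1) (a a' : ℤ) (s s' : ℕ)
    (X : Finset ℤ) :
    ∑ w ∈ X, gk e m x a s w * gk e m x a' s' w ≤
      (∑ w ∈ Ico a' (a' + m), gk e m x a s w) +
        (if s' = 0 then 0 else x * m * gk e m x a s (tip e m a' s')) := by
  have hg := gk_nonneg e m hx0 hx1 a s
  have hxm : 0 ≤ x * m := by positivity
  have key : ∀ w ∈ X, gk e m x a s w * gk e m x a' s' w ≤
      (if inI m a' w then gk e m x a s w else 0) +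
      (if w = tip e m a' s' then (if s' = 0 then 0 else x * m * gk e m x a s w) else 0) := by
    intro w _
    refine (mul_le_mul_of_nonneg_left (Coord_gk e m hx0 a' s' w) (hg w)).trans ?_
    rw [mul_add]
    have := hg w
    have h2 := mul_nonneg this hx0
    refine add_le_add ?_ ?_
    · split_ifs <;> linarith
    · split_ifs <;> linarith
  refine (sum_le_sum key).trans ?_
  rw [sum_add_distrib]
  refine add_le_add (Coord_sumI m a' X _ hg) ?_
  refine Coord_sumP (tip e m a' s') X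
    (fun w => if s' = 0 then 0 else x * m * gk e m x a s w) ?_
  split_ifs
  · exact le_rfl
  · exact mul_nonneg hxm (hg _)

/-- With `d = |a - a'|`, `I = Ico a (a+m)`, `I' = Ico a' (a'+m)`, `α s = if s = 0 then 1 else 1-x`:
the first sum is at most `α s (m - d) + x m 1[s ≠ 0, tip a s ∈ I']` (`card_Ico_inter`); the tips
`tip a' s'` (`s' ≠ 0`) are distinct and outside `I'`, so at most `#(I \ I') = d` of them lie in
`I` and the second term is at most `x (α s d + x m 1[s ≠ 0])`.  With `β = 1 - (d/m)(1-x) ≥ 1/2`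
and `s ≠ 0`: `(1-x) β + x^2 ≤ (1 - x/2) β` and `x ≤ (1 - x/2) 2x`. -/
theorem coord2 (e : Bool) {m : ℕ} (hm : 0 < m) (h : ℕ) {x : ℝ} (hx0 : 0 ≤ x) (hx1 : x ≤ 1 / 4)
    (a a' : ℤ) (hd : 2 * |a - a'| ≤ (m : ℤ)) (s : ℕ) :
    (∑ w ∈ Ico a' (a' + m), gk e m x a s w) +
        (∑ s' ∈ range (h + 1), if s' = 0 then 0 else x * m * gk e m x a s (tip e m a' s')) / m ≤
      m * (if s = 0 then 1 else 1 - x / 2) *
        ((1 - (|a - a'| : ℤ) / (m : ℝ) * (1 - x)) +
          if s ≠ 0 ∧ inI m a' (tip e m a s) then 2 * x else 0) := by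
  have hmR : (0 : ℝ) < m := by exact_mod_cast hm
  have hxm : 0 ≤ x * m := by positivity
  obtain ⟨α, hα⟩ : ∃ α : ℝ, α = if s = 0 then 1 else 1 - x := ⟨_, rfl⟩
  obtain ⟨τ, hτ⟩ : ∃ τ : ℝ, τ = if s = 0 then 0 else x * m := ⟨_, rfl⟩
  have hα0 : 0 ≤ α := by rw [hα]; split_ifs <;> linarith
  have hτ0 : 0 ≤ τ := by rw [hτ]; split_ifs <;> linarith
  have hmax : max ((m : ℤ) - |a - a'|) 0 = m - |a - a'| :=
    max_eq_left (by have := abs_nonneg (a - a'); omega)
  have hdR : 2 * ((|a - a'| : ℤ) : ℝ) ≤ m := by exact_mod_cast hd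
  have hd0 : (0 : ℝ) ≤ ((|a - a'| : ℤ) : ℝ) := by exact_mod_cast abs_nonneg _
  have h1 : ∑ w ∈ Ico a' (a' + m), gk e m x a s w ≤ α * (m - ((|a - a'| : ℤ) : ℝ)) +
      (if inI m a' (tip e m a s) then τ else 0) := by
    refine (sum_le_sum fun w _ => Coord_gk e m hx0 a s w).trans ?_
    rw [sum_add_distrib, ← hα, ← hτ]
    refine add_le_add ?_ ?_
    · have := Coord_inter m a a' (Ico a' (a' + m)) α hα0
      rw [hmax] at this
      push_cast at this ⊢
      refine le_trans (le_of_eq (sum_congr rfl fun w hw => ?_)) this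
      have hw' : inI m a' w := mem_Ico.1 hw
      simp [hw']
    · rw [sum_ite_eq']
      simp only [mem_Ico, inI]
      split_ifs <;> exact le_rfl
  have h2 : (∑ s' ∈ range (h + 1), if s' = 0 then 0 else
      x * m * gk e m x a s (tip e m a' s')) ≤ x * m * (α * ((|a - a'| : ℤ) : ℝ) + τ) := by
    have key : ∀ s' ∈ range (h + 1), (if s' = 0 then 0 else
        x * m * gk e m x a s (tip e m a' s')) ≤
        x * m * ((if s' ≠ 0 ∧ inI m a (tip e m a' s') then α else 0) +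
          (if tip e m a' s' = tip e m a s then τ else 0)) := by
      intro s' _
      by_cases h0 : s' = 0
      · rw [if_pos h0]
        refine mul_nonneg hxm (add_nonneg ?_ ?_) <;> split_ifs <;> linarith
      · rw [if_neg h0]
        refine mul_le_mul_of_nonneg_left ?_ hxm
        have := Coord_gk e m hx0 a s (tip e m a' s')
        rw [← hα, ← hτ] at this
        simpa [h0] using this
    refine (sum_le_sum key).trans ?_
    rw [← mul_sum, sum_add_distrib]
    refine mul_le_mul_of_nonneg_left (add_le_add (Coord_cnt e m h a a' hα0) ?_) hxm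
    rw [← sum_filter, sum_const, nsmul_eq_mul]
    have hc : #((range (h + 1)).filter fun s' => tip e m a' s' = tip e m a s) ≤ 1 := by
      refine card_le_one.2 fun u hu v hv => tip_inj (e := e) (m := m) (a := a') ?_
      rw [(mem_filter.1 hu).2, (mem_filter.1 hv).2]
    have hc' : (#((range (h + 1)).filter fun s' => tip e m a' s' = tip e m a s) : ℝ) ≤ 1 := by
      exact_mod_cast hc
    exact mul_le_of_le_one_left hτ0 hc'
  have h3 := (div_le_iff₀ hmR).2 (h2.trans (le_of_eq (by ring :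
    x * m * (α * ((|a - a'| : ℤ) : ℝ) + τ) = x * (α * ((|a - a'| : ℤ) : ℝ) + τ) * m)))
  refine (add_le_add h1 h3).trans ?_
  obtain ⟨q, hq⟩ : ∃ q : ℝ, q = ((|a - a'| : ℤ) : ℝ) / m := ⟨_, rfl⟩
  have hq' : ((|a - a'| : ℤ) : ℝ) = q * m := by rw [hq]; field_simp
  have hq0 : 0 ≤ q := by rw [hq]; positivity
  have hq1 : q ≤ 1 / 2 := by rw [hq, div_le_iff₀ hmR]; linarith
  rw [← hq, hq']
  by_cases hs : s = 0
  · simp only [hs, if_true] at hα hτ
    simp only [hs, hα, hτ, if_true, ne_eq, not_true, false_and, if_false, ite_self]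
    exact le_of_eq (by ring)
  · simp only [hs, if_false] at hα hτ
    have hβ : x ≤ (1 - q * (1 - x)) / 2 := by nlinarith
    have b1 : (1 - x) * (1 - q * (1 - x)) + x ^ 2 ≤ (1 - x / 2) * (1 - q * (1 - x)) := by
      have := mul_le_mul_of_nonneg_left hβ hx0
      linarith
    have b2 : x ≤ (1 - x / 2) * (2 * x) := by nlinarith
    have c1 := mul_le_mul_of_nonneg_left b1 hmR.le
    have c2 := mul_le_mul_of_nonneg_left b2 hmR.le
    simp only [hs, hα, hτ, if_false, ne_eq, not_false_eq_true, true_and]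
    split_ifs <;> linarith

/-- At most `#(I' \ I) = d` tips `tip a s` lie in `I'`, and `2 x ≤ 1 - x`. -/
theorem coord3 (e : Bool) {m : ℕ} (hm : 0 < m) (h : ℕ) {x : ℝ} (hx0 : 0 ≤ x) (hx1 : x ≤ 1 / 4)
    (a a' : ℤ) (hd : 2 * |a - a'| ≤ (m : ℤ)) :
    0 ≤ 1 - (|a - a'| : ℤ) / (m : ℝ) * (1 - x) ∧
    (1 - (|a - a'| : ℤ) / (m : ℝ) * (1 - x)) +
      (∑ s ∈ range (h + 1), if s ≠ 0 ∧ inI m a' (tip e m a s) then 2 * x else 0) / m ≤ 1 := by
  have hmR : (0 : ℝ) < m := by exact_mod_cast hm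
  have hdR : 2 * ((|a - a'| : ℤ) : ℝ) ≤ m := by exact_mod_cast hd
  have hd0 : (0 : ℝ) ≤ ((|a - a'| : ℤ) : ℝ) := by exact_mod_cast abs_nonneg _
  have h1 := Coord_cnt e m h a' a (by linarith : (0 : ℝ) ≤ 2 * x)
  rw [abs_sub_comm a' a] at h1
  have h2 := div_le_div_of_nonneg_right h1 hmR.le
  rw [mul_div_assoc] at h2
  obtain ⟨q, hq⟩ : ∃ q : ℝ, q = ((|a - a'| : ℤ) : ℝ) / m := ⟨_, rfl⟩
  have hq0 : 0 ≤ q := by rw [hq]; positivity
  have hq1 : q ≤ 1 / 2 := by rw [hq, div_le_iff₀ hmR]; linarith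
  rw [← hq] at h2 ⊢
  constructor
  · nlinarith
  · nlinarith

/-- The weight of a critical coordinate for one option. -/
noncomputable def ck (e : Bool) (m : ℕ) (y : ℝ) (a c : ℤ) (s : ℕ) (w : ℤ) : ℝ :=
  if inI m a w then (if inI m c w then 1 else 0)
  else if s ≠ 0 ∧ w = tip e m a s then y else 0

/-- Critical coordinates.  Both inside: at most `#(I ∩ I') ≤ 4h` points; one tip: `2h` resp. `h`;
the two tips are different because `|a - a'| ≥ 4h > |s - s'|`.  A non-zero term forces `w` to lie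
in the intervals of both options (`ht`, `ht'`). -/
theorem coord4 (e : Bool) {h : ℕ} (hh : 0 < h) (a a' c c' : ℤ) (hd : 8 * (h : ℤ) ≤ 2 * |a - a'|)
    (s s' : ℕ) (hs : s ≤ h) (hs' : s' ≤ h)
    (ht : s ≠ 0 → inI (8 * h) c (tip e (8 * h) a s))
    (ht' : s' ≠ 0 → inI (8 * h) c' (tip e (8 * h) a' s')) (X : Finset ℤ) :
    ∑ w ∈ X, ck e (8 * h) (2 * h) a c s w * ck e (8 * h) h a' c' s' w ≤
      if ∃ w, inI (8 * h) c w ∧ inI (8 * h) c' w then ((8 * h : ℕ) : ℝ) else 0 := by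
  have hhR : (0 : ℝ) < h := by exact_mod_cast hh
  split_ifs with hex
  · have key : ∀ w ∈ X, ck e (8 * h) (2 * h) a c s w * ck e (8 * h) h a' c' s' w ≤
        (if inI (8 * h) a w ∧ inI (8 * h) a' w then (1 : ℝ) else 0) +
        (if w = tip e (8 * h) a' s' then (h : ℝ) else 0) +
        (if w = tip e (8 * h) a s then 2 * (h : ℝ) else 0) := by
      intro w _
      have hne : tip e (8 * h) a s ≠ tip e (8 * h) a' s' := by
        unfold tip
        rcases abs_cases (a - a') with h1 | h1 <;> cases e <;> simp <;> omega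
      have u1 : (0 : ℝ) ≤ if w = tip e (8 * h) a' s' then (h : ℝ) else 0 := by
        split_ifs <;> linarith
      have u2 : (0 : ℝ) ≤ if w = tip e (8 * h) a s then 2 * (h : ℝ) else 0 := by
        split_ifs <;> linarith
      unfold ck
      by_cases h1 : inI (8 * h) a w <;> by_cases h2 : inI (8 * h) a' w
      · rw [if_pos h1, if_pos h2, if_pos (And.intro h1 h2)]
        split_ifs <;> linarith
      · rw [if_pos h1, if_neg h2, if_neg (fun hh : _ ∧ _ => h2 hh.2)]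
        by_cases h3 : s' ≠ 0 ∧ w = tip e (8 * h) a' s'
        · rw [if_pos h3, if_pos h3.2]
          split_ifs <;> linarith
        · rw [if_neg h3]; linarith
      · rw [if_neg h1, if_pos h2, if_neg (fun hh : inI _ a w ∧ _ => h1 hh.1)]
        by_cases h3 : s ≠ 0 ∧ w = tip e (8 * h) a s
        · rw [if_pos h3, if_pos h3.2]
          split_ifs <;> linarith
        · rw [if_neg h3]; linarith
      · rw [if_neg h1, if_neg h2, if_neg (fun hh : inI _ a w ∧ _ => h1 hh.1)]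
        by_cases h3 : s ≠ 0 ∧ w = tip e (8 * h) a s
        · rw [if_neg (fun hh : s' ≠ 0 ∧ _ => hne (h3.2.symm.trans hh.2))]; linarith
        · rw [if_neg h3]; linarith
    refine (sum_le_sum key).trans ?_
    rw [sum_add_distrib, sum_add_distrib]
    have b1 := Coord_inter (8 * h) a a' X 1 zero_le_one
    have b2 := Coord_sumP (tip e (8 * h) a' s') X (fun _ => (h : ℝ)) hhR.le
    have b3 := Coord_sumP (tip e (8 * h) a s) X (fun _ => 2 * (h : ℝ)) (by linarith)
    have b4 : max (((8 * h : ℕ) : ℤ) - |a - a'|) 0 ≤ 4 * (h : ℤ) := by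
      push_cast
      exact max_le (by omega) (by omega)
    have b5 : ((max (((8 * h : ℕ) : ℤ) - |a - a'|) 0 : ℤ) : ℝ) ≤ 4 * (h : ℝ) := by
      exact_mod_cast b4
    have b6 : ((8 * h : ℕ) : ℝ) = 8 * (h : ℝ) := by push_cast; ring
    linarith
  · refine le_of_eq (sum_eq_zero fun w _ => ?_)
    have aux : ∀ (y : ℝ) (a c : ℤ) (s : ℕ), (s ≠ 0 → inI (8 * h) c (tip e (8 * h) a s)) →
        ¬ inI (8 * h) c w → ck e (8 * h) y a c s w = 0 := by
      intro y a c s ht hc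
      unfold ck
      split_ifs with h1 h2
      · rfl
      · exact absurd (h2.2 ▸ ht h2.1) hc
      · rfl
    by_cases h1 : inI (8 * h) c w
    · rw [aux _ a' c' s' ht' fun h2 => hex ⟨w, h1, h2⟩, mul_zero]
    · rw [aux _ a c s ht h1, zero_mul]

end Pool.Agent.MP_9210c2_an.H87
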