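import Pool.Agent.MP_9210c2_an.H87.Pot
import Pool.Agent.MP_9210c2_an.H87.Cover
import Pool.Agent.MP_9210c2_an.H87.Smp

/-!
The product of two majorants summed over a fibre.
-/

namespace Pool.Agent.MP_9210c2_an.H87

open Finset
open scoped Classical

variable {n : ℕ}

/-- On the coordinates of `Cr`. -/
theorem prod_gk_le (e : Bool) (m : ℕ) {x : ℝ} (hx0 : 0 ≤ x) (hx1 : x ≤ 1) (k : Pt n)
    (Cr : Finset (Fin n)) (v : Pt n) (t : Pat n) :
    ∏ l ∈ Cr, gk e m x (k l) (t l) (v l) ≤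
      if evB e m k Cr v t then (x * m) ^ nout m k Cr v else 0 := by
  split_ifs with hB
  · have h1 : (x * m) ^ nout m k Cr v =
        ∏ l ∈ Cr, (if ¬ inI m (k l) (v l) then x * m else 1) := by
      rw [prod_ite, prod_const, prod_const_one, mul_one, nout]
    rw [h1]
    refine prod_le_prod (fun l _ => gk_nonneg e m hx0 hx1 _ _ _) fun l hl => ?_
    by_cases hi : inI m (k l) (v l)
    · rw [if_neg (not_not.2 hi), gk, if_pos hi]
      split_ifs
      · exact le_rfl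
      · linarith
    · rw [if_pos hi, gk, if_neg hi, if_pos (hB l hl hi)]
  · unfold evB at hB
    push Not at hB
    obtain ⟨l, hl, hi, hn⟩ := hB
    refine (prod_eq_zero hl ?_).le
    rw [gk, if_neg hi, if_neg]
    rintro ⟨h1, h2⟩
    exact hn h1 h2

theorem prod_gk_le' (e : Bool) (m : ℕ) {x : ℝ} (hx0 : 0 ≤ x) (hx1 : x ≤ 1) (k : Pt n)
    (Cr : Finset (Fin n)) (v : Pt n) (t : Pat n) :
    ∏ l ∈ Cr, gk e m x (k l) (t l) (v l) ≤
      (∏ l ∈ Cr, if t l = 0 then 1 else 1 - x / 2) *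
        if evB e m k Cr v t then (2 * x * m) ^ nout m k Cr v else 0 := by
  split_ifs with hB
  · have h1 : (2 * x * m) ^ nout m k Cr v =
        ∏ l ∈ Cr, (if ¬ inI m (k l) (v l) then 2 * x * m else 1) := by
      rw [prod_ite, prod_const, prod_const_one, mul_one, nout]
    rw [h1, ← prod_mul_distrib]
    refine prod_le_prod (fun l _ => gk_nonneg e m hx0 hx1 _ _ _) fun l hl => ?_
    by_cases hi : inI m (k l) (v l)
    · rw [if_neg (not_not.2 hi), gk, if_pos hi]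
      split_ifs
      · norm_num
      · linarith
    · rw [if_pos hi, gk, if_neg hi, if_pos (hB l hl hi), if_neg (hB l hl hi).1]
      have hm : (0 : ℝ) ≤ x * m := by positivity
      nlinarith [mul_nonneg hm (sub_nonneg.2 hx1)]
  · unfold evB at hB
    push Not at hB
    obtain ⟨l, hl, hi, hn⟩ := hB
    rw [mul_zero]
    refine (prod_eq_zero hl ?_).le
    rw [gk, if_neg hi, if_neg]
    rintro ⟨h1, h2⟩
    exact hn h1 h2

lemma Fibre_expand {ι κ : Type*} (A : Finset ι) (A' : Finset κ) (μ : ι → ℝ) (μ' : κ → ℝ)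
    (g : ι → Fin n → ℤ → ℝ) (g' : κ → Fin n → ℤ → ℝ) (Y : Fin n → Finset ℤ) :
    ∑ u ∈ Fintype.piFinset Y, (∑ s ∈ A, μ s * ∏ l, g s l (u l)) *
        (∑ s' ∈ A', μ' s' * ∏ l, g' s' l (u l)) =
      ∑ s ∈ A, μ s * ∑ s' ∈ A', μ' s' * ∏ l, ∑ w ∈ Y l, g s l w * g' s' l w := by
  simp only [sum_mul_sum]
  rw [sum_comm]
  refine sum_congr rfl fun s _ => ?_
  rw [sum_comm, mul_sum]
  refine sum_congr rfl fun s' _ => ?_
  rw [prod_univ_sum, mul_sum, mul_sum]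
  refine sum_congr rfl fun u _ => ?_
  rw [prod_mul_distrib]
  ring

lemma Fibre_split (Cr : Finset (Fin n)) (X : Fin n → Finset ℤ) (v : Pt n)
    (f : Fin n → ℤ → ℝ) :
    ∏ l, ∑ w ∈ (if l ∈ Cr then {v l} else X l), f l w =
      (∏ l ∈ Cr, f l (v l)) * ∏ l ∈ Crᶜ, ∑ w ∈ X l, f l w := by
  rw [← prod_mul_prod_compl Cr]
  congr 1
  · refine prod_congr rfl fun l hl => ?_
    rw [if_pos hl, sum_singleton]
  · refine prod_congr rfl fun l hl => ?_
    rw [if_neg (mem_compl.1 hl)]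

lemma Fibre_alpha (y : ℝ) (s : Pat n) :
    ∏ l, (if s l = 0 then (1 : ℝ) else y) = y ^ sz s := by
  rw [prod_ite, prod_const_one, one_mul, prod_const, sz]

/-- The inner sum for a fixed pattern of the first cluster. -/
lemma Fibre_inner {e : Bool} {h lam B : ℕ} (hh : 0 < h) (k : Pt n) {cl' : Cl n}
    (hv' : cl'.Valid e h lam B) {x : ℝ} (hx0 : 0 ≤ x) (hx1 : x ≤ 1 / 4) (b : ℕ)
    (Cr : Finset (Fin n)) (hnc : ∀ l ∉ Cr, 2 * |k l - cl'.k l| ≤ 8 * (h : ℤ))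
    (X : Fin n → Finset ℤ) (v : Pt n) (s : Pat n) :
    ∑ s' ∈ cl'.S.filter (fun t => b ≤ sz t), cl'.mu (8 * h) s' *
        ((∏ l ∈ Cr, gk e (8 * h) x (cl'.k l) (s' l) (v l)) *
          ∏ l ∈ Crᶜ, ∑ w ∈ X l, gk e (8 * h) x (k l) (s l) w *
            gk e (8 * h) x (cl'.k l) (s' l) w) ≤
      (x * (8 * h : ℕ)) ^ nout (8 * h) cl'.k Cr v * cl'.muB e (8 * h) Cr v *
        ∏ l ∈ Crᶜ, (((8 * h : ℕ) : ℝ) * (if s l = 0 then 1 else 1 - x / 2) *
          ((1 - (|k l - cl'.k l| : ℤ) / ((8 * h : ℕ) : ℝ) * (1 - x)) +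
            if s l ≠ 0 ∧ inI (8 * h) (cl'.k l) (tip e (8 * h) (k l) (s l)) then 2 * x else 0)) := by
  have hx1' : x ≤ 1 := by linarith
  have hm : 0 < 8 * h := by omega
  set a : Fin n → ℝ := fun l =>
    ∑ w ∈ Ico (cl'.k l) (cl'.k l + (8 * h : ℕ)), gk e (8 * h) x (k l) (s l) w with ha
  set ψ : Fin n → ℕ → ℝ := fun l s' => if s' = 0 then 0 else
    x * (8 * h : ℕ) * gk e (8 * h) x (k l) (s l) (tip e (8 * h) (cl'.k l) s') with hψ
  have ha0 : ∀ l, 0 ≤ a l := fun l => sum_nonneg fun w _ => gk_nonneg e _ hx0 hx1' _ _ _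
  have hψn : ∀ l s', 0 ≤ ψ l s' := by
    intro l s'
    simp only [hψ]
    split_ifs
    · exact le_rfl
    · exact mul_nonneg (by positivity) (gk_nonneg e _ hx0 hx1' _ _ _)
  have hP : (0 : ℝ) ≤ (x * (8 * h : ℕ)) ^ nout (8 * h) cl'.k Cr v := by positivity
  have hI := inten_evB hh hv' Cr v a (fun l _ => ha0 l) ψ (fun l _ s' => hψn l s')
    (fun l _ => by simp [hψ])
  calc _ ≤ ∑ s' ∈ cl'.S.filter (fun t => b ≤ sz t), cl'.mu (8 * h) s' *
        ((if evB e (8 * h) cl'.k Cr v s' then (x * (8 * h : ℕ)) ^ nout (8 * h) cl'.k Cr v else 0) *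
          ∏ l ∈ Crᶜ, (a l + ψ l (s' l))) := by
        refine sum_le_sum fun s' _ => mul_le_mul_of_nonneg_left ?_ (cl'.mu_nonneg _ _)
        refine mul_le_mul (prod_gk_le e _ hx0 hx1' _ _ _ _) ?_ ?_ ?_
        · refine prod_le_prod (fun l _ => sum_nonneg fun w _ => mul_nonneg
            (gk_nonneg e _ hx0 hx1' _ _ _) (gk_nonneg e _ hx0 hx1' _ _ _)) fun l _ => ?_
          exact coord1 e (8 * h) hx0 hx1' _ _ _ _ _
        · exact prod_nonneg fun l _ => sum_nonneg fun w _ => mul_nonneg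
            (gk_nonneg e _ hx0 hx1' _ _ _) (gk_nonneg e _ hx0 hx1' _ _ _)
        · split_ifs
          · exact hP
          · exact le_rfl
    _ ≤ ∑ s' ∈ cl'.S, cl'.mu (8 * h) s' *
        ((if evB e (8 * h) cl'.k Cr v s' then (x * (8 * h : ℕ)) ^ nout (8 * h) cl'.k Cr v else 0) *
          ∏ l ∈ Crᶜ, (a l + ψ l (s' l))) := by
        refine sum_le_sum_of_subset_of_nonneg (filter_subset _ _) fun s' _ _ => ?_
        refine mul_nonneg (cl'.mu_nonneg _ _) (mul_nonneg ?_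
          (prod_nonneg fun l _ => add_nonneg (ha0 l) (hψn l _)))
        split_ifs
        · exact hP
        · exact le_rfl
    _ = (x * (8 * h : ℕ)) ^ nout (8 * h) cl'.k Cr v *
        ∑ t ∈ cl'.S.filter (evB e (8 * h) cl'.k Cr v), cl'.mu (8 * h) t *
          ∏ l ∈ Crᶜ, (a l + ψ l (t l)) := by
        rw [sum_filter, mul_sum]
        refine sum_congr rfl fun s' _ => ?_
        split_ifs
        · ring
        · simp
    _ ≤ (x * (8 * h : ℕ)) ^ nout (8 * h) cl'.k Cr v *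
        ((∏ l ∈ Crᶜ, (a l + (∑ s ∈ range (h + 1), ψ l s) / ((8 * h : ℕ) : ℝ))) *
          cl'.muB e (8 * h) Cr v) := mul_le_mul_of_nonneg_left hI hP
    _ ≤ _ := by
        rw [mul_assoc, mul_comm (cl'.muB e (8 * h) Cr v)]
        refine mul_le_mul_of_nonneg_left
          (mul_le_mul_of_nonneg_right ?_ (cl'.muB_nonneg _ _ _ _)) hP
        refine prod_le_prod (fun l _ => add_nonneg (ha0 l)
          (div_nonneg (sum_nonneg fun s' _ => hψn l s') (Nat.cast_nonneg _))) fun l hl => ?_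
        refine coord2 e hm h hx0 hx1 (k l) (cl'.k l) ?_ (s l)
        have := hnc l (mem_compl.1 hl)
        push_cast
        exact this

/-- Expand both `Phi`, exchange the sums and use `Finset.prod_univ_sum`: the sum is
`∑ s, ∑ s', mu s mu' s' ∏ l, ∑ w ∈ Y l, gk .. (s l) w * gk .. (s' l) w`.  Split the product into
`Cr` (one term `w = v l`) and `Crᶜ` (`coord1`).  For fixed `s` bound the sum over `s'` (drop
`b ≤ sz s'`) by `prod_gk_le` and `inten_evB`, then use `coord2`, `prod_gk_le'`,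
`∏ l, (if s l = 0 then 1 else 1 - x/2) = (1 - x/2)^(sz s) ≤ (1 - x/2)^b`, `inten_evB` for `cl`
and `coord3`. -/
theorem fibre {e : Bool} {h lam B : ℕ} (hh : 0 < h) {cl cl' : Cl n} (hv : cl.Valid e h lam B)
    (hv' : cl'.Valid e h lam B) {x : ℝ} (hx0 : 0 ≤ x) (hx1 : x ≤ 1 / 4) (b : ℕ)
    (Cr : Finset (Fin n)) (hnc : ∀ l ∉ Cr, 2 * |cl.k l - cl'.k l| ≤ 8 * (h : ℤ))
    (X : Fin n → Finset ℤ) (v : Pt n) :
    ∑ u ∈ Fintype.piFinset (fun l => if l ∈ Cr then {v l} else X l),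
        cl.Phi e (8 * h) x b u * cl'.Phi e (8 * h) x b u ≤
      (2 * x * (8 * h : ℕ)) ^ nout (8 * h) cl.k Cr v * (x * (8 * h : ℕ)) ^ nout (8 * h) cl'.k Cr v *
        cl.muB e (8 * h) Cr v * cl'.muB e (8 * h) Cr v * ((8 * h : ℕ) : ℝ) ^ #(Crᶜ) *
        (1 - x / 2) ^ b := by
  have hx1' : x ≤ 1 := by linarith
  have hm : 0 < 8 * h := by omega
  set β : Fin n → ℝ := fun l => 1 - (|cl.k l - cl'.k l| : ℤ) / ((8 * h : ℕ) : ℝ) * (1 - x) with hβ
  set χ : Fin n → ℕ → ℝ := fun l s =>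
    if s ≠ 0 ∧ inI (8 * h) (cl'.k l) (tip e (8 * h) (cl.k l) s) then 2 * x else 0 with hχ
  have hd : ∀ l ∉ Cr, 2 * |cl.k l - cl'.k l| ≤ ((8 * h : ℕ) : ℤ) := by
    intro l hl
    have := hnc l hl
    push_cast
    exact this
  have hβ0 : ∀ l ∉ Cr, 0 ≤ β l := fun l hl => (coord3 e hm h hx0 hx1 _ _ (hd l hl)).1
  have hχ0 : ∀ l s, 0 ≤ χ l s := by
    intro l s
    simp only [hχ]
    split_ifs
    · positivity
    · exact le_rfl
  have hI := inten_evB hh hv Cr v β hβ0 χ (fun l _ s => hχ0 l s) (fun l _ => by simp [hχ])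
  have hI1 : ∏ l ∈ Crᶜ, (β l + (∑ s ∈ range (h + 1), χ l s) / ((8 * h : ℕ) : ℝ)) ≤ 1 :=
    prod_le_one (fun l hl => add_nonneg (hβ0 l (mem_compl.1 hl))
      (div_nonneg (sum_nonneg fun s _ => hχ0 l s) (Nat.cast_nonneg _)))
      fun l hl => (coord3 e hm h hx0 hx1 _ _ (hd l (mem_compl.1 hl))).2
  have hI2 : ∑ t ∈ cl.S.filter (evB e (8 * h) cl.k Cr v), cl.mu (8 * h) t *
      ∏ l ∈ Crᶜ, (β l + χ l (t l)) ≤ cl.muB e (8 * h) Cr v := by
    refine hI.trans ?_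
    exact mul_le_of_le_one_left (cl.muB_nonneg _ _ _ _) hI1
  have hy0 : (0 : ℝ) ≤ 1 - x / 2 := by linarith
  have hy1 : 1 - x / 2 ≤ (1 : ℝ) := by linarith
  set K : ℝ := (x * (8 * h : ℕ)) ^ nout (8 * h) cl'.k Cr v * cl'.muB e (8 * h) Cr v with hK
  have hK0 : 0 ≤ K := mul_nonneg (by positivity) (cl'.muB_nonneg _ _ _ _)
  set P : ℝ := (2 * x * (8 * h : ℕ)) ^ nout (8 * h) cl.k Cr v with hP
  have hP0 : 0 ≤ P := by positivity
  have hbc : ∀ s : Pat n, 0 ≤ ∏ l ∈ Crᶜ, (β l + χ l (s l)) := fun s =>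
    prod_nonneg fun l hl => add_nonneg (hβ0 l (mem_compl.1 hl)) (hχ0 l _)
  unfold Cl.Phi
  rw [Fibre_expand _ _ (cl.mu (8 * h)) (cl'.mu (8 * h))
    (fun s l w => gk e (8 * h) x (cl.k l) (s l) w)
    (fun s l w => gk e (8 * h) x (cl'.k l) (s l) w)]
  calc _ ≤ ∑ s ∈ cl.S.filter (fun t => b ≤ sz t), cl.mu (8 * h) s *
        ((if evB e (8 * h) cl.k Cr v s then P else 0) * K * ((8 * h : ℕ) : ℝ) ^ #(Crᶜ) *
          (1 - x / 2) ^ b * ∏ l ∈ Crᶜ, (β l + χ l (s l))) := by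
        refine sum_le_sum fun s hs => mul_le_mul_of_nonneg_left ?_ (cl.mu_nonneg _ _)
        have hbs : b ≤ sz s := (mem_filter.1 hs).2
        have h1 := Fibre_inner hh cl.k hv' hx0 hx1 b Cr hnc X v s
        have h2 := prod_gk_le' e (8 * h) hx0 hx1' cl.k Cr v s
        have hg0 : 0 ≤ ∏ l ∈ Cr, gk e (8 * h) x (cl.k l) (s l) (v l) :=
          prod_nonneg fun l _ => gk_nonneg e _ hx0 hx1' _ _ _
        have hif : 0 ≤ (if evB e (8 * h) cl.k Cr v s then P else 0) := by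
          split_ifs
          · exact hP0
          · exact le_rfl
        have hα0 : ∀ T : Finset (Fin n),
            0 ≤ ∏ l ∈ T, (if s l = 0 then (1 : ℝ) else 1 - x / 2) := fun T =>
          prod_nonneg fun l _ => by
            split_ifs
            · norm_num
            · exact hy0
        have hα : (∏ l ∈ Cr, (if s l = 0 then (1 : ℝ) else 1 - x / 2)) *
            ∏ l ∈ Crᶜ, (if s l = 0 then (1 : ℝ) else 1 - x / 2) ≤ (1 - x / 2) ^ b := by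
          rw [prod_mul_prod_compl, Fibre_alpha]
          exact pow_le_pow_of_le_one hy0 hy1 hbs
        rw [prod_mul_distrib, prod_mul_distrib, prod_const] at h1
        have hR0 : 0 ≤ K * (((8 * h : ℕ) : ℝ) ^ #(Crᶜ) *
            (∏ l ∈ Crᶜ, (if s l = 0 then (1 : ℝ) else 1 - x / 2)) *
              ∏ l ∈ Crᶜ, (β l + χ l (s l))) :=
          mul_nonneg hK0 (mul_nonneg (mul_nonneg (by positivity) (hα0 _)) (hbc s))
        calc _ = (∏ l ∈ Cr, gk e (8 * h) x (cl.k l) (s l) (v l)) *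
              ∑ s' ∈ cl'.S.filter (fun t => b ≤ sz t), cl'.mu (8 * h) s' *
                ((∏ l ∈ Cr, gk e (8 * h) x (cl'.k l) (s' l) (v l)) *
                  ∏ l ∈ Crᶜ, ∑ w ∈ X l, gk e (8 * h) x (cl.k l) (s l) w *
                    gk e (8 * h) x (cl'.k l) (s' l) w) := by
              rw [mul_sum]
              refine sum_congr rfl fun s' _ => ?_
              rw [Fibre_split Cr X v (fun l w => gk e (8 * h) x (cl.k l) (s l) w *
                gk e (8 * h) x (cl'.k l) (s' l) w), prod_mul_distrib]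
              ring
          _ ≤ (∏ l ∈ Cr, gk e (8 * h) x (cl.k l) (s l) (v l)) *
              (K * (((8 * h : ℕ) : ℝ) ^ #(Crᶜ) *
                (∏ l ∈ Crᶜ, (if s l = 0 then (1 : ℝ) else 1 - x / 2)) *
                  ∏ l ∈ Crᶜ, (β l + χ l (s l)))) := mul_le_mul_of_nonneg_left h1 hg0
          _ ≤ ((∏ l ∈ Cr, (if s l = 0 then (1 : ℝ) else 1 - x / 2)) *
                (if evB e (8 * h) cl.k Cr v s then P else 0)) *
              (K * (((8 * h : ℕ) : ℝ) ^ #(Crᶜ) *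
                (∏ l ∈ Crᶜ, (if s l = 0 then (1 : ℝ) else 1 - x / 2)) *
                  ∏ l ∈ Crᶜ, (β l + χ l (s l)))) := mul_le_mul_of_nonneg_right h2 hR0
          _ = ((if evB e (8 * h) cl.k Cr v s then P else 0) * K * ((8 * h : ℕ) : ℝ) ^ #(Crᶜ) *
                ∏ l ∈ Crᶜ, (β l + χ l (s l))) *
              ((∏ l ∈ Cr, (if s l = 0 then (1 : ℝ) else 1 - x / 2)) *
                ∏ l ∈ Crᶜ, (if s l = 0 then (1 : ℝ) else 1 - x / 2)) := by ring
          _ ≤ ((if evB e (8 * h) cl.k Cr v s then P else 0) * K * ((8 * h : ℕ) : ℝ) ^ #(Crᶜ) *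
                ∏ l ∈ Crᶜ, (β l + χ l (s l))) * (1 - x / 2) ^ b :=
              mul_le_mul_of_nonneg_left hα
                (mul_nonneg (mul_nonneg (mul_nonneg hif hK0) (by positivity)) (hbc s))
          _ = _ := by ring
    _ ≤ ∑ s ∈ cl.S, cl.mu (8 * h) s *
        ((if evB e (8 * h) cl.k Cr v s then P else 0) * K * ((8 * h : ℕ) : ℝ) ^ #(Crᶜ) *
          (1 - x / 2) ^ b * ∏ l ∈ Crᶜ, (β l + χ l (s l))) := by
        refine sum_le_sum_of_subset_of_nonneg (filter_subset _ _) fun s _ _ => ?_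
        have hif : 0 ≤ (if evB e (8 * h) cl.k Cr v s then P else 0) := by
          split_ifs
          · exact hP0
          · exact le_rfl
        exact mul_nonneg (cl.mu_nonneg _ _) (mul_nonneg (mul_nonneg (mul_nonneg
          (mul_nonneg hif hK0) (by positivity)) (pow_nonneg hy0 _)) (hbc s))
    _ = P * K * ((8 * h : ℕ) : ℝ) ^ #(Crᶜ) * (1 - x / 2) ^ b *
        ∑ t ∈ cl.S.filter (evB e (8 * h) cl.k Cr v), cl.mu (8 * h) t *
          ∏ l ∈ Crᶜ, (β l + χ l (t l)) := by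
        rw [sum_filter, mul_sum]
        refine sum_congr rfl fun s _ => ?_
        split_ifs
        · ring
        · simp
    _ ≤ P * K * ((8 * h : ℕ) : ℝ) ^ #(Crᶜ) * (1 - x / 2) ^ b * cl.muB e (8 * h) Cr v :=
        mul_le_mul_of_nonneg_left hI2 (mul_nonneg (mul_nonneg (mul_nonneg hP0 hK0)
          (by positivity)) (pow_nonneg hy0 _))
    _ = _ := by rw [hK]; ring

end Pool.Agent.MP_9210c2_an.H87

/-!
The critical coordinates force an overlap.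
-/

namespace Pool.Agent.MP_9210c2_an.H87

open Finset
open scoped Classical

variable {n : ℕ}

/-- `y ^ nout * 1[evA] = ∏ l ∈ Cr, ck e m y (k l) (c l) (t l) (v l)`. -/
theorem prod_ck (e : Bool) (m : ℕ) (y : ℝ) (k c : Pt n) (Cr : Finset (Fin n)) (v : Pt n)
    (t : Pat n) :
    y ^ nout m k Cr v * (if evA e m k Cr v t c then 1 else 0) =
      ∏ l ∈ Cr, ck e m y (k l) (c l) (t l) (v l) := by
  by_cases hA : evA e m k Cr v t c
  · rw [if_pos hA, mul_one, nout, ← prod_const, prod_filter]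
    refine prod_congr rfl fun l hl => ?_
    unfold ck
    by_cases h1 : inI m (k l) (v l)
    · rw [if_neg (not_not.2 h1), if_pos h1, if_pos (hA.2 l hl h1)]
    · rw [if_pos h1, if_neg h1, if_pos (hA.1 l hl h1)]
  · rw [if_neg hA, mul_zero]
    by_contra hne
    apply hA
    have h0 : ∀ l ∈ Cr, ck e m y (k l) (c l) (t l) (v l) ≠ 0 := prod_ne_zero_iff.1 (Ne.symm hne)
    refine ⟨fun l hl h1 => ?_, fun l hl h1 => ?_⟩
    · by_contra h2
      apply h0 l hl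
      unfold ck
      rw [if_neg h1, if_neg h2]
    · by_contra h2
      apply h0 l hl
      unfold ck
      rw [if_pos h1, if_neg h2]

lemma Crit_aux_nonneg (e : Bool) (m : ℕ) {y : ℝ} (hy : 0 ≤ y) (a c : ℤ) (s : ℕ) (w : ℤ) :
    0 ≤ ck e m y a c s w := by
  unfold ck
  split_ifs
  · norm_num
  · exact le_rfl
  · exact hy
  · exact le_rfl

lemma Crit_aux_factor (Cr : Finset (Fin n)) (X : Fin n → Finset ℤ) (g : Fin n → ℤ → ℝ) :
    ∑ v ∈ Fintype.piFinset (fun l => if l ∈ Cr then X l else {0}), ∏ l ∈ Cr, g l (v l) =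
      ∏ l ∈ Cr, ∑ w ∈ X l, g l w := by
  have h1 : ∀ F : Fin n → ℝ, ∏ l ∈ Cr, F l = ∏ l, if l ∈ Cr then F l else 1 := by
    intro F
    rw [prod_ite_mem, univ_inter]
  simp only [h1]
  rw [← prod_univ_sum (fun l => if l ∈ Cr then X l else {0})
    (fun l w => if l ∈ Cr then g l w else 1)]
  refine prod_congr rfl fun l _ => ?_
  by_cases hl : l ∈ Cr
  · simp only [if_pos hl]
  · simp only [if_neg hl, sum_singleton]

lemma Crit_aux_point {e : Bool} {h lam B : ℕ} (hh : 0 < h) {cl cl' : Cl n}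
    (hv : cl.Valid e h lam B) (hv' : cl'.Valid e h lam B) (Cr : Finset (Fin n))
    (hc : ∀ l ∈ Cr, 8 * (h : ℤ) ≤ 2 * |cl.k l - cl'.k l|)
    (hnc : ∀ l ∉ Cr, 2 * |cl.k l - cl'.k l| ≤ 8 * (h : ℤ)) (X : Fin n → Finset ℤ)
    {t t' : Pat n} {c c' : Pt n} (ht : t ∈ cl.S) (hct : c ∈ cl.W t) (ht' : t' ∈ cl'.S)
    (hct' : c' ∈ cl'.W t') :
    ∑ v ∈ Fintype.piFinset (fun l => if l ∈ Cr then X l else {0}),
        (∏ l ∈ Cr, ck e (8 * h) (2 * (h : ℝ)) (cl.k l) (c l) (t l) (v l)) *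
          ∏ l ∈ Cr, ck e (8 * h) (h : ℝ) (cl'.k l) (c' l) (t' l) (v l) ≤
      ((8 * h : ℕ) : ℝ) ^ #Cr * if Disjoint (Q (8 * h) c') (Q (8 * h) c) then 0 else 1 := by
  simp only [← prod_mul_distrib]
  rw [Crit_aux_factor Cr X (fun l w => ck e (8 * h) (2 * (h : ℝ)) (cl.k l) (c l) (t l) w *
    ck e (8 * h) (h : ℝ) (cl'.k l) (c' l) (t' l) w)]
  have h1 : ∏ l ∈ Cr, ∑ w ∈ X l, ck e (8 * h) (2 * (h : ℝ)) (cl.k l) (c l) (t l) w *
      ck e (8 * h) (h : ℝ) (cl'.k l) (c' l) (t' l) w ≤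
      ∏ l ∈ Cr, if ∃ w, inI (8 * h) (c l) w ∧ inI (8 * h) (c' l) w then ((8 * h : ℕ) : ℝ)
        else 0 := by
    refine prod_le_prod (fun l _ => sum_nonneg fun w _ => mul_nonneg
      (Crit_aux_nonneg _ _ (by positivity) _ _ _ _) (Crit_aux_nonneg _ _ (by positivity) _ _ _ _))
      fun l hl => ?_
    exact coord4 e hh _ _ _ _ (hc l hl) _ _ (hv.le_h t ht l) (hv'.le_h t' ht' l)
      (fun hs => tip_inI hs (hv.near t ht c hct l) (hv.reach t ht c hct l hs))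
      (fun hs => tip_inI hs (hv'.near t' ht' c' hct' l) (hv'.reach t' ht' c' hct' l hs)) _
  refine h1.trans ?_
  by_cases hD : Disjoint (Q (8 * h) c') (Q (8 * h) c)
  · rw [if_pos hD, mul_zero]
    have h2 : ¬ ∀ l, ∃ w, inI (8 * h) (c' l) w ∧ inI (8 * h) (c l) w :=
      fun h3 => not_disjoint_Q.2 h3 hD
    obtain ⟨l, hl⟩ := not_forall.1 h2
    have hlC : l ∈ Cr := by
      by_contra hlC
      apply hl
      have h3 := hnc l hlC
      have h4 := hv.near t ht c hct l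
      have h5 := hv'.near t' ht' c' hct' l
      have h6 : |cl.k l - cl'.k l| ≤ 4 * (h : ℤ) := by linarith
      rw [abs_le] at h4 h5 h6
      refine ⟨max (c l) (c' l), ?_⟩
      unfold inI
      push_cast
      omega
    refine (prod_eq_zero hlC ?_).le
    rw [if_neg]
    rintro ⟨w, hw, hw'⟩
    exact hl ⟨w, hw', hw⟩
  · rw [if_neg hD, mul_one, ← prod_const]
    refine prod_le_prod (fun l _ => ?_) fun l _ => ?_
    · split_ifs
      · positivity
      · exact le_rfl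
    · split_ifs
      · exact le_rfl
      · positivity

/-- Write the left side as `cl.E fun t c => cl'.E fun t' c' => ∑ v, ∏ l ∈ Cr, ck * ck'`
(`Cl.E_mul`, `Cl.E_sum`, `prod_ck`), factor the sum over `v` (`Finset.prod_univ_sum`, the
coordinates outside `Cr` contribute `1`), use `coord4` with `tip_inI`.  If the cubes of `c`, `c'`
are disjoint, some coordinate has no common point (`not_disjoint_Q`); it lies in `Cr`, because off
`Cr` we have `|c l - c' l| ≤ 4h + 2h < 8h`. -/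
theorem crit {e : Bool} {h lam B : ℕ} (hh : 0 < h) {cl cl' : Cl n} (hv : cl.Valid e h lam B)
    (hv' : cl'.Valid e h lam B) (Cr : Finset (Fin n))
    (hc : ∀ l ∈ Cr, 8 * (h : ℤ) ≤ 2 * |cl.k l - cl'.k l|)
    (hnc : ∀ l ∉ Cr, 2 * |cl.k l - cl'.k l| ≤ 8 * (h : ℤ)) (X : Fin n → Finset ℤ) :
    ∑ v ∈ Fintype.piFinset (fun l => if l ∈ Cr then X l else {0}),
        (2 * (h : ℝ)) ^ nout (8 * h) cl.k Cr v * cl.piA e (8 * h) Cr v *
          ((h : ℝ) ^ nout (8 * h) cl'.k Cr v * cl'.piA e (8 * h) Cr v) ≤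
      ((8 * h : ℕ) : ℝ) ^ #Cr * cl.Pov cl' (8 * h) := by
  have h1 : ∀ (cl : Cl n) (y : ℝ) (v : Pt n), y ^ nout (8 * h) cl.k Cr v * cl.piA e (8 * h) Cr v =
      cl.E (8 * h) fun t c => ∏ l ∈ Cr, ck e (8 * h) y (cl.k l) (c l) (t l) (v l) := by
    intro cl y v
    rw [Cl.piA, ← Cl.E_mul]
    exact cl.E_congr _ fun t _ c _ => prod_ck e _ y cl.k c Cr v t
  have h2 : ∀ (f g : Pat n → Pt n → ℝ), cl.E (8 * h) f * cl'.E (8 * h) g =
      cl.E (8 * h) fun t c => cl'.E (8 * h) fun t' c' => f t c * g t' c' := by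
    intro f g
    rw [mul_comm, ← Cl.E_mul]
    exact cl.E_congr _ fun t _ c _ => by rw [Cl.E_mul, mul_comm]
  simp only [h1, h2]
  rw [← Cl.E_sum, Cl.Pov, ← Cl.E_mul]
  refine cl.E_mono _ fun t ht c hct => ?_
  rw [← Cl.E_sum, ← Cl.E_mul]
  exact cl'.E_mono _ fun t' ht' c' hct' => Crit_aux_point hh hv hv' Cr hc hnc X ht hct ht' hct'

end Pool.Agent.MP_9210c2_an.H87

/-!
Loose clusters overlap each other a lot.
-/

namespace Pool.Agent.MP_9210c2_an.H87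

open Finset
open scoped Classical

variable {n : ℕ}

theorem LemT_nout (m : ℕ) (k : Pt n) (Cr : Finset (Fin n)) {u v : Pt n}
    (h : ∀ l ∈ Cr, u l = v l) : nout m k Cr u = nout m k Cr v := by
  unfold nout
  congr 1
  exact filter_congr fun l hl => by rw [h l hl]

theorem LemT_evB (e : Bool) (m : ℕ) (k : Pt n) (Cr : Finset (Fin n)) {u v : Pt n}
    (h : ∀ l ∈ Cr, u l = v l) : evB e m k Cr u = evB e m k Cr v := by
  funext t
  exact propext (forall₂_congr fun l hl => by rw [h l hl])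

theorem LemT_evA (e : Bool) (m : ℕ) (k : Pt n) (Cr : Finset (Fin n)) {u v : Pt n}
    (h : ∀ l ∈ Cr, u l = v l) : evA e m k Cr u = evA e m k Cr v := by
  funext t c
  unfold evA
  rw [LemT_evB e m k Cr h]
  exact propext (and_congr Iff.rfl (forall₂_congr fun l hl => by rw [h l hl]))

theorem LemT_good {cl : Cl n} {e : Bool} {m b : ℕ} {x X0 : ℝ} {φ : Pt n → ℝ}
    (ht : cl.Test e m x b X0 φ) (Cr : Finset (Fin n)) {u v : Pt n} (h : ∀ l ∈ Cr, u l = v l) :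
    φ u * ((8 * x) ^ nout m cl.k Cr v * cl.muB e m Cr v) ≤
      X0 * cl.piA e m Cr v * cl.Phi e m x b u := by
  have := ht.good Cr u
  unfold Cl.muB Cl.piA at this ⊢
  rwa [LemT_nout m cl.k Cr h, LemT_evB e m cl.k Cr h, LemT_evA e m cl.k Cr h] at this

theorem LemT_box {e : Bool} {h lam B : ℕ} (hh : 0 < h) {cl cl' : Cl n} (hv : cl.Valid e h lam B)
    (hv' : cl'.Valid e h lam B) {x X0 : ℝ} (hx0 : 0 < x) (hx1 : x ≤ 1 / 4) (hX0 : 0 ≤ X0) (b : ℕ)
    {φ φ' : Pt n → ℝ} (ht : cl.Test e (8 * h) x b X0 φ) (ht' : cl'.Test e (8 * h) x b X0 φ')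
    (Cr : Finset (Fin n)) (hnc : ∀ l ∉ Cr, 2 * |cl.k l - cl'.k l| ≤ 8 * (h : ℤ))
    (X : Fin n → Finset ℤ) (v : Pt n) :
    ∑ u ∈ Fintype.piFinset (fun l => if l ∈ Cr then {v l} else X l), φ u * φ' u ≤
      X0 ^ 2 * (1 - x / 2) ^ b * ((8 * h : ℕ) : ℝ) ^ #(Crᶜ) *
        ((2 * (h : ℝ)) ^ nout (8 * h) cl.k Cr v * cl.piA e (8 * h) Cr v *
          ((h : ℝ) ^ nout (8 * h) cl'.k Cr v * cl'.piA e (8 * h) Cr v)) := by
  have hf := fibre hh hv hv' hx0.le hx1 b Cr hnc X v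
  have hp := cl.piA_nonneg e (8 * h) Cr v
  have hp' := cl'.piA_nonneg e (8 * h) Cr v
  have hm := cl.muB_nonneg e (8 * h) Cr v
  have hm' := cl'.muB_nonneg e (8 * h) Cr v
  have hx2 : 0 ≤ 1 - x / 2 := by linarith
  have hx3 : x ≤ 1 := by linarith
  have e1 : (2 * x * (8 * h : ℕ)) = (8 * x) * (2 * (h : ℝ)) := by push_cast; ring
  have e2 : (x * (8 * h : ℕ)) = (8 * x) * (h : ℝ) := by push_cast; ring
  rw [e1, e2, mul_pow, mul_pow (8 * x)] at hf
  rcases (mul_nonneg hm hm').eq_or_lt with h0 | h0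
  · refine le_trans (sum_le_sum fun u _ => mul_le_mul (ht.le_Phi u) (ht'.le_Phi u) (ht'.nonneg u)
      (cl.Phi_nonneg e _ hx0.le hx3 b u)) (hf.trans ?_)
    refine le_trans (le_of_eq ?_) (by positivity : (0 : ℝ) ≤ _)
    rcases mul_eq_zero.1 h0.symm with h1 | h1 <;> rw [h1] <;> ring
  · have ha : 0 < ((8 * x) ^ nout (8 * h) cl.k Cr v * (8 * x) ^ nout (8 * h) cl'.k Cr v) *
        (cl.muB e (8 * h) Cr v * cl'.muB e (8 * h) Cr v) := by positivity
    refine le_of_mul_le_mul_right ?_ ha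
    rw [sum_mul]
    have h1 : ∀ u ∈ Fintype.piFinset (fun l => if l ∈ Cr then {v l} else X l),
        φ u * φ' u * (((8 * x) ^ nout (8 * h) cl.k Cr v * (8 * x) ^ nout (8 * h) cl'.k Cr v) *
          (cl.muB e (8 * h) Cr v * cl'.muB e (8 * h) Cr v)) ≤
        (X0 * cl.piA e (8 * h) Cr v * (X0 * cl'.piA e (8 * h) Cr v)) *
          (cl.Phi e (8 * h) x b u * cl'.Phi e (8 * h) x b u) := by
      intro u hu
      have huv : ∀ l ∈ Cr, u l = v l := fun l hl => by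
        have := Fintype.mem_piFinset.1 hu l
        rwa [if_pos hl, mem_singleton] at this
      have := mul_le_mul (LemT_good ht Cr huv) (LemT_good ht' Cr huv)
        (mul_nonneg (ht'.nonneg u) (by positivity))
        (mul_nonneg (by positivity) (cl.Phi_nonneg e _ hx0.le hx3 b u))
      calc _ = _ := by ring
        _ ≤ _ := this
        _ = _ := by ring
    refine (sum_le_sum h1).trans ?_
    rw [← mul_sum]
    refine (mul_le_mul_of_nonneg_left hf (by positivity)).trans (le_of_eq ?_)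
    ring

theorem LemT_pov {e : Bool} {h lam B : ℕ} (hh : 0 < h) (O O' C : Finset (Pt n)) (hO : O' ⊆ O)
    (cl : Pt n → Cl n) (ω : Pt n → ℝ) (hω : ∀ k ∈ O, 0 ≤ ω k)
    (hW : ∀ k ∈ O, ∀ t, (cl k).W t ⊆ C) {L1 : ℝ}
    (hL : ∀ K ∈ C, ∑ k ∈ O, ω k * (cl k).nu (8 * h) (ov (8 * h) C (8 * h) K) ≤ L1)
    {k : Pt n} (hk : k ∈ O) (hv : (cl k).Valid e h lam B) :
    ∑ k' ∈ O', ω k' * (cl k).Pov (cl k') (8 * h) ≤ L1 := by
  have h1 : (cl k).E (8 * h) (fun _ _ => L1) = L1 := by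
    rw [(cl k).E_pat (8 * h) hv.wne (fun _ => L1), ← sum_mul,
      (cl k).sum_mu (by omega) hv.ne, one_mul]
  unfold Cl.Pov
  simp_rw [← Cl.E_mul (cl k)]
  rw [← Cl.E_sum, ← h1]
  refine (cl k).E_mono _ fun t _ c hc => le_trans ?_ (hL c (hW k hk t hc))
  refine le_trans (le_of_eq (sum_congr rfl fun k' hk' => ?_))
    (sum_le_sum_of_subset_of_nonneg hO fun k' hk' _ => mul_nonneg (hω k' hk')
      ((cl k').E_nonneg _ fun _ _ _ _ => by split_ifs <;> norm_num))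
  congr 1
  refine (cl k').E_congr _ fun t' _ c' hc' => ?_
  have : c' ∈ C := hW k' (hO hk') t' hc'
  by_cases hd : Disjoint (Q (8 * h) c') (Q (8 * h) c) <;> simp [ov, hd, this]

/-- Let `Cr = {l | 8h ≤ 2 |k l - k' l|}`.  Split the sum into the fibres of
`u ↦ fun l => if l ∈ Cr then u l else 0` (`Finset.sum_fiberwise_of_maps_to`); the fibre over `v`
is the box of `fibre`, and `nout`, `muB`, `piA` are constant on it.  If `muB * muB' > 0` multiply
the two `good` inequalities, sum, use `fibre` and divide by `(8x)^(nout+nout') muB muB'`;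
otherwise `φ φ' ≤ Phi Phi'` and `fibre` give `0`.  Then `crit`. -/
theorem pair {e : Bool} {h lam B : ℕ} (hh : 0 < h) {cl cl' : Cl n} (hv : cl.Valid e h lam B)
    (hv' : cl'.Valid e h lam B) {x X0 : ℝ} (hx0 : 0 < x) (hx1 : x ≤ 1 / 4) (hX0 : 0 ≤ X0) (b : ℕ)
    {φ φ' : Pt n → ℝ} (ht : cl.Test e (8 * h) x b X0 φ) (ht' : cl'.Test e (8 * h) x b X0 φ')
    (X : Fin n → Finset ℤ) :
    ∑ u ∈ Fintype.piFinset X, φ u * φ' u ≤
      X0 ^ 2 * (1 - x / 2) ^ b * ((8 * h : ℕ) : ℝ) ^ n * cl.Pov cl' (8 * h) := by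
  set Cr : Finset (Fin n) := univ.filter fun l => 8 * (h : ℤ) ≤ 2 * |cl.k l - cl'.k l| with hCr
  have hc : ∀ l ∈ Cr, 8 * (h : ℤ) ≤ 2 * |cl.k l - cl'.k l| := fun l hl => (mem_filter.1 hl).2
  have hnc : ∀ l ∉ Cr, 2 * |cl.k l - cl'.k l| ≤ 8 * (h : ℤ) := fun l hl => by
    by_contra h0
    exact hl (mem_filter.2 ⟨mem_univ _, (not_le.1 h0).le⟩)
  have hx2 : 0 ≤ 1 - x / 2 := by linarith
  rw [← sum_fiberwise_of_maps_to (t := Fintype.piFinset fun l => if l ∈ Cr then X l else {0})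
    (g := fun u l => if l ∈ Cr then u l else 0) (fun u hu => Fintype.mem_piFinset.2 fun l => by
      by_cases hl : l ∈ Cr
      · simpa [hl] using Fintype.mem_piFinset.1 hu l
      · simp [hl])]
  refine le_trans (sum_le_sum fun v _ => le_trans
    (sum_le_sum_of_subset_of_nonneg (fun u hu => ?_)
      fun u _ _ => mul_nonneg (ht.nonneg u) (ht'.nonneg u))
    (LemT_box hh hv hv' hx0 hx1 hX0 b ht ht' Cr hnc X v)) ?_
  · obtain ⟨h1, h2⟩ := mem_filter.1 hu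
    refine Fintype.mem_piFinset.2 fun l => ?_
    by_cases hl : l ∈ Cr
    · have := congrFun h2 l
      simpa [hl] using this
    · simpa [hl] using Fintype.mem_piFinset.1 h1 l
  · rw [← mul_sum]
    refine (mul_le_mul_of_nonneg_left (crit hh hv hv' Cr hc hnc X) (by positivity)).trans
      (le_of_eq ?_)
    have : ((8 * h : ℕ) : ℝ) ^ n = ((8 * h : ℕ) : ℝ) ^ #(Crᶜ) * ((8 * h : ℕ) : ℝ) ^ #Cr := by
      rw [← pow_add, card_compl_add_card, Fintype.card_fin]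
    rw [this]
    ring

/-- Restrict to `O' = {k ∈ O | 0 < ω k}`, choose test functions (`exists_test`), apply
Cauchy-Schwarz on `Ω = Q Mo 0` (a `piFinset`) to `∑ k, ω k φ k`, use `pair` and
`∑ k', ω k' * Pov (cl k) (cl k') = (cl k).E fun _ c => ∑ k', ω k' * (cl k').nu (ov m C m c) ≤ L1`. -/
theorem lemT {e : Bool} {h lam B : ℕ} (hh : 0 < h) (b Mo : ℕ) {x : ℝ} (hx0 : 0 < x)
    (hx1 : x ≤ 1 / 4) (O C : Finset (Pt n)) (hΩ : ∀ c ∈ C, Q (8 * h) c ⊆ Q Mo 0)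
    (cl : Pt n → Cl n) (ω : Pt n → ℝ) (hω : ∀ k ∈ O, 0 ≤ ω k)
    (hv : ∀ k ∈ O, 0 < ω k → (cl k).Valid e h lam B)
    (hW : ∀ k ∈ O, ∀ t, (cl k).W t ⊆ C)
    (hZ : ∀ k ∈ O, 0 < ω k → 2 * ((n : ℝ) + 1) ^ b ≤ (cl k).Z (8 * h)) {L1 : ℝ} (hL0 : 0 ≤ L1)
    (hL : ∀ K ∈ C, ∑ k ∈ O, ω k * (cl k).nu (8 * h) (ov (8 * h) C (8 * h) K) ≤ L1) :
    (∑ k ∈ O, ω k) * ((8 * h : ℕ) : ℝ) ^ n ≤
      256 * Real.exp (8 * lam) * (1 + 8 * x ^ 2) ^ (2 * B) * (1 - x / 2) ^ b * L1 *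
        #(Q Mo (0 : Pt n)) := by
  set O' := O.filter fun k => 0 < ω k with hO'
  have hsub : O' ⊆ O := filter_subset _ _
  have hsum : ∑ k ∈ O, ω k = ∑ k ∈ O', ω k := by
    refine (sum_subset hsub fun k hk hk' => le_antisymm ?_ (hω k hk)).symm
    by_contra h0
    exact hk' (mem_filter.2 ⟨hk, not_le.1 h0⟩)
  have hx2 : 0 ≤ 1 - x / 2 := by linarith
  have hex : ∀ k, ∃ φ : Pt n → ℝ, k ∈ O' →
      (cl k).Test e (8 * h) x b (4 * Real.exp (2 * lam) * (1 + 8 * x ^ 2) ^ B) φ ∧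
      Real.exp (-(2 * lam)) / 4 * ((8 * h : ℕ) : ℝ) ^ n ≤ ∑ u ∈ Q Mo 0, φ u := by
    intro k
    by_cases hk : k ∈ O'
    · obtain ⟨h1, h2⟩ := mem_filter.1 hk
      obtain ⟨φ, hφ⟩ := exists_test hh (hv k h1 h2) hx0.le (by linarith) b (hZ k h1 h2) (Q Mo 0)
        fun t _ c hc => hΩ c (hW k h1 t hc)
      exact ⟨φ, fun _ => hφ⟩
    · exact ⟨0, fun h0 => absurd h0 hk⟩
  choose φ hφ using hex
  have hω' : ∀ k ∈ O', 0 ≤ ω k := fun k hk => hω k (hsub hk)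
  have hv' : ∀ k ∈ O', (cl k).Valid e h lam B := fun k hk =>
    hv k (hsub hk) (mem_filter.1 hk).2
  rw [hsum]
  set W := ∑ k ∈ O', ω k with hWd
  set M := ((8 * h : ℕ) : ℝ) ^ n with hM
  set X0 := 4 * Real.exp (2 * lam) * (1 + 8 * x ^ 2) ^ B with hX0
  have hM0 : 0 < M := by positivity
  have hW0 : 0 ≤ W := sum_nonneg hω'
  have h1 : W * (Real.exp (-(2 * lam)) / 4 * M) ≤ ∑ u ∈ Q Mo 0, ∑ k ∈ O', ω k * φ k u := by
    rw [sum_comm, hWd, sum_mul]
    refine sum_le_sum fun k hk => ?_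
    rw [← mul_sum]
    exact mul_le_mul_of_nonneg_left (hφ k hk).2 (hω' k hk)
  have h2 : ∑ u ∈ Q Mo 0, (∑ k ∈ O', ω k * φ k u) ^ 2 ≤
      W * (X0 ^ 2 * (1 - x / 2) ^ b * M * L1) := by
    rw [sum_congr rfl fun u _ => (sq _).trans (sum_mul_sum O' O' _ _), sum_comm, hWd, sum_mul]
    refine sum_le_sum fun k hk => ?_
    rw [sum_comm]
    have h3 := LemT_pov hh O O' C hsub cl ω hω hW hL (hsub hk) (hv' k hk)
    refine le_trans ?_ (mul_le_mul_of_nonneg_left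
      (mul_le_mul_of_nonneg_left h3 (by positivity)) (hω' k hk))
    rw [mul_sum, mul_sum]
    refine sum_le_sum fun k' hk' => ?_
    have h4 := pair hh (hv' k hk) (hv' k' hk') hx0 hx1 (by positivity) b (hφ k hk).1
      (hφ k' hk').1 (fun l => Ico ((0 : Pt n) l) ((0 : Pt n) l + Mo))
    have h5 := mul_le_mul_of_nonneg_left h4 (mul_nonneg (hω' k hk) (hω' k' hk'))
    rw [mul_sum] at h5
    calc _ = _ := sum_congr rfl fun u _ => by ring
      _ ≤ _ := h5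
      _ = _ := by ring
  have h3 := (pow_le_pow_left₀ (by positivity) h1 2).trans
    (sq_sum_le_card_mul_sum_sq.trans (mul_le_mul_of_nonneg_left h2 (Nat.cast_nonneg _)))
  rcases hW0.eq_or_lt with h0 | h0
  · rw [← h0, zero_mul]
    exact mul_nonneg (mul_nonneg (by positivity) hL0) (Nat.cast_nonneg _)
  · have hE : Real.exp (8 * lam) * Real.exp (-(2 * lam)) ^ 2 = Real.exp (2 * lam) ^ 2 := by
      rw [sq, sq, ← Real.exp_add, ← Real.exp_add, ← Real.exp_add]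
      congr 1
      ring
    refine le_of_mul_le_mul_left ?_
      (by positivity : 0 < W * M * (Real.exp (-(2 * lam)) ^ 2 / 16))
    calc _ = _ := by ring
      _ ≤ _ := h3
      _ = W * M * (16 * Real.exp (2 * lam) ^ 2 * (1 + 8 * x ^ 2) ^ (2 * B) * (1 - x / 2) ^ b *
          L1 * #(Q Mo (0 : Pt n))) := by rw [hX0]; ring
      _ = _ := by rw [← hE]; ring

end Pool.Agent.MP_9210c2_an.H87

/-!
Most points of the union of a container are popular.
-/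

namespace Pool.Agent.MP_9210c2_an.H87

open Finset
open scoped Classical

variable {n : ℕ}

/-- Loose options have small total weight. -/
lemma Pop_rare (e : Bool) {h B : ℕ} (hh : 0 < h) (lam b Mo : ℕ) {x Z0 ρ L θ : ℝ}
    (O C : Finset (Pt n)) (hCO : C ⊆ O) (hO : ∀ k ∈ O, Q (8 * h) k ⊆ Q Mo 0)
    (hρ : Real.log (1 + (#C : ℝ)) ≤ ρ) (hρ1 : 1 ≤ ρ) (hL0 : 0 < L)
    (hdrop : ∀ K ∈ C, Psi h lam B Z0 O (Q Mo 0) C -
      Psi h lam B Z0 O (Q Mo 0) (C \ ov (8 * h) C (8 * h) K) ≤ L)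
    (hZ0 : 2 * ρ * ((n : ℝ) + 1) ^ b ≤ Z0) (hx0 : 0 < x) (hx1 : x ≤ 1 / 4)
    (hT : 256 * Real.exp (8 * lam) * (1 + 8 * x ^ 2) ^ (2 * B) * (1 - x / 2) ^ b *
      (2 * ρ * L) * (32 * L) ≤ θ) :
    (∑ k ∈ C.filter (fun k => Z0 + 1 ≤ Zt e h lam B C k), sig (8 * h) C k) *
      ((8 * h : ℕ) : ℝ) ^ n ≤ θ / 8 * #(Q Mo (0 : Pt n)) := by
  have hCΩ : ∀ c ∈ C, Q (8 * h) c ⊆ Q Mo 0 := fun c hc => hO c (hCO hc)
  have hpos : (0 : ℝ) < ((n : ℝ) + 1) ^ b := by positivity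
  have hZ00 : 0 ≤ Z0 := le_trans (by positivity) hZ0
  have hZ : ∀ k, 0 < om e h lam B Z0 O C k →
      2 * ((n : ℝ) + 1) ^ b ≤ (clu e h lam B C k).Z (8 * h) := by
    intro k hk
    have h1 := om_pos e h lam B Z0 O C k hk
    have h2 := Zt_le e h lam B C k hρ
    refine le_of_mul_le_mul_left ?_ (show 0 < ρ by linarith)
    linarith
  have hT1 := lemT (e := e) (lam := lam) (B := B) hh b Mo hx0 hx1 O C hCΩ (clu e h lam B C)
    (om e h lam B Z0 O C) (fun k _ => om_nonneg e h lam B Z0 O C k)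
    (fun k _ hk => clu_valid e h lam B C k (by
      by_contra hne
      have h1 := hZ k hk
      rw [not_nonempty_iff_eq_empty] at hne
      rw [Cl.Z, hne, sum_empty] at h1
      linarith))
    (fun k _ t => Wk_subset e h lam C k t) (fun k _ hk => hZ k hk)
    (L1 := 2 * ρ * L) (by positivity)
    (fun K hK => Psi_drop2 e h lam B O (Q Mo 0) C _ hO hρ hρ1 hZ00 (hdrop K hK))
  have hV : ∀ y, Vf (8 * h) C y ≤ 2 * L := Vf_le (by positivity) fun K hK =>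
    Psi_drop1 h lam B Z0 O (Q Mo 0) C hCΩ _ K (hdrop K hK)
  have h1 := mass_union (filter_subset (fun k => Z0 + 1 ≤ Zt e h lam B C k) C) hV
  have h2 := om_tot e hh lam B Z0 O C (C.filter fun k => Z0 + 1 ≤ Zt e h lam B C k)
    ((filter_subset _ _).trans hCO) (fun k hk => (mem_filter.1 hk).2)
  have h3 := mul_le_mul_of_nonneg_right hT (Nat.cast_nonneg (α := ℝ) #(Q Mo (0 : Pt n)))
  have h4 := mul_le_mul_of_nonneg_left h2 (show 0 ≤ 2 * L by positivity)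
  have h5 := mul_le_mul_of_nonneg_left hT1 (show 0 ≤ 4 * L by positivity)
  nlinarith

/-- A heavy neighbourhood of thin options is loose. -/
lemma Pop_loose {h B : ℕ} (hh : 0 < h) (hB : 1 ≤ B) (lam b1 M : ℕ) {Z0 τ a β δ : ℝ}
    (C G : Finset (Pt n)) (hZ1 : 2 * (Z0 + 1) ≤ 2 ^ B)
    (hb1 : 8 * ((n : ℝ) + 1) ^ (18 * B) ≤ a * 2 ^ b1) (hβ0 : 0 < β)
    (hβ : β * (2 * (1 + (n : ℝ) * (8 * h : ℕ)) ^ b1) ≤ a)
    (hM : (4 * (lam : ℝ) + 1) * ((n : ℝ) + 1) ^ (4 * lam + 1) ≤ β * 2 ^ M) (hδ0 : 0 ≤ δ)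
    (hδ : δ * (4 * (4 * (lam : ℝ) + 1) * ((n : ℝ) + 1) ^ (4 * lam + 1) *
      (1 + (n : ℝ) * (8 * h : ℕ)) ^ M) ≤ β)
    (hτ' : 2 * τ * ((8 * h : ℕ) : ℝ) ^ b1 ≤ δ ^ (4 * lam + 1)) (k : Pt n) (W : Finset (Pt n))
    (hW : W ⊆ Nb h lam C k)
    (hth : ∀ c ∈ W, (#(G ∩ Q (8 * h) c) : ℝ) < 2 * τ * ((8 * h : ℕ) : ℝ) ^ n)
    (ha : a ≤ ∑ c ∈ W, sigG (8 * h) C G c) : ∃ e, Z0 + 1 ≤ Zt e h lam B C k := by
  by_contra hcon
  push Not at hcon
  have hm0 : 0 < 8 * h := by omega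
  have hm : (0 : ℝ) < ((8 * h : ℕ) : ℝ) := by exact_mod_cast hm0
  have hWC : W ⊆ C := hW.trans (filter_subset _ _)
  have h1 := sigG_union hm0 hWC G
  obtain ⟨c, hc, h2⟩ := cover hh hB lam b1 M k C W hW
    (fun e => by have := Z_le_Zt e h lam B C k; have := hcon e; linarith)
    (G ∩ U (8 * h) W) inter_subset_right (a := a)
    ((mul_le_mul_of_nonneg_right ha (by positivity)).trans h1) hb1 hβ0 hβ hM hδ0 hδ
  have h3 : (#(G ∩ U (8 * h) W ∩ Q (8 * h) c) : ℝ) ≤ #(G ∩ Q (8 * h) c) := by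
    exact_mod_cast card_le_card (inter_subset_inter inter_subset_left Subset.rfl)
  have h4 := mul_lt_mul_of_pos_left (h3.trans_lt (hth c hc)) (pow_pos hm b1)
  have h5 := mul_le_mul_of_nonneg_right hτ' (pow_pos hm n).le
  nlinarith

/-- By contradiction; `G` = the unpopular points, `V = #Ω`, `m = 8h`, `lam = 2 lam0`,
`w c = if #(G ∩ Q m c) < 2 τ m^n then sigG m C G c else 0`, so `(∑ w) m^n > θ V / 2`
(`thin_mass`) and `w ≤ sig`, whose overlap masses are at most `2L` (`Psi_drop1`).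
The options `K` with `∑ c ∈ Nb h lam C K, w c ≤ a` have mass `< θ V / 4` (`social` applied to the
set of these options, `s1`).  An option `k` with larger neighbourhood mass has `Z0 + 1 ≤ Zt e ..`
for some `e`: otherwise `Z_le_Zt`, `hZ1` and `cover` (with `W` = the thin options in `Nb ..`,
`G ∩ U m W`, `sigG_union`) give a thin option contradicting `hτ'`.  So for some `e` the options
with `Z0 + 1 ≤ Zt e ..` have `sig`-mass `> θ V / 8`; `mass_union`, `Vf_le`, `om_tot` give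
`(∑ om) m^n > θ V / (32 L)`, contradicting `lemT` (with `Psi_drop2`, `om_pos`, `Zt_le`,
`clu_valid`) and `hT`. -/
theorem pop_gen {h B : ℕ} (hh : 0 < h) (hB : 1 ≤ B) (lam0 b b1 M Mo : ℕ)
    {x Z0 ρ L θ τ a β δ : ℝ} (O C : Finset (Pt n)) (hCO : C ⊆ O)
    (hO : ∀ k ∈ O, Q (8 * h) k ⊆ Q Mo 0) (hρ : Real.log (1 + (#O : ℝ)) ≤ ρ) (hρ1 : 1 ≤ ρ)
    (hL0 : 0 < L)
    (hdrop : ∀ K ∈ C, Psi h (2 * lam0) B Z0 O (Q Mo 0) C -
      Psi h (2 * lam0) B Z0 O (Q Mo 0) (C \ ov (8 * h) C (8 * h) K) ≤ L)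
    (hθ : 0 < θ) (hτ : 0 < τ) (ha : 0 ≤ a)
    (s1 : 2 * L * Real.exp (-lam0) + (1 + 16 * (n : ℝ)) ^ (16 * lam0) * a ≤ θ / 4)
    (hZ0 : 2 * ρ * ((n : ℝ) + 1) ^ b ≤ Z0) (hZ1 : 2 * (Z0 + 1) ≤ 2 ^ B)
    (hx0 : 0 < x) (hx1 : x ≤ 1 / 4)
    (hT : 256 * Real.exp (16 * lam0) * (1 + 8 * x ^ 2) ^ (2 * B) * (1 - x / 2) ^ b *
      (2 * ρ * L) * (32 * L) ≤ θ)
    (hb1 : 8 * ((n : ℝ) + 1) ^ (18 * B) ≤ a * 2 ^ b1) (hβ0 : 0 < β)
    (hβ : β * (2 * (1 + (n : ℝ) * (8 * h : ℕ)) ^ b1) ≤ a)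
    (hM : (8 * (lam0 : ℝ) + 1) * ((n : ℝ) + 1) ^ (8 * lam0 + 1) ≤ β * 2 ^ M) (hδ0 : 0 ≤ δ)
    (hδ : δ * (4 * (8 * (lam0 : ℝ) + 1) * ((n : ℝ) + 1) ^ (8 * lam0 + 1) *
      (1 + (n : ℝ) * (8 * h : ℕ)) ^ M) ≤ β)
    (hτ' : 2 * τ * ((8 * h : ℕ) : ℝ) ^ b1 ≤ δ ^ (8 * lam0 + 1)) :
    (#((U (8 * h) C).filter fun y => Vf (8 * h) C y < τ) : ℝ) ≤ θ * #(Q Mo (0 : Pt n)) := by
  set G := (U (8 * h) C).filter fun y => Vf (8 * h) C y < τ with hG
  have hm0 : 0 < 8 * h := by omega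
  have hmn : (0 : ℝ) < ((8 * h : ℕ) : ℝ) ^ n := pow_pos (by exact_mod_cast hm0) n
  have hCΩ : ∀ c ∈ C, Q (8 * h) c ⊆ Q Mo 0 := fun c hc => hO c (hCO hc)
  have hρC : Real.log (1 + (#C : ℝ)) ≤ ρ := by
    refine le_trans (Real.log_le_log (by positivity) ?_) hρ
    have : (#C : ℝ) ≤ #O := by exact_mod_cast card_le_card hCO
    linarith
  have hsig : ∀ K ∈ C, ∑ c ∈ ov (8 * h) C (8 * h) K, sig (8 * h) C c ≤ 2 * L := fun K hK =>
    Psi_drop1 h _ B Z0 O (Q Mo 0) C hCΩ _ K (hdrop K hK)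
  set Th := C.filter (fun c => (#(G ∩ Q (8 * h) c) : ℝ) < 2 * τ * ((8 * h : ℕ) : ℝ) ^ n) with hTh
  set w : Pt n → ℝ := fun c => if c ∈ Th then sigG (8 * h) C G c else 0 with hw
  have hw0 : ∀ c, 0 ≤ w c := fun c => by
    simp only [hw]; split_ifs
    · exact sigG_nonneg _ _ _ _
    · exact le_rfl
  have hwle : ∀ c, w c ≤ sig (8 * h) C c := fun c => by
    simp only [hw]; split_ifs
    · exact sigG_le_sig _ _ _ _
    · exact sig_nonneg _ _ _
  have hsumw : ∀ D : Finset (Pt n), ∑ c ∈ D, w c = ∑ c ∈ D ∩ Th, sigG (8 * h) C G c := fun D =>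
    sum_ite_mem D Th _
  have h1 : (#G : ℝ) ≤ 2 * ((∑ c ∈ C, w c) * ((8 * h : ℕ) : ℝ) ^ n) := by
    rw [hsumw, inter_eq_right.2 (filter_subset _ _)]
    exact thin_mass hm0 C G hτ (filter_subset _ _) fun y hy => (mem_filter.1 hy).2.le
  set A := C.filter (fun K => ∑ c ∈ Nb h (2 * lam0) C K, w c ≤ a) with hA
  have hAC : A ⊆ C := filter_subset _ _
  have h2 : (∑ c ∈ A, w c) * ((8 * h : ℕ) : ℝ) ^ n ≤ θ / 4 * #(Q Mo (0 : Pt n)) := by
    refine (social hh lam0 A (Q Mo 0) (fun c hc => hCΩ c (hAC hc)) w (fun c _ => hw0 c)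
      (L := 2 * L) (by positivity) ha (fun K hK => ?_) (fun K hK => ?_)).trans
      (mul_le_mul_of_nonneg_right s1 (Nat.cast_nonneg _))
    · refine le_trans ?_ (hsig K (hAC hK))
      refine (sum_le_sum fun c _ => hwle c).trans
        (sum_le_sum_of_subset_of_nonneg ?_ fun c _ _ => sig_nonneg _ _ _)
      exact filter_subset_filter _ hAC
    · refine le_trans ?_ (mem_filter.1 hK).2
      exact sum_le_sum_of_subset_of_nonneg (filter_subset_filter _ hAC) fun c _ _ => hw0 c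
  have h3 : ∀ k ∈ C, k ∉ A → ∃ e, Z0 + 1 ≤ Zt e h (2 * lam0) B C k := by
    intro k hk hkA
    have h3 : a < ∑ c ∈ Nb h (2 * lam0) C k, w c := by
      by_contra hc
      exact hkA (mem_filter.2 ⟨hk, not_lt.1 hc⟩)
    rw [hsumw] at h3
    have e1 : 4 * (2 * lam0) + 1 = 8 * lam0 + 1 := by ring
    have e2 : 4 * ((2 * lam0 : ℕ) : ℝ) + 1 = 8 * lam0 + 1 := by push_cast; ring
    refine Pop_loose hh hB (2 * lam0) b1 M C G hZ1 hb1 hβ0 hβ (by rw [e1, e2]; exact hM) hδ0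
      (by rw [e1, e2]; exact hδ) (by rw [e1]; exact hτ') k _ inter_subset_left
      (fun c hc => (mem_filter.1 (mem_inter.1 hc).2).2) h3.le
  have h4 : ∀ e, (∑ k ∈ C.filter (fun k => Z0 + 1 ≤ Zt e h (2 * lam0) B C k), sig (8 * h) C k) *
      ((8 * h : ℕ) : ℝ) ^ n ≤ θ / 8 * #(Q Mo (0 : Pt n)) := fun e =>
    Pop_rare e hh (2 * lam0) b Mo O C hCO hO hρC hρ1 hL0 hdrop hZ0 hx0 hx1 (by
      rw [show 8 * ((2 * lam0 : ℕ) : ℝ) = 16 * lam0 by push_cast; ring]; exact hT)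
  have h5 : ∑ c ∈ C, w c ≤ ∑ c ∈ A, w c +
      ∑ k ∈ C.filter (fun k => Z0 + 1 ≤ Zt true h (2 * lam0) B C k), sig (8 * h) C k +
      ∑ k ∈ C.filter (fun k => Z0 + 1 ≤ Zt false h (2 * lam0) B C k), sig (8 * h) C k := by
    rw [hA, sum_filter, sum_filter, sum_filter, ← sum_add_distrib, ← sum_add_distrib]
    refine sum_le_sum fun k hk => ?_
    have a1 := hw0 k
    have a2 := hwle k
    by_cases hkA : k ∈ A
    · rw [if_pos (mem_filter.1 hkA).2]
      split_ifs <;> linarith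
    · obtain ⟨e, he⟩ := h3 k hk hkA
      cases e
      · rw [if_pos he]; split_ifs <;> linarith
      · rw [if_pos he]; split_ifs <;> linarith
  have h6 := mul_le_mul_of_nonneg_right h5 hmn.le
  have h7 := h4 true
  have h8 := h4 false
  linarith

end Pool.Agent.MP_9210c2_an.H87
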