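import Pool.Agent.MP_9210c2_an.H87.Base

/-!
The first potential, thin options, popular points.
-/

namespace Pool.Agent.MP_9210c2_an.H87

open Finset
open scoped Classical

variable {n : ℕ}

/-- `log (1+a) - log (1+a-b) ≥ b/(1+a) ≥ b/(2a)`; both sides vanish when `W` is empty. -/
theorem log_drop {α : Type*} [DecidableEq α] (W D : Finset α) :
    (#(W ∩ D) : ℝ) / #W ≤ 2 * (Real.log (1 + (#W : ℝ)) - Real.log (1 + (#(W \ D) : ℝ))) := by
  have hc : #(W \ D) + #(W ∩ D) = #W := card_sdiff_add_card_inter W D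
  have hc' : (#(W \ D) : ℝ) + #(W ∩ D) = #W := by exact_mod_cast hc
  rcases Nat.eq_zero_or_pos #W with h0 | h0
  · have h1 : #(W \ D) = 0 := by omega
    simp [h0, h1]
  · have ha : (1 : ℝ) ≤ #W := by exact_mod_cast h0
    have hb : (0 : ℝ) ≤ #(W ∩ D) := Nat.cast_nonneg _
    have hd : (0 : ℝ) ≤ #(W \ D) := Nat.cast_nonneg _
    have h1 := Real.log_le_sub_one_of_pos
      (x := (1 + (#(W \ D) : ℝ)) / (1 + (#W : ℝ))) (by positivity)
    rw [Real.log_div (by positivity) (by positivity)] at h1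
    have h2 : (1 + (#(W \ D) : ℝ)) / (1 + (#W : ℝ)) - 1 = -((#(W ∩ D) : ℝ) / (1 + (#W : ℝ))) := by
      field_simp
      linarith
    have h3 : (#(W ∩ D) : ℝ) / #W ≤ 2 * ((#(W ∩ D) : ℝ) / (1 + (#W : ℝ))) := by
      rw [← mul_div_assoc, div_le_div_iff₀ (by positivity) (by positivity)]
      nlinarith
    linarith

theorem Psi1_nonneg (m : ℕ) (Ω C : Finset (Pt n)) : 0 ≤ Psi1 m Ω C := by
  unfold Psi1
  refine div_nonneg (sum_nonneg fun y _ => Real.log_nonneg ?_) (by positivity)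
  have : (0 : ℝ) ≤ #(thr m C y) := Nat.cast_nonneg _
  linarith

theorem Psi1_mono (m : ℕ) (Ω : Finset (Pt n)) {C C' : Finset (Pt n)} (h : C ⊆ C') :
    Psi1 m Ω C ≤ Psi1 m Ω C' := by
  unfold Psi1
  refine div_le_div_of_nonneg_right (sum_le_sum fun y _ => ?_) (by positivity)
  have h1 : #(thr m C y) ≤ #(thr m C' y) := card_le_card (filter_subset_filter _ h)
  have h2 : (#(thr m C y) : ℝ) ≤ #(thr m C' y) := by exact_mod_cast h1
  exact Real.log_le_log (by positivity) (by linarith)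

theorem Psi1_le (m : ℕ) (Ω O : Finset (Pt n)) {ρ : ℝ} (hρ : Real.log (1 + (#O : ℝ)) ≤ ρ) :
    Psi1 m Ω O ≤ ρ * #Ω / (m : ℝ) ^ n := by
  unfold Psi1
  refine div_le_div_of_nonneg_right ?_ (by positivity)
  calc ∑ y ∈ Ω, Real.log (1 + (#(thr m O y) : ℝ)) ≤ ∑ _y ∈ Ω, ρ := by
        refine sum_le_sum fun y _ => le_trans ?_ hρ
        have h1 : #(thr m O y) ≤ #O := card_le_card (filter_subset _ _)
        have h2 : (#(thr m O y) : ℝ) ≤ #O := by exact_mod_cast h1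
        exact Real.log_le_log (by positivity) (by linarith)
    _ = ρ * #Ω := by rw [sum_const, nsmul_eq_mul, mul_comm]

/-- `thr m (C \ D) y = thr m C y \ D`, `log_drop` at every `y ∈ Ω` and `sum_sum_Q`. -/
theorem Psi1_drop (m : ℕ) (Ω C D : Finset (Pt n)) (hΩ : ∀ c ∈ C, Q m c ⊆ Ω) :
    ∑ c ∈ C ∩ D, sig m C c ≤ 2 * (Psi1 m Ω C - Psi1 m Ω (C \ D)) := by
  unfold Psi1 sig
  rw [← sum_div, ← sub_div, ← mul_div_assoc, ← sum_sub_distrib, mul_sum]
  refine div_le_div_of_nonneg_right ?_ (by positivity)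
  rw [sum_sum_Q m (C ∩ D) Ω (fun c hc => hΩ c (mem_inter.1 hc).1)
    (fun _ y => 1 / (#(thr m C y) : ℝ))]
  refine sum_le_sum fun y _ => ?_
  have e1 : thr m (C ∩ D) y = thr m C y ∩ D := by
    ext c; simp only [mem_thr, mem_inter]; tauto
  have e2 : thr m (C \ D) y = thr m C y \ D := by
    ext c; simp only [mem_thr, mem_sdiff]; tauto
  rw [e1, e2, sum_const, nsmul_eq_mul, mul_one_div]
  exact log_drop (thr m C y) D

theorem sum_sig {m : ℕ} (hm : 0 < m) (C : Finset (Pt n)) :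
    (∑ c ∈ C, sig m C c) * (m : ℝ) ^ n = #(U m C) := by
  have hm' : (0 : ℝ) < (m : ℝ) ^ n := by positivity
  unfold sig
  rw [← sum_div, div_mul_cancel₀ _ hm'.ne',
    sum_sum_Q m C (U m C) (fun c hc y hy => mem_U.2 ⟨c, hc, hy⟩) (fun _ y => 1 / (#(thr m C y) : ℝ))]
  rw [card_eq_sum_ones (U m C), Nat.cast_sum]
  refine sum_congr rfl fun y hy => ?_
  obtain ⟨c, hc, hyc⟩ := mem_U.1 hy
  have h1 : 0 < #(thr m C y) := card_pos.2 ⟨c, mem_thr.2 ⟨hc, hyc⟩⟩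
  have h2 : (0 : ℝ) < #(thr m C y) := by exact_mod_cast h1
  rw [sum_const, nsmul_eq_mul, mul_one_div, div_self h2.ne', Nat.cast_one]

theorem sigG_le_sig (m : ℕ) (C G : Finset (Pt n)) (c : Pt n) : sigG m C G c ≤ sig m C c := by
  unfold sigG sig
  refine div_le_div_of_nonneg_right ?_ (by positivity)
  exact sum_le_sum_of_subset_of_nonneg inter_subset_right fun _ _ _ => by positivity

/-- All the options through `y` overlap any one of them. -/
theorem Vf_le {m : ℕ} {C : Finset (Pt n)} {L : ℝ} (hL0 : 0 ≤ L)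
    (hL : ∀ K ∈ C, ∑ c ∈ ov m C m K, sig m C c ≤ L) (y : Pt n) : Vf m C y ≤ L := by
  unfold Vf
  rcases (thr m C y).eq_empty_or_nonempty with h | ⟨K, hK⟩
  · rw [h, sum_empty]; exact hL0
  · obtain ⟨hK1, hK2⟩ := mem_thr.1 hK
    refine le_trans (sum_le_sum_of_subset_of_nonneg (fun c hc => ?_)
      fun c _ _ => sig_nonneg m C c) (hL K hK1)
    obtain ⟨hc1, hc2⟩ := mem_thr.1 hc
    exact mem_ov.2 ⟨hc1, y, hc2, hK2⟩

/-- `∑_{c ∈ W} σ(c) m^n = ∑_{y ∈ U W} ∑_{c ∈ W, c ∋ y} σ(c) ≤ L #(U W)`. -/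
theorem mass_union {m : ℕ} {C W : Finset (Pt n)} (hW : W ⊆ C) {L : ℝ}
    (hL : ∀ y, Vf m C y ≤ L) : (∑ c ∈ W, sig m C c) * (m : ℝ) ^ n ≤ L * #(U m W) := by
  have e1 : (∑ c ∈ W, sig m C c) * (m : ℝ) ^ n = ∑ c ∈ W, ∑ _y ∈ Q m c, sig m C c := by
    rw [sum_mul]
    refine sum_congr rfl fun c _ => ?_
    rw [sum_const, card_Q, nsmul_eq_mul, Nat.cast_pow, mul_comm]
  rw [e1, sum_sum_Q m W (U m W) (fun c hc y hy => mem_U.2 ⟨c, hc, hy⟩) (fun c _ => sig m C c)]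
  calc ∑ y ∈ U m W, ∑ c ∈ thr m W y, sig m C c ≤ ∑ _y ∈ U m W, L := by
        refine sum_le_sum fun y _ => le_trans ?_ (hL y)
        exact sum_le_sum_of_subset_of_nonneg (filter_subset_filter _ hW)
          fun c _ _ => sig_nonneg m C c
    _ = L * #(U m W) := by rw [sum_const, nsmul_eq_mul, mul_comm]

/-- Each point of `G` gives total mass at most one to the options of `W`. -/
theorem sigG_union {m : ℕ} (hm : 0 < m) {C W : Finset (Pt n)} (hW : W ⊆ C) (G : Finset (Pt n)) :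
    (∑ c ∈ W, sigG m C G c) * (m : ℝ) ^ n ≤ #(G ∩ U m W) := by
  have hm' : (0 : ℝ) < (m : ℝ) ^ n := by positivity
  unfold sigG
  rw [← sum_div, div_mul_cancel₀ _ hm'.ne',
    sum_sum_Q_inter m W G (fun _ y => 1 / (#(thr m C y) : ℝ))]
  have e : (#(G ∩ U m W) : ℝ) = ∑ y ∈ G, if y ∈ U m W then (1 : ℝ) else 0 := by
    rw [sum_ite_mem, sum_const, nsmul_eq_mul, mul_one]
  rw [e]
  refine sum_le_sum fun y _ => ?_
  rw [sum_const, nsmul_eq_mul, mul_one_div]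
  split_ifs with hy
  · have h1 : #(thr m W y) ≤ #(thr m C y) := card_le_card (filter_subset_filter _ hW)
    have h2 : (#(thr m W y) : ℝ) ≤ #(thr m C y) := by exact_mod_cast h1
    exact div_le_one_of_le₀ h2 (Nat.cast_nonneg _)
  · have h1 : thr m W y = ∅ := by
      refine eq_empty_of_forall_notMem fun c hc => hy ?_
      exact mem_U.2 ⟨c, (mem_thr.1 hc).1, (mem_thr.1 hc).2⟩
    simp [h1]

/-- Thin options carry half of the mass of the unpopular points.  The total mass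
`∑_{c ∈ C} sigG * m^n` is `#G`, and `τ #G ≥ ∑_{y ∈ G} Vf y = ∑_c σ(c) #(G ∩ Q c) ≥
2 τ m^n ∑_{c fat} sigG c`. -/
theorem thin_mass {m : ℕ} (hm : 0 < m) (C G : Finset (Pt n)) {τ : ℝ} (hτ : 0 < τ)
    (hG : G ⊆ U m C) (hV : ∀ y ∈ G, Vf m C y ≤ τ) :
    (#G : ℝ) ≤ 2 * ((∑ c ∈ C.filter (fun c => (#(G ∩ Q m c) : ℝ) < 2 * τ * (m : ℝ) ^ n),
      sigG m C G c) * (m : ℝ) ^ n) := by
  have hm' : (0 : ℝ) < (m : ℝ) ^ n := by positivity
  have htot : (∑ c ∈ C, sigG m C G c) * (m : ℝ) ^ n = #G := by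
    unfold sigG
    rw [← sum_div, div_mul_cancel₀ _ hm'.ne',
      sum_sum_Q_inter m C G (fun _ y => 1 / (#(thr m C y) : ℝ)),
      card_eq_sum_ones G, Nat.cast_sum]
    refine sum_congr rfl fun y hy => ?_
    obtain ⟨c, hc, hyc⟩ := mem_U.1 (hG hy)
    have h1 : 0 < #(thr m C y) := card_pos.2 ⟨c, mem_thr.2 ⟨hc, hyc⟩⟩
    have h2 : (0 : ℝ) < #(thr m C y) := by exact_mod_cast h1
    rw [sum_const, nsmul_eq_mul, mul_one_div, div_self h2.ne', Nat.cast_one]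
  have hV' : ∑ c ∈ C, sig m C c * #(G ∩ Q m c) ≤ τ * #G := by
    have e1 : ∑ c ∈ C, sig m C c * #(G ∩ Q m c) = ∑ c ∈ C, ∑ _y ∈ G ∩ Q m c, sig m C c := by
      refine sum_congr rfl fun c _ => ?_
      rw [sum_const, nsmul_eq_mul, mul_comm]
    rw [e1, sum_sum_Q_inter m C G (fun c _ => sig m C c)]
    calc ∑ y ∈ G, ∑ c ∈ thr m C y, sig m C c ≤ ∑ _y ∈ G, τ := sum_le_sum fun y hy => hV y hy
      _ = τ * #G := by rw [sum_const, nsmul_eq_mul, mul_comm]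
  have hsplit := sum_filter_add_sum_filter_not C
    (fun c => (#(G ∩ Q m c) : ℝ) < 2 * τ * (m : ℝ) ^ n) (fun c => sigG m C G c)
  have hfat : (∑ c ∈ C.filter (fun c => ¬ (#(G ∩ Q m c) : ℝ) < 2 * τ * (m : ℝ) ^ n),
      sigG m C G c) * (2 * τ * (m : ℝ) ^ n) ≤ ∑ c ∈ C, sig m C c * #(G ∩ Q m c) := by
    rw [sum_mul]
    refine le_trans (sum_le_sum fun c hc => ?_)
      (sum_le_sum_of_subset_of_nonneg (filter_subset
        (fun c => ¬ (#(G ∩ Q m c) : ℝ) < 2 * τ * (m : ℝ) ^ n) C)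
        fun c _ _ => mul_nonneg (sig_nonneg m C c) (Nat.cast_nonneg _))
    exact mul_le_mul (sigG_le_sig m C G c) (not_lt.1 (mem_filter.1 hc).2) (by positivity)
      (sig_nonneg m C c)
  set A := ∑ c ∈ C.filter (fun c => (#(G ∩ Q m c) : ℝ) < 2 * τ * (m : ℝ) ^ n), sigG m C G c
  set B := ∑ c ∈ C.filter (fun c => ¬ (#(G ∩ Q m c) : ℝ) < 2 * τ * (m : ℝ) ^ n), sigG m C G c
  have h1 : τ * (2 * (B * (m : ℝ) ^ n)) ≤ τ * #G := by nlinarith
  have h2 : 2 * (B * (m : ℝ) ^ n) ≤ #G := le_of_mul_le_mul_left h1 hτ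
  rw [← hsplit, add_mul] at htot
  linarith

end Pool.Agent.MP_9210c2_an.H87

/-!
The looseness of a cluster.
-/

namespace Pool.Agent.MP_9210c2_an.H87

open Finset
open scoped Classical

variable {n : ℕ}

theorem Wk_sdiff (e : Bool) (h lam : ℕ) (C D : Finset (Pt n)) (k : Pt n) (t : Pat n) :
    Wk e h lam (C \ D) k t = Wk e h lam C k t \ D := by
  ext c
  simp only [mem_Wk, mem_Nb, mem_sdiff]
  tauto

theorem Wk_subset (e : Bool) (h lam : ℕ) (C : Finset (Pt n)) (k : Pt n) (t : Pat n) :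
    Wk e h lam C k t ⊆ C := by
  intro c hc
  exact (mem_Nb.1 (mem_Wk.1 hc).1).1

lemma Pot2_mem_S {e : Bool} {h lam B : ℕ} {C : Finset (Pt n)} {k : Pt n} {t : Pat n} :
    t ∈ (clu e h lam B C k).S ↔
      ((∀ l, t l ≤ h) ∧ sz t ≤ B) ∧ (Wk e h lam C k t).Nonempty := by
  have h1 : (Wk e h lam C k t).Nonempty ↔ ∃ c ∈ Nb h lam C k, Reach e k t c := by
    constructor
    · rintro ⟨c, hc⟩
      exact ⟨c, mem_Wk.1 hc⟩
    · rintro ⟨c, hc⟩
      exact ⟨c, mem_Wk.2 hc⟩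
  rw [h1]
  show t ∈ (reachPat e h k (Nb h lam C k)).filter (fun t => sz t ≤ B) ↔ _
  rw [mem_filter, mem_reachPat]
  tauto

lemma Pot2_W (e : Bool) (h lam B : ℕ) (C : Finset (Pt n)) (k : Pt n) :
    (clu e h lam B C k).W = Wk e h lam C k := rfl

lemma Pot2_k (e : Bool) (h lam B : ℕ) (C : Finset (Pt n)) (k : Pt n) :
    (clu e h lam B C k).k = k := rfl

lemma Pot2_sz_update (t : Pat n) (l : Fin n) : sz (Function.update t l 0) ≤ sz t := by
  unfold sz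
  refine card_le_card fun j hj => ?_
  simp only [mem_filter, mem_univ, true_and] at hj ⊢
  by_cases hjl : j = l
  · subst hjl
    simp at hj
  · rwa [Function.update_of_ne hjl] at hj

lemma Pot2_reach_update {e : Bool} {k c : Pt n} {t : Pat n} (l : Fin n) (hc : Reach e k t c) :
    Reach e k (Function.update t l 0) c := by
  intro j hj
  by_cases hjl : j = l
  · subst hjl
    simp at hj
  · rw [Function.update_of_ne hjl] at hj ⊢
    exact hc j hj

theorem clu_valid (e : Bool) (h lam B : ℕ) (C : Finset (Pt n)) (k : Pt n)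
    (hne : (clu e h lam B C k).S.Nonempty) : (clu e h lam B C k).Valid e h lam B := by
  refine ⟨?_, ?_, ?_, hne, ?_, ?_, ?_, ?_⟩
  · intro t ht l
    obtain ⟨⟨h1, h2⟩, c, hc⟩ := Pot2_mem_S.1 ht
    refine Pot2_mem_S.2 ⟨⟨fun j => ?_, (Pot2_sz_update t l).trans h2⟩, c, ?_⟩
    · by_cases hjl : j = l
      · subst hjl
        simp
      · rw [Function.update_of_ne hjl]
        exact h1 j
    · exact mem_Wk.2 ⟨(mem_Wk.1 hc).1, Pot2_reach_update l (mem_Wk.1 hc).2⟩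
  · intro t ht
    exact (Pot2_mem_S.1 ht).1.1
  · intro t ht
    exact (Pot2_mem_S.1 ht).1.2
  · intro t ht
    exact (Pot2_mem_S.1 ht).2
  · intro t _ c hc
    exact (mem_Nb.1 (mem_Wk.1 hc).1).2.1
  · intro t _ c hc
    exact (mem_Nb.1 (mem_Wk.1 hc).1).2.2
  · intro t _ c hc
    exact (mem_Wk.1 hc).2

lemma Pot2_log_nonneg (a : ℕ) : 0 ≤ Real.log (1 + (a : ℝ)) :=
  Real.log_nonneg (le_add_of_nonneg_right (Nat.cast_nonneg a))

lemma Pot2_log_mono {a b : ℕ} (hab : a ≤ b) :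
    Real.log (1 + (a : ℝ)) ≤ Real.log (1 + (b : ℝ)) := by
  have : (a : ℝ) ≤ b := by exact_mod_cast hab
  exact Real.log_le_log (by positivity) (by linarith)

theorem Zt_nonneg (e : Bool) (h lam B : ℕ) (C : Finset (Pt n)) (k : Pt n) :
    0 ≤ Zt e h lam B C k := by
  unfold Zt
  exact sum_nonneg fun t _ => mul_nonneg (by positivity) (Pot2_log_nonneg _)

theorem Zt_mono (e : Bool) (h lam B : ℕ) {C C' : Finset (Pt n)} (hC : C ⊆ C') (k : Pt n) :
    Zt e h lam B C k ≤ Zt e h lam B C' k := by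
  unfold Zt
  refine sum_le_sum fun t _ => mul_le_mul_of_nonneg_left (Pot2_log_mono ?_) (by positivity)
  refine card_le_card fun c hc => ?_
  obtain ⟨h1, h2⟩ := mem_Wk.1 hc
  obtain ⟨h3, h4⟩ := mem_Nb.1 h1
  exact mem_Wk.2 ⟨mem_Nb.2 ⟨hC h3, h4⟩, h2⟩

lemma Pot2_S_sub (e : Bool) (h lam B : ℕ) (C : Finset (Pt n)) (k : Pt n) :
    (clu e h lam B C k).S ⊆ (allPat n h).filter (fun t => sz t ≤ B) := by
  intro t ht
  obtain ⟨⟨h1, h2⟩, _⟩ := Pot2_mem_S.1 ht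
  exact mem_filter.2 ⟨mem_allPat.2 h1, h2⟩

/-- A sum over all small patterns of a function vanishing when `Wk` is empty. -/
lemma Pot2_sum_S (e : Bool) (h lam B : ℕ) (C : Finset (Pt n)) (k : Pt n) (f : Pat n → ℝ)
    (hf : ∀ t, Wk e h lam C k t = ∅ → f t = 0) :
    ∑ t ∈ (allPat n h).filter (fun t => sz t ≤ B), f t = ∑ t ∈ (clu e h lam B C k).S, f t := by
  symm
  refine sum_subset (Pot2_S_sub e h lam B C k) fun t ht hn => hf t ?_
  by_contra hne
  obtain ⟨h1, h2⟩ := mem_filter.1 ht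
  exact hn (Pot2_mem_S.2 ⟨⟨mem_allPat.1 h1, h2⟩, nonempty_iff_ne_empty.2 hne⟩)

lemma Pot2_Zt_eq (e : Bool) (h lam B : ℕ) (C : Finset (Pt n)) (k : Pt n) :
    Zt e h lam B C k = ∑ t ∈ (clu e h lam B C k).S,
      (1 / ((8 * h : ℕ) : ℝ)) ^ sz t * Real.log (1 + (#(Wk e h lam C k t) : ℝ)) := by
  unfold Zt
  refine Pot2_sum_S e h lam B C k _ fun t ht => ?_
  rw [ht]
  simp

/-- Only the patterns of `(clu ..).S` contribute to `Zt`. -/
theorem Zt_le (e : Bool) (h lam B : ℕ) (C : Finset (Pt n)) (k : Pt n) {ρ : ℝ}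
    (hρ : Real.log (1 + (#C : ℝ)) ≤ ρ) :
    Zt e h lam B C k ≤ ρ * (clu e h lam B C k).Z (8 * h) := by
  rw [Pot2_Zt_eq]
  unfold Cl.Z
  rw [mul_sum]
  refine sum_le_sum fun t _ => ?_
  rw [mul_comm ρ]
  refine mul_le_mul_of_nonneg_left ?_ (by positivity)
  exact (Pot2_log_mono (card_le_card (Wk_subset e h lam C k t))).trans hρ

/-- `log 2 ≥ 1/2`. -/
theorem Z_le_Zt (e : Bool) (h lam B : ℕ) (C : Finset (Pt n)) (k : Pt n) :
    (clu e h lam B C k).Z (8 * h) ≤ 2 * Zt e h lam B C k := by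
  rw [Pot2_Zt_eq]
  unfold Cl.Z
  rw [mul_sum]
  refine sum_le_sum fun t ht => ?_
  have h1 : 1 ≤ #(Wk e h lam C k t) := (Pot2_mem_S.1 ht).2.card_pos
  have h2 := Pot2_log_mono h1
  have h3 : (1 : ℝ) + ((1 : ℕ) : ℝ) = 2 := by norm_num
  rw [h3] at h2
  have h4 := Real.log_two_gt_d9
  have h5 : (0 : ℝ) ≤ (1 / ((8 * h : ℕ) : ℝ)) ^ sz t := by positivity
  nlinarith

/-- `all_level`: `Z ≤ (1 + h/(8h))^n ≤ 2^n`. -/
theorem Z_le_pow (e : Bool) (h lam B : ℕ) (C : Finset (Pt n)) (k : Pt n) :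
    (clu e h lam B C k).Z (8 * h) ≤ 2 ^ n := by
  unfold Cl.Z
  have h1 : (clu e h lam B C k).S ⊆ allPat n h :=
    (Pot2_S_sub e h lam B C k).trans (filter_subset _ _)
  refine (sum_le_sum_of_subset_of_nonneg h1 fun t _ _ => by positivity).trans ?_
  rw [all_level]
  refine pow_le_pow_left₀ (by positivity) ?_ n
  have h2 : (h : ℝ) * (1 / ((8 * h : ℕ) : ℝ)) ≤ 1 := by
    rw [mul_one_div]
    refine div_le_one_of_le₀ ?_ (by positivity)
    have : h ≤ 8 * h := by omega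
    exact_mod_cast this
  linarith

theorem nu_nonneg (cl : Cl n) (m : ℕ) (D : Finset (Pt n)) : 0 ≤ cl.nu m D := by
  unfold Cl.nu
  refine cl.E_nonneg m fun _ _ _ _ => ?_
  split_ifs <;> norm_num

lemma Pot2_nu_eq (cl : Cl n) (m : ℕ) (D : Finset (Pt n)) :
    cl.nu m D = ∑ t ∈ cl.S, cl.mu m t * ((#(cl.W t ∩ D) : ℝ) / #(cl.W t)) := by
  unfold Cl.nu Cl.E
  refine sum_congr rfl fun t _ => ?_
  congr 2
  rw [sum_boole, filter_mem_eq_inter]

lemma Pot2_sum_mu_le (cl : Cl n) (m : ℕ) : ∑ t ∈ cl.S, cl.mu m t ≤ 1 := by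
  unfold Cl.mu
  rw [← sum_div]
  exact div_self_le_one _

/-- (Also true when `Z = 0`, `x / 0 = 0`.) -/
theorem nu_le_one (cl : Cl n) (m : ℕ) (D : Finset (Pt n)) : cl.nu m D ≤ 1 := by
  rw [Pot2_nu_eq]
  refine le_trans (sum_le_sum fun t _ => ?_) (Pot2_sum_mu_le cl m)
  refine mul_le_of_le_one_right (cl.mu_nonneg m t) ?_
  refine div_le_one_of_le₀ ?_ (Nat.cast_nonneg _)
  exact_mod_cast card_le_card inter_subset_left

lemma Pot2_Z_mu_le (cl : Cl n) (m : ℕ) (t : Pat n) :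
    cl.Z m * cl.mu m t ≤ (1 / (m : ℝ)) ^ sz t := by
  unfold Cl.mu
  by_cases hZ : cl.Z m = 0
  · rw [hZ, zero_mul]
    positivity
  · rw [mul_div_cancel₀ _ hZ]

/-- `log_drop` for every pattern: `Z * nu D = ∑_{t ∈ S} m^{-sz t} #(W t ∩ D) / #(W t)` when
`Z ≠ 0`. -/
theorem Zt_drop (e : Bool) (h lam B : ℕ) (C D : Finset (Pt n)) (k : Pt n) :
    (clu e h lam B C k).Z (8 * h) * (clu e h lam B C k).nu (8 * h) D ≤
      2 * (Zt e h lam B C k - Zt e h lam B (C \ D) k) := by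
  have h1 : Zt e h lam B (C \ D) k = ∑ t ∈ (clu e h lam B C k).S,
      (1 / ((8 * h : ℕ) : ℝ)) ^ sz t * Real.log (1 + (#(Wk e h lam C k t \ D) : ℝ)) := by
    unfold Zt
    simp only [Wk_sdiff]
    refine Pot2_sum_S e h lam B C k _ fun t ht => ?_
    rw [ht]
    simp
  rw [h1, Pot2_Zt_eq, Pot2_nu_eq, ← sum_sub_distrib, mul_sum, mul_sum]
  refine sum_le_sum fun t _ => ?_
  rw [Pot2_W, ← mul_assoc]
  have h2 := log_drop (Wk e h lam C k t) D
  have h3 := Pot2_Z_mu_le (clu e h lam B C k) (8 * h) t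
  have h4 : (0 : ℝ) ≤ (#(Wk e h lam C k t ∩ D) : ℝ) / #(Wk e h lam C k t) := by positivity
  have h5 : (0 : ℝ) ≤ (1 / ((8 * h : ℕ) : ℝ)) ^ sz t := by positivity
  refine (mul_le_mul_of_nonneg_right h3 h4).trans ?_
  refine (mul_le_mul_of_nonneg_left h2 h5).trans (le_of_eq ?_)
  ring

/-- With `a = Zt C`, `a' = Zt (C \ D)`: `(a - Z0)₊ - (a' - Z0)₊ ≥ min ((a - Z0)₊, a - a')`, and
`(a - Z0)₊ ν ≤ (a - Z0)₊ ≤ 2ρ (a - Z0)₊`, `(a - Z0)₊ ν ≤ a ν ≤ ρ Z ν ≤ 2 ρ (a - a')`. -/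
theorem pos_drop (e : Bool) (h lam B : ℕ) (C D : Finset (Pt n)) (k : Pt n) {ρ Z0 : ℝ}
    (hρ : Real.log (1 + (#C : ℝ)) ≤ ρ) (hρ1 : 1 ≤ ρ) (hZ0 : 0 ≤ Z0) :
    max (Zt e h lam B C k - Z0) 0 * (clu e h lam B C k).nu (8 * h) D ≤
      2 * ρ * (max (Zt e h lam B C k - Z0) 0 - max (Zt e h lam B (C \ D) k - Z0) 0) := by
  have h1 := Zt_le e h lam B C k hρ
  have h2 := Zt_drop e h lam B C D k
  have h3 := Zt_mono e h lam B (sdiff_subset : C \ D ⊆ C) k
  have h4 := nu_nonneg (clu e h lam B C k) (8 * h) D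
  have h5 := nu_le_one (clu e h lam B C k) (8 * h) D
  generalize Zt e h lam B C k = a at *
  generalize Zt e h lam B (C \ D) k = a' at *
  generalize (clu e h lam B C k).nu (8 * h) D = ν at *
  generalize (clu e h lam B C k).Z (8 * h) = Z at *
  rcases le_total (a' - Z0) 0 with h6 | h6
  · rw [max_eq_right h6, sub_zero]
    have h7 : 0 ≤ max (a - Z0) 0 := le_max_right _ _
    exact (mul_le_of_le_one_right h7 h5).trans (le_mul_of_one_le_left h7 (by linarith))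
  · have h7 : 0 ≤ a - Z0 := by linarith
    rw [max_eq_left h6, max_eq_left h7]
    have h8 : (a - Z0) * ν ≤ ρ * Z * ν := mul_le_mul_of_nonneg_right (by linarith) h4
    have h9 : ρ * (Z * ν) ≤ ρ * (2 * (a - a')) := mul_le_mul_of_nonneg_left h2 (by linarith)
    calc (a - Z0) * ν ≤ ρ * Z * ν := h8
      _ = ρ * (Z * ν) := by ring
      _ ≤ ρ * (2 * (a - a')) := h9
      _ = 2 * ρ * (a - Z0 - (a' - Z0)) := by ring

end Pool.Agent.MP_9210c2_an.H87

/-!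
The second potential and the total potential.
-/

namespace Pool.Agent.MP_9210c2_an.H87

open Finset
open scoped Classical

variable {n : ℕ}

theorem Yy_nonneg (e : Bool) (h lam B : ℕ) (Z0 : ℝ) (O C : Finset (Pt n)) (y : Pt n) :
    0 ≤ Yy e h lam B Z0 O C y := by
  exact sum_nonneg fun _ _ => le_max_right _ _

theorem Psi2_nonneg (e : Bool) (h lam B : ℕ) (Z0 : ℝ) (O Ω C : Finset (Pt n)) :
    0 ≤ Psi2 e h lam B Z0 O Ω C := by
  refine div_nonneg (sum_nonneg fun y _ => Real.log_nonneg ?_) (by positivity)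
  linarith [Yy_nonneg e h lam B Z0 O C y]

theorem Pot3_Yy_mono (e : Bool) (h lam B : ℕ) (Z0 : ℝ) (O : Finset (Pt n))
    {C C' : Finset (Pt n)} (hC : C ⊆ C') (y : Pt n) :
    Yy e h lam B Z0 O C y ≤ Yy e h lam B Z0 O C' y :=
  sum_le_sum fun k _ => max_le_max (by linarith [Zt_mono e h lam B hC k]) le_rfl

theorem Pot3_log_drop {Y Y' : ℝ} (hY : 0 ≤ Y) (hY' : 0 ≤ Y') :
    (Y - Y') / (1 + Y) ≤ Real.log (1 + Y) - Real.log (1 + Y') := by
  have h1 : 0 < 1 + Y := by linarith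
  have h2 : 0 < 1 + Y' := by linarith
  have h3 := Real.log_le_sub_one_of_pos (div_pos h2 h1)
  rw [Real.log_div h2.ne' h1.ne'] at h3
  have h4 : (1 + Y') / (1 + Y) - 1 = -((Y - Y') / (1 + Y)) := by
    field_simp
    ring
  linarith

theorem Psi2_mono (e : Bool) (h lam B : ℕ) (Z0 : ℝ) (O Ω : Finset (Pt n))
    {C C' : Finset (Pt n)} (hC : C ⊆ C') :
    Psi2 e h lam B Z0 O Ω C ≤ Psi2 e h lam B Z0 O Ω C' := by
  refine div_le_div_of_nonneg_right (sum_le_sum fun y _ => Real.log_le_log ?_ ?_) (by positivity)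
  · linarith [Yy_nonneg e h lam B Z0 O C y]
  · linarith [Pot3_Yy_mono e h lam B Z0 O hC y]

/-- `Yy ≤ (8h)^n ρ 2^n` by `card_thr_le`, `Zt_le`, `Z_le_pow`. -/
theorem Psi2_le (e : Bool) (h lam B : ℕ) {Z0 : ℝ} (hZ0 : 0 ≤ Z0) (O Ω C : Finset (Pt n))
    {ρ ρ' : ℝ} (hρ : Real.log (1 + (#C : ℝ)) ≤ ρ)
    (hρ' : Real.log (1 + ((16 * h : ℕ) : ℝ) ^ n * ρ) ≤ ρ') :
    Psi2 e h lam B Z0 O Ω C ≤ ρ' * #Ω / ((8 * h : ℕ) : ℝ) ^ n := by
  have hρ0 : 0 ≤ ρ := le_trans (Real.log_nonneg (by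
    have : (0 : ℝ) ≤ #C := Nat.cast_nonneg _
    linarith)) hρ
  have hY : ∀ y, Yy e h lam B Z0 O C y ≤ ((16 * h : ℕ) : ℝ) ^ n * ρ := by
    intro y
    have h1 : Yy e h lam B Z0 O C y ≤ #(thr (8 * h) O y) • (ρ * 2 ^ n) := by
      refine sum_le_card_nsmul _ _ _ fun k _ => max_le ?_ (by positivity)
      have h2 := Zt_le e h lam B C k hρ
      have h3 := mul_le_mul_of_nonneg_left (Z_le_pow e h lam B C k) hρ0
      linarith
    rw [nsmul_eq_mul] at h1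
    have h4 : (#(thr (8 * h) O y) : ℝ) ≤ ((8 * h : ℕ) : ℝ) ^ n := by
      exact_mod_cast card_thr_le (8 * h) O y
    have h5 : ((16 * h : ℕ) : ℝ) ^ n * ρ = ((8 * h : ℕ) : ℝ) ^ n * (ρ * 2 ^ n) := by
      have : ((16 * h : ℕ) : ℝ) = ((8 * h : ℕ) : ℝ) * 2 := by push_cast; ring
      rw [this, mul_pow]; ring
    rw [h5]
    exact h1.trans (mul_le_mul_of_nonneg_right h4 (by positivity))
  refine div_le_div_of_nonneg_right ?_ (by positivity)
  have h6 : ∑ y ∈ Ω, Real.log (1 + Yy e h lam B Z0 O C y) ≤ #Ω • ρ' := by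
    refine sum_le_card_nsmul _ _ _ fun y _ => le_trans (Real.log_le_log ?_ ?_) hρ'
    · linarith [Yy_nonneg e h lam B Z0 O C y]
    · linarith [hY y]
  rw [nsmul_eq_mul, mul_comm] at h6
  exact h6

theorem om_nonneg (e : Bool) (h lam B : ℕ) (Z0 : ℝ) (O C : Finset (Pt n)) (k : Pt n) :
    0 ≤ om e h lam B Z0 O C k := by
  refine div_nonneg (mul_nonneg (le_max_right _ _) (sum_nonneg fun y _ => ?_)) (by positivity)
  have := Yy_nonneg e h lam B Z0 O C y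
  positivity

theorem om_pos (e : Bool) (h lam B : ℕ) (Z0 : ℝ) (O C : Finset (Pt n)) (k : Pt n)
    (hk : 0 < om e h lam B Z0 O C k) : Z0 < Zt e h lam B C k := by
  by_contra hc
  have h0 : max (Zt e h lam B C k - Z0) 0 = 0 := max_eq_right (by linarith [not_lt.mp hc])
  unfold om at hk
  rw [h0, zero_mul, zero_div] at hk
  exact lt_irrefl _ hk

/-- `log (1+Y) - log (1+Y') ≥ (Y - Y')/(1+Y)`, `pos_drop` and `sum_sum_Q`. -/
theorem Psi2_drop (e : Bool) (h lam B : ℕ) {Z0 ρ : ℝ} (O Ω C D : Finset (Pt n))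
    (hΩ : ∀ k ∈ O, Q (8 * h) k ⊆ Ω) (hρ : Real.log (1 + (#C : ℝ)) ≤ ρ) (hρ1 : 1 ≤ ρ)
    (hZ0 : 0 ≤ Z0) :
    ∑ k ∈ O, om e h lam B Z0 O C k * (clu e h lam B C k).nu (8 * h) D ≤
      2 * ρ * (Psi2 e h lam B Z0 O Ω C - Psi2 e h lam B Z0 O Ω (C \ D)) := by
  have hρ0 : 0 ≤ 2 * ρ := by linarith
  have h1 : ∑ k ∈ O, om e h lam B Z0 O C k * (clu e h lam B C k).nu (8 * h) D =
      (∑ k ∈ O, ∑ y ∈ Q (8 * h) k, max (Zt e h lam B C k - Z0) 0 *
        (clu e h lam B C k).nu (8 * h) D / (1 + Yy e h lam B Z0 O C y)) /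
          ((8 * h : ℕ) : ℝ) ^ n := by
    rw [sum_div]
    refine sum_congr rfl fun k _ => ?_
    unfold om
    rw [div_mul_eq_mul_div, mul_right_comm, mul_sum]
    congr 1
    exact sum_congr rfl fun y _ => mul_one_div _ _
  rw [h1, sum_sum_Q (8 * h) O Ω hΩ]
  unfold Psi2
  rw [← sub_div, ← mul_div_assoc, ← sum_sub_distrib, mul_sum]
  refine div_le_div_of_nonneg_right (sum_le_sum fun y _ => ?_) (by positivity)
  have hY := Yy_nonneg e h lam B Z0 O C y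
  have hY' := Yy_nonneg e h lam B Z0 O (C \ D) y
  refine le_trans ?_ (mul_le_mul_of_nonneg_left (Pot3_log_drop hY hY') hρ0)
  rw [← sum_div, ← mul_div_assoc]
  refine div_le_div_of_nonneg_right ?_ (by linarith)
  unfold Yy
  rw [← sum_sub_distrib, mul_sum]
  exact sum_le_sum fun k _ => pos_drop e h lam B C D k hρ hρ1 hZ0

/-- `(∑ om) m^n ≥ ∑_{y ∈ A} Y/(1+Y) ≥ #A / 2` with `A = U W`, where `Y ≥ 1`
(`sum_sum_Q_inter`). -/
theorem om_tot (e : Bool) {h : ℕ} (hh : 0 < h) (lam B : ℕ) (Z0 : ℝ) (O C W : Finset (Pt n))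
    (hW : W ⊆ O) (hl : ∀ k ∈ W, Z0 + 1 ≤ Zt e h lam B C k) :
    (#(U (8 * h) W) : ℝ) ≤ 2 * ((∑ k ∈ O, om e h lam B Z0 O C k) * ((8 * h : ℕ) : ℝ) ^ n) := by
  have hM : (0 : ℝ) < ((8 * h : ℕ) : ℝ) ^ n := by
    have : 0 < 8 * h := by omega
    positivity
  have h1 : (∑ k ∈ O, om e h lam B Z0 O C k) * ((8 * h : ℕ) : ℝ) ^ n =
      ∑ k ∈ O, ∑ y ∈ Q (8 * h) k,
        max (Zt e h lam B C k - Z0) 0 / (1 + Yy e h lam B Z0 O C y) := by
    rw [sum_mul]
    refine sum_congr rfl fun k _ => ?_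
    unfold om
    rw [div_mul_cancel₀ _ hM.ne', mul_sum]
    exact sum_congr rfl fun y _ => mul_one_div _ _
  have h2 : ∑ k ∈ O, ∑ y ∈ U (8 * h) W ∩ Q (8 * h) k,
        max (Zt e h lam B C k - Z0) 0 / (1 + Yy e h lam B Z0 O C y) ≤
      ∑ k ∈ O, ∑ y ∈ Q (8 * h) k,
        max (Zt e h lam B C k - Z0) 0 / (1 + Yy e h lam B Z0 O C y) := by
    refine sum_le_sum fun k _ => sum_le_sum_of_subset_of_nonneg inter_subset_right fun y _ _ => ?_
    have := Yy_nonneg e h lam B Z0 O C y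
    exact div_nonneg (le_max_right _ _) (by linarith)
  rw [sum_sum_Q_inter] at h2
  have h3 : #(U (8 * h) W) • (1 / 2 : ℝ) ≤ ∑ y ∈ U (8 * h) W, ∑ k ∈ thr (8 * h) O y,
      max (Zt e h lam B C k - Z0) 0 / (1 + Yy e h lam B Z0 O C y) := by
    refine card_nsmul_le_sum _ _ _ fun y hy => ?_
    obtain ⟨k, hk, hyk⟩ := mem_U.mp hy
    have h4 : max (Zt e h lam B C k - Z0) 0 ≤ Yy e h lam B Z0 O C y :=
      single_le_sum (f := fun k => max (Zt e h lam B C k - Z0) 0) (fun _ _ => le_max_right _ _)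
        (mem_thr.mpr ⟨hW hk, hyk⟩)
    have h5 : 1 ≤ Yy e h lam B Z0 O C y :=
      le_trans (le_trans (by linarith [hl k hk]) (le_max_left _ _)) h4
    rw [← sum_div]
    change 1 / 2 ≤ Yy e h lam B Z0 O C y / (1 + Yy e h lam B Z0 O C y)
    rw [div_le_div_iff₀ (by norm_num) (by linarith)]
    linarith
  rw [nsmul_eq_mul] at h3
  rw [h1]
  linarith

theorem Psi_nonneg (h lam B : ℕ) (Z0 : ℝ) (O Ω C : Finset (Pt n)) :
    0 ≤ Psi h lam B Z0 O Ω C := by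
  unfold Psi
  linarith [Psi1_nonneg (8 * h) Ω C, Psi2_nonneg true h lam B Z0 O Ω C,
    Psi2_nonneg false h lam B Z0 O Ω C]

theorem Psi_mono (h lam B : ℕ) (Z0 : ℝ) (O Ω : Finset (Pt n)) {C C' : Finset (Pt n)}
    (hC : C ⊆ C') : Psi h lam B Z0 O Ω C ≤ Psi h lam B Z0 O Ω C' := by
  unfold Psi
  linarith [Psi1_mono (8 * h) Ω hC, Psi2_mono true h lam B Z0 O Ω hC,
    Psi2_mono false h lam B Z0 O Ω hC]

/-- The drop of the total potential bounds the drop of `Psi1` (the others are monotone). -/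
theorem Psi_drop1 (h lam B : ℕ) (Z0 : ℝ) (O Ω C : Finset (Pt n))
    (hΩ : ∀ c ∈ C, Q (8 * h) c ⊆ Ω) (m' : ℕ) (K : Pt n) {L : ℝ}
    (hL : Psi h lam B Z0 O Ω C - Psi h lam B Z0 O Ω (C \ ov (8 * h) C m' K) ≤ L) :
    ∑ c ∈ ov (8 * h) C m' K, sig (8 * h) C c ≤ 2 * L := by
  have h1 := Psi1_drop (8 * h) Ω C (ov (8 * h) C m' K) hΩ
  have h2 : C ∩ ov (8 * h) C m' K = ov (8 * h) C m' K :=
    inter_eq_right.mpr fun c hc => (mem_ov.mp hc).1
  rw [h2] at h1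
  have hs : C \ ov (8 * h) C m' K ⊆ C := sdiff_subset
  unfold Psi at hL
  linarith [Psi2_mono true h lam B Z0 O Ω hs, Psi2_mono false h lam B Z0 O Ω hs]

theorem Psi_drop2 (e : Bool) (h lam B : ℕ) {Z0 ρ : ℝ} (O Ω C D : Finset (Pt n))
    (hΩ : ∀ k ∈ O, Q (8 * h) k ⊆ Ω) (hρ : Real.log (1 + (#C : ℝ)) ≤ ρ) (hρ1 : 1 ≤ ρ)
    (hZ0 : 0 ≤ Z0) {L : ℝ} (hL : Psi h lam B Z0 O Ω C - Psi h lam B Z0 O Ω (C \ D) ≤ L) :
    ∑ k ∈ O, om e h lam B Z0 O C k * (clu e h lam B C k).nu (8 * h) D ≤ 2 * ρ * L := by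
  have h1 := Psi2_drop e h lam B O Ω C D hΩ hρ hρ1 hZ0
  have hs : C \ D ⊆ C := sdiff_subset
  refine h1.trans (mul_le_mul_of_nonneg_left ?_ (by linarith))
  unfold Psi at hL
  have h2 := Psi1_mono (8 * h) Ω hs
  have h3 := Psi2_mono true h lam B Z0 O Ω hs
  have h4 := Psi2_mono false h lam B Z0 O Ω hs
  cases e <;> linarith

end Pool.Agent.MP_9210c2_an.H87

/-!
Most of the weight sits on options with heavy neighbourhoods.
-/

namespace Pool.Agent.MP_9210c2_an.H87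

open Finset
open scoped Classical

variable {n : ℕ}

/-- The coarse position of `c'` relative to `c`. -/
noncomputable def Social_lab (h : ℕ) (c c' : Pt n) (l : Fin n) : Option ℤ :=
  if 2 * |c' l - c l| ≤ (h : ℤ) then none else some ((c' l - c l) / h)

lemma Social_close {h : ℕ} (hh : 0 < h) {c c' K : Pt n} (e : Social_lab h c c' = Social_lab h c K)
    (l : Fin n) : |c' l - K l| ≤ (h : ℤ) := by
  have e1 := congrFun e l
  have h0 : (0 : ℤ) < h := by exact_mod_cast hh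
  unfold Social_lab at e1
  split_ifs at e1 with a b b
  · have := abs_sub_le (c' l) (c l) (K l)
    rw [abs_sub_comm (c l)] at this
    omega
  · have e2 := Option.some.inj e1
    have a1 := Int.mul_ediv_add_emod (c' l - c l) h
    have a2 := Int.mul_ediv_add_emod (K l - c l) h
    have a3 := Int.emod_nonneg (c' l - c l) h0.ne'
    have a4 := Int.emod_nonneg (K l - c l) h0.ne'
    have a5 := Int.emod_lt_of_pos (c' l - c l) h0
    have a6 := Int.emod_lt_of_pos (K l - c l) h0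
    rw [e2] at a1
    rw [abs_le]
    constructor <;> linarith

lemma Social_count {h : ℕ} (hh : 0 < h) (lam0 : ℕ) (c : Pt n) (D : Finset (Pt n))
    (h1 : ∀ c' ∈ D, ∀ l, |c' l - c l| < ((8 * h : ℕ) : ℤ))
    (h2 : ∀ c' ∈ D, ∑ l, |c' l - c l| < (lam0 : ℤ) * ((8 * h : ℕ) : ℤ)) :
    #(D.image (Social_lab h c)) ≤ (1 + n * 16) ^ (16 * lam0) := by
  have h0 : (0 : ℤ) < h := by exact_mod_cast hh
  have := cnt_sparse (ι := Fin n) (fun _ => (Ico (-8 : ℤ) 8).image some) (fun _ => none) 16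
    (16 * lam0) (fun _ => card_image_le.trans (by simp)) (D.image (Social_lab h c)) ?_ ?_
  · simpa using this
  · intro f hf l
    obtain ⟨c', hc', rfl⟩ := mem_image.1 hf
    unfold Social_lab
    split_ifs with a
    · exact Or.inl rfl
    · refine Or.inr (mem_image_of_mem _ (mem_Ico.2 ⟨?_, ?_⟩))
      · have := (abs_lt.1 (h1 c' hc' l)).1
        push_cast at this
        exact Int.le_ediv_of_mul_le h0 (by linarith)
      · have := (abs_lt.1 (h1 c' hc' l)).2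
        push_cast at this
        exact Int.ediv_lt_of_lt_mul h0 (by linarith)
  · intro f hf
    obtain ⟨c', hc', rfl⟩ := mem_image.1 hf
    have a1 := h2 c' hc'
    have a2 : ∑ _l ∈ ({l | Social_lab h c c' l ≠ none} : Finset (Fin n)), (h : ℤ) ≤
        ∑ l, 2 * |c' l - c l| := by
      refine le_trans (sum_le_sum fun l hl => ?_)
        (sum_le_sum_of_subset_of_nonneg (subset_univ _) fun l _ _ => by positivity)
      have := (mem_filter.1 hl).2
      unfold Social_lab at this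
      split_ifs at this with a
      · exact absurd rfl this
      · omega
    rw [sum_const, nsmul_eq_mul, ← mul_sum] at a2
    push_cast at a1
    have a3 : (#({l | Social_lab h c c' l ≠ none} : Finset (Fin n)) : ℤ) * h ≤
        (16 * lam0 : ℕ) * h := by
      push_cast
      linarith
    exact_mod_cast le_of_mul_le_mul_right a3 h0

lemma Social_near {h : ℕ} (hh : 0 < h) (lam0 : ℕ) (C : Finset (Pt n)) (w : Pt n → ℝ)
    (hw : ∀ c ∈ C, 0 ≤ w c) {a : ℝ} (ha : 0 ≤ a)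
    (hs : ∀ K ∈ C, ∑ c ∈ Nb h (2 * lam0) C K, w c ≤ a) (c : Pt n) (D : Finset (Pt n))
    (hD : D ⊆ C) (h1 : ∀ c' ∈ D, ∀ l, |c' l - c l| < ((8 * h : ℕ) : ℤ))
    (h2 : ∀ c' ∈ D, ∑ l, |c' l - c l| < (lam0 : ℤ) * ((8 * h : ℕ) : ℤ)) :
    ∑ c' ∈ D, w c' ≤ (1 + 16 * (n : ℝ)) ^ (16 * lam0) * a := by
  rw [← sum_fiberwise_of_maps_to (g := Social_lab h c) (t := D.image (Social_lab h c))
    fun x hx => mem_image_of_mem _ hx]
  refine le_trans (sum_le_card_nsmul _ _ a fun t ht => ?_) ?_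
  · obtain ⟨K, hK, rfl⟩ := mem_image.1 ht
    refine le_trans (sum_le_sum_of_subset_of_nonneg (fun c' hc' => ?_)
      fun x hx _ => hw x (mem_Nb.1 hx).1) (hs K (hD hK))
    obtain ⟨b1, b2⟩ := mem_filter.1 hc'
    refine mem_Nb.2 ⟨hD b1, Social_close hh b2, ?_⟩
    have a1 := h2 c' b1
    have a2 := h2 K hK
    have a3 : ∑ l, |c' l - K l| ≤ ∑ l, (|c' l - c l| + |K l - c l|) :=
      sum_le_sum fun l _ => by
        have := abs_sub_le (c' l) (c l) (K l)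
        rwa [abs_sub_comm (c l)] at this
    rw [sum_add_distrib] at a3
    push_cast at a1 a2 ⊢
    linarith
  · rw [nsmul_eq_mul]
    refine mul_le_mul_of_nonneg_right ?_ ha
    have := Social_count hh lam0 c D h1 h2
    rw [mul_comm (16 : ℝ)]
    exact_mod_cast this

/-- Cauchy-Schwarz for the cubes, then pigeonhole on the coarse positions. -/
theorem social {h : ℕ} (hh : 0 < h) (lam0 : ℕ) (C Ω : Finset (Pt n))
    (hΩ : ∀ c ∈ C, Q (8 * h) c ⊆ Ω) (w : Pt n → ℝ) (hw : ∀ c ∈ C, 0 ≤ w c) {L a : ℝ}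
    (hL0 : 0 ≤ L) (ha : 0 ≤ a) (hL : ∀ K ∈ C, ∑ c ∈ ov (8 * h) C (8 * h) K, w c ≤ L)
    (hs : ∀ K ∈ C, ∑ c ∈ Nb h (2 * lam0) C K, w c ≤ a) :
    (∑ c ∈ C, w c) * ((8 * h : ℕ) : ℝ) ^ n ≤
      (L * Real.exp (-lam0) + (1 + 16 * (n : ℝ)) ^ (16 * lam0) * a) * #Ω := by
  have hm : 0 < 8 * h := by omega
  set M : ℝ := ((8 * h : ℕ) : ℝ) ^ n with hM
  set R : ℝ := L * Real.exp (-lam0) + (1 + 16 * (n : ℝ)) ^ (16 * lam0) * a with hR
  have hM0 : 0 < M := by positivity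
  have hR0 : 0 ≤ R := by positivity
  have key : ∀ c ∈ C, ∑ c' ∈ C, w c' * #(Q (8 * h) c ∩ Q (8 * h) c') ≤ R * M := by
    intro c hc
    let D := C.filter fun c' => Real.exp (-lam0) * M < #(Q (8 * h) c ∩ Q (8 * h) c')
    have b1 := Social_near hh lam0 C w hw ha hs c D (filter_subset _ _)
      (fun c' hc' => (inter_upper hm c c' (mem_filter.1 hc').2).1)
      fun c' hc' => (inter_upper hm c c' (mem_filter.1 hc').2).2
    have b2 : ∑ c' ∈ C, w c' * #(Q (8 * h) c ∩ Q (8 * h) c') ≤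
        (∑ c' ∈ ov (8 * h) C (8 * h) c, w c') * (Real.exp (-lam0) * M) + (∑ c' ∈ D, w c') * M := by
      simp only [ov, D, sum_filter, sum_mul, ← sum_add_distrib]
      refine sum_le_sum fun c' hc' => ?_
      have w0 := hw c' hc'
      have e0 : 0 ≤ w c' * (Real.exp (-lam0) * M) := by positivity
      have e1 : (#(Q (8 * h) c ∩ Q (8 * h) c') : ℝ) ≤ M := by
        have := card_le_card (inter_subset_left (s₁ := Q (8 * h) c) (s₂ := Q (8 * h) c'))
        rw [card_Q] at this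
        rw [hM]
        exact_mod_cast this
      have e2 := mul_le_mul_of_nonneg_left e1 w0
      by_cases d1 : Disjoint (Q (8 * h) c') (Q (8 * h) c)
      · rw [disjoint_iff_inter_eq_empty.1 d1.symm]
        simp only [card_empty, Nat.cast_zero, mul_zero]
        split_ifs <;> positivity
      · rw [if_pos d1]
        split_ifs with d2
        · linarith
        · have := mul_le_mul_of_nonneg_left (not_lt.1 d2) w0
          linarith
    have b3 := mul_le_mul_of_nonneg_right (hL c hc)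
      (show 0 ≤ Real.exp (-lam0) * M by positivity)
    have b4 := mul_le_mul_of_nonneg_right b1 hM0.le
    rw [hR]
    linarith
  have cs := cs_cubes (8 * h) C Ω hΩ w
  have s1 : ∑ c ∈ C, ∑ c' ∈ C, w c * w c' * #(Q (8 * h) c ∩ Q (8 * h) c') ≤
      (∑ c ∈ C, w c) * (R * M) := by
    rw [sum_mul]
    refine sum_le_sum fun c hc => ?_
    simp only [mul_assoc, ← mul_sum]
    exact mul_le_mul_of_nonneg_left (key c hc) (hw c hc)
  rcases (sum_nonneg hw).eq_or_lt with h0 | h0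
  · rw [← h0, zero_mul]
    positivity
  · have s2 := cs.trans (mul_le_mul_of_nonneg_left s1 (Nat.cast_nonneg _))
    refine le_of_mul_le_mul_right ?_ (mul_pos h0 hM0)
    rw [← hM] at s2
    linarith

end Pool.Agent.MP_9210c2_an.H87

/-!
Containers of different classes are almost disjoint.
-/

namespace Pool.Agent.MP_9210c2_an.H87

open Finset
open scoped Classical

variable {n : ℕ}

lemma Cross_card_le (a a' : ℤ) (m m' : ℕ) :
    (#(Ico a (a + m) ∩ Ico a' (a' + m')) : ℝ) ≤ m' := by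
  have h1 : #(Ico a (a + m) ∩ Ico a' (a' + m')) ≤ #(Ico a' (a' + m')) :=
    card_le_card inter_subset_right
  rw [Int.card_Ico] at h1
  have h2 : (a' + m' - a').toNat = m' := by omega
  rw [h2] at h1
  exact_mod_cast h1

lemma Cross_card_small {h h' : ℕ} (h2 : 5 * h ≤ 6 * h') (a a' : ℤ)
    (hm : ¬ (a' ≤ a + 4 * h ∧ a + 4 * h < a' + ((8 * h' : ℕ) : ℤ))) :
    (#(Ico a (a + ((8 * h : ℕ) : ℤ)) ∩ Ico a' (a' + ((8 * h' : ℕ) : ℤ))) : ℝ) ≤
      7 / 10 * ((8 * h' : ℕ) : ℝ) := by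
  have h1 : #(Ico a (a + ((8 * h : ℕ) : ℤ)) ∩ Ico a' (a' + ((8 * h' : ℕ) : ℤ))) ≤ 4 * h := by
    rw [Ico_inter_Ico, Int.card_Ico]
    push_cast at hm ⊢
    omega
  have h3 : (#(Ico a (a + ((8 * h : ℕ) : ℤ)) ∩ Ico a' (a' + ((8 * h' : ℕ) : ℤ))) : ℝ) ≤
      ((4 * h : ℕ) : ℝ) := by exact_mod_cast h1
  have h4 : (5 * h : ℝ) ≤ 6 * h' := by exact_mod_cast h2
  have h5 : (0 : ℝ) ≤ h' := Nat.cast_nonneg _
  push_cast at h3 ⊢
  linarith

lemma Cross_inter_le (m m' : ℕ) (c c' : Pt n) :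
    (#(Q m c ∩ Q m' c') : ℝ) ≤ (m' : ℝ) ^ n := by
  have h1 : #(Q m c ∩ Q m' c') ≤ #(Q m' c') := card_le_card inter_subset_right
  rw [card_Q] at h1
  exact_mod_cast h1

lemma Cross_thr {m : ℕ} (C : Finset (Pt n)) (σ : Pt n → ℝ) (hσ : ∀ c ∈ C, 0 ≤ σ c) {L : ℝ}
    (hL0 : 0 ≤ L) (hB : ∀ c' ∈ C, ∑ c ∈ ov m C m c', σ c ≤ L) (y : Pt n) :
    ∑ c ∈ thr m C y, σ c ≤ L := by
  rcases (thr m C y).eq_empty_or_nonempty with h | ⟨K, hK⟩
  · rw [h, sum_empty]; exact hL0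
  · rw [mem_thr] at hK
    refine le_trans (sum_le_sum_of_subset_of_nonneg ?_ ?_) (hB K hK.1)
    · intro c hc
      rw [mem_thr] at hc
      exact mem_ov.2 ⟨hc.1, y, hc.2, hK.2⟩
    · intro c hc _
      exact hσ c (mem_ov.1 hc).1

/-- A large trace of a slightly smaller cube contains a special point.  `p l` is the midpoint
`c l + 4h` except in fewer than `s` coordinates, where it may be `c l` or `c l + 8h - 1`.
If the trace `Ico (c l) .. ∩ Ico (c' l) ..` has more than `7/10 * 8h'` points (hence more than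
`4h`) it contains the midpoint; at least `s` smaller traces would give a product at most
`(7/10)^s (8h')^n` (`card_inter_Q`).  A nonempty trace: if `c' l ≤ c l` it contains `c l`, if
`c l + 8h ≤ c' l + 8h'` it contains `c l + 8h - 1`, otherwise (length `8h' > 4h`) the midpoint. -/
theorem special_pt {h h' : ℕ} (hh' : 0 < h') (h2 : 5 * h ≤ 6 * h') (c c' : Pt n) {δ : ℝ} (s : ℕ)
    (hs : (7 / 10 : ℝ) ^ s ≤ δ)
    (hbig : δ * ((8 * h' : ℕ) : ℝ) ^ n < #(Q (8 * h) c ∩ Q (8 * h') c')) :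
    ∃ p ∈ Q (8 * h') c', (∀ l, p l = c l + 4 * h ∨ p l = c l ∨ p l = c l + 8 * h - 1) ∧
      #{l | p l ≠ c l + 4 * h} ≤ s := by
  have hm : (0 : ℝ) < ((8 * h' : ℕ) : ℝ) := by positivity
  have hδ : 0 < δ := lt_of_lt_of_le (by positivity) hs
  have hne : (Q (8 * h) c ∩ Q (8 * h') c').Nonempty := by
    rw [← card_pos]
    have : (0 : ℝ) < #(Q (8 * h) c ∩ Q (8 * h') c') := lt_trans (by positivity) hbig
    exact_mod_cast this
  obtain ⟨w, hw⟩ := hne
  rw [mem_inter, mem_Q, mem_Q] at hw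
  refine ⟨fun l => if c' l ≤ c l + 4 * h ∧ c l + 4 * h < c' l + ((8 * h' : ℕ) : ℤ) then c l + 4 * h
    else if c' l ≤ c l then c l else c l + 8 * h - 1, ?_, ?_, ?_⟩
  · rw [mem_Q]
    intro l
    have a1 := hw.1 l
    have a2 := hw.2 l
    push_cast at a1 a2 ⊢
    split_ifs with b1 b2 <;> omega
  · intro l
    dsimp only
    split_ifs with b1 b2
    · exact Or.inl rfl
    · exact Or.inr (Or.inl rfl)
    · exact Or.inr (Or.inr rfl)
  · set D : Finset (Fin n) :=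
      {l | ¬ (c' l ≤ c l + 4 * h ∧ c l + 4 * h < c' l + ((8 * h' : ℕ) : ℤ))} with hD
    have hsub : #D ≤ s := by
      by_contra hcon
      push Not at hcon
      have e1 : (#(Q (8 * h) c ∩ Q (8 * h') c') : ℝ) ≤
          ∏ l : Fin n, ((if l ∈ D then 7 / 10 else 1) * ((8 * h' : ℕ) : ℝ)) := by
        rw [card_inter_Q]
        push_cast [Nat.cast_prod]
        refine prod_le_prod (fun l _ => Nat.cast_nonneg _) fun l _ => ?_
        by_cases hl : l ∈ D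
        · rw [if_pos hl]
          have := Cross_card_small h2 (c l) (c' l) (by simpa [hD] using hl)
          push_cast at this
          exact this
        · rw [if_neg hl, one_mul]
          have := Cross_card_le (c l) (c' l) (8 * h) (8 * h')
          push_cast at this
          exact this
      rw [prod_mul_distrib, prod_const, card_univ, Fintype.card_fin, prod_ite_mem, univ_inter,
        prod_const] at e1
      have e2 : (7 / 10 : ℝ) ^ #D ≤ (7 / 10 : ℝ) ^ s :=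
        pow_le_pow_of_le_one (by norm_num) (by norm_num) hcon.le
      have e3 : (7 / 10 : ℝ) ^ #D * ((8 * h' : ℕ) : ℝ) ^ n ≤ δ * ((8 * h' : ℕ) : ℝ) ^ n :=
        mul_le_mul_of_nonneg_right (e2.trans hs) (by positivity)
      linarith
    refine le_trans (card_le_card ?_) hsub
    intro l hl
    rw [mem_filter] at hl
    rw [hD, mem_filter]
    refine ⟨mem_univ _, fun hcon => hl.2 ?_⟩
    exact if_pos hcon

/-- Small traces: sum over `c` first (`hA`, only `c ∈ ov ..` matter).  Large traces: fix `c`; there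
are at most `(1 + 2n)^s` special points (`cnt_sparse`), and the `c'` through a given point have
`σ'`-mass at most `L` (`hB` for one of them); each trace is at most `(8h')^n`. -/
theorem cross {h h' : ℕ} (hh' : 0 < h') (h2 : 5 * h ≤ 6 * h') (C C' : Finset (Pt n))
    (σ σ' : Pt n → ℝ) (hσ : ∀ c ∈ C, 0 ≤ σ c) (hσ' : ∀ c ∈ C', 0 ≤ σ' c) {L δ : ℝ}
    (hL0 : 0 ≤ L) (s : ℕ) (hs : (7 / 10 : ℝ) ^ s ≤ δ)
    (hA : ∀ c' ∈ C', ∑ c ∈ ov (8 * h) C (8 * h') c', σ c ≤ L)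
    (hB : ∀ c' ∈ C', ∑ c ∈ ov (8 * h') C' (8 * h') c', σ' c ≤ L) :
    ∑ c ∈ C, ∑ c' ∈ C', σ c * σ' c' * #(Q (8 * h) c ∩ Q (8 * h') c') ≤
      L * ((8 * h' : ℕ) : ℝ) ^ n *
        (δ * ∑ c' ∈ C', σ' c' + (1 + 2 * (n : ℝ)) ^ s * ∑ c ∈ C, σ c) := by
  set M : ℝ := ((8 * h' : ℕ) : ℝ) ^ n with hM
  have hM0 : 0 < M := by positivity
  have hδ : 0 < δ := lt_of_lt_of_le (by positivity) hs
  -- the special points of `c`
  let Sp : Pt n → Finset (Pt n) := fun c =>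
    (Fintype.piFinset fun l => ({c l + 4 * h, c l, c l + 8 * h - 1} : Finset ℤ)).filter
      fun p => #{l | p l ≠ c l + 4 * h} ≤ s
  have hSp : ∀ c, (#(Sp c) : ℝ) ≤ (1 + 2 * (n : ℝ)) ^ s := by
    intro c
    have := cnt_sparse (ι := Fin n) (fun l => ({c l, c l + 8 * h - 1} : Finset ℤ))
      (fun l => c l + 4 * h) 2 s (fun l => card_le_two) (Sp c) (by
        intro f hf l
        have := Fintype.mem_piFinset.1 (mem_filter.1 hf).1 l
        simpa using this) (by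
        intro f hf
        convert (mem_filter.1 hf).2)
    rw [Fintype.card_fin] at this
    have h3 : (#(Sp c) : ℝ) ≤ ((1 + n * 2 : ℕ) : ℝ) ^ s := by exact_mod_cast this
    push_cast at h3
    rwa [mul_comm (n : ℝ) 2] at h3
  have key : ∀ c ∈ C, ∀ c' ∈ C', σ c * σ' c' * #(Q (8 * h) c ∩ Q (8 * h') c') ≤
      (if ¬ Disjoint (Q (8 * h) c) (Q (8 * h') c') then σ c else 0) * (σ' c' * (δ * M)) +
      σ c * M * ∑ p ∈ Sp c, if p ∈ Q (8 * h') c' then σ' c' else 0 := by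
    intro c hc c' hc'
    have a0 := hσ c hc
    have a1 := hσ' c' hc'
    have a2 : 0 ≤ ∑ p ∈ Sp c, if p ∈ Q (8 * h') c' then σ' c' else 0 :=
      sum_nonneg fun p _ => by split_ifs <;> [exact a1; exact le_rfl]
    by_cases hd : Disjoint (Q (8 * h) c) (Q (8 * h') c')
    · rw [disjoint_iff_inter_eq_empty.1 hd, if_neg (by simpa using hd)]
      simp only [card_empty, Nat.cast_zero, mul_zero, zero_mul, zero_add]
      positivity
    · rw [if_pos hd]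
      by_cases hb : δ * M < #(Q (8 * h) c ∩ Q (8 * h') c')
      · obtain ⟨p, hp, hp1, hp2⟩ := special_pt hh' h2 c c' s hs hb
        have hpS : p ∈ Sp c := by
          refine mem_filter.2 ⟨Fintype.mem_piFinset.2 fun l => ?_, by convert hp2⟩
          simpa using hp1 l
        have a3 : σ' c' ≤ ∑ p ∈ Sp c, if p ∈ Q (8 * h') c' then σ' c' else 0 := by
          have := single_le_sum (f := fun p => if p ∈ Q (8 * h') c' then σ' c' else 0)
            (fun p _ => by split_ifs <;> [exact a1; exact le_rfl]) hpS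
          simpa [hp] using this
        have a4 := Cross_inter_le (8 * h) (8 * h') c c'
        have a5 : σ c * σ' c' * #(Q (8 * h) c ∩ Q (8 * h') c') ≤ σ c * σ' c' * M :=
          mul_le_mul_of_nonneg_left a4 (mul_nonneg a0 a1)
        have a6 : σ c * M * σ' c' ≤
            σ c * M * ∑ p ∈ Sp c, if p ∈ Q (8 * h') c' then σ' c' else 0 :=
          mul_le_mul_of_nonneg_left a3 (by positivity)
        have a7 : 0 ≤ σ c * (σ' c' * (δ * M)) := by positivity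
        nlinarith
      · push Not at hb
        have a5 : σ c * σ' c' * #(Q (8 * h) c ∩ Q (8 * h') c') ≤ σ c * σ' c' * (δ * M) :=
          mul_le_mul_of_nonneg_left hb (mul_nonneg a0 a1)
        have a7 : 0 ≤ σ c * M * ∑ p ∈ Sp c, if p ∈ Q (8 * h') c' then σ' c' else 0 := by
          positivity
        nlinarith
  refine le_trans (sum_le_sum fun c hc => sum_le_sum fun c' hc' => key c hc c' hc') ?_
  simp only [sum_add_distrib]
  have b1 : ∑ c ∈ C, ∑ c' ∈ C',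
      (if ¬ Disjoint (Q (8 * h) c) (Q (8 * h') c') then σ c else 0) * (σ' c' * (δ * M)) ≤
      L * M * (δ * ∑ c' ∈ C', σ' c') := by
    rw [sum_comm, mul_sum, mul_sum]
    refine sum_le_sum fun c' hc' => ?_
    rw [← sum_mul, ← sum_filter]
    have a1 := hσ' c' hc'
    have := mul_le_mul_of_nonneg_right (hA c' hc') (show 0 ≤ σ' c' * (δ * M) by positivity)
    unfold ov at this
    refine le_trans (le_of_eq ?_) (this.trans (le_of_eq (by ring)))
    congr 1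
  have b2 : ∑ c ∈ C, ∑ c' ∈ C',
      σ c * M * ∑ p ∈ Sp c, (if p ∈ Q (8 * h') c' then σ' c' else 0) ≤
      L * M * ((1 + 2 * (n : ℝ)) ^ s * ∑ c ∈ C, σ c) := by
    rw [mul_sum, mul_sum]
    refine sum_le_sum fun c hc => ?_
    rw [← mul_sum, sum_comm]
    have a0 := hσ c hc
    have a1 : ∑ p ∈ Sp c, ∑ c' ∈ C', (if p ∈ Q (8 * h') c' then σ' c' else 0) ≤
        (1 + 2 * (n : ℝ)) ^ s * L := by
      refine le_trans (sum_le_card_nsmul _ _ L fun p _ => ?_) ?_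
      · rw [← sum_filter]
        have := Cross_thr C' σ' hσ' hL0 hB p
        unfold thr at this
        convert this
      · rw [nsmul_eq_mul]
        exact mul_le_mul_of_nonneg_right (hSp c) hL0
    refine le_trans (mul_le_mul_of_nonneg_left a1 (by positivity)) (le_of_eq (by ring))
  rw [mul_add]
  exact add_le_add b1 b2

/-- `τ^2 #A ≤ ∑ y ∈ Ω, Vf y * Vf' y` (`sum_thr_mul`), `cross`, and `sum_sig`:
`(∑ σ') (8h')^n ≤ #Ω`, `(∑ σ) (8h')^n ≤ ε (∑ σ) (8h)^n ≤ ε #Ω`. -/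
theorem cross_card {h h' : ℕ} (hh : 0 < h) (hh' : 0 < h') (h2 : 5 * h ≤ 6 * h')
    (C C' Ω : Finset (Pt n)) (hΩ : ∀ c ∈ C, Q (8 * h) c ⊆ Ω) (hΩ' : ∀ c ∈ C', Q (8 * h') c ⊆ Ω)
    {L δ τ ε : ℝ} (hL0 : 0 ≤ L) (hτ : 0 ≤ τ) (s : ℕ) (hs : (7 / 10 : ℝ) ^ s ≤ δ)
    (hε : ((8 * h' : ℕ) : ℝ) ^ n ≤ ε * ((8 * h : ℕ) : ℝ) ^ n)
    (hA : ∀ c' ∈ C', ∑ c ∈ ov (8 * h) C (8 * h') c', sig (8 * h) C c ≤ L)
    (hB : ∀ c' ∈ C', ∑ c ∈ ov (8 * h') C' (8 * h') c', sig (8 * h') C' c ≤ L)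
    (A : Finset (Pt n)) (hAΩ : A ⊆ Ω) (h1 : ∀ y ∈ A, τ ≤ Vf (8 * h) C y)
    (h1' : ∀ y ∈ A, τ ≤ Vf (8 * h') C' y) :
    τ ^ 2 * #A ≤ L * (δ + (1 + 2 * (n : ℝ)) ^ s * ε) * #Ω := by
  have hδ : 0 < δ := lt_of_lt_of_le (by positivity) hs
  have hM : (0 : ℝ) < ((8 * h : ℕ) : ℝ) ^ n := by positivity
  have hM' : (0 : ℝ) < ((8 * h' : ℕ) : ℝ) ^ n := by positivity
  have hε0 : 0 ≤ ε := by
    by_contra hcon
    push Not at hcon
    nlinarith [mul_pos_of_neg_of_neg hcon (neg_neg_of_pos hM)]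
  have hV : ∀ (m : ℕ) (D : Finset (Pt n)) (y : Pt n), 0 ≤ Vf m D y := fun m D y =>
    sum_nonneg fun c _ => sig_nonneg m D c
  have e1 : τ ^ 2 * #A ≤ ∑ y ∈ Ω, Vf (8 * h) C y * Vf (8 * h') C' y := by
    refine le_trans ?_ (sum_le_sum_of_subset_of_nonneg hAΩ fun y _ _ =>
      mul_nonneg (hV _ _ _) (hV _ _ _))
    rw [mul_comm, ← nsmul_eq_mul]
    refine card_nsmul_le_sum _ _ _ fun y hy => ?_
    rw [sq]
    exact mul_le_mul (h1 y hy) (h1' y hy) hτ (hV _ _ _)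
  have e2 := sum_thr_mul (8 * h) (8 * h') C C' Ω hΩ (sig (8 * h) C) (sig (8 * h') C')
  have e3 := cross hh' h2 C C' (sig (8 * h) C) (sig (8 * h') C') (fun c _ => sig_nonneg _ _ _)
    (fun c _ => sig_nonneg _ _ _) hL0 s hs hA hB
  have hU : ∀ (m : ℕ) (D : Finset (Pt n)), (∀ c ∈ D, Q m c ⊆ Ω) → (#(U m D) : ℝ) ≤ #Ω := by
    intro m D hD
    have : U m D ⊆ Ω := fun y hy => by
      obtain ⟨c, hc, hy⟩ := mem_U.1 hy
      exact hD c hc hy
    exact_mod_cast card_le_card this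
  have e4 : (∑ c ∈ C', sig (8 * h') C' c) * ((8 * h' : ℕ) : ℝ) ^ n ≤ #Ω := by
    rw [sum_sig (by omega)]; exact hU _ _ hΩ'
  have e5 : (∑ c ∈ C, sig (8 * h) C c) * ((8 * h : ℕ) : ℝ) ^ n ≤ #Ω := by
    rw [sum_sig (by omega)]; exact hU _ _ hΩ
  have hS : 0 ≤ ∑ c ∈ C, sig (8 * h) C c := sum_nonneg fun c _ => sig_nonneg _ _ _
  have e6 : (∑ c ∈ C, sig (8 * h) C c) * ((8 * h' : ℕ) : ℝ) ^ n ≤ ε * #Ω := by
    calc (∑ c ∈ C, sig (8 * h) C c) * ((8 * h' : ℕ) : ℝ) ^ n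
        ≤ (∑ c ∈ C, sig (8 * h) C c) * (ε * ((8 * h : ℕ) : ℝ) ^ n) :=
          mul_le_mul_of_nonneg_left hε hS
      _ = ε * ((∑ c ∈ C, sig (8 * h) C c) * ((8 * h : ℕ) : ℝ) ^ n) := by ring
      _ ≤ ε * #Ω := mul_le_mul_of_nonneg_left e5 hε0
  have hP : (0 : ℝ) ≤ (1 + 2 * (n : ℝ)) ^ s := by positivity
  have e7 : ∑ y ∈ Ω, Vf (8 * h) C y * Vf (8 * h') C' y =
      ∑ c ∈ C, ∑ c' ∈ C', sig (8 * h) C c * sig (8 * h') C' c' *
        #(Q (8 * h) c ∩ Q (8 * h') c') := e2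
  calc τ ^ 2 * #A ≤ _ := e1
    _ = _ := e7
    _ ≤ _ := e3
    _ = L * (δ * ((∑ c ∈ C', sig (8 * h') C' c) * ((8 * h' : ℕ) : ℝ) ^ n) +
          (1 + 2 * (n : ℝ)) ^ s * ((∑ c ∈ C, sig (8 * h) C c) * ((8 * h' : ℕ) : ℝ) ^ n)) := by
        ring
    _ ≤ L * (δ * #Ω + (1 + 2 * (n : ℝ)) ^ s * (ε * #Ω)) :=
        mul_le_mul_of_nonneg_left (add_le_add (mul_le_mul_of_nonneg_left e4 hδ.le)
          (mul_le_mul_of_nonneg_left e6 hP)) hL0
    _ = _ := by ring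

end Pool.Agent.MP_9210c2_an.H87
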